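import Mathlib

open scoped KaehlerDifferential

namespace Pool.Agent.Helper336.Adj

universe u

/-- The `0`-th Fitting ideal of a finite module `M` over a commutative ring `A`: the ideal
generated by the determinants of all square matrices whose rows are linear relations of a finite
generating family of `M`. -/
def fittingZero (A : Type*) [CommRing A] (M : Type*) [AddCommGroup M] [Module A M] : Ideal A :=
  Ideal.span {d : A | ∃ (n : ℕ) (m : Fin n → M) (r : Matrix (Fin n) (Fin n) A),
    Submodule.span A (Set.range m) = ⊤ ∧ (∀ i, ∑ j, r i j • m j = 0) ∧ d = r.det}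

/-- The Jacobian ideal `J_{V/R}`: the `0`-th Fitting ideal of `Ω_{V/R}`. -/
noncomputable def jacobianIdeal (R V : Type*) [CommRing R] [CommRing V] [Algebra R V] : Ideal V :=
  fittingZero V (Ω[V⁄R])

/-- The normalized valuation of a discrete valuation ring, with values in `ℕ∞`. -/
noncomputable def ord (V : Type*) [CommRing V] [IsDomain V] [IsDiscreteValuationRing V] (a : V) :
    ℕ∞ := IsDiscreteValuationRing.addVal V a

/-- Lipman's adjoint ideal of an ideal `I` of a domain `R` with fraction field `K`:
`r ∈ adj I` iff `v(r) + v(J_{V/R}) ≥ v(I)` for every prime divisor `V` of `R`, i.e. for every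
discrete valuation ring `V` with `R ⊆ V ⊆ K` and fraction field `K` which is essentially of
finite type over `R`. -/
noncomputable def adj (R : Type u) [CommRing R] [IsDomain R] (I : Ideal R) : Ideal R where
  carrier := {r : R | ∀ (V : Type u) [CommRing V] [IsDomain V] [IsDiscreteValuationRing V]
    [Algebra R V] [Algebra V (FractionRing R)] [IsScalarTower R V (FractionRing R)]
    [IsFractionRing V (FractionRing R)], Algebra.EssFiniteType R V →
    (⨅ a ∈ I, ord V (algebraMap R V a)) ≤
      ord V (algebraMap R V r) + ⨅ b ∈ jacobianIdeal R V, ord V b}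
  add_mem' := by
    intro a b ha hb V _ _ _ _ _ _ _ hV
    have h1 := ha V hV
    have h2 := hb V hV
    rw [map_add]
    have h3 : min (ord V (algebraMap R V a)) (ord V (algebraMap R V b)) ≤
        ord V (algebraMap R V a + algebraMap R V b) :=
      AddValuation.map_add _ _ _
    refine le_trans ?_ (add_le_add_left h3 _)
    rcases min_choice (ord V (algebraMap R V a)) (ord V (algebraMap R V b)) with h | h
    · rw [h]; exact h1
    · rw [h]; exact h2
  zero_mem' := by
    intro V _ _ _ _ _ _ _ hV
    simp [ord]
  smul_mem' := by
    intro c a ha V _ _ _ _ _ _ _ hV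
    have h1 := ha V hV
    refine le_trans h1 (add_le_add_left ?_ _)
    rw [smul_eq_mul, map_mul]
    have : ord V (algebraMap R V c * algebraMap R V a) =
      ord V (algebraMap R V c) + ord V (algebraMap R V a) := AddValuation.map_mul _ _ _
    rw [this]
    exact le_add_self

end Pool.Agent.Helper336.Adj
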