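import Mathlib

open scoped KaehlerDifferential TensorProduct

namespace Pool.Agent.Helper336.Adj

lemma exists_derivation_ext {k S T : Type*} [CommRing k] [CommRing S] [CommRing T] [Algebra k S]
    [Algebra S T] [Algebra k T] [IsScalarTower k S T] (M : Submonoid S) [IsLocalization M T]
    (D : Derivation k S S) :
    ∃ D' : Derivation k T T, ∀ s, D' (algebraMap S T s) = algebraMap S T (D s) := by
  haveI : Algebra.FormallyEtale S T := Algebra.FormallyEtale.of_isLocalization M
  let φ : Ω[S⁄k] →ₗ[S] T := (Algebra.linearMap S T).comp D.liftKaehlerDifferential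
  let ψ : T ⊗[S] Ω[S⁄k] →ₗ[T] T := LinearMap.liftBaseChange T φ
  let e := KaehlerDifferential.tensorKaehlerEquivOfFormallyEtale k S T
  refine ⟨(ψ ∘ₗ e.symm.toLinearMap).compDer (KaehlerDifferential.D k T), fun s => ?_⟩
  have h1 : e.symm (KaehlerDifferential.D k T (algebraMap S T s)) =
      1 ⊗ₜ KaehlerDifferential.D k S s :=
    KaehlerDifferential.tensorKaehlerEquivOfFormallyEtale_symm_D_algebraMap k S T s
  show ψ (e.symm (KaehlerDifferential.D k T (algebraMap S T s))) = _
  rw [h1]
  simp [ψ, φ, Derivation.liftKaehlerDifferential_comp_D]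

end Pool.Agent.Helper336.Adj
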