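import Mathlib

namespace Pool.Agent.Helper336.Adj

open Matrix

section

variable {V K : Type*} [CommRing V] [Field K] [Algebra V K]

/-- Block determinant trick. -/
lemma det_mul_det_mem (hinj : Function.Injective (algebraMap V K))
    {N M : Type*} [Fintype N] [DecidableEq N] [Fintype M] [DecidableEq M]
    (r : Matrix N N V) (l : Matrix N M K) (s : Matrix N M V)
    (hs : r.map (algebraMap V K) * l = s.map (algebraMap V K))
    (c : Matrix M N V) (v : Matrix M M V) :
    ∃ w : V, algebraMap V K w =
      algebraMap V K r.det * (c.map (algebraMap V K) * l + v.map (algebraMap V K)).det := by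
  by_cases h0 : r.det = 0
  · exact ⟨0, by simp [h0]⟩
  · have hr0 : (r.map (algebraMap V K)).det ≠ 0 := by
      have : (r.map (algebraMap V K)).det = algebraMap V K r.det := by
        rw [← RingHom.mapMatrix_apply, ← RingHom.map_det]
      rw [this]
      exact fun h => h0 (hinj (by rw [h, map_zero]))
    have hunit : IsUnit (r.map (algebraMap V K)).det := isUnit_iff_ne_zero.mpr hr0
    letI : Invertible (r.map (algebraMap V K)) := Matrix.invertibleOfIsUnitDet _ hunit
    refine ⟨(Matrix.fromBlocks r (-s) c v).det, ?_⟩
    have h1 : algebraMap V K (Matrix.fromBlocks r (-s) c v).det =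
        (Matrix.fromBlocks (r.map (algebraMap V K)) (-(s.map (algebraMap V K)))
          (c.map (algebraMap V K)) (v.map (algebraMap V K))).det := by
      rw [RingHom.map_det, RingHom.mapMatrix_apply, Matrix.fromBlocks_map]
      congr 2
      ext i j
      simp
    rw [h1, Matrix.det_fromBlocks₁₁]
    have h2 : (r.map (algebraMap V K)).det = algebraMap V K r.det := by
      rw [← RingHom.mapMatrix_apply, ← RingHom.map_det]
    rw [h2]
    congr 2
    have h3 : ⅟(r.map (algebraMap V K)) * (s.map (algebraMap V K)) = l := by
      rw [← hs, ← Matrix.mul_assoc, invOf_mul_self, Matrix.one_mul]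
    rw [Matrix.mul_neg, Matrix.mul_assoc, h3]
    abel

end

end Pool.Agent.Helper336.Adj
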