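import Mathlib
import Pool.Agent.Helper336.AdjDefs
import Pool.Agent.Helper336.AdjDet

open scoped KaehlerDifferential

namespace Pool.Agent.Helper336.Adj

open Matrix

section

variable {R V K : Type*} [CommRing R] [CommRing V] [Field K] [Algebra R V] [Algebra V K]
  [Algebra R K] [IsScalarTower R V K] {n : ℕ}

/-- The lattice `V^n` in `K^n`. -/
def latt (V K : Type*) [CommRing V] [Field K] [Algebra V K] (n : ℕ) : Submodule V (Fin n → K) :=
  Submodule.pi Set.univ (fun _ => LinearMap.range (Algebra.linearMap V K))

lemma mem_latt (w : Fin n → K) : w ∈ latt V K n ↔ ∃ v : Fin n → V, ∀ i, algebraMap V K (v i) = w i := by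
  unfold latt
  constructor
  · intro h
    have h1 : ∀ i, ∃ v : V, algebraMap V K v = w i := by
      intro i
      have := h i (Set.mem_univ i)
      simpa using this
    choose v hv using h1
    exact ⟨v, hv⟩
  · rintro ⟨v, hv⟩ i _
    exact ⟨v i, by simpa using hv i⟩

/-- The derivation `V → K^n / V^n`. -/
noncomputable def latDer (D : Fin n → Derivation ℤ K K)
    (hD : ∀ i (r : R), ∃ v : V, D i (algebraMap R K r) = algebraMap V K v) :
    Derivation R V ((Fin n → K) ⧸ latt V K n) :=
  Derivation.mk'
    { toFun := fun g => Submodule.Quotient.mk (fun j => D j (algebraMap V K g))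
      map_add' := by
        intro a b
        rw [← Submodule.Quotient.mk_add]
        congr 1
        ext j
        simp
      map_smul' := by
        intro r a
        rw [RingHom.id_apply, ← Submodule.Quotient.mk_smul, Submodule.Quotient.eq, mem_latt]
        have hh : ∀ j, ∃ v : V, D j (algebraMap R K r) = algebraMap V K v := fun j => hD j r
        choose v hv using hh
        refine ⟨fun j => a * v j, fun j => ?_⟩
        have h1 : algebraMap V K (r • a) = algebraMap R K r * algebraMap V K a := by
          rw [Algebra.smul_def, map_mul, ← IsScalarTower.algebraMap_apply]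
        have h2 : (r • fun j => D j (algebraMap V K a)) j =
            algebraMap R K r * D j (algebraMap V K a) := by
          rw [Pi.smul_apply, Algebra.smul_def]
        rw [Pi.sub_apply, h2, h1, Derivation.leibniz, hv, map_mul]
        simp only [smul_eq_mul]
        ring }
    (by
      intro a b
      simp only [LinearMap.coe_mk, AddHom.coe_mk]
      rw [← Submodule.Quotient.mk_smul, ← Submodule.Quotient.mk_smul, ← Submodule.Quotient.mk_add]
      congr 1
      ext j
      have h1 : ∀ (x y : V), (x • fun j => D j (algebraMap V K y)) j =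
          algebraMap V K x * D j (algebraMap V K y) := by
        intro x y
        rw [Pi.smul_apply, Algebra.smul_def]
      rw [Pi.add_apply, h1, h1, map_mul, Derivation.leibniz]
      simp only [smul_eq_mul])

lemma latDer_apply (D : Fin n → Derivation ℤ K K)
    (hD : ∀ i (r : R), ∃ v : V, D i (algebraMap R K r) = algebraMap V K v) (g : V) :
    latDer D hD g = Submodule.Quotient.mk (fun j => D j (algebraMap V K g)) := rfl

lemma key_aux (hinj : Function.Injective (algebraMap V K)) (D : Fin n → Derivation ℤ K K)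
    (hD : ∀ i (r : R), ∃ v : V, D i (algebraMap R K r) = algebraMap V K v)
    (p : V) (a : Fin n → ℕ) (u : Fin n → V) {N : ℕ} (m : Fin N → Ω[V⁄R])
    (r : Matrix (Fin N) (Fin N) V) (hm : Submodule.span V (Set.range m) = ⊤)
    (hr : ∀ i, ∑ j, r i j • m j = 0) :
    ∃ w : V, algebraMap V K (p * r.det) *
      (Matrix.of fun i j => D j (algebraMap V K (u i * p ^ a i))).det =
        algebraMap V K (p ^ (∑ i, a i) * w) := by
  classical
  set Φ := (latDer (R := R) (V := V) (K := K) D hD).liftKaehlerDifferential with hΦ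
  have hΦD : ∀ g : V, Φ (KaehlerDifferential.D R V g) =
      Submodule.Quotient.mk (fun j => D j (algebraMap V K g)) := by
    intro g
    rw [hΦ, Derivation.liftKaehlerDifferential_comp_D, latDer_apply]
  have hl : ∀ j, ∃ l : Fin n → K, Submodule.Quotient.mk l = Φ (m j) := fun j =>
    Submodule.Quotient.mk_surjective _ _
  choose l hl using hl
  have hs : ∀ i, ∃ s : Fin n → V, ∀ k, algebraMap V K (s k) = (∑ j, r i j • l j) k := by
    intro i
    rw [← mem_latt, ← Submodule.Quotient.mk_eq_zero]
    have : (Submodule.Quotient.mk (∑ j, r i j • l j) : (Fin n → K) ⧸ latt V K n) =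
        Φ (∑ j, r i j • m j) := by
      rw [map_sum, ← Submodule.mkQ_apply, map_sum]
      refine Finset.sum_congr rfl fun j _ => ?_
      rw [map_smul, map_smul, ← hl, Submodule.mkQ_apply]
    rw [this, hr i, map_zero]
  choose s hs using hs
  have hc : ∀ g : V, ∃ (c : Fin N → V) (v : Fin n → V), ∀ k,
      D k (algebraMap V K g) = (∑ j, algebraMap V K (c j) * l j k) + algebraMap V K (v k) := by
    intro g
    have h1 : KaehlerDifferential.D R V g ∈ Submodule.span V (Set.range m) := by
      rw [hm]; trivial
    rw [Submodule.mem_span_range_iff_exists_fun] at h1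
    obtain ⟨c, hc⟩ := h1
    have h2 : (Submodule.Quotient.mk ((fun j => D j (algebraMap V K g)) - ∑ j, c j • l j) :
        (Fin n → K) ⧸ latt V K n) = 0 := by
      rw [Submodule.Quotient.mk_sub, ← hΦD, ← hc, map_sum, sub_eq_zero, ← Submodule.mkQ_apply,
        map_sum]
      refine Finset.sum_congr rfl fun j _ => ?_
      rw [map_smul, map_smul, ← hl, Submodule.mkQ_apply]
    rw [Submodule.Quotient.mk_eq_zero, mem_latt] at h2
    obtain ⟨v, hv⟩ := h2
    refine ⟨c, v, fun k => ?_⟩
    rw [hv k]
    simp [Algebra.smul_def]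
  obtain ⟨cp, vp, hp⟩ := hc p
  have hcu : ∀ i, ∃ (c : Fin N → V) (v : Fin n → V), ∀ k,
      D k (algebraMap V K (u i)) = (∑ j, algebraMap V K (c j) * l j k) + algebraMap V K (v k) :=
    fun i => hc (u i)
  choose cu vu hu using hcu
  -- the big matrices
  let lt : Matrix (Fin N) (Unit ⊕ Fin n) K := Matrix.of fun i => Sum.elim (fun _ => 0) (l i)
  let st : Matrix (Fin N) (Unit ⊕ Fin n) V := Matrix.of fun i => Sum.elim (fun _ => 0) (s i)
  let ct : Matrix (Unit ⊕ Fin n) (Fin N) V := Matrix.of (Sum.elim (fun _ => cp) cu)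
  let vt : Matrix (Unit ⊕ Fin n) (Unit ⊕ Fin n) V :=
    Matrix.fromBlocks (Matrix.of fun _ _ => p) (Matrix.of fun _ j => vp j)
      (Matrix.of fun i _ => -((a i : V) * u i)) (Matrix.of fun i j => vu i j)
  have hst : r.map (algebraMap V K) * lt = st.map (algebraMap V K) := by
    ext i j
    rcases j with j | j
    · simp [lt, st, Matrix.mul_apply]
    · have h1 : (st.map (algebraMap V K)) i (Sum.inr j) = algebraMap V K (s i j) := rfl
      rw [h1, hs i j]
      simp [lt, Matrix.mul_apply, Algebra.smul_def]
  obtain ⟨w, hw⟩ := det_mul_det_mem hinj r lt st hst ct vt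
  set Θ : Matrix (Unit ⊕ Fin n) (Unit ⊕ Fin n) K :=
    Matrix.fromBlocks (Matrix.of fun _ _ => algebraMap V K p)
      (Matrix.of fun _ j => D j (algebraMap V K p))
      (Matrix.of fun i _ => -((a i : K) * algebraMap V K (u i)))
      (Matrix.of fun i j => D j (algebraMap V K (u i)))
    with hΘ
  have hΘe : ct.map (algebraMap V K) * lt + vt.map (algebraMap V K) = Θ := by
    ext i j
    rcases i with i | i <;> rcases j with j | j
    · simp [lt, ct, vt, hΘ, Matrix.mul_apply]
    · simp [lt, ct, vt, hΘ, Matrix.mul_apply, hp]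
    · simp [lt, ct, vt, hΘ, Matrix.mul_apply]
    · simp [lt, ct, vt, hΘ, Matrix.mul_apply, hu]
  rw [hΘe] at hw
  -- row operations
  set E : Matrix (Fin n) (Fin n) K :=
    Matrix.of fun i j => D j (algebraMap V K (u i * p ^ a i)) with hE
  let P : Matrix (Unit ⊕ Fin n) (Unit ⊕ Fin n) K :=
    Matrix.fromBlocks 1 0
      (Matrix.of fun i _ => (a i : K) * algebraMap V K (u i) * algebraMap V K p ^ (a i - 1))
      (Matrix.diagonal fun i => algebraMap V K p ^ a i)
  let Q : Matrix (Unit ⊕ Fin n) (Unit ⊕ Fin n) K :=
    Matrix.fromBlocks (Matrix.of fun _ _ => algebraMap V K p)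
      (Matrix.of fun _ j => D j (algebraMap V K p)) 0 E
  have hPQ : P * Θ = Q := by
    simp only [P, hΘ, Q]
    rw [Matrix.fromBlocks_multiply]
    congr 1
    · simp
    · simp
    · ext i j
      rw [Matrix.add_apply, Matrix.diagonal_mul, Matrix.mul_apply, Matrix.zero_apply,
        Finset.univ_unique, Finset.sum_singleton, Matrix.of_apply, Matrix.of_apply,
        Matrix.of_apply]
      rcases Nat.eq_zero_or_pos (a i) with h | h
      · simp [h]
      · have : algebraMap V K p ^ (a i) = algebraMap V K p ^ (a i - 1) * algebraMap V K p := by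
          rw [← pow_succ, Nat.sub_add_cancel h]
        rw [this]
        ring
    · ext i j
      rw [Matrix.add_apply, Matrix.diagonal_mul, Matrix.mul_apply,
        Finset.univ_unique, Finset.sum_singleton, Matrix.of_apply, Matrix.of_apply,
        Matrix.of_apply, hE, Matrix.of_apply, map_mul, map_pow, Derivation.leibniz,
        Derivation.leibniz_pow]
      simp only [smul_eq_mul, nsmul_eq_mul]
      ring
  have hdet : (∏ i, algebraMap V K p ^ a i) * Θ.det = algebraMap V K p * E.det := by
    have h1 := congrArg Matrix.det hPQ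
    rw [Matrix.det_mul] at h1
    have h2 : P.det = ∏ i, algebraMap V K p ^ a i := by
      simp only [P]
      rw [Matrix.det_fromBlocks_zero₁₂, Matrix.det_one, one_mul, Matrix.det_diagonal]
    have h3 : Q.det = algebraMap V K p * E.det := by
      simp only [Q]
      rw [Matrix.det_fromBlocks_zero₂₁]
      simp
    rw [h2, h3] at h1
    exact h1
  refine ⟨w, ?_⟩
  rw [map_mul, map_mul, map_pow, hw, Finset.prod_pow_eq_pow_sum] at *
  calc algebraMap V K p * algebraMap V K r.det * E.det
      = algebraMap V K r.det * (algebraMap V K p * E.det) := by ring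
    _ = algebraMap V K r.det * (algebraMap V K p ^ (∑ i, a i) * Θ.det) := by rw [hdet]
    _ = algebraMap V K p ^ (∑ i, a i) * (algebraMap V K r.det * Θ.det) := by ring

lemma key (hinj : Function.Injective (algebraMap V K)) (D : Fin n → Derivation ℤ K K)
    (hD : ∀ i (r : R), ∃ v : V, D i (algebraMap R K r) = algebraMap V K v)
    (p : V) (a : Fin n → ℕ) (u : Fin n → V) (d : V) (hd : d ∈ jacobianIdeal R V) :
    ∃ w : V, algebraMap V K (p * d) *
      (Matrix.of fun i j => D j (algebraMap V K (u i * p ^ a i))).det =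
        algebraMap V K (p ^ (∑ i, a i) * w) := by
  unfold jacobianIdeal fittingZero at hd
  refine Submodule.span_induction (p := fun d _ => ∃ w : V, algebraMap V K (p * d) *
      (Matrix.of fun i j => D j (algebraMap V K (u i * p ^ a i))).det =
        algebraMap V K (p ^ (∑ i, a i) * w)) ?_ ?_ ?_ ?_ hd
  · rintro d ⟨N, m, r, hm, hr, rfl⟩
    exact key_aux hinj D hD p a u m r hm hr
  · exact ⟨0, by simp⟩
  · rintro x y _ _ ⟨w1, h1⟩ ⟨w2, h2⟩
    refine ⟨w1 + w2, ?_⟩
    rw [mul_add, map_add, add_mul, h1, h2, ← map_add, mul_add]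
  · rintro c x _ ⟨w, h⟩
    refine ⟨c * w, ?_⟩
    have : p * (c • x) = c * (p * x) := by simp only [smul_eq_mul]; ring
    rw [this, map_mul, mul_assoc, h, ← map_mul]
    congr 1
    ring

end

lemma ord_sum_le {R V K : Type*} [CommRing R] [CommRing V] [IsDomain V]
    [IsDiscreteValuationRing V] [Field K] [Algebra R V] [Algebra V K]
    [Algebra R K] [IsScalarTower R V K] {n : ℕ}
    (hinj : Function.Injective (algebraMap V K)) (D : Fin n → Derivation ℤ K K)
    (hD : ∀ i (r : R), ∃ v : V, D i (algebraMap R K r) = algebraMap V K v)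
    (f : Fin n → V) (hf : ∀ i, f i ≠ 0) (c : V) (hc : IsUnit c)
    (hdet : (Matrix.of fun i j => D j (algebraMap V K (f i))).det = algebraMap V K c)
    (d : V) (hd : d ∈ jacobianIdeal R V) :
    ∑ i, ord V (f i) ≤ 1 + ord V d := by
  obtain ⟨p, hp⟩ := IsDiscreteValuationRing.exists_irreducible V
  have h1 : ∀ i, ∃ (a : ℕ) (u : Vˣ), f i = u * p ^ a := fun i =>
    IsDiscreteValuationRing.eq_unit_mul_pow_irreducible (hf i) hp
  choose a u hu using h1
  have h2 : ∀ i, ord V (f i) = a i := by
    intro i
    rw [hu i]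
    exact IsDiscreteValuationRing.addVal_def' (u i) hp (a i)
  obtain ⟨w, hw⟩ := key hinj D hD p a (fun i => (u i : V)) d hd
  have h3 : (Matrix.of fun i j => D j (algebraMap V K ((u i : V) * p ^ a i))) =
      (Matrix.of fun i j => D j (algebraMap V K (f i))) := by
    ext i j
    simp only [Matrix.of_apply, hu i]
  rw [h3, hdet, ← map_mul] at hw
  have h4 := hinj hw
  have h5 : p ^ (∑ i, a i) ∣ p * d := by
    have : p ^ (∑ i, a i) ∣ p * d * c := ⟨w, h4⟩
    exact (hc.dvd_mul_right).mp this
  have h6 := (IsDiscreteValuationRing.addVal_le_iff_dvd).mpr h5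
  rw [AddValuation.map_mul, IsDiscreteValuationRing.addVal_uniformizer hp,
    IsDiscreteValuationRing.addVal_pow, IsDiscreteValuationRing.addVal_uniformizer hp] at h6
  calc ∑ i, ord V (f i) = ((∑ i, a i : ℕ) : ℕ∞) := by
        rw [Nat.cast_sum]
        exact Finset.sum_congr rfl fun i _ => h2 i
    _ ≤ 1 + ord V d := by simpa [ord] using h6

end Pool.Agent.Helper336.Adj
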