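import Mathlib
import Pool.Agent.Helper336.AdjDefs
import Pool.Agent.Helper336.AdjLower
import Pool.Agent.Helper336.AdjDer

open scoped KaehlerDifferential
open MvPolynomial

namespace Pool.Agent.Helper336.Adj

variable (k : Type) [Field k]

/-- The polynomial ring in four variables. -/
abbrev PA := MvPolynomial (Fin 4) k

/-- The ideal of the origin. -/
noncomputable def mm : Ideal (PA k) := RingHom.ker (constantCoeff : PA k →+* k)

instance : (mm k).IsPrime := RingHom.ker_isPrime _

/-- The localization of the polynomial ring at the origin. -/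
def RR : Type := Localization.AtPrime (mm k)

noncomputable instance : CommRing (RR k) := inferInstanceAs (CommRing (Localization.AtPrime (mm k)))

noncomputable instance : Algebra (PA k) (RR k) :=
  inferInstanceAs (Algebra (PA k) (Localization.AtPrime (mm k)))

instance : IsLocalization.AtPrime (RR k) (mm k) :=
  inferInstanceAs (IsLocalization.AtPrime (Localization.AtPrime (mm k)) (mm k))

instance : IsRegularLocalRing (RR k) :=
  inferInstanceAs (IsRegularLocalRing (Localization.AtPrime (mm k)))

instance : IsDomain (RR k) := inferInstanceAs (IsDomain (Localization.AtPrime (mm k)))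

lemma PA_RR_injective : Function.Injective (algebraMap (PA k) (RR k)) :=
  IsLocalization.injective (RR k) (mm k).primeCompl_le_nonZeroDivisors

section

variable (K : Type) [Field K] [Algebra (RR k) K] [IsFractionRing (RR k) K]

/-- the inclusion of the polynomial ring in the fraction field -/
noncomputable def inc : PA k →+* K := (algebraMap (RR k) K).comp (algebraMap (PA k) (RR k))

lemma inc_injective : Function.Injective (inc k K) :=
  (IsFractionRing.injective (RR k) K).comp (PA_RR_injective k)

lemma exists_D : ∃ D : Fin 4 → Derivation ℤ K K,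
    (∀ j (r : RR k), ∃ r' : RR k, D j (algebraMap (RR k) K r) = algebraMap (RR k) K r') ∧
    (∀ j (a : PA k), D j (inc k K a) = inc k K (pderiv j a)) := by
  have h1 : ∀ j : Fin 4, ∃ D' : Derivation ℤ (RR k) (RR k), ∀ s,
      D' (algebraMap (PA k) (RR k) s) = algebraMap (PA k) (RR k) (pderiv j s) :=
    fun j => exists_derivation_ext (k := ℤ) (mm k).primeCompl ((pderiv j).restrictScalars ℤ)
  choose D1 hD1 using h1
  have h2 : ∀ j : Fin 4, ∃ D' : Derivation ℤ K K, ∀ s,
      D' (algebraMap (RR k) K s) = algebraMap (RR k) K (D1 j s) :=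
    fun j => exists_derivation_ext (k := ℤ) (nonZeroDivisors (RR k)) (D1 j)
  choose D2 hD2 using h2
  refine ⟨D2, fun j r => ⟨D1 j r, hD2 j r⟩, fun j a => ?_⟩
  unfold inc
  rw [RingHom.comp_apply, hD2, hD1, RingHom.comp_apply]

end

/-- linear form with coefficient vector `c` -/
noncomputable def lin (c : Fin 4 → k) : PA k := ∑ j, C (c j) * X j

lemma pderiv_lin (c : Fin 4 → k) (j : Fin 4) : pderiv j (lin k c) = C (c j) := by
  unfold lin
  rw [map_sum, Finset.sum_eq_single j]
  · simp
  · intro i _ hi
    rw [Derivation.leibniz]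
    simp [pderiv_X_of_ne hi]
  · simp

lemma lin_ne_zero (c : Fin 4 → k) (j : Fin 4) (hc : c j ≠ 0) : lin k c ≠ 0 := by
  intro h
  have h1 := pderiv_lin k c j
  rw [h, map_zero] at h1
  exact hc ((C_eq_zero).mp h1.symm)

/-- The toric bound. -/
lemma toric (G : Matrix (Fin 4) (Fin 4) k) (hG : G.det ≠ 0)
    (V : Type) [CommRing V] [IsDomain V] [IsDiscreteValuationRing V]
    (K : Type) [Field K] [Algebra (RR k) K] [IsFractionRing (RR k) K]
    [Algebra (RR k) V] [Algebra V K] [IsScalarTower (RR k) V K]
    [IsFractionRing V K] (d : V) (hd : d ∈ jacobianIdeal (RR k) V) :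
    ∑ i, ord V (algebraMap (RR k) V (algebraMap (PA k) (RR k) (lin k (G i)))) ≤ 1 + ord V d := by
  obtain ⟨D, hD1, hD2⟩ := exists_D k K
  have hVK : Function.Injective (algebraMap V K) := IsFractionRing.injective V K
  have hinc : ∀ a : PA k, algebraMap V K (algebraMap (RR k) V (algebraMap (PA k) (RR k) a)) =
      inc k K a := by
    intro a
    rw [← IsScalarTower.algebraMap_apply (RR k) V K]
    rfl
  refine ord_sum_le hVK D ?_ _ ?_
    (algebraMap (RR k) V (algebraMap (PA k) (RR k) (C G.det))) ?_ ?_ d hd
  · intro j r
    obtain ⟨r', hr'⟩ := hD1 j r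
    exact ⟨algebraMap (RR k) V r', by rw [hr', IsScalarTower.algebraMap_apply (RR k) V K]⟩
  · intro i h0
    have h1 := hinc (lin k (G i))
    rw [h0, map_zero] at h1
    have h2 : lin k (G i) = 0 := inc_injective k K (by rw [← h1, map_zero])
    apply hG
    apply Matrix.det_eq_zero_of_row_eq_zero i
    intro j
    by_contra hne
    exact lin_ne_zero k (G i) j hne h2
  · have : IsUnit (C G.det : PA k) := (isUnit_iff_ne_zero.mpr hG).map C
    exact (this.map (algebraMap (PA k) (RR k))).map (algebraMap (RR k) V)
  · rw [hinc]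
    have h1 : (Matrix.of fun i j => D j (algebraMap V K
        (algebraMap (RR k) V (algebraMap (PA k) (RR k) (lin k (G i)))))) =
        ((inc k K).comp C).mapMatrix G := by
      ext i j
      rw [Matrix.of_apply, hinc, hD2, pderiv_lin]
      rfl
    rw [h1, ← RingHom.map_det]
    rfl

end Pool.Agent.Helper336.Adj
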