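import Mathlib
import Pool.Agent.Helper336.AdjRing

open scoped KaehlerDifferential
open MvPolynomial

namespace Pool.Agent.Helper336.Adj

variable (k : Type) [Field k]

/-- the ideal generated by the variable `X e` -/
noncomputable def Pe (e : Fin 4) : Ideal (PA k) := Ideal.span {X e}

instance (e : Fin 4) : (Pe k e).IsPrime :=
  (Ideal.span_singleton_prime (X_ne_zero e)).mpr (X_prime)

/-- the local ring of the polynomial ring at the prime `(X e)` -/
def VV (e : Fin 4) : Type := Localization.AtPrime (Pe k e)

noncomputable instance (e : Fin 4) : CommRing (VV k e) :=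
  inferInstanceAs (CommRing (Localization.AtPrime (Pe k e)))

noncomputable instance (e : Fin 4) : Algebra (PA k) (VV k e) :=
  inferInstanceAs (Algebra (PA k) (Localization.AtPrime (Pe k e)))

instance (e : Fin 4) : IsLocalization.AtPrime (VV k e) (Pe k e) :=
  inferInstanceAs (IsLocalization.AtPrime (Localization.AtPrime (Pe k e)) (Pe k e))

instance (e : Fin 4) : IsDomain (VV k e) :=
  inferInstanceAs (IsDomain (Localization.AtPrime (Pe k e)))

instance (e : Fin 4) : IsLocalRing (VV k e) :=
  inferInstanceAs (IsLocalRing (Localization.AtPrime (Pe k e)))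

instance (e : Fin 4) : IsNoetherianRing (VV k e) :=
  IsLocalization.isNoetherianRing (Pe k e).primeCompl (VV k e) inferInstance

lemma PA_VV_injective (e : Fin 4) : Function.Injective (algebraMap (PA k) (VV k e)) :=
  IsLocalization.injective (VV k e) (Pe k e).primeCompl_le_nonZeroDivisors

lemma maxVV (e : Fin 4) : IsLocalRing.maximalIdeal (VV k e) =
    Ideal.span {algebraMap (PA k) (VV k e) (X e)} := by
  rw [← IsLocalization.AtPrime.map_eq_maximalIdeal (Pe k e) (VV k e)]
  unfold Pe
  rw [Ideal.map_span, Set.image_singleton]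

instance (e : Fin 4) : IsDiscreteValuationRing (VV k e) := by
  have hne : algebraMap (PA k) (VV k e) (X e) ≠ 0 := by
    intro h
    exact X_ne_zero (R := k) e (PA_VV_injective k e (by rw [h, map_zero]))
  have hf : ¬ IsField (VV k e) := by
    intro h
    rw [IsLocalRing.isField_iff_maximalIdeal_eq, maxVV, Ideal.span_singleton_eq_bot] at h
    exact hne h
  have hp : (IsLocalRing.maximalIdeal (VV k e)).IsPrincipal := ⟨⟨_, maxVV k e⟩⟩
  exact ((IsDiscreteValuationRing.TFAE (VV k e) hf).out 0 4).mpr hp

lemma irredVV (e : Fin 4) : Irreducible (algebraMap (PA k) (VV k e) (X e)) := by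
  rw [IsDiscreteValuationRing.irreducible_iff_uniformizer]
  exact maxVV k e

lemma ordVV_pow (e : Fin 4) (n : ℕ) :
    ord (VV k e) (algebraMap (PA k) (VV k e) (X e ^ n)) = n := by
  have := IsDiscreteValuationRing.addVal_def' (1 : (VV k e)ˣ) (irredVV k e) n
  rw [Units.val_one, one_mul] at this
  rw [map_pow]
  exact this

/-! ### Charts -/

section chart

variable (G G' : Matrix (Fin 4) (Fin 4) k) (e : Fin 4) (B : Finset (Fin 4))

/-- the monomials `X e * X j` (`j ∈ B`) and `X j` (`j ∉ B`) -/
noncomputable def mon (j : Fin 4) : PA k := if j ∈ B then X e * X j else X j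

/-- the chart map -/
noncomputable def psi : PA k →ₐ[k] PA k := aeval fun i => ∑ j, C (G i j) * mon k e B j

lemma psi_lin (hG : G' * G = 1) (j : Fin 4) : psi k G e B (lin k (G' j)) = mon k e B j := by
  have h : ∀ i, psi k G e B (X i) = ∑ j, C (G i j) * mon k e B j := fun i => by
    unfold psi; rw [aeval_X]
  unfold lin
  rw [map_sum]
  have h1 : ∀ i, psi k G e B (C (G' j i) * X i) = ∑ l, C (G' j i * G i l) * mon k e B l := by
    intro i
    rw [map_mul, h, ← MvPolynomial.algebraMap_eq, AlgHom.commutes, MvPolynomial.algebraMap_eq,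
      Finset.mul_sum]
    refine Finset.sum_congr rfl fun l _ => ?_
    rw [map_mul, mul_assoc]
  rw [Finset.sum_congr rfl fun i _ => h1 i, Finset.sum_comm]
  have h2 : ∀ l, ∑ i, C (G' j i * G i l) * mon k e B l =
      C ((1 : Matrix (Fin 4) (Fin 4) k) j l) * mon k e B l := by
    intro l
    rw [← Finset.sum_mul, ← map_sum, ← hG, Matrix.mul_apply]
  rw [Finset.sum_congr rfl fun l _ => h2 l, Finset.sum_eq_single j]
  · simp
  · intro l _ hl
    rw [Matrix.one_apply_ne (Ne.symm hl)]
    simp
  · simp

/-- every polynomial times a power of `X e` is in the image of the chart map -/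
lemma psi_bir (hG : G' * G = 1) (he : e ∉ B) (p : PA k) :
    ∃ (n : ℕ) (q : PA k), X e ^ n * p = psi k G e B q := by
  have hXe : psi k G e B (lin k (G' e)) = X e := by
    rw [psi_lin k G G' e B hG]; unfold mon; rw [if_neg he]
  induction p using MvPolynomial.induction_on with
  | C a =>
    refine ⟨0, C a, ?_⟩
    rw [pow_zero, one_mul, ← MvPolynomial.algebraMap_eq, AlgHom.commutes]
  | add p q hp hq =>
    obtain ⟨n, p', hp'⟩ := hp
    obtain ⟨m, q', hq'⟩ := hq
    refine ⟨n + m, lin k (G' e) ^ m * p' + lin k (G' e) ^ n * q', ?_⟩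
    rw [map_add, map_mul, map_mul, map_pow, map_pow, hXe, ← hp', ← hq']
    ring
  | mul_X p i hp =>
    obtain ⟨n, p', hp'⟩ := hp
    refine ⟨n + 1, p' * (if i ∈ B then lin k (G' i) else lin k (G' i) * lin k (G' e)), ?_⟩
    rw [map_mul, ← hp']
    have h2 : psi k G e B (if i ∈ B then lin k (G' i) else lin k (G' i) * lin k (G' e)) =
        X e * X i := by
      by_cases hi : i ∈ B
      · rw [if_pos hi, psi_lin k G G' e B hG]; unfold mon; rw [if_pos hi]
      · rw [if_neg hi, map_mul, psi_lin k G G' e B hG, hXe]; unfold mon; rw [if_neg hi, mul_comm]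
    rw [h2]
    ring

lemma psi_const (q : PA k) : constantCoeff (psi k G e B q) = constantCoeff q := by
  induction q using MvPolynomial.induction_on with
  | C a => rw [← MvPolynomial.algebraMap_eq, AlgHom.commutes]
  | add p q hp hq => rw [map_add, map_add, map_add, hp, hq]
  | mul_X p i hp =>
    rw [map_mul, map_mul, map_mul, hp]
    congr 1
    unfold psi
    rw [aeval_X, map_sum, constantCoeff_X]
    refine Finset.sum_eq_zero fun j _ => ?_
    rw [map_mul]
    have : constantCoeff (mon k e B j) = (0 : k) := by
      unfold mon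
      split_ifs <;> simp
    rw [this, mul_zero]

section

variable (K : Type) [Field K] [Algebra (RR k) K] [IsFractionRing (RR k) K]

/-- the inverse chart map into the fraction field -/
noncomputable def theta : PA k →+* K :=
  eval₂Hom ((inc k K).comp C) fun j =>
    if j ∈ B then inc k K (lin k (G' j)) / inc k K (lin k (G' e)) else inc k K (lin k (G' j))

lemma theta_psi (hG : G * G' = 1) (hG' : G' * G = 1) (he : e ∉ B) (q : PA k) :
    theta k G' e B K (psi k G e B q) = inc k K q := by
  have hne : inc k K (lin k (G' e)) ≠ 0 := by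
    intro h
    have h1 : lin k (G' e) = 0 := inc_injective k K (by rw [h, map_zero])
    have h2 := psi_lin k G G' e B hG' e
    rw [h1, map_zero] at h2
    unfold mon at h2
    rw [if_neg he] at h2
    exact X_ne_zero _ h2.symm
  have hmon : ∀ j, theta k G' e B K (mon k e B j) = inc k K (lin k (G' j)) := by
    intro j
    unfold mon theta
    by_cases hj : j ∈ B
    · rw [if_pos hj, map_mul, eval₂Hom_X', eval₂Hom_X', if_neg he, if_pos hj]
      field_simp
    · rw [if_neg hj, eval₂Hom_X', if_neg hj]
  have hC : ∀ a, theta k G' e B K (C a) = inc k K (C a) := by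
    intro a; unfold theta; rw [eval₂Hom_C]; rfl
  induction q using MvPolynomial.induction_on with
  | C a => rw [← MvPolynomial.algebraMap_eq, AlgHom.commutes, MvPolynomial.algebraMap_eq, hC]
  | add p q hp hq => rw [map_add, map_add, map_add, hp, hq]
  | mul_X p i hp =>
    rw [map_mul, map_mul, map_mul, hp]
    congr 1
    unfold psi
    rw [aeval_X, map_sum]
    have h1 : ∀ j, theta k G' e B K (C (G i j) * mon k e B j) =
        inc k K (C (G i j) * lin k (G' j)) := by
      intro j
      rw [map_mul, hC, hmon, map_mul]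
    rw [Finset.sum_congr rfl fun j _ => h1 j, ← map_sum]
    congr 1
    unfold lin
    have h2 : ∀ j, C (G i j) * ∑ l, C (G' j l) * X l = ∑ l, C (G i j * G' j l) * (X l : PA k) := by
      intro j
      rw [Finset.mul_sum]
      refine Finset.sum_congr rfl fun l _ => ?_
      rw [map_mul, mul_assoc]
    rw [Finset.sum_congr rfl fun j _ => h2 j, Finset.sum_comm]
    have h3 : ∀ l, ∑ j, C (G i j * G' j l) * (X l : PA k) =
        C ((1 : Matrix (Fin 4) (Fin 4) k) i l) * X l := by
      intro l
      rw [← Finset.sum_mul, ← map_sum, ← hG, Matrix.mul_apply]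
    rw [Finset.sum_congr rfl fun l _ => h3 l, Finset.sum_eq_single i]
    · simp
    · intro l _ hl
      rw [Matrix.one_apply_ne (Ne.symm hl)]
      simp
    · simp

lemma theta_injective (hG : G * G' = 1) (hG' : G' * G = 1) (he : e ∉ B) :
    Function.Injective (theta k G' e B K) := by
  rw [injective_iff_map_eq_zero]
  intro p hp
  obtain ⟨n, q, hq⟩ := psi_bir k G G' e B hG' he p
  have h1 : inc k K q = 0 := by
    rw [← theta_psi k G G' e B K hG hG' he, ← hq, map_mul, hp, mul_zero]
  have h2 : q = 0 := inc_injective k K (by rw [h1, map_zero])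
  rw [h2, map_zero] at hq
  rcases mul_eq_zero.mp hq with h | h
  · exact absurd h (pow_ne_zero _ (X_ne_zero _))
  · exact h

end

end chart

end Pool.Agent.Helper336.Adj
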