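import Mathlib

namespace Pool.Agent.Helper336.Adj

/-- three values among which the minimum is attained twice -/
def Iso3 (a b c : ℕ) : Prop := (a = b ∧ a ≤ c) ∨ (a = c ∧ a ≤ b) ∨ (b = c ∧ b ≤ a)

set_option maxHeartbeats 4000000 in
lemma numeric (x y z xy xz yz xyz u t δ : ℕ)
    (l1 : Iso3 x y xy) (l2 : Iso3 x z xz) (l3 : Iso3 y z yz) (l4 : Iso3 x yz xyz)
    (l5 : Iso3 y xz xyz) (l6 : Iso3 z xy xyz) (l7 : Iso3 xy xz yz)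
    (u1 : Iso3 x y u) (u2 : Iso3 x xy u) (u3 : Iso3 y xy u)
    (b1 : y + z + xz + t ≤ 1 + δ)
    (b2 : xy + yz + xyz + t ≤ 1 + δ)
    (b3 : x + u + z + t ≤ 1 + δ) :
    min (x + y + z + xy + xz + yz + xyz) (3 * t) + 2 * min z u ≤ 2 * x + z + xz + δ := by
  unfold Iso3 at *
  rcases l1 with ⟨h1, h1'⟩ | ⟨h1, h1'⟩ | ⟨h1, h1'⟩ <;> subst h1 <;>
  rcases l2 with ⟨h2, h2'⟩ | ⟨h2, h2'⟩ | ⟨h2, h2'⟩ <;> subst h2 <;>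
  rcases l3 with ⟨h3, h3'⟩ | ⟨h3, h3'⟩ | ⟨h3, h3'⟩ <;>
  omega

end Pool.Agent.Helper336.Adj
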