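import Mathlib
import Pool.Agent.Helper336.AdjRing
import Pool.Agent.Helper336.AdjNum

open scoped KaehlerDifferential
open MvPolynomial

namespace Pool.Agent.Helper336.Adj

lemma iso3_of_add {V : Type} [CommRing V] [IsDomain V] [IsDiscreteValuationRing V] {a b c : V}
    (h : a + b + c = 0) {na nb nc : ℕ} (ha : ord V a = na) (hb : ord V b = nb)
    (hc : ord V c = nc) : Iso3 na nb nc := by
  have key : ∀ {a b c : V} {na nb nc : ℕ}, a + b + c = 0 → ord V a = na → ord V b = nb →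
      ord V c = nc → min na nb ≤ nc := by
    intro a b c na nb nc h ha hb hc
    have h1 : c = -(a + b) := by linear_combination h
    have h2 : min (ord V a) (ord V b) ≤ ord V (a + b) := AddValuation.map_add _ _ _
    have h3 : ord V c = ord V (a + b) := by rw [h1]; exact AddValuation.map_neg _ _
    rw [← h3, ha, hb, hc] at h2
    rcases min_le_iff.mp h2 with h | h
    · exact le_trans (min_le_left _ _) (by exact_mod_cast h)
    · exact le_trans (min_le_right _ _) (by exact_mod_cast h)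
  have h1 := key h ha hb hc
  have h2 := key (by linear_combination h : b + c + a = 0) hb hc ha
  have h3 := key (by linear_combination h : a + c + b = 0) ha hc hb
  unfold Iso3
  omega

variable (k : Type) [Field k]

/-- the product of the seven linear forms over the prime field -/
noncomputable def ff : PA k :=
  X 0 * X 1 * X 2 * (X 0 + X 1) * (X 1 + X 2) * (X 0 + X 2) * (X 0 + X 1 + X 2)

/-- the linear form `y + ω x` -/
noncomputable def uu (ω : k) : PA k := X 1 + C ω * X 0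

/-- `x² z (x + z)` -/
noncomputable def ww : PA k := X 0 ^ 2 * X 2 * (X 0 + X 2)

/-- the ideal `(f, t³)` -/
noncomputable def II : Ideal (RR k) :=
  Ideal.span {algebraMap (PA k) (RR k) (ff k), algebraMap (PA k) (RR k) (X 3 ^ 3)}

/-- the ideal `(z, u)²` -/
noncomputable def JJ (ω : k) : Ideal (RR k) :=
  Ideal.span {algebraMap (PA k) (RR k) (X 2), algebraMap (PA k) (RR k) (uu k ω)} ^ 2

lemma mem_main [CharP k 2] (ω : k) (h0 : ω ≠ 0) (h1 : ω ≠ 1)
    (V : Type) [CommRing V] [IsDomain V] [IsDiscreteValuationRing V]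
    (K : Type) [Field K] [Algebra (RR k) K] [IsFractionRing (RR k) K]
    [Algebra (RR k) V] [Algebra V K] [IsScalarTower (RR k) V K]
    [IsFractionRing V K] (d : V) (hd : d ∈ jacobianIdeal (RR k) V) :
    ∃ a ∈ II k * JJ k ω, ord V (algebraMap (RR k) V a) ≤
      ord V (algebraMap (RR k) V (algebraMap (PA k) (RR k) (ww k))) + ord V d := by
  by_cases hd0 : d = 0
  · exact ⟨0, Ideal.zero_mem _, by simp [hd0, ord]⟩
  have hVK : Function.Injective (algebraMap V K) := IsFractionRing.injective V K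
  have hRV : Function.Injective (algebraMap (RR k) V) := by
    have h2 : Function.Injective (algebraMap (RR k) K) := IsFractionRing.injective (RR k) K
    rw [IsScalarTower.algebraMap_eq (RR k) V K] at h2
    exact Function.Injective.of_comp h2
  set φ : PA k →+* V := (algebraMap (RR k) V).comp (algebraMap (PA k) (RR k)) with hφ
  have hφinj : Function.Injective φ := hRV.comp (PA_RR_injective k)
  have hφ0 : ∀ p : PA k, p ≠ 0 → ∃ n : ℕ, ord V (φ p) = n := by
    intro p hp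
    have hne : φ p ≠ 0 := fun h => hp (hφinj (by rw [h, map_zero]))
    have : ord V (φ p) ≠ ⊤ := by
      intro h
      exact hne ((IsDiscreteValuationRing.addVal_eq_top_iff).mp h)
    obtain ⟨n, hn⟩ := ENat.ne_top_iff_exists.mp this
    exact ⟨n, hn.symm⟩
  have hmul : ∀ p q : PA k, ord V (φ (p * q)) = ord V (φ p) + ord V (φ q) := by
    intro p q; rw [map_mul]; exact AddValuation.map_mul _ _ _
  have hC : ∀ (c : k) (p : PA k), c ≠ 0 → ord V (φ (C c * p)) = ord V (φ p) := by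
    intro c p hc
    rw [hmul]
    have hu : IsUnit (φ (C c)) := ((isUnit_iff_ne_zero.mpr hc).map (C : k →+* PA k)).map φ
    have : ord V (φ (C c)) = 0 := by
      obtain ⟨v, hv⟩ := hu
      obtain ⟨p, hp⟩ := IsDiscreteValuationRing.exists_irreducible V
      have := IsDiscreteValuationRing.addVal_def' v hp 0
      simpa [hv, ord] using this
    rw [this, zero_add]
  have h2 : (2 : PA k) = 0 := by
    have : (2 : k) = 0 := CharTwo.two_eq_zero
    rw [← map_ofNat C 2, this, map_zero]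
  have lin_ne : ∀ a b c : k, (a ≠ 0 ∨ b ≠ 0 ∨ c ≠ 0) →
      (C a * X 0 + C b * X 1 + C c * X 2 : PA k) ≠ 0 := by
    intro a b c h hz
    have e : (C a * X 0 + C b * X 1 + C c * X 2 : PA k) = lin k ![a, b, c, 0] := by
      unfold lin; rw [Fin.sum_univ_four]; simp
    rw [e] at hz
    rcases h with h | h | h
    · exact lin_ne_zero k ![a, b, c, 0] 0 (by simpa using h) hz
    · exact lin_ne_zero k ![a, b, c, 0] 1 (by simpa using h) hz
    · exact lin_ne_zero k ![a, b, c, 0] 2 (by simpa using h) hz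
  obtain ⟨x, hx⟩ := hφ0 (X 0) (X_ne_zero _)
  obtain ⟨y, hy⟩ := hφ0 (X 1) (X_ne_zero _)
  obtain ⟨z, hz⟩ := hφ0 (X 2) (X_ne_zero _)
  obtain ⟨t, ht⟩ := hφ0 (X 3) (X_ne_zero _)
  obtain ⟨xy, hxy⟩ := hφ0 (X 0 + X 1) (by simpa using lin_ne 1 1 0 (by simp))
  obtain ⟨yz, hyz⟩ := hφ0 (X 1 + X 2) (by simpa using lin_ne 0 1 1 (by simp))
  obtain ⟨xz, hxz⟩ := hφ0 (X 0 + X 2) (by simpa using lin_ne 1 0 1 (by simp))
  obtain ⟨xyz, hxyz⟩ := hφ0 (X 0 + X 1 + X 2) (by simpa using lin_ne 1 1 1 (by simp))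
  obtain ⟨u, hu⟩ := hφ0 (uu k ω) (by
    have := lin_ne ω 1 0 (by simp)
    simpa [uu, add_comm] using this)
  obtain ⟨δ, hδ⟩ : ∃ n : ℕ, ord V d = n := by
    have : ord V d ≠ ⊤ := fun h => hd0 ((IsDiscreteValuationRing.addVal_eq_top_iff).mp h)
    obtain ⟨n, hn⟩ := ENat.ne_top_iff_exists.mp this
    exact ⟨n, hn.symm⟩
  have hω1 : (1 + ω) ≠ 0 := by
    intro h
    apply h1
    have : ω = -1 := by linear_combination h
    rw [this]
    exact CharTwo.neg_eq 1
  -- isosceles relations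
  have iso : ∀ {p q r : PA k} {a b c : ℕ}, p + q + r = 0 → ord V (φ p) = a → ord V (φ q) = b →
      ord V (φ r) = c → Iso3 a b c := by
    intro p q r a b c h ha hb hc
    exact iso3_of_add (by rw [← map_add, ← map_add, h, map_zero]) ha hb hc
  have l1 : Iso3 x y xy := iso (by linear_combination (X 0 + X 1 : PA k) * h2) hx hy hxy
  have l2 : Iso3 x z xz := iso (by linear_combination (X 0 + X 2 : PA k) * h2) hx hz hxz
  have l3 : Iso3 y z yz := iso (by linear_combination (X 1 + X 2 : PA k) * h2) hy hz hyz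
  have l4 : Iso3 x yz xyz := iso (by linear_combination (X 0 + X 1 + X 2 : PA k) * h2) hx hyz hxyz
  have l5 : Iso3 y xz xyz := iso (by linear_combination (X 0 + X 1 + X 2 : PA k) * h2) hy hxz hxyz
  have l6 : Iso3 z xy xyz := iso (by linear_combination (X 0 + X 1 + X 2 : PA k) * h2) hz hxy hxyz
  have l7 : Iso3 xy xz yz := iso (by linear_combination (X 0 + X 1 + X 2 : PA k) * h2) hxy hxz hyz
  have u1 : Iso3 x y u := iso (p := C ω * X 0)
    (by unfold uu; linear_combination (X 1 + C ω * X 0 : PA k) * h2)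
    (by rw [hC _ _ h0, hx]) hy hu
  have u2 : Iso3 x xy u := iso (p := C (1 + ω) * X 0)
    (by unfold uu; rw [map_add, map_one]
        linear_combination (X 0 + X 1 + C ω * X 0 : PA k) * h2)
    (by rw [hC _ _ hω1, hx]) hxy hu
  have u3 : Iso3 y xy u := iso (p := C (1 + ω) * X 1) (q := C ω * (X 0 + X 1))
    (by unfold uu; rw [map_add, map_one]
        linear_combination (X 1 + C ω * X 0 + C ω * X 1 : PA k) * h2)
    (by rw [hC _ _ hω1, hy]) (by rw [hC _ _ h0, hxy]) hu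
  -- toric bounds
  have b1 : y + z + xz + t ≤ 1 + δ := by
    have hdet : (!![0, 1, 0, 0; 0, 0, 1, 0; 1, 0, 1, 0; 0, 0, 0, 1] :
        Matrix (Fin 4) (Fin 4) k).det ≠ 0 := by
      simp [Matrix.det_succ_row_zero, Fin.sum_univ_succ, Fin.succAbove]
    have := toric k _ hdet V K d hd
    rw [Fin.sum_univ_four, hδ] at this
    have e0 : lin k ((!![0, 1, 0, 0; 0, 0, 1, 0; 1, 0, 1, 0; 0, 0, 0, 1] :
        Matrix (Fin 4) (Fin 4) k) 0) = X 1 := by unfold lin; rw [Fin.sum_univ_four]; simp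
    have e1 : lin k ((!![0, 1, 0, 0; 0, 0, 1, 0; 1, 0, 1, 0; 0, 0, 0, 1] :
        Matrix (Fin 4) (Fin 4) k) 1) = X 2 := by unfold lin; rw [Fin.sum_univ_four]; simp
    have e2 : lin k ((!![0, 1, 0, 0; 0, 0, 1, 0; 1, 0, 1, 0; 0, 0, 0, 1] :
        Matrix (Fin 4) (Fin 4) k) 2) = X 0 + X 2 := by unfold lin; rw [Fin.sum_univ_four]; simp
    have e3 : lin k ((!![0, 1, 0, 0; 0, 0, 1, 0; 1, 0, 1, 0; 0, 0, 0, 1] :
        Matrix (Fin 4) (Fin 4) k) 3) = X 3 := by unfold lin; rw [Fin.sum_univ_four]; simp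
    rw [e0, e1, e2, e3] at this
    have h' : ord V (φ (X 1)) + ord V (φ (X 2)) + ord V (φ (X 0 + X 2)) + ord V (φ (X 3)) ≤
      1 + (δ : ℕ∞) := this
    rw [hy, hz, hxz, ht] at h'
    exact_mod_cast h'
  have b2 : xy + yz + xyz + t ≤ 1 + δ := by
    have hdet : (!![1, 1, 0, 0; 0, 1, 1, 0; 1, 1, 1, 0; 0, 0, 0, 1] :
        Matrix (Fin 4) (Fin 4) k).det ≠ 0 := by
      simp [Matrix.det_succ_row_zero, Fin.sum_univ_succ, Fin.succAbove]
    have := toric k _ hdet V K d hd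
    rw [Fin.sum_univ_four, hδ] at this
    have e0 : lin k ((!![1, 1, 0, 0; 0, 1, 1, 0; 1, 1, 1, 0; 0, 0, 0, 1] :
        Matrix (Fin 4) (Fin 4) k) 0) = X 0 + X 1 := by unfold lin; rw [Fin.sum_univ_four]; simp
    have e1 : lin k ((!![1, 1, 0, 0; 0, 1, 1, 0; 1, 1, 1, 0; 0, 0, 0, 1] :
        Matrix (Fin 4) (Fin 4) k) 1) = X 1 + X 2 := by unfold lin; rw [Fin.sum_univ_four]; simp
    have e2 : lin k ((!![1, 1, 0, 0; 0, 1, 1, 0; 1, 1, 1, 0; 0, 0, 0, 1] :
        Matrix (Fin 4) (Fin 4) k) 2) = X 0 + X 1 + X 2 := by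
      unfold lin; rw [Fin.sum_univ_four]; simp
    have e3 : lin k ((!![1, 1, 0, 0; 0, 1, 1, 0; 1, 1, 1, 0; 0, 0, 0, 1] :
        Matrix (Fin 4) (Fin 4) k) 3) = X 3 := by unfold lin; rw [Fin.sum_univ_four]; simp
    rw [e0, e1, e2, e3] at this
    have h' : ord V (φ (X 0 + X 1)) + ord V (φ (X 1 + X 2)) + ord V (φ (X 0 + X 1 + X 2)) +
      ord V (φ (X 3)) ≤ 1 + (δ : ℕ∞) := this
    rw [hxy, hyz, hxyz, ht] at h'
    exact_mod_cast h'
  have b3 : x + u + z + t ≤ 1 + δ := by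
    have hdet : (!![1, 0, 0, 0; ω, 1, 0, 0; 0, 0, 1, 0; 0, 0, 0, 1] :
        Matrix (Fin 4) (Fin 4) k).det ≠ 0 := by
      simp [Matrix.det_succ_row_zero, Fin.sum_univ_succ, Fin.succAbove]
    have := toric k _ hdet V K d hd
    rw [Fin.sum_univ_four, hδ] at this
    have e0 : lin k ((!![1, 0, 0, 0; ω, 1, 0, 0; 0, 0, 1, 0; 0, 0, 0, 1] :
        Matrix (Fin 4) (Fin 4) k) 0) = X 0 := by unfold lin; rw [Fin.sum_univ_four]; simp
    have e1 : lin k ((!![1, 0, 0, 0; ω, 1, 0, 0; 0, 0, 1, 0; 0, 0, 0, 1] :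
        Matrix (Fin 4) (Fin 4) k) 1) = uu k ω := by
      unfold lin uu; rw [Fin.sum_univ_four]; simp [add_comm]
    have e2 : lin k ((!![1, 0, 0, 0; ω, 1, 0, 0; 0, 0, 1, 0; 0, 0, 0, 1] :
        Matrix (Fin 4) (Fin 4) k) 2) = X 2 := by
      unfold lin; rw [Fin.sum_univ_four]; simp
    have e3 : lin k ((!![1, 0, 0, 0; ω, 1, 0, 0; 0, 0, 1, 0; 0, 0, 0, 1] :
        Matrix (Fin 4) (Fin 4) k) 3) = X 3 := by unfold lin; rw [Fin.sum_univ_four]; simp
    rw [e0, e1, e2, e3] at this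
    have h' : ord V (φ (X 0)) + ord V (φ (uu k ω)) + ord V (φ (X 2)) +
      ord V (φ (X 3)) ≤ 1 + (δ : ℕ∞) := this
    rw [hx, hu, hz, ht] at h'
    exact_mod_cast h'
  have hnum := numeric x y z xy xz yz xyz u t δ l1 l2 l3 l4 l5 l6 l7 u1 u2 u3 b1 b2 b3
  have hF : ord V (φ (ff k)) = ((x + y + z + xy + xz + yz + xyz : ℕ) : ℕ∞) := by
    unfold ff
    rw [hmul, hmul, hmul, hmul, hmul, hmul, hx, hy, hz, hxy, hyz, hxz, hxyz]
    push_cast
    ring
  have hT : ord V (φ (X 3 ^ 3)) = ((3 * t : ℕ) : ℕ∞) := by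
    rw [pow_succ, pow_succ, pow_one, hmul, hmul, ht]
    push_cast
    ring
  have hZ : ord V (φ (X 2 ^ 2)) = ((2 * z : ℕ) : ℕ∞) := by
    rw [pow_succ, pow_one, hmul, hz]
    push_cast
    ring
  have hU : ord V (φ (uu k ω ^ 2)) = ((2 * u : ℕ) : ℕ∞) := by
    rw [pow_succ, pow_one, hmul, hu]
    push_cast
    ring
  have hW : ord V (φ (ww k)) = ((2 * x + z + xz : ℕ) : ℕ∞) := by
    unfold ww
    rw [hmul, hmul, pow_succ, pow_one, hmul, hx, hz, hxz]
    push_cast
    ring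
  have hI1 : algebraMap (PA k) (RR k) (ff k) ∈ II k := Ideal.subset_span (by simp)
  have hI2 : algebraMap (PA k) (RR k) (X 3 ^ 3) ∈ II k := Ideal.subset_span (by simp)
  have hJ1 : algebraMap (PA k) (RR k) (X 2 ^ 2) ∈ JJ k ω := by
    rw [map_pow]; exact Ideal.pow_mem_pow (Ideal.subset_span (by simp)) 2
  have hJ2 : algebraMap (PA k) (RR k) (uu k ω ^ 2) ∈ JJ k ω := by
    rw [map_pow]; exact Ideal.pow_mem_pow (Ideal.subset_span (by simp)) 2
  have fin : ∀ p q : PA k, algebraMap (PA k) (RR k) p ∈ II k → algebraMap (PA k) (RR k) q ∈ JJ k ω →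
      ∀ a b : ℕ, ord V (φ p) = a → ord V (φ q) = b → a + b ≤ 2 * x + z + xz + δ →
      ∃ a ∈ II k * JJ k ω, ord V (algebraMap (RR k) V a) ≤
      ord V (algebraMap (RR k) V (algebraMap (PA k) (RR k) (ww k))) + ord V d := by
    intro p q hp hq a b ha hb hab
    refine ⟨algebraMap (PA k) (RR k) p * algebraMap (PA k) (RR k) q, Ideal.mul_mem_mul hp hq, ?_⟩
    have e1 : ord V (algebraMap (RR k) V (algebraMap (PA k) (RR k) p * algebraMap (PA k) (RR k) q)) =
        ord V (φ p) + ord V (φ q) := by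
      rw [← hmul, ← map_mul]; rfl
    have e2 : ord V (algebraMap (RR k) V (algebraMap (PA k) (RR k) (ww k))) = ord V (φ (ww k)) := rfl
    rw [e1, e2, hW, ha, hb, hδ]
    exact_mod_cast hab
  rcases le_total (x + y + z + xy + xz + yz + xyz) (3 * t) with c1 | c1 <;>
    rcases le_total z u with c2 | c2
  · exact fin _ _ hI1 hJ1 _ _ hF hZ (by omega)
  · exact fin _ _ hI1 hJ2 _ _ hF hU (by omega)
  · exact fin _ _ hI2 hJ1 _ _ hT hZ (by omega)
  · exact fin _ _ hI2 hJ2 _ _ hT hU (by omega)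

end Pool.Agent.Helper336.Adj
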