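import Mathlib
import Pool.Agent.Helper336.AdjChart

open scoped KaehlerDifferential
open MvPolynomial

namespace Pool.Agent.Helper336.Adj

variable (k : Type) [Field k]

lemma mem_Pe (e : Fin 4) (p : PA k) : p ∈ Pe k e ↔ X e ∣ p := Ideal.mem_span_singleton

lemma not_mem_Pe_of_const (e : Fin 4) (p : PA k) (h : constantCoeff p ≠ 0) : p ∉ Pe k e := by
  rw [mem_Pe]
  rintro ⟨c, rfl⟩
  apply h
  rw [map_mul, constantCoeff_X, zero_mul]

section jac

variable {R V : Type} [CommRing R] [CommRing V] [IsDomain V] [Algebra (PA k) V] [Algebra R V]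

/-- upper bound for the Jacobian ideal of a chart -/
lemma pow_mem_jacobian (e : Fin 4) (B : Finset (Fin 4)) (he : e ∉ B)
    [IsLocalization.AtPrime V (Pe k e)]
    (hC : ∀ c : k, ∃ r : R, algebraMap R V r = algebraMap (PA k) V (C c))
    (hmon : ∀ j, ∃ r : R, algebraMap R V r = algebraMap (PA k) V (mon k e B j)) :
    algebraMap (PA k) V (X e) ^ B.card ∈ jacobianIdeal R V := by
  classical
  let m : Fin 4 → Ω[V⁄R] := fun j => KaehlerDifferential.D R V (algebraMap (PA k) V (X j))
  let d : Fin 4 → V := fun j => if j ∈ B then algebraMap (PA k) V (X e) else 1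
  have hD0 : ∀ r : R, KaehlerDifferential.D R V (algebraMap R V r) = 0 := fun r =>
    Derivation.map_algebraMap _ r
  have hXe : KaehlerDifferential.D R V (algebraMap (PA k) V (X e)) = 0 := by
    obtain ⟨r, hr⟩ := hmon e
    unfold mon at hr
    rw [if_neg he] at hr
    rw [← hr, hD0]
  have hpoly : ∀ p : PA k, KaehlerDifferential.D R V (algebraMap (PA k) V p) ∈
      Submodule.span V (Set.range m) := by
    intro p
    induction p using MvPolynomial.induction_on with
    | C a =>
      obtain ⟨r, hr⟩ := hC a
      rw [← hr, hD0]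
      exact Submodule.zero_mem _
    | add p q hp hq => rw [map_add, map_add]; exact Submodule.add_mem _ hp hq
    | mul_X p i hp =>
      rw [map_mul, Derivation.leibniz]
      exact Submodule.add_mem _
        (Submodule.smul_mem _ _ (Submodule.subset_span ⟨i, rfl⟩)) (Submodule.smul_mem _ _ hp)
  have hspan : Submodule.span V (Set.range m) = ⊤ := by
    rw [eq_top_iff, ← KaehlerDifferential.span_range_derivation R V, Submodule.span_le]
    rintro _ ⟨v, rfl⟩
    obtain ⟨p, s, rfl⟩ := IsLocalization.exists_mk'_eq (Pe k e).primeCompl v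
    set w := IsLocalization.mk' V p s with hw
    have h1 : w * algebraMap (PA k) V s = algebraMap (PA k) V p := IsLocalization.mk'_spec V p s
    have h2 : IsUnit (algebraMap (PA k) V s) := IsLocalization.map_units V s
    have h3 := congrArg (KaehlerDifferential.D R V) h1
    rw [Derivation.leibniz] at h3
    have h4 : algebraMap (PA k) V s • KaehlerDifferential.D R V w =
        KaehlerDifferential.D R V (algebraMap (PA k) V p) -
          w • KaehlerDifferential.D R V (algebraMap (PA k) V s) := by
      rw [← h3]; abel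
    obtain ⟨u, hu⟩ := h2
    have h5 : KaehlerDifferential.D R V w = (↑u⁻¹ : V) • (algebraMap (PA k) V s •
        KaehlerDifferential.D R V w) := by
      rw [← hu, smul_smul, Units.inv_mul, one_smul]
    show KaehlerDifferential.D R V w ∈ Submodule.span V (Set.range m)
    rw [h5, h4]
    exact Submodule.smul_mem _ _ (Submodule.sub_mem _ (hpoly _) (Submodule.smul_mem _ _ (hpoly _)))
  unfold jacobianIdeal fittingZero
  apply Ideal.subset_span
  refine ⟨4, m, Matrix.diagonal d, hspan, ?_, ?_⟩
  · intro i
    rw [Finset.sum_eq_single i]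
    · rw [Matrix.diagonal_apply_eq]
      show (if i ∈ B then algebraMap (PA k) V (X e) else 1) • KaehlerDifferential.D R V
        (algebraMap (PA k) V (X i)) = 0
      obtain ⟨r, hr⟩ := hmon i
      unfold mon at hr
      by_cases hi : i ∈ B
      · rw [if_pos hi] at hr ⊢
        have h1 := hD0 r
        rw [hr, map_mul, Derivation.leibniz, hXe, smul_zero, add_zero] at h1
        exact h1
      · rw [if_neg hi] at hr ⊢
        rw [← hr, hD0, smul_zero]
    · intro j _ hj
      rw [Matrix.diagonal_apply_ne _ (Ne.symm hj), zero_smul]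
    · simp
  · rw [Matrix.det_diagonal, Finset.prod_ite, Finset.prod_const, Finset.prod_const_one, mul_one]
    congr 2
    ext j
    simp

end jac

/-- The consequence of the chart prime divisors for adjoint ideals. -/
lemma upper (G G' : Matrix (Fin 4) (Fin 4) k) (e : Fin 4) (B : Finset (Fin 4))
    (hG : G * G' = 1) (hG' : G' * G = 1) (he : e ∉ B) (I : Ideal (RR k)) (s : Set (PA k))
    (hI : I ≤ Ideal.span (algebraMap (PA k) (RR k) '' s))
    (hs : ∀ p ∈ s, X e ^ (B.card + 1) ∣ psi k G e B p) (q : PA k)
    (hq : algebraMap (PA k) (RR k) q ∈ adj (RR k) I) : X e ∣ psi k G e B q := by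
  classical
  -- the map from the local ring
  have hunit1 : ∀ y : (mm k).primeCompl,
      IsUnit (((algebraMap (PA k) (VV k e)).comp (psi k G e B).toRingHom) y) := by
    intro y
    have h1 : psi k G e B y ∉ Pe k e := by
      apply not_mem_Pe_of_const
      rw [psi_const]
      intro h
      exact y.2 (by unfold mm; rw [SetLike.mem_coe, RingHom.mem_ker]; exact h)
    exact IsLocalization.map_units (VV k e) (⟨psi k G e B y, h1⟩ : (Pe k e).primeCompl)
  let ρ : RR k →+* VV k e := IsLocalization.lift (M := (mm k).primeCompl) hunit1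
  have hρ : ∀ a : PA k, ρ (algebraMap (PA k) (RR k) a) = algebraMap (PA k) (VV k e)
      (psi k G e B a) := by
    intro a
    exact IsLocalization.lift_eq hunit1 a
  set K := FractionRing (RR k) with hK
  have hinj := theta_injective k G G' e B K hG hG' he
  have hunit2 : ∀ y : (Pe k e).primeCompl, IsUnit (theta k G' e B K y) := by
    intro y
    rw [isUnit_iff_ne_zero]
    intro h
    have h1 : (y : PA k) = 0 := hinj (by rw [h, map_zero])
    exact y.2 (by rw [h1]; exact (Pe k e).zero_mem)
  let τ : VV k e →+* K := IsLocalization.lift (M := (Pe k e).primeCompl) hunit2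
  have hτ : ∀ a : PA k, τ (algebraMap (PA k) (VV k e) a) = theta k G' e B K a := by
    intro a
    exact IsLocalization.lift_eq hunit2 a
  letI : Algebra (RR k) (VV k e) := ρ.toAlgebra
  letI : Algebra (VV k e) K := τ.toAlgebra
  have htower : algebraMap (RR k) K = τ.comp ρ := by
    apply IsLocalization.ringHom_ext (mm k).primeCompl
    ext a : 1
    · ext x
      show inc k K (C x) = τ (ρ (algebraMap (PA k) (RR k) (C x)))
      rw [hρ, hτ, theta_psi k G G' e B K hG hG' he]
    · show inc k K (X a) = τ (ρ (algebraMap (PA k) (RR k) (X a)))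
      rw [hρ, hτ, theta_psi k G G' e B K hG hG' he]
  haveI : IsScalarTower (RR k) (VV k e) K := IsScalarTower.of_algebraMap_eq' htower
  have hτinj : Function.Injective τ := by
    rw [injective_iff_map_eq_zero]
    intro v hv
    obtain ⟨p, s, rfl⟩ := IsLocalization.exists_mk'_eq (Pe k e).primeCompl v
    have h1 : IsLocalization.mk' (VV k e) p s * algebraMap (PA k) (VV k e) s =
      algebraMap (PA k) (VV k e) p := IsLocalization.mk'_spec _ p s
    have h2 := congrArg τ h1
    rw [map_mul, hv, zero_mul, hτ] at h2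
    have h3 : p = 0 := hinj (by rw [← h2, map_zero])
    rw [h3, IsLocalization.mk'_zero]
  haveI : FaithfulSMul (VV k e) K := (faithfulSMul_iff_algebraMap_injective _ _).mpr hτinj
  haveI : IsFractionRing (VV k e) K := by
    apply IsFractionRing.of_field
    intro z
    obtain ⟨a, b, _, rfl⟩ := IsFractionRing.div_surjective (A := RR k) z
    exact ⟨ρ a, ρ b, by rw [htower]; rfl⟩
  have hess : Algebra.EssFiniteType (RR k) (VV k e) := by
    letI : Algebra k (RR k) := ((algebraMap (PA k) (RR k)).comp C).toAlgebra
    letI : Algebra k (VV k e) := ((algebraMap (PA k) (VV k e)).comp C).toAlgebra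
    haveI : IsScalarTower k (PA k) (VV k e) := IsScalarTower.of_algebraMap_eq' rfl
    haveI : IsScalarTower k (RR k) (VV k e) := by
      apply IsScalarTower.of_algebraMap_eq
      intro c
      show algebraMap (PA k) (VV k e) (C c) = ρ (algebraMap (PA k) (RR k) (C c))
      rw [hρ, ← MvPolynomial.algebraMap_eq, AlgHom.commutes]
    haveI : Algebra.EssFiniteType (PA k) (VV k e) :=
      Algebra.EssFiniteType.of_isLocalization _ (Pe k e).primeCompl
    haveI : Algebra.EssFiniteType k (VV k e) := Algebra.EssFiniteType.comp k (PA k) (VV k e)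
    exact Algebra.EssFiniteType.of_comp k (RR k) (VV k e)
  have hjac : algebraMap (PA k) (VV k e) (X e) ^ B.card ∈ jacobianIdeal (RR k) (VV k e) := by
    refine pow_mem_jacobian k e B he ?_ ?_
    · intro c
      refine ⟨algebraMap (PA k) (RR k) (C c), ?_⟩
      show ρ (algebraMap (PA k) (RR k) (C c)) = _
      rw [hρ, ← MvPolynomial.algebraMap_eq, AlgHom.commutes]
    · intro j
      refine ⟨algebraMap (PA k) (RR k) (lin k (G' j)), ?_⟩
      show ρ (algebraMap (PA k) (RR k) (lin k (G' j))) = _
      rw [hρ, psi_lin k G G' e B hG']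
  have hmain := hq (VV k e) hess
  have hle : (⨅ b ∈ jacobianIdeal (RR k) (VV k e), ord (VV k e) b) ≤ (B.card : ℕ∞) := by
    refine le_trans (iInf₂_le _ hjac) ?_
    rw [← map_pow, ordVV_pow]
  have hge : ((B.card + 1 : ℕ) : ℕ∞) ≤
      ⨅ a ∈ I, ord (VV k e) (algebraMap (RR k) (VV k e) a) := by
    refine le_iInf₂ fun a ha => ?_
    have h1 : I ≤ Ideal.comap ρ (Ideal.span {algebraMap (PA k) (VV k e) (X e ^ (B.card + 1))}) := by
      refine le_trans hI (Ideal.span_le.mpr ?_)
      rintro _ ⟨p, hp, rfl⟩
      rw [SetLike.mem_coe, Ideal.mem_comap, hρ, Ideal.mem_span_singleton]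
      exact map_dvd _ (hs p hp)
    have h2 := h1 ha
    rw [Ideal.mem_comap, Ideal.mem_span_singleton] at h2
    have h3 := (IsDiscreteValuationRing.addVal_le_iff_dvd).mpr h2
    have h4 := ordVV_pow k e (B.card + 1)
    unfold ord at h4 ⊢
    rw [h4] at h3
    exact h3
  have h5 : ((B.card + 1 : ℕ) : ℕ∞) ≤ ord (VV k e) (ρ (algebraMap (PA k) (RR k) q)) + B.card :=
    le_trans hge (le_trans hmain (add_le_add_right hle _))
  by_contra hcon
  have h6 : IsUnit (algebraMap (PA k) (VV k e) (psi k G e B q)) := by
    have : psi k G e B q ∈ (Pe k e).primeCompl := fun h => hcon ((mem_Pe k e _).mp h)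
    exact IsLocalization.map_units (VV k e) (⟨_, this⟩ : (Pe k e).primeCompl)
  have h7 : ord (VV k e) (algebraMap (PA k) (VV k e) (psi k G e B q)) = 0 := by
    obtain ⟨v, hv⟩ := h6
    have := IsDiscreteValuationRing.addVal_def' v (irredVV k e) 0
    rw [pow_zero, mul_one] at this
    unfold ord
    rw [← hv, this]
    rfl
  rw [hρ, h7, zero_add] at h5
  have h8 : B.card + 1 ≤ B.card := by exact_mod_cast h5
  omega

end Pool.Agent.Helper336.Adj
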