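import Mathlib
import Pool.Agent.Helper336.AdjUpper
import Pool.Agent.Helper336.AdjMem

open MvPolynomial

namespace Pool.Agent.Helper336.Adj

variable (k : Type) [Field k]

/-- evaluation along the line through `P` -/
noncomputable def ev (P : Fin 4 → k) : PA k →ₐ[k] Polynomial k :=
  aeval fun i => Polynomial.C (P i) * Polynomial.X

lemma ev_X (P : Fin 4 → k) (i : Fin 4) : ev k P (X i) = Polynomial.C (P i) * Polynomial.X := by
  unfold ev; rw [aeval_X]

lemma ev_C (P : Fin 4 → k) (c : k) : ev k P (C c) = Polynomial.C c := by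
  unfold ev; rw [aeval_C]; rfl

lemma ev_coeff_zero (P : Fin 4 → k) (p : PA k) : (ev k P p).coeff 0 = constantCoeff p := by
  induction p using MvPolynomial.induction_on with
  | C a => rw [ev_C]; simp
  | add p q hp hq => rw [map_add, Polynomial.coeff_add, hp, hq, map_add]
  | mul_X p i hp =>
    rw [map_mul, ev_X, map_mul, Polynomial.mul_coeff_zero, hp]
    simp

lemma psi_lin_dvd (G : Matrix (Fin 4) (Fin 4) k) (c : Fin 4 → k) (h : ∑ i, c i * G i 0 = 0) :
    X 3 ∣ psi k G 3 {1, 2} (lin k c) := by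
  have h1 : psi k G 3 {1, 2} (lin k c) = ∑ j, C (∑ i, c i * G i j) * mon k 3 {1, 2} j := by
    unfold lin
    rw [map_sum]
    have h2 : ∀ i, psi k G 3 {1, 2} (C (c i) * X i) =
        ∑ j, C (c i * G i j) * mon k 3 {1, 2} j := by
      intro i
      rw [map_mul, ← MvPolynomial.algebraMap_eq, AlgHom.commutes, MvPolynomial.algebraMap_eq]
      unfold psi
      rw [aeval_X, Finset.mul_sum]
      refine Finset.sum_congr rfl fun l _ => ?_
      rw [map_mul, mul_assoc]
    rw [Finset.sum_congr rfl fun i _ => h2 i, Finset.sum_comm]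
    refine Finset.sum_congr rfl fun l _ => ?_
    rw [map_sum, Finset.sum_mul]
  rw [h1]
  refine Finset.dvd_sum fun j _ => ?_
  fin_cases j
  · simp only [Fin.zero_eta]
    rw [h]; simp
  · exact Dvd.dvd.mul_left (by unfold mon; simp) _
  · exact Dvd.dvd.mul_left (by unfold mon; simp) _
  · exact Dvd.dvd.mul_left (by unfold mon; simp) _

/-- the adjoint ideal of `(f, t³)` vanishes along the line through `P` -/
lemma adjI_ev (G G' : Matrix (Fin 4) (Fin 4) k) (hG : G * G' = 1) (hG' : G' * G = 1)
    (h3 : G 3 0 = 0) (c1 c2 c3 : Fin 4 → k) (rest : PA k)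
    (hc1 : ∑ i, c1 i * G i 0 = 0) (hc2 : ∑ i, c2 i * G i 0 = 0) (hc3 : ∑ i, c3 i * G i 0 = 0)
    (hf : ff k = lin k c1 * lin k c2 * lin k c3 * rest) (q : PA k)
    (hq : algebraMap (PA k) (RR k) q ∈ adj (RR k) (II k)) (P : Fin 4 → k)
    (hP : ∀ i, P i = G i 0) : ev k P q = 0 := by
  have hP' : P = fun i => G i 0 := funext hP
  rw [hP']
  have h1 : X 3 ∣ psi k G 3 {1, 2} q := by
    refine upper k G G' 3 {1, 2} hG hG' (by decide) (II k) {ff k, X 3 ^ 3} ?_ ?_ q hq
    · unfold II
      rw [Set.image_insert_eq, Set.image_singleton]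
    · have hcard : ({1, 2} : Finset (Fin 4)).card + 1 = 3 := by decide
      rw [hcard]
      rintro p (rfl | rfl)
      · rw [hf, map_mul, map_mul, map_mul]
        have h := mul_dvd_mul (mul_dvd_mul (psi_lin_dvd k G c1 hc1) (psi_lin_dvd k G c2 hc2))
          (psi_lin_dvd k G c3 hc3)
        have e : (X 3 ^ 3 : PA k) = X 3 * X 3 * X 3 := by ring
        rw [e]
        exact Dvd.dvd.mul_right h _
      · rw [map_pow]
        apply pow_dvd_pow_of_dvd
        have e : (X 3 : PA k) = lin k ![0, 0, 0, 1] := by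
          unfold lin; rw [Fin.sum_univ_four]; simp
        have := psi_lin_dvd k G ![0, 0, 0, 1] (by rw [Fin.sum_univ_four]; simp [h3])
        rw [← e] at this
        exact this
  obtain ⟨c, hc⟩ := h1
  have h2 : ∀ p : PA k, ev k (fun i => G i 0) p = ev k ![1, 0, 0, 0] (psi k G 3 {1, 2} p) := by
    intro p
    induction p using MvPolynomial.induction_on with
    | C a =>
      rw [← MvPolynomial.algebraMap_eq, AlgHom.commutes, AlgHom.commutes, AlgHom.commutes]
    | add p q hp hq => rw [map_add, map_add, map_add, hp, hq]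
    | mul_X p i hp =>
      rw [map_mul, map_mul, map_mul, hp, ev_X]
      congr 1
      unfold psi
      rw [aeval_X, map_sum, Fin.sum_univ_four]
      simp [mon, ev_X, ev_C]
  rw [h2, hc, map_mul, ev_X]
  simp

end Pool.Agent.Helper336.Adj
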