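import Mathlib
import Pool.Agent.Helper336.AdjFin2

open MvPolynomial

namespace Pool.Agent.Helper336.Adj

variable (k : Type) [Field k]

/-- sum of the quadratic coefficients over the seven lines -/
noncomputable def T2 (p : PA k) : k :=
  (ev k ![1, 0, 0, 0] p).coeff 2 + (ev k ![0, 1, 0, 0] p).coeff 2 + (ev k ![0, 0, 1, 0] p).coeff 2 +
  (ev k ![1, 1, 0, 0] p).coeff 2 + (ev k ![1, 0, 1, 0] p).coeff 2 + (ev k ![0, 1, 1, 0] p).coeff 2 +
  (ev k ![1, 1, 1, 0] p).coeff 2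

lemma ev_monomial (P : Fin 4 → k) (m : Fin 4 →₀ ℕ) (c : k) :
    (ev k P (monomial m c)).coeff 2 =
      if m 0 + m 1 + m 2 + m 3 = 2 then c * (P 0 ^ m 0 * P 1 ^ m 1 * P 2 ^ m 2 * P 3 ^ m 3) else 0 := by
  unfold ev
  rw [aeval_monomial, Finsupp.prod_fintype _ _ (fun i => pow_zero _), Fin.prod_univ_four]
  have h : (algebraMap k (Polynomial k)) c * ((Polynomial.C (P 0) * Polynomial.X) ^ m 0 *
      (Polynomial.C (P 1) * Polynomial.X) ^ m 1 * (Polynomial.C (P 2) * Polynomial.X) ^ m 2 *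
      (Polynomial.C (P 3) * Polynomial.X) ^ m 3) =
      Polynomial.C (c * (P 0 ^ m 0 * P 1 ^ m 1 * P 2 ^ m 2 * P 3 ^ m 3)) *
        Polynomial.X ^ (m 0 + m 1 + m 2 + m 3) := by
    rw [Polynomial.algebraMap_eq]
    simp only [mul_pow, map_mul, map_pow, pow_add]
    ring
  rw [h, Polynomial.coeff_C_mul_X_pow]
  by_cases h2 : m 0 + m 1 + m 2 + m 3 = 2
  · rw [if_pos h2, if_pos h2.symm]
  · rw [if_neg h2, if_neg (fun h => h2 h.symm)]

lemma T2_zero [CharP k 2] (p : PA k) : T2 k p = 0 := by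
  have hadd : ∀ p q : PA k, T2 k (p + q) = T2 k p + T2 k q := by
    intro p q
    unfold T2
    simp only [map_add, Polynomial.coeff_add]
    ring
  have h2 : (2 : k) = 0 := CharTwo.two_eq_zero
  induction p using MvPolynomial.induction_on' with
  | add p q hp hq => rw [hadd, hp, hq, add_zero]
  | monomial m c =>
    unfold T2
    simp only [ev_monomial]
    by_cases h : m 0 + m 1 + m 2 + m 3 = 2
    · simp only [if_pos h]
      have hc : (m 0 = 2 ∧ m 1 = 0 ∧ m 2 = 0 ∧ m 3 = 0) ∨ (m 0 = 0 ∧ m 1 = 2 ∧ m 2 = 0 ∧ m 3 = 0) ∨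
        (m 0 = 0 ∧ m 1 = 0 ∧ m 2 = 2 ∧ m 3 = 0) ∨ (m 0 = 1 ∧ m 1 = 1 ∧ m 2 = 0 ∧ m 3 = 0) ∨
        (m 0 = 1 ∧ m 1 = 0 ∧ m 2 = 1 ∧ m 3 = 0) ∨ (m 0 = 0 ∧ m 1 = 1 ∧ m 2 = 1 ∧ m 3 = 0) ∨
        0 < m 3 := by omega
      rcases hc with ⟨a, b, c', d⟩ | ⟨a, b, c', d⟩ | ⟨a, b, c', d⟩ | ⟨a, b, c', d⟩ | ⟨a, b, c', d⟩ |
        ⟨a, b, c', d⟩ | hd
      · rw [a, b, c', d]; simp; linear_combination (2 * c) * h2
      · rw [a, b, c', d]; simp; linear_combination (2 * c) * h2
      · rw [a, b, c', d]; simp; linear_combination (2 * c) * h2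
      · rw [a, b, c', d]; simp; linear_combination c * h2
      · rw [a, b, c', d]; simp; linear_combination c * h2
      · rw [a, b, c', d]; simp; linear_combination c * h2
      · simp [hd.ne']
    · simp [if_neg h]

lemma not_mem_main [CharP k 2] (ω : k) (h0 : ω ≠ 0) (h1 : ω ≠ 1) :
    algebraMap (PA k) (RR k) (ww k) ∉ adj (RR k) (II k) * adj (RR k) (JJ k ω) := by
  intro hW
  have h2 := two_zero k
  have h2k : (2 : k) = 0 := CharTwo.two_eq_zero
  set 𝔞 : Ideal (PA k) := Ideal.comap (algebraMap (PA k) (RR k)) (adj (RR k) (II k)) with ha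
  set 𝔟 : Ideal (PA k) := Ideal.comap (algebraMap (PA k) (RR k)) (adj (RR k) (JJ k ω)) with hb
  have ha' : Ideal.map (algebraMap (PA k) (RR k)) 𝔞 = adj (RR k) (II k) :=
    IsLocalization.map_comap (mm k).primeCompl (RR k) _
  have hb' : Ideal.map (algebraMap (PA k) (RR k)) 𝔟 = adj (RR k) (JJ k ω) :=
    IsLocalization.map_comap (mm k).primeCompl (RR k) _
  rw [← ha', ← hb', ← Ideal.map_mul,
    IsLocalization.algebraMap_mem_map_algebraMap_iff (mm k).primeCompl] at hW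
  obtain ⟨s, hs, hsW⟩ := hW
  have hb2 : 𝔟 ≤ Ideal.span {(X 2 : PA k), uu k ω} := fun q hq => C2 k ω q hq
  have h3 : s * ww k ∈ 𝔞 * Ideal.span {(X 2 : PA k), uu k ω} :=
    Ideal.mul_mono_right hb2 hsW
  rw [Ideal.span_insert, Ideal.mul_sup, Submodule.mem_sup] at h3
  obtain ⟨y1, hy1, y2, hy2, hy⟩ := h3
  rw [Ideal.mem_mul_span_singleton] at hy1 hy2
  obtain ⟨p1, hp1, rfl⟩ := hy1
  obtain ⟨p2, hp2, rfl⟩ := hy2
  have hz : X 2 ∣ p2 := by
    have h4 : (X 2 : PA k) ∣ p2 * uu k ω := by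
      refine ⟨s * (X 0 ^ 2 * (X 0 + X 2)) - p1, ?_⟩
      unfold ww at hy
      linear_combination hy
    rcases (X_prime (R := k) (i := (2 : Fin 4))).dvd_or_dvd h4 with h | h
    · exact h
    · exfalso
      obtain ⟨c, hc⟩ := h
      have := congrArg (MvPolynomial.eval ![0, 1, 0, 0]) hc
      unfold uu at this
      simp at this
  obtain ⟨p3, rfl⟩ := hz
  have h5 : s * (X 0 ^ 2 * (X 0 + X 2)) = p1 + p3 * uu k ω := by
    have h6 : (X 2 : PA k) * (s * (X 0 ^ 2 * (X 0 + X 2))) = X 2 * (p1 + p3 * uu k ω) := by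
      unfold ww at hy
      linear_combination -hy
    exact mul_left_cancel₀ (X_ne_zero _) h6
  set s0 : k := constantCoeff s with hs0
  have hs0ne : s0 ≠ 0 := by
    intro h
    apply hs
    unfold mm
    rw [SetLike.mem_coe, RingHom.mem_ker]
    exact h
  -- points on the plane z = 1
  have hz1 : ∀ P : Fin 4 → k, P 2 = 1 → ev k P (X 2 * p3) = 0 → (ev k P p3).coeff 2 = 0 := by
    intro P hP h
    rw [map_mul, ev_X, hP, map_one, one_mul] at h
    rcases mul_eq_zero.mp h with h | h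
    · exact absurd h Polynomial.X_ne_zero
    · rw [h]; simp
  have a001 := hz1 _ (by simp) (C1_001 k _ hp2)
  have a101 := hz1 _ (by simp) (C1_101 k _ hp2)
  have a011 := hz1 _ (by simp) (C1_011 k _ hp2)
  have a111 := hz1 _ (by simp) (C1_111 k _ hp2)
  -- points on the plane z = 0
  have hz0 : ∀ P : Fin 4 → k, P 2 = 0 → ev k P p1 = 0 →
      P 0 ^ 3 * s0 = (P 1 + ω * P 0) * (ev k P p3).coeff 2 := by
    intro P hP h
    have h6 := congrArg (ev k P) h5
    rw [map_mul, map_add, h, zero_add, map_mul, map_mul, map_pow, map_add, ev_X, ev_X, hP,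
      map_zero, zero_mul, add_zero] at h6
    have h7 : ev k P (uu k ω) = Polynomial.C (P 1 + ω * P 0) * Polynomial.X := by
      unfold uu
      rw [map_add, map_mul, ev_X, ev_X, ev_C, map_add, map_mul]
      ring
    rw [h7] at h6
    have h8 := congrArg (fun q => Polynomial.coeff q 3) h6
    have e1 : ev k P s * ((Polynomial.C (P 0) * Polynomial.X) ^ 2 *
        (Polynomial.C (P 0) * Polynomial.X)) =
        Polynomial.C (P 0 ^ 3) * (ev k P s) * Polynomial.X ^ 3 := by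
      rw [map_pow]; ring
    have e2 : ev k P p3 * (Polynomial.C (P 1 + ω * P 0) * Polynomial.X) =
        Polynomial.C (P 1 + ω * P 0) * (ev k P p3) * Polynomial.X := by ring
    rw [e1, e2] at h8
    have e3 : (Polynomial.C (P 0 ^ 3) * (ev k P s) * Polynomial.X ^ 3).coeff 3 = P 0 ^ 3 * s0 := by
      have := Polynomial.coeff_mul_X_pow (Polynomial.C (P 0 ^ 3) * (ev k P s)) 3 0
      rw [zero_add] at this
      rw [this, Polynomial.coeff_C_mul, ev_coeff_zero]
    have e4 : (Polynomial.C (P 1 + ω * P 0) * (ev k P p3) * Polynomial.X).coeff 3 =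
        (P 1 + ω * P 0) * (ev k P p3).coeff 2 := by
      rw [Polynomial.coeff_mul_X, Polynomial.coeff_C_mul]
    rw [e3, e4] at h8
    exact h8
  have a100 := hz0 _ (by simp) (C1_100 k _ hp1)
  have a010 := hz0 _ (by simp) (C1_010 k _ hp1)
  have a110 := hz0 _ (by simp) (C1_110 k _ hp1)
  have hT := T2_zero k p3
  unfold T2 at hT
  rw [a001, a101, a011, a111] at hT
  simp at a100 a010 a110 hT
  apply hs0ne
  have hω1 : 1 + ω ≠ 0 := by
    intro h
    apply h1
    have : ω = -1 := by linear_combination h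
    rw [this]
    exact CharTwo.neg_eq 1
  linear_combination (1 + ω) * a100 + ω * a110 + (ω * (1 + ω)) * (hT + a010) - ω * s0 * h2k

end Pool.Agent.Helper336.Adj
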