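import Pool.Agent.Helper336.Prim

set_option autoImplicit false

namespace Pool.Agent.Helper336.PW

open Pool.Agent.Helper336.CF

/-- Finite index type for the systems of chords. -/
abbrev Idx (n : ℕ) : Type :=
  Finset (Fin n × Fin n) × (Fin n → Fin n → Ordering) × Option (Fin n × Fin n × Fin n × Bool)

/-- The block of an index. -/
def idxO (n : ℕ) (i : Idx n) : OB :=
  i.2.2.map (fun q => (((q.1 : ℕ) : ℤ), ((q.2.1 : ℕ) : ℤ), ((q.2.2.1 : ℕ) : ℤ), q.2.2.2))

/-- The condition of an index. -/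
def IdxP (n : ℕ) (i : Idx n) (k : ℕ → ℕ) : Prop :=
  (∀ c ∈ i.1, compare (k c.1) (k c.2) = i.2.1 c.1 c.2) ∧ ocond (lift n k) (idxO n i)

theorem exists_idx (n : ℕ) (hn : 0 < n) (κ : ℤ → ℕ) (hκ : ∀ x, κ (x + n) = κ x)
    (C : Finset (ℤ × ℤ)) (O : OB) (hO : ovalid n O) :
    ∃ i : Idx n, ∀ k, IdxP n i k ↔ (Agree κ (lift n k) C ∧ ocond (lift n k) O) := by
  classical
  have hn' : (0 : ℤ) < n := by omega
  have hlt : ∀ x : ℤ, (x % (n : ℤ)).toNat < n := by
    intro x
    have b1 := Int.emod_nonneg x hn'.ne'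
    have b2 := Int.emod_lt_of_pos x hn'
    omega
  have hlt' : ∀ x : ℤ, 0 ≤ x → x < n → x.toNat < n := by
    intro x h h'
    omega
  let toF : ℤ → Fin n := fun x => ⟨(x % (n : ℤ)).toNat, hlt x⟩
  have hA : ∀ k, (∀ c ∈ C.image (fun c => (toF c.1, toF c.2)),
      compare (k (c.1 : ℕ)) (k (c.2 : ℕ)) = compare (κ ((c.1 : ℕ) : ℤ)) (κ ((c.2 : ℕ) : ℤ))) ↔
      Agree κ (lift n k) C := by
    intro k
    have e : ∀ x : ℤ, κ (((toF x : Fin n) : ℕ) : ℤ) = κ x := by
      intro x
      have : (((toF x : Fin n) : ℕ) : ℤ) = x % n := Int.toNat_of_nonneg (Int.emod_nonneg _ hn'.ne')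
      rw [this, per_emod hκ]
    constructor
    · intro h c hc
      have := h (toF c.1, toF c.2) (Finset.mem_image_of_mem _ hc)
      simp only [e] at this
      exact this
    · intro h c hc
      obtain ⟨d, hd, rfl⟩ := Finset.mem_image.1 hc
      simp only [e]
      exact h d hd
  match O, hO with
  | none, _ =>
    refine ⟨(C.image (fun c => (toF c.1, toF c.2)),
      fun a b => compare (κ ((a : ℕ) : ℤ)) (κ ((b : ℕ) : ℤ)), none), ?_⟩
    intro k
    unfold IdxP idxO
    simp only [Option.map_none, ocond, and_true]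
    exact hA k
  | some (z, r1, r2, t), hO =>
    obtain ⟨h1, h2, h3⟩ := hO
    refine ⟨(C.image (fun c => (toF c.1, toF c.2)),
      fun a b => compare (κ ((a : ℕ) : ℤ)) (κ ((b : ℕ) : ℤ)),
      some (toF z, ⟨r1.toNat, hlt' r1 (by omega) (by omega)⟩,
        ⟨r2.toNat, hlt' r2 (by omega) (by omega)⟩, t)), ?_⟩
    intro k
    unfold IdxP idxO
    simp only [Option.map_some]
    have e1 : ((r1.toNat : ℕ) : ℤ) = r1 := Int.toNat_of_nonneg (by omega)
    have e2 : ((r2.toNat : ℕ) : ℤ) = r2 := Int.toNat_of_nonneg (by omega)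
    have ez : (((toF z : Fin n) : ℕ) : ℤ) = z % n := Int.toNat_of_nonneg (Int.emod_nonneg _ hn'.ne')
    have el : ∀ r : ℤ, lift n k (z % n + r) = lift n k (z + r) := by
      intro r
      simp [lift]
    have e0 : lift n k (z % n) = lift n k z := lift_emod n k z
    rw [hA k, ez, e1, e2]
    cases t with
    | true => simp only [ocond, el, e0]
    | false => simp only [ocond, el, e0]

instance (n : ℕ) : Finite (Idx n) := by
  have : Finite Ordering := by
    refine Set.finite_univ_iff.1 ?_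
    refine Set.Finite.subset (Set.toFinite {Ordering.lt, Ordering.eq, Ordering.gt}) ?_
    intro x _
    cases x <;> simp
  infer_instance

/-- Main combinatorial statement. -/
def MainComb : Prop := ∀ (n : ℕ), 2 ≤ n → ∀ κ : ℤ → ℕ, (∀ x, κ (x + n) = κ x) →
  (∀ p : ℕ, p.Prime → p ∣ n → ¬ ∀ x : ℤ, κ (x + (n : ℤ) / (p : ℤ)) = κ x) →
  ∃ (C : Finset (ℤ × ℤ)) (O : OB), Valid n C O ∧ ocond κ O ∧ Cert n κ n.primeFactors C O

/-- The language. -/
def Lg (n : ℕ) : Set (List Bool) :=
  {w : List Bool | (∃ ks : List ℕ, ks.length = n ∧ w = enc ks) ∧ Prim w}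

theorem main_of_comb (H : MainComb) (n : ℕ) : IsCF (Lg n) := by
  rcases Nat.eq_zero_or_pos n with rfl | hn
  · have : Lg 0 = ∅ := by
      ext w
      simp only [Lg, Set.mem_ofPred_eq, Set.mem_empty_iff_false, iff_false, not_and]
      rintro ⟨ks, h, rfl⟩ hP
      rw [List.length_eq_zero_iff] at h
      subst h
      have := hP [] 0 rfl
      omega
    rw [this]
    exact cf_empty
  -- the union of all sound systems
  let I : Set (Idx n) := {i | IsCF (segs 0 n (IdxP n i)) ∧ segs 0 n (IdxP n i) ⊆ Lg n}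
  have hfin : I.Finite := Set.toFinite I
  have hU := cf_iUnion I hfin (fun i => segs 0 n (IdxP n i)) (fun i hi => hi.1)
  convert hU using 1
  ext w
  simp only [Set.mem_iUnion, exists_prop]
  constructor
  · rintro ⟨⟨ks, hlen, rfl⟩, hP⟩
    set k : ℕ → ℕ := fun t => ks.getD t 0 with hk
    have hseg : enc ks = seg 0 n k := by rw [enc_eq_seg, hlen]
    rw [hseg] at hP ⊢
    obtain ⟨C, O, hV, hO, hC⟩ : ∃ (C : Finset (ℤ × ℤ)) (O : OB), Valid n C O ∧
        ocond (lift n k) O ∧ Cert n (lift n k) n.primeFactors C O := by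
      by_cases h2 : 2 ≤ n
      · exact H n h2 (lift n k) (lift_per n k) (fun p hp hpn => not_per_of_prim n hn k hP p hp hpn)
      · have : n = 1 := by omega
        subst this
        refine ⟨∅, none, ⟨by simp, by simp, by simp, trivial⟩, trivial, ?_⟩
        intro κ' _ _ _ p hp
        simp at hp
    obtain ⟨i, hi⟩ := exists_idx n hn (lift n k) (lift_per n k) C O hV.oval
    have hmem : IdxP n i k := (hi k).2 ⟨fun c _ => rfl, hO⟩
    refine ⟨i, ⟨?_, ?_⟩, k, hmem, rfl⟩
    · exact cfi_congr (sys_cf n hn (lift n k) (lift_per n k) C O hV) hi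
    · rintro w ⟨k', hk', rfl⟩
      obtain ⟨ha, hb⟩ := (hi k').1 hk'
      refine ⟨⟨(List.range n).map k', by simp, seg_eq_enc n k'⟩, ?_⟩
      apply prim_of_not_per n hn k'
      intro p hp hpn
      exact hC (lift n k') (lift_per n k') ha hb p (Nat.mem_primeFactors.2 ⟨hp, hpn, by omega⟩)
  · rintro ⟨i, hi, hw⟩
    exact hi.2 hw

end Pool.Agent.Helper336.PW
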