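import Pool.Agent.Helper336.Comb4

set_option autoImplicit false

namespace Pool.Agent.Helper336.PW

open Finset

theorem chord_ne {n g x : ℤ} (hg : 0 < g) (hgn : g < n) : x % n ≠ (x + g) % n := by
  intro h
  have h1 : n ∣ (x + g) - x := Int.ModEq.dvd (show x ≡ x + g [ZMOD n] from h)
  rw [show (x + g) - x = g by ring] at h1
  have := Int.le_of_dvd hg h1
  omega

theorem cmp_ne_of_ne {a b c d : ℕ} (h : compare a b = compare c d) (hc : c ≠ d) : a ≠ b := by
  intro e
  subst e
  rw [compare_eq_iff_eq.2 rfl] at h
  exact hc (compare_eq_iff_eq.1 h.symm)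

theorem base1 {n g x : ℤ} {κ : ℤ → ℕ} {p : ℕ} (hp : p.Prime) (hg : 0 < g) (hn : n = p * g)
    (hx : κ (x + g) ≠ κ x) :
    Valid n {(x, x + g)} none ∧ ocond κ none ∧ Cert n κ {p} {(x, x + g)} none := by
  have hp2 : (2 : ℤ) ≤ p := by exact_mod_cast hp.two_le
  have hgn : g < n := by rw [hn]; nlinarith
  refine ⟨⟨?_, ?_, ?_, trivial⟩, trivial, ?_⟩
  · intro c hc
    rw [Finset.mem_singleton] at hc
    subst hc
    exact chord_ne hg hgn
  · intro c hc d hd hcd
    rw [Finset.mem_singleton] at hc hd
    exact absurd (hc.trans hd.symm) hcd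
  · intro c _ a ha
    simp [overts] at ha
  · intro κ' _ hag _ q hq hper
    rw [Finset.mem_singleton] at hq
    subst hq
    have hd : n / (q : ℤ) = g := by
      rw [hn, Int.mul_ediv_cancel_left _ (by omega)]
    rw [hd] at hper
    have := hag (x, x + g) (by simp)
    exact cmp_ne_of_ne this (fun e => hx e.symm) (hper x).symm

/-- The two chords of the additive case. -/
theorem base2_nested {n g : ℤ} {κ : ℤ → ℕ} {p q : ℕ} (hp : p.Prime) (hpq : p < q)
    (hg : 0 < g) (hn : n = p * q * g) (z w : ℤ) (h1 : κ (z + q * g) ≠ κ z)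
    (h2 : κ (w + p * g) ≠ κ w) (h3 : z < w) (h4 : w + p * g < z + q * g) :
    Valid n {(z, z + q * g), (w, w + p * g)} none ∧ ocond κ none ∧
      Cert n κ {p, q} {(z, z + q * g), (w, w + p * g)} none := by
  have hp2 : (2 : ℤ) ≤ p := by exact_mod_cast hp.two_le
  have hpq' : (p : ℤ) < q := by exact_mod_cast hpq
  have hqg : 0 < (q : ℤ) * g := mul_pos (by omega) hg
  have hpg : 0 < (p : ℤ) * g := mul_pos (by omega) hg
  have hqn : (q : ℤ) * g < n := by rw [hn]; nlinarith
  have hpn : (p : ℤ) * g < n := by rw [hn]; nlinarith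
  have hn0 : 0 < n := by omega
  have hs : Sep n z (z + q * g) w (w + p * g) := by
    rw [sep_rot n hn0 z, show z - z = 0 by ring, Int.zero_emod, show z + q * g - z = q * g by ring,
      Int.emod_eq_of_lt hqg.le hqn, Int.emod_eq_of_lt (by omega) (by omega),
      Int.emod_eq_of_lt (by omega) (by omega)]
    unfold LSep
    omega
  refine ⟨⟨?_, ?_, ?_, trivial⟩, trivial, ?_⟩
  · intro c hc
    simp only [Finset.mem_insert, Finset.mem_singleton] at hc
    rcases hc with rfl | rfl
    · exact chord_ne hqg hqn
    · exact chord_ne hpg hpn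
  · intro c hc d hd hcd
    simp only [Finset.mem_insert, Finset.mem_singleton] at hc hd
    rcases hc with rfl | rfl <;> rcases hd with rfl | rfl
    · exact absurd rfl hcd
    · exact hs
    · exact hs.symm
    · exact absurd rfl hcd
  · intro c _ a ha
    simp [overts] at ha
  · intro κ' _ hag _ r hr hper
    simp only [Finset.mem_insert, Finset.mem_singleton] at hr
    rcases hr with rfl | rfl
    · have hd : n / (r : ℤ) = q * g := by
        rw [hn, mul_assoc, Int.mul_ediv_cancel_left _ (by omega)]
      rw [hd] at hper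
      have := hag (z, z + q * g) (by simp)
      exact cmp_ne_of_ne this (fun e => h1 e.symm) (hper z).symm
    · have hd : n / (r : ℤ) = p * g := by
        rw [hn, show (p : ℤ) * r * g = r * (p * g) by ring, Int.mul_ediv_cancel_left _ (by omega)]
      rw [hd] at hper
      have := hag (w, w + p * g) (by simp)
      exact cmp_ne_of_ne this (fun e => h2 e.symm) (hper w).symm

theorem base2_block {n g : ℤ} {κ : ℤ → ℕ} {p q : ℕ} (hp : p.Prime) (hpq : p < q)
    (hg : 0 < g) (hn : n = p * q * g) (z : ℤ) (t : Bool)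
    (h : ocond κ (some (z, p * g, q * g, t))) :
    Valid n ∅ (some (z, p * g, q * g, t)) ∧ ocond κ (some (z, p * g, q * g, t)) ∧
      Cert n κ {p, q} ∅ (some (z, p * g, q * g, t)) := by
  have hp2 : (2 : ℤ) ≤ p := by exact_mod_cast hp.two_le
  have hpq' : (p : ℤ) < q := by exact_mod_cast hpq
  have hpg : 0 < (p : ℤ) * g := by positivity
  refine ⟨⟨?_, ?_, ?_, ?_⟩, h, ?_⟩
  · intro c hc; simp at hc
  · intro c hc; simp at hc
  · intro c hc; simp at hc
  · refine ⟨hpg, ?_, ?_⟩
    · nlinarith
    · rw [hn]
      have h1 : (p : ℤ) + q < p * q := by nlinarith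
      nlinarith
  · intro κ' _ _ hO r hr hper
    simp only [Finset.mem_insert, Finset.mem_singleton] at hr
    rcases hr with rfl | rfl
    · have hd : n / (r : ℤ) = q * g := by
        rw [hn, mul_assoc, Int.mul_ediv_cancel_left _ (by omega)]
      rw [hd] at hper
      have e1 := hper z
      have e2 := hper (z + r * g)
      rw [show z + r * g + q * g = z + (r * g + q * g) by ring] at e2
      cases t with
      | true =>
        simp only [ocond] at hO
        omega
      | false =>
        simp only [ocond] at hO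
        omega
    · have hd : n / (r : ℤ) = p * g := by
        rw [hn, show (p : ℤ) * r * g = r * (p * g) by ring, Int.mul_ediv_cancel_left _ (by omega)]
      rw [hd] at hper
      have e1 := hper z
      have e2 := hper (z + r * g)
      rw [show z + r * g + p * g = z + (p * g + r * g) by ring] at e2
      cases t with
      | true =>
        simp only [ocond] at hO
        omega
      | false =>
        simp only [ocond] at hO
        omega

theorem base2 {n g : ℤ} {κ : ℤ → ℕ} {p q : ℕ} (hp : p.Prime)
    (hq : q.Prime) (hpq : p < q) (hg : 0 < g) (hn : n = p * q * g) (h1 : ¬ Per κ (q * g))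
    (h2 : ¬ Per κ (p * g)) :
    ∃ C O, Valid n C O ∧ ocond κ O ∧ Cert n κ {p, q} C O ∧
      ((∃ z t, C = ∅ ∧ O = some (z, (p : ℤ) * g, (q : ℤ) * g, t)) ∨
       (∃ z w, C = {(z, z + (q : ℤ) * g), (w, w + (p : ℤ) * g)} ∧ O = none)) := by
  by_cases hrect : ∃ z, κ z + κ (z + (p * g + q * g)) ≠ κ (z + p * g) + κ (z + q * g)
  · obtain ⟨z, hz⟩ := hrect
    obtain ⟨a, b, c⟩ := base2_block hp hpq hg hn z true hz
    exact ⟨_, _, a, b, c, Or.inl ⟨z, true, rfl, rfl⟩⟩
  · push Not at hrect
    -- additive case
    have hp2 : (2 : ℤ) ≤ p := by exact_mod_cast hp.two_le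
    have hpq' : (p : ℤ) < q := by exact_mod_cast hpq
    unfold Per at h1 h2
    push Not at h1 h2
    obtain ⟨z0, hz0⟩ := h1
    obtain ⟨w0, hw0⟩ := h2
    -- the difference functions are periodic
    have hA : Per (fun z => (κ (z + q * g) : ℤ) - κ z) (p * g) := by
      intro z
      have := hrect z
      have e1 : z + p * g + q * g = z + (p * g + q * g) := by ring
      simp only [e1]
      omega
    have hB : Per (fun z => (κ (z + p * g) : ℤ) - κ z) (q * g) := by
      intro z
      have := hrect z
      have e1 : z + q * g + p * g = z + (p * g + q * g) := by ring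
      simp only [e1]
      omega
    have hcop : IsCoprime (p : ℤ) (q : ℤ) := by
      rw [Nat.isCoprime_iff_coprime]
      exact (Nat.coprime_primes hp hq).2 (by omega)
    obtain ⟨u, v, huv⟩ := hcop
    -- for every target difference congruent to w0 - z0 mod g
    have key : ∀ δ : ℤ, g ∣ δ - (w0 - z0) → ∃ z w, w - z = δ ∧ κ (z + q * g) ≠ κ z ∧
        κ (w + p * g) ≠ κ w := by
      intro δ ⟨s, hs⟩
      refine ⟨z0 + (p * g) * (-(u * s)), w0 + (q * g) * (v * s), ?_, ?_, ?_⟩
      · linear_combination g * s * huv - hs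
      · have := hA.mul (-(u * s)) z0
        intro e
        apply hz0
        rw [e] at this
        omega
      · have := hB.mul (v * s) w0
        intro e
        apply hw0
        rw [e] at this
        omega
    have hρ0 := Int.emod_nonneg (w0 - z0) hg.ne'
    have hρ1 := Int.emod_lt_of_pos (w0 - z0) hg
    by_cases hρ : (w0 - z0) % g = 0
    · by_cases hq2 : p + 2 ≤ q
      · have hq2' : (p : ℤ) + 2 ≤ q := by exact_mod_cast hq2
        obtain ⟨z, w, hzw, e1, e2⟩ := key g (by
          have := Int.dvd_of_emod_eq_zero hρ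
          exact dvd_sub dvd_rfl this)
        obtain ⟨a, b, c⟩ := base2_nested hp hpq hg hn z w e1 e2 (by omega) (by nlinarith)
        exact ⟨_, _, a, b, c, Or.inr ⟨z, w, rfl, rfl⟩⟩
      · -- p = 2, q = 3
        obtain ⟨z, w, hzw, e1, e2⟩ := key 0 (by
          have := Int.dvd_of_emod_eq_zero hρ
          rw [zero_sub]
          exact (dvd_neg).2 this)
        have hzw' : w = z := by omega
        subst hzw'
        obtain ⟨a, b, c⟩ := base2_block (κ := κ) hp hpq hg hn w false (by
          have := hrect w
          simp only [ocond]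
          omega)
        exact ⟨_, _, a, b, c, Or.inl ⟨w, false, rfl, rfl⟩⟩
    · obtain ⟨z, w, hzw, e1, e2⟩ := key ((w0 - z0) % g) (by
        have := Int.mul_ediv_add_emod (w0 - z0) g
        exact ⟨-((w0 - z0) / g), by linear_combination this⟩)
      obtain ⟨a, b, c⟩ := base2_nested hp hpq hg hn z w e1 e2 (by omega) (by nlinarith)
      exact ⟨_, _, a, b, c, Or.inr ⟨z, w, rfl, rfl⟩⟩

end Pool.Agent.Helper336.PW
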