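import Mathlib

set_option autoImplicit false

namespace Pool.Agent.Helper336.BddExp

open scoped commutatorElement

open Matrix

/-! ### rings with many square-zero elements -/

lemma exists_ring : ∀ N : ℕ, ∃ (R : Type) (_ : CommRing R), Finite R ∧ CharP R 2 ∧
    ∃ l : List R, l.length = N ∧ (∀ a ∈ l, a ^ 2 = 0) ∧ l.prod ≠ 0 := by
  intro N
  induction N with
  | zero =>
    exact ⟨ZMod 2, inferInstance, inferInstance, inferInstance, [], rfl, by simp, by simp⟩
  | succ N ih =>
    obtain ⟨R, hR, hfin, hchar, l, hl, h2, hp⟩ := ih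
    refine ⟨DualNumber R, inferInstance, ?_, ?_,
      DualNumber.eps :: l.map (TrivSqZeroExt.inlHom R R), ?_, ?_, ?_⟩
    · exact Finite.of_injective (fun x : DualNumber R => (TrivSqZeroExt.fst x, TrivSqZeroExt.snd x))
        (by
          intro x y hxy
          simp only [Prod.mk.injEq] at hxy
          exact TrivSqZeroExt.ext hxy.1 hxy.2)
    · exact charP_of_injective_ringHom (f := TrivSqZeroExt.inlHom R R) TrivSqZeroExt.inl_injective 2
    · simp [hl]
    · intro a ha
      rcases List.mem_cons.1 ha with rfl | ha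
      · rw [pow_two]; exact DualNumber.eps_mul_eps
      · obtain ⟨b, hb, rfl⟩ := List.mem_map.1 ha
        rw [← map_pow, h2 b hb, map_zero]
    · rw [List.prod_cons, ← map_list_prod]
      intro h
      apply hp
      have h1 : TrivSqZeroExt.inlHom R R l.prod = TrivSqZeroExt.inl l.prod := rfl
      rw [h1, mul_comm, DualNumber.eps, TrivSqZeroExt.inl_mul_inr] at h
      have h2 := congrArg TrivSqZeroExt.snd h
      rw [TrivSqZeroExt.snd_inr, TrivSqZeroExt.snd_zero, smul_eq_mul, mul_one] at h2
      exact h2

/-! ### the finite 2-groups of exponent eight -/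

section
variable (R : Type) [CommRing R] [CharP R 2]

/-- Frobenius on invertible 3 by 3 matrices -/
noncomputable def FR : (Matrix (Fin 3) (Fin 3) R)ˣ →* (Matrix (Fin 3) (Fin 3) R)ˣ :=
  Units.map ((frobenius R 2).mapMatrix : Matrix (Fin 3) (Fin 3) R →+* Matrix (Fin 3) (Fin 3) R)

/-- matrices congruent to one modulo the kernel of Frobenius -/
noncomputable def PP : Subgroup (Matrix (Fin 3) (Fin 3) R)ˣ := (FR R).ker

variable {R}

lemma pow_six (A : Matrix (Fin 3) (Fin 3) R) (hA : A.map (frobenius R 2) = 0) : A ^ 6 = 0 := by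
  have h1 : A.charpoly.map (frobenius R 2) = Polynomial.X ^ 3 := by
    rw [← Matrix.charpoly_map, hA]
    simp
  have h2 : A.charpoly ^ 2 = Polynomial.X ^ 6 := by
    rw [← Polynomial.map_frobenius_expand 2, Polynomial.map_expand, h1]
    simp [← pow_mul]
  have h3 : Polynomial.aeval A (A.charpoly ^ 2) = 0 := by
    rw [map_pow, Matrix.aeval_self_charpoly]; simp
  rw [h2] at h3
  simpa using h3

lemma pow_eight (g : (Matrix (Fin 3) (Fin 3) R)ˣ) (hg : g ∈ PP R) : g ^ 8 = 1 := by
  have hg1 : ((g : Matrix (Fin 3) (Fin 3) R)).map (frobenius R 2) = 1 := by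
    have := congrArg (fun u : (Matrix (Fin 3) (Fin 3) R)ˣ => (u : Matrix (Fin 3) (Fin 3) R)) hg
    simpa [FR] using this
  set A : Matrix (Fin 3) (Fin 3) R := (g : Matrix (Fin 3) (Fin 3) R) - 1 with hAdef
  have hA : A.map (frobenius R 2) = 0 := by
    have h : (frobenius R 2).mapMatrix A = 0 := by
      rw [hAdef, map_sub, map_one]
      show (g : Matrix (Fin 3) (Fin 3) R).map (frobenius R 2) - 1 = 0
      rw [hg1, sub_self]
    exact h
  have h6 := pow_six A hA
  have h8 : A ^ 8 = 0 := by rw [show (8 : ℕ) = 6 + 2 from rfl, pow_add, h6, zero_mul]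
  have hgA : (g : Matrix (Fin 3) (Fin 3) R) = 1 + A := by rw [hAdef]; abel
  apply Units.ext
  rw [Units.val_pow_eq_pow_val, Units.val_one, hgA]
  have := add_pow_char_pow_of_commute 2 3 (Commute.one_left A)
  norm_num at this
  rw [this, h8, add_zero]

/-- elementary matrices -/
def EM (i j : Fin 3) (hij : i ≠ j) (a : R) : (Matrix (Fin 3) (Fin 3) R)ˣ where
  val := transvection i j a
  inv := transvection i j (-a)
  val_inv := by rw [transvection_mul_transvection_same _ _ hij]; simp
  inv_val := by rw [transvection_mul_transvection_same _ _ hij]; simp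

lemma EM_mem (i j : Fin 3) (hij : i ≠ j) (a : R) (ha : a ^ 2 = 0) : EM i j hij a ∈ PP R := by
  show FR R (EM i j hij a) = 1
  apply Units.ext
  show (transvection i j a).map (frobenius R 2) = 1
  ext k l
  simp only [transvection, Matrix.map_apply, Matrix.add_apply, map_add]
  by_cases h : i = k ∧ j = l
  · obtain ⟨rfl, rfl⟩ := h
    simp [hij, frobenius_def, ha]
  · have : (Matrix.single i j a) k l = 0 := Matrix.single_apply_of_ne _ _ _ _ _ h
    rw [this, map_zero, add_zero]
    by_cases hkl : k = l
    · subst hkl; simp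
    · simp [hkl]

lemma EM_comm (i j k : Fin 3) (hij : i ≠ j) (hik : i ≠ k) (hkj : k ≠ j) (a b : R) :
    ⁅EM i k hik a, EM k j hkj b⁆ = EM i j hij (a * b) := by
  apply Units.ext
  show transvection i k a * transvection k j b * transvection i k (-a) * transvection k j (-b)
    = transvection i j (a * b)
  have h1 : transvection i k (-a) = 1 - Matrix.single i k a := by
    rw [transvection, ← sub_neg_eq_add]; congr 1; ext x y; simp [Matrix.single]; split_ifs <;> simp
  have h2 : transvection k j (-b) = 1 - Matrix.single k j b := by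
    rw [transvection, ← sub_neg_eq_add]; congr 1; ext x y; simp [Matrix.single]; split_ifs <;> simp
  rw [h1, h2, transvection, transvection, transvection]
  have hXY : Matrix.single i k a * Matrix.single k j b = Matrix.single i j (a * b) :=
    Matrix.single_mul_single_same _ _ _ _ _
  have hYX : Matrix.single k j b * Matrix.single i k a = 0 :=
    Matrix.single_mul_single_of_ne _ _ _ _ (Ne.symm hij) _
  have hXX : Matrix.single i k a * Matrix.single i k a = 0 :=
    Matrix.single_mul_single_of_ne _ _ _ _ (Ne.symm hik) _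
  have hYY : Matrix.single k j b * Matrix.single k j b = 0 :=
    Matrix.single_mul_single_of_ne _ _ _ _ (Ne.symm hkj) _
  have hZX : Matrix.single i j (a * b) * Matrix.single i k a = 0 :=
    Matrix.single_mul_single_of_ne _ _ _ _ (Ne.symm hij) _
  have hZY : Matrix.single i j (a * b) * Matrix.single k j b = 0 :=
    Matrix.single_mul_single_of_ne _ _ _ _ (Ne.symm hkj) _
  generalize Matrix.single i k a = X at *
  generalize Matrix.single k j b = Y at *
  generalize Matrix.single i j (a * b) = Z at *
  simp only [mul_add, add_mul, mul_sub, sub_mul, mul_one, one_mul, hXY, hYX, hXX, hYY, hZX, hZY,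
    zero_mul, mul_zero]
  abel

/-- images of the derived series of `PP R` -/
noncomputable def DD (R : Type) [CommRing R] [CharP R 2] (L : ℕ) :
    Subgroup (Matrix (Fin 3) (Fin 3) R)ˣ :=
  (derivedSeries (PP R) L).map (PP R).subtype

lemma DD_prod (L : ℕ) : ∀ l : List R, l.length = 2 ^ L → (∀ a ∈ l, a ^ 2 = 0) →
    ∀ i j (hij : i ≠ j), EM i j hij l.prod ∈ DD R L := by
  induction L with
  | zero =>
    intro l hl h2 i j hij
    obtain ⟨a, rfl⟩ := List.length_eq_one_iff.1 hl
    rw [DD, derivedSeries_zero]
    refine ⟨⟨EM i j hij a, EM_mem i j hij a (h2 a (by simp))⟩, trivial, ?_⟩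
    simp
  | succ L ih =>
    intro l hl h2 i j hij
    obtain ⟨k, hik, hkj⟩ : ∃ k : Fin 3, i ≠ k ∧ k ≠ j := by
      revert i j; decide
    have h3 := ih (l.take (2 ^ L)) (by rw [List.length_take, hl, pow_succ]; omega)
      (fun a ha => h2 a (List.mem_of_mem_take ha)) i k hik
    have h4 := ih (l.drop (2 ^ L)) (by rw [List.length_drop, hl, pow_succ]; omega)
      (fun a ha => h2 a (List.mem_of_mem_drop ha)) k j hkj
    have h5 : l.prod = (l.take (2 ^ L)).prod * (l.drop (2 ^ L)).prod := by
      rw [← List.prod_append, List.take_append_drop]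
    rw [h5, ← EM_comm i j k hij hik hkj]
    have h6 : DD R (L + 1) = ⁅DD R L, DD R L⁆ := by
      rw [DD, derivedSeries_succ, Subgroup.map_commutator]; rfl
    rw [h6]
    exact Subgroup.commutator_mem_commutator h3 h4

end

/-- finite groups of exponent dividing eight with arbitrarily large derived length -/
theorem exists_group (L : ℕ) : ∃ (P : Type) (_ : Group P), Finite P ∧ (∀ g : P, g ^ 8 = 1) ∧
    derivedSeries P L ≠ ⊥ := by
  obtain ⟨R, hR, hfin, hchar, l, hl, h2, hp⟩ := exists_ring (2 ^ L)
  haveI := hfin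
  haveI := hchar
  refine ⟨PP R, inferInstance, inferInstance, fun g => Subtype.ext (pow_eight g.1 g.2), ?_⟩
  intro h
  have h1 := DD_prod L l hl h2 0 1 (by decide)
  rw [DD, h, Subgroup.map_bot, Subgroup.mem_bot] at h1
  have h3 := congrArg (fun u : (Matrix (Fin 3) (Fin 3) R)ˣ => (u : Matrix (Fin 3) (Fin 3) R) 0 1) h1
  simp [EM, transvection] at h3
  exact hp h3

end Pool.Agent.Helper336.BddExp
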