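import Pool.Agent.Helper336.CF

set_option autoImplicit false

namespace Pool.Agent.Helper336.CF

universe u

variable {T : Type u}

/-- Powers with exponent in `E`. -/
def pw (b : T) (E : Set ℕ) : Set (List T) := {w | ∃ e ∈ E, w = List.replicate e b}

/-- Wrapping with exponent in `E`. -/
def wr (b : T) (E : Set ℕ) (L : Set (List T)) : Set (List T) :=
  {w | ∃ e ∈ E, ∃ u ∈ L, w = List.replicate e b ++ u ++ List.replicate e b}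

/-- Positive exponents. -/
def ZP : Set ℕ := {e | 1 ≤ e}

theorem cf_pw_zero (b : T) : IsCF (pw b ({0} : Set ℕ)) := by
  have := cf_singleton (T := T) []
  convert this using 1
  ext w
  simp [pw]

theorem cf_pw_univ (b : T) : IsCF (pw b (Set.univ : Set ℕ)) := by
  have := cf_pow (T := T) b
  convert this using 1
  ext w
  simp [pw]

theorem cf_pw_pos (b : T) : IsCF (pw b ZP) := by
  have := cf_cat (cf_singleton (T := T) [b]) (cf_pow (T := T) b)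
  convert this using 1
  ext w
  simp only [pw, ZP, cat, Set.mem_ofPred_eq, Set.mem_singleton_iff]
  constructor
  · rintro ⟨e, he, rfl⟩
    refine ⟨[b], rfl, List.replicate (e - 1) b, ⟨_, rfl⟩, ?_⟩
    obtain ⟨e, rfl⟩ := Nat.exists_eq_add_of_le' he
    simp [List.replicate_succ]
  · rintro ⟨_, rfl, _, ⟨e, rfl⟩, rfl⟩
    exact ⟨e + 1, by omega, by simp [List.replicate_succ]⟩

theorem cf_wr (b : T) {E : Set ℕ} (hE : E = {0} ∨ E = Set.univ) {L : Set (List T)}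
    (h : IsCF L) : IsCF (wr b E L) := by
  rcases hE with rfl | rfl
  · convert h using 1
    ext w
    simp [wr]
  · have := cf_wrap b h
    convert this using 1
    ext w
    simp [wr, wrap]

/-- Four blocks of `b`s separated by words of three languages. -/
def blk (b : T) (U1 U2 U3 : Set (List T)) (R : ℕ → ℕ → ℕ → ℕ → Prop) : Set (List T) :=
  {w | ∃ x0 x1 x2 x3, R x0 x1 x2 x3 ∧ ∃ u1 ∈ U1, ∃ u2 ∈ U2, ∃ u3 ∈ U3,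
    w = List.replicate x0 b ++ (u1 ++ (List.replicate x1 b ++ (u2 ++ (List.replicate x2 b ++
      (u3 ++ List.replicate x3 b)))))}

/-- All four-block languages with relation `R` are context-free. -/
def BlkCF (b : T) (R : ℕ → ℕ → ℕ → ℕ → Prop) : Prop :=
  ∀ U1 U2 U3 : Set (List T), IsCF U1 → IsCF U2 → IsCF U3 → IsCF (blk b U1 U2 U3 R)

theorem blkCF_or {b : T} {R R' : ℕ → ℕ → ℕ → ℕ → Prop} (h : BlkCF b R) (h' : BlkCF b R') :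
    BlkCF b (fun x0 x1 x2 x3 => R x0 x1 x2 x3 ∨ R' x0 x1 x2 x3) := by
  intro U1 U2 U3 h1 h2 h3
  have := cf_union (h U1 U2 U3 h1 h2 h3) (h' U1 U2 U3 h1 h2 h3)
  convert this using 1
  ext w
  simp only [blk, Set.mem_ofPred_eq, Set.mem_union]
  constructor
  · rintro ⟨x0, x1, x2, x3, h | h, h'⟩
    · exact Or.inl ⟨x0, x1, x2, x3, h, h'⟩
    · exact Or.inr ⟨x0, x1, x2, x3, h, h'⟩
  · rintro (⟨x0, x1, x2, x3, h, h'⟩ | ⟨x0, x1, x2, x3, h, h'⟩)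
    · exact ⟨x0, x1, x2, x3, Or.inl h, h'⟩
    · exact ⟨x0, x1, x2, x3, Or.inr h, h'⟩

theorem blkCF_congr {b : T} {R R' : ℕ → ℕ → ℕ → ℕ → Prop} (h : BlkCF b R)
    (e : ∀ x0 x1 x2 x3, R' x0 x1 x2 x3 ↔ R x0 x1 x2 x3) : BlkCF b R' := by
  have : R' = R := by
    funext x0 x1 x2 x3
    exact propext (e x0 x1 x2 x3)
  rw [this]; exact h

/-- Cells with the diagonal `02`. -/
theorem cell02 (b : T) (S0 S1 S2 S3 E03 E02 E01 E12 E23 : Set ℕ)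
    (hS0 : IsCF (pw b S0)) (hS1 : IsCF (pw b S1)) (hS2 : IsCF (pw b S2)) (hS3 : IsCF (pw b S3))
    (h03 : E03 = {0} ∨ E03 = Set.univ) (h02 : E02 = {0} ∨ E02 = Set.univ)
    (h01 : E01 = {0} ∨ E01 = Set.univ) (h12 : E12 = {0} ∨ E12 = Set.univ)
    (h23 : E23 = {0} ∨ E23 = Set.univ) :
    BlkCF b (fun x0 x1 x2 x3 => ∃ s0 ∈ S0, ∃ s1 ∈ S1, ∃ s2 ∈ S2, ∃ s3 ∈ S3,
      ∃ e03 ∈ E03, ∃ e02 ∈ E02, ∃ e01 ∈ E01, ∃ e12 ∈ E12, ∃ e23 ∈ E23,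
      x0 = s0 + e03 + e02 + e01 ∧ x1 = e01 + s1 + e12 ∧ x2 = e12 + e02 + s2 + e23 ∧
      x3 = e23 + e03 + s3) := by
  intro U1 U2 U3 h1 h2 h3
  have := cf_cat hS0 (cf_cat (cf_wr b h03 (cf_cat (cf_wr b h02 (cf_cat (cf_wr b h01 h1)
    (cf_cat hS1 (cf_wr b h12 h2)))) (cf_cat hS2 (cf_wr b h23 h3)))) hS3)
  convert this using 1
  ext w
  simp only [blk, cat, wr, pw, Set.mem_ofPred_eq]
  constructor
  · rintro ⟨_, _, _, _, ⟨s0, m0, s1, m1, s2, m2, s3, m3, e03, k03, e02, k02, e01, k01, e12, k12,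
      e23, k23, rfl, rfl, rfl, rfl⟩, u1, v1, u2, v2, u3, v3, rfl⟩
    refine ⟨_, ⟨s0, m0, rfl⟩, _, ⟨_, ⟨e03, k03, _, ⟨_, ⟨e02, k02, _, ⟨_, ⟨e01, k01, u1, v1, rfl⟩, _,
      ⟨_, ⟨s1, m1, rfl⟩, _, ⟨e12, k12, u2, v2, rfl⟩, rfl⟩, rfl⟩, rfl⟩, _,
      ⟨_, ⟨s2, m2, rfl⟩, _, ⟨e23, k23, u3, v3, rfl⟩, rfl⟩, rfl⟩, rfl⟩, _, ⟨s3, m3, rfl⟩, rfl⟩, ?_⟩
    simp only [List.replicate_add, List.append_assoc]
  · rintro ⟨_, ⟨s0, m0, rfl⟩, _, ⟨_, ⟨e03, k03, _, ⟨_, ⟨e02, k02, _, ⟨_, ⟨e01, k01, u1, v1, rfl⟩, _,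
      ⟨_, ⟨s1, m1, rfl⟩, _, ⟨e12, k12, u2, v2, rfl⟩, rfl⟩, rfl⟩, rfl⟩, _,
      ⟨_, ⟨s2, m2, rfl⟩, _, ⟨e23, k23, u3, v3, rfl⟩, rfl⟩, rfl⟩, rfl⟩, _, ⟨s3, m3, rfl⟩, rfl⟩, rfl⟩
    refine ⟨_, _, _, _, ⟨s0, m0, s1, m1, s2, m2, s3, m3, e03, k03, e02, k02, e01, k01, e12, k12,
      e23, k23, rfl, rfl, rfl, rfl⟩, u1, v1, u2, v2, u3, v3, ?_⟩
    simp only [List.replicate_add, List.append_assoc]

/-- Cells with the diagonal `13`. -/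
theorem cell13 (b : T) (S0 S1 S2 S3 E03 E13 E01 E12 E23 : Set ℕ)
    (hS0 : IsCF (pw b S0)) (hS1 : IsCF (pw b S1)) (hS2 : IsCF (pw b S2)) (hS3 : IsCF (pw b S3))
    (h03 : E03 = {0} ∨ E03 = Set.univ) (h13 : E13 = {0} ∨ E13 = Set.univ)
    (h01 : E01 = {0} ∨ E01 = Set.univ) (h12 : E12 = {0} ∨ E12 = Set.univ)
    (h23 : E23 = {0} ∨ E23 = Set.univ) :
    BlkCF b (fun x0 x1 x2 x3 => ∃ s0 ∈ S0, ∃ s1 ∈ S1, ∃ s2 ∈ S2, ∃ s3 ∈ S3,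
      ∃ e03 ∈ E03, ∃ e13 ∈ E13, ∃ e01 ∈ E01, ∃ e12 ∈ E12, ∃ e23 ∈ E23,
      x0 = s0 + e03 + e01 ∧ x1 = e01 + s1 + e13 + e12 ∧ x2 = e12 + s2 + e23 ∧
      x3 = e23 + e13 + e03 + s3) := by
  intro U1 U2 U3 h1 h2 h3
  have := cf_cat hS0 (cf_cat (cf_wr b h03 (cf_cat (cf_wr b h01 h1) (cf_cat hS1
    (cf_wr b h13 (cf_cat (cf_wr b h12 h2) (cf_cat hS2 (cf_wr b h23 h3))))))) hS3)
  convert this using 1
  ext w
  simp only [blk, cat, wr, pw, Set.mem_ofPred_eq]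
  constructor
  · rintro ⟨_, _, _, _, ⟨s0, m0, s1, m1, s2, m2, s3, m3, e03, k03, e13, k13, e01, k01, e12, k12,
      e23, k23, rfl, rfl, rfl, rfl⟩, u1, v1, u2, v2, u3, v3, rfl⟩
    refine ⟨_, ⟨s0, m0, rfl⟩, _, ⟨_, ⟨e03, k03, _, ⟨_, ⟨e01, k01, u1, v1, rfl⟩, _,
      ⟨_, ⟨s1, m1, rfl⟩, _, ⟨e13, k13, _, ⟨_, ⟨e12, k12, u2, v2, rfl⟩, _, ⟨_, ⟨s2, m2, rfl⟩, _,
      ⟨e23, k23, u3, v3, rfl⟩, rfl⟩, rfl⟩, rfl⟩, rfl⟩, rfl⟩, rfl⟩, _, ⟨s3, m3, rfl⟩, rfl⟩, ?_⟩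
    simp only [List.replicate_add, List.append_assoc]
  · rintro ⟨_, ⟨s0, m0, rfl⟩, _, ⟨_, ⟨e03, k03, _, ⟨_, ⟨e01, k01, u1, v1, rfl⟩, _,
      ⟨_, ⟨s1, m1, rfl⟩, _, ⟨e13, k13, _, ⟨_, ⟨e12, k12, u2, v2, rfl⟩, _, ⟨_, ⟨s2, m2, rfl⟩, _,
      ⟨e23, k23, u3, v3, rfl⟩, rfl⟩, rfl⟩, rfl⟩, rfl⟩, rfl⟩, rfl⟩, _, ⟨s3, m3, rfl⟩, rfl⟩, rfl⟩
    refine ⟨_, _, _, _, ⟨s0, m0, s1, m1, s2, m2, s3, m3, e03, k03, e13, k13, e01, k01, e12, k12,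
      e23, k23, rfl, rfl, rfl, rfl⟩, u1, v1, u2, v2, u3, v3, ?_⟩
    simp only [List.replicate_add, List.append_assoc]

/-- Relation relA. -/
theorem relA_cf (b : T) : BlkCF b (fun x0 x1 x2 x3 => x0 + x3 ≠ x1 + x2) := by
  refine blkCF_congr (blkCF_or (cell02 b ZP {0} {0} Set.univ {0} Set.univ Set.univ {0} Set.univ (cf_pw_pos b) (cf_pw_zero b) (cf_pw_zero b) (cf_pw_univ b) (Or.inl rfl) (Or.inr rfl) (Or.inr rfl) (Or.inl rfl) (Or.inr rfl))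
    (blkCF_or (cell13 b {0} {0} {0} ZP {0} Set.univ Set.univ {0} Set.univ (cf_pw_zero b) (cf_pw_zero b) (cf_pw_zero b) (cf_pw_pos b) (Or.inl rfl) (Or.inr rfl) (Or.inr rfl) (Or.inl rfl) (Or.inr rfl))
    (blkCF_or (cell13 b {0} ZP Set.univ {0} {0} Set.univ Set.univ {0} Set.univ (cf_pw_zero b) (cf_pw_pos b) (cf_pw_univ b) (cf_pw_zero b) (Or.inl rfl) (Or.inr rfl) (Or.inr rfl) (Or.inl rfl) (Or.inr rfl))
    (cell02 b {0} {0} ZP {0} {0} Set.univ Set.univ {0} Set.univ (cf_pw_zero b) (cf_pw_zero b) (cf_pw_pos b) (cf_pw_zero b) (Or.inl rfl) (Or.inr rfl) (Or.inr rfl) (Or.inl rfl) (Or.inr rfl))))) ?_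
  intro x0 x1 x2 x3
  simp only [ZP, Set.mem_ofPred_eq, Set.mem_univ, Set.mem_singleton_iff, true_and, exists_eq_left]
  constructor
  · intro h
    have hc : ((x1 + x2 < x0 + x3) ∧ (x1 ≤ x0) ∧ (x2 ≤ x3) ∧ (x1 < x0)) ∨ ((x1 + x2 < x0 + x3) ∧ (x1 ≤ x0) ∧ (x2 ≤ x3) ∧ (¬ (x1 < x0))) ∨ ((x1 + x2 < x0 + x3) ∧ (x1 ≤ x0) ∧ (¬ (x2 ≤ x3))) ∨ ((x1 + x2 < x0 + x3) ∧ (¬ (x1 ≤ x0))) ∨ ((¬ (x1 + x2 < x0 + x3)) ∧ (x0 ≤ x1) ∧ (x3 ≤ x2) ∧ (x0 < x1)) ∨ ((¬ (x1 + x2 < x0 + x3)) ∧ (x0 ≤ x1) ∧ (x3 ≤ x2) ∧ (¬ (x0 < x1))) ∨ ((¬ (x1 + x2 < x0 + x3)) ∧ (x0 ≤ x1) ∧ (¬ (x3 ≤ x2))) ∨ ((¬ (x1 + x2 < x0 + x3)) ∧ (¬ (x0 ≤ x1))) := by omega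
    rcases hc with hc | hc | hc | hc | hc | hc | hc | hc
    · exact Or.inl (⟨x0 - x1, (by omega), x3 - x2, 0, x1, x2, by omega, by omega, by omega, by omega⟩)
    · exact Or.inr (Or.inl (⟨x3 - x2, (by omega), 0, x1, x2, by omega, by omega, by omega, by omega⟩))
    · exact Or.inl (⟨x0 - x1 - (x2 - x3), (by omega), 0, x2 - x3, x1, x3, by omega, by omega, by omega, by omega⟩)
    · exact Or.inr (Or.inl (⟨x3 - x2 - (x1 - x0), (by omega), x1 - x0, x0, x2, by omega, by omega, by omega, by omega⟩))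
    · exact Or.inr (Or.inr (Or.inl (⟨x1 - x0, (by omega), x2 - x3, 0, x0, x3, by omega, by omega, by omega, by omega⟩)))
    · exact Or.inr (Or.inr (Or.inr (⟨x2 - x3, (by omega), 0, x0, x3, by omega, by omega, by omega, by omega⟩)))
    · exact Or.inr (Or.inr (Or.inl (⟨x1 - x0 - (x3 - x2), (by omega), 0, x3 - x2, x0, x2, by omega, by omega, by omega, by omega⟩)))
    · exact Or.inr (Or.inr (Or.inr (⟨x2 - x3 - (x0 - x1), (by omega), x0 - x1, x1, x3, by omega, by omega, by omega, by omega⟩)))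
  · intro h
    rcases h with ⟨s0, hs0, s3, e02, e01, e23, k0, k1, k2, k3⟩ |
      ⟨s3, hs3, e13, e01, e23, k0, k1, k2, k3⟩ |
      ⟨s1, hs1, s2, e13, e01, e23, k0, k1, k2, k3⟩ |
      ⟨s2, hs2, e02, e01, e23, k0, k1, k2, k3⟩ <;> omega

/-- Relation relB. -/
theorem relB_cf (b : T) : BlkCF b (fun x0 x1 x2 x3 => x0 + x1 ≠ x2 + x3) := by
  refine blkCF_congr (blkCF_or (cell02 b ZP Set.univ {0} {0} Set.univ Set.univ {0} Set.univ {0} (cf_pw_pos b) (cf_pw_univ b) (cf_pw_zero b) (cf_pw_zero b) (Or.inr rfl) (Or.inr rfl) (Or.inl rfl) (Or.inr rfl) (Or.inl rfl))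
    (blkCF_or (cell13 b {0} ZP {0} {0} Set.univ Set.univ {0} Set.univ {0} (cf_pw_zero b) (cf_pw_pos b) (cf_pw_zero b) (cf_pw_zero b) (Or.inr rfl) (Or.inr rfl) (Or.inl rfl) (Or.inr rfl) (Or.inl rfl))
    (blkCF_or (cell13 b {0} {0} Set.univ ZP Set.univ Set.univ {0} Set.univ {0} (cf_pw_zero b) (cf_pw_zero b) (cf_pw_univ b) (cf_pw_pos b) (Or.inr rfl) (Or.inr rfl) (Or.inl rfl) (Or.inr rfl) (Or.inl rfl))
    (cell02 b {0} {0} ZP {0} Set.univ Set.univ {0} Set.univ {0} (cf_pw_zero b) (cf_pw_zero b) (cf_pw_pos b) (cf_pw_zero b) (Or.inr rfl) (Or.inr rfl) (Or.inl rfl) (Or.inr rfl) (Or.inl rfl))))) ?_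
  intro x0 x1 x2 x3
  simp only [ZP, Set.mem_ofPred_eq, Set.mem_univ, Set.mem_singleton_iff, true_and, exists_eq_left]
  constructor
  · intro h
    have hc : ((x2 + x3 < x0 + x1) ∧ (x2 ≤ x1) ∧ (x3 ≤ x0) ∧ (x3 < x0)) ∨ ((x2 + x3 < x0 + x1) ∧ (x2 ≤ x1) ∧ (x3 ≤ x0) ∧ (¬ (x3 < x0))) ∨ ((x2 + x3 < x0 + x1) ∧ (x2 ≤ x1) ∧ (¬ (x3 ≤ x0))) ∨ ((x2 + x3 < x0 + x1) ∧ (¬ (x2 ≤ x1))) ∨ ((¬ (x2 + x3 < x0 + x1)) ∧ (x1 ≤ x2) ∧ (x0 ≤ x3) ∧ (x0 < x3)) ∨ ((¬ (x2 + x3 < x0 + x1)) ∧ (x1 ≤ x2) ∧ (x0 ≤ x3) ∧ (¬ (x0 < x3))) ∨ ((¬ (x2 + x3 < x0 + x1)) ∧ (x1 ≤ x2) ∧ (¬ (x0 ≤ x3))) ∨ ((¬ (x2 + x3 < x0 + x1)) ∧ (¬ (x1 ≤ x2))) := by omega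
    rcases hc with hc | hc | hc | hc | hc | hc | hc | hc
    · exact Or.inl (⟨x0 - x3, (by omega), x1 - x2, x3, 0, x2, by omega, by omega, by omega, by omega⟩)
    · exact Or.inr (Or.inl (⟨x1 - x2, (by omega), x3, 0, x2, by omega, by omega, by omega, by omega⟩))
    · exact Or.inr (Or.inl (⟨x1 - x2 - (x3 - x0), (by omega), x0, x3 - x0, x2, by omega, by omega, by omega, by omega⟩))
    · exact Or.inl (⟨x0 - (x2 - x1) - x3, (by omega), 0, x3, x2 - x1, x1, by omega, by omega, by omega, by omega⟩)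
    · exact Or.inr (Or.inr (Or.inl (⟨x2 - x1, x3 - x0, (by omega), x0, 0, x1, by omega, by omega, by omega, by omega⟩)))
    · exact Or.inr (Or.inr (Or.inr (⟨x2 - x1, (by omega), x0, 0, x1, by omega, by omega, by omega, by omega⟩)))
    · exact Or.inr (Or.inr (Or.inr (⟨x2 - x1 - (x0 - x3), (by omega), x3, x0 - x3, x1, by omega, by omega, by omega, by omega⟩)))
    · exact Or.inr (Or.inr (Or.inl (⟨0, x3 - (x1 - x2) - x0, (by omega), x0, x1 - x2, x2, by omega, by omega, by omega, by omega⟩)))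
  · intro h
    rcases h with ⟨s0, hs0, s1, e03, e02, e12, k0, k1, k2, k3⟩ |
      ⟨s1, hs1, e03, e13, e12, k0, k1, k2, k3⟩ |
      ⟨s2, s3, hs3, e03, e13, e12, k0, k1, k2, k3⟩ |
      ⟨s2, hs2, e03, e02, e12, k0, k1, k2, k3⟩ <;> omega

/-- Relation relC. -/
theorem relC_cf (b : T) : BlkCF b (fun x0 x1 x2 x3 => x0 + x2 ≠ x1 + x3 ∧ x0 + x1 ≠ x2 + x3) := by
  refine blkCF_congr (blkCF_or (cell02 b ZP {0} {0} {0} Set.univ {0} Set.univ Set.univ {0} (cf_pw_pos b) (cf_pw_zero b) (cf_pw_zero b) (cf_pw_zero b) (Or.inr rfl) (Or.inl rfl) (Or.inr rfl) (Or.inr rfl) (Or.inl rfl))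
    (blkCF_or (cell02 b {0} ZP {0} {0} Set.univ {0} Set.univ Set.univ {0} (cf_pw_zero b) (cf_pw_pos b) (cf_pw_zero b) (cf_pw_zero b) (Or.inr rfl) (Or.inl rfl) (Or.inr rfl) (Or.inr rfl) (Or.inl rfl))
    (blkCF_or (cell02 b ZP {0} {0} {0} Set.univ Set.univ {0} Set.univ {0} (cf_pw_pos b) (cf_pw_zero b) (cf_pw_zero b) (cf_pw_zero b) (Or.inr rfl) (Or.inr rfl) (Or.inl rfl) (Or.inr rfl) (Or.inl rfl))
    (blkCF_or (cell02 b {0} {0} ZP {0} Set.univ Set.univ {0} Set.univ {0} (cf_pw_zero b) (cf_pw_zero b) (cf_pw_pos b) (cf_pw_zero b) (Or.inr rfl) (Or.inr rfl) (Or.inl rfl) (Or.inr rfl) (Or.inl rfl))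
    (blkCF_or (cell13 b {0} {0} {0} ZP Set.univ Set.univ {0} Set.univ {0} (cf_pw_zero b) (cf_pw_zero b) (cf_pw_zero b) (cf_pw_pos b) (Or.inr rfl) (Or.inr rfl) (Or.inl rfl) (Or.inr rfl) (Or.inl rfl))
    (blkCF_or (cell13 b {0} ZP {0} {0} Set.univ Set.univ {0} Set.univ {0} (cf_pw_zero b) (cf_pw_pos b) (cf_pw_zero b) (cf_pw_zero b) (Or.inr rfl) (Or.inr rfl) (Or.inl rfl) (Or.inr rfl) (Or.inl rfl))
    (blkCF_or (cell13 b {0} {0} {0} ZP Set.univ {0} {0} Set.univ Set.univ (cf_pw_zero b) (cf_pw_zero b) (cf_pw_zero b) (cf_pw_pos b) (Or.inr rfl) (Or.inl rfl) (Or.inl rfl) (Or.inr rfl) (Or.inr rfl))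
    (cell13 b {0} {0} ZP {0} Set.univ {0} {0} Set.univ Set.univ (cf_pw_zero b) (cf_pw_zero b) (cf_pw_pos b) (cf_pw_zero b) (Or.inr rfl) (Or.inl rfl) (Or.inl rfl) (Or.inr rfl) (Or.inr rfl))))))))) ?_
  intro x0 x1 x2 x3
  simp only [ZP, Set.mem_ofPred_eq, Set.mem_univ, Set.mem_singleton_iff, true_and, exists_eq_left]
  constructor
  · intro h
    have hc : ((x3 ≤ x0) ∧ (x2 ≤ x1) ∧ (x1 - x2 < x0 - x3)) ∨ ((x3 ≤ x0) ∧ (x2 ≤ x1) ∧ (¬ (x1 - x2 < x0 - x3))) ∨ ((x3 ≤ x0) ∧ (¬ (x2 ≤ x1)) ∧ (x2 - x1 < x0 - x3)) ∨ ((x3 ≤ x0) ∧ (¬ (x2 ≤ x1)) ∧ (¬ (x2 - x1 < x0 - x3))) ∨ ((¬ (x3 ≤ x0)) ∧ (x2 ≤ x1) ∧ (x1 - x2 < x3 - x0)) ∨ ((¬ (x3 ≤ x0)) ∧ (x2 ≤ x1) ∧ (¬ (x1 - x2 < x3 - x0))) ∨ ((¬ (x3 ≤ x0)) ∧ (¬ (x2 ≤ x1)) ∧ (x2 - x1 < x3 - x0)) ∨ ((¬ (x3 ≤ x0)) ∧ (¬ (x2 ≤ x1)) ∧ (¬ (x2 - x1 < x3 - x0))) := by omega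
    rcases hc with hc | hc | hc | hc | hc | hc | hc | hc
    · exact Or.inl (⟨x0 - x3 - (x1 - x2), (by omega), x3, x1 - x2, x2, by omega, by omega, by omega, by omega⟩)
    · exact Or.inr (Or.inl (⟨x1 - x2 - (x0 - x3), (by omega), x3, x0 - x3, x2, by omega, by omega, by omega, by omega⟩))
    · exact Or.inr (Or.inr (Or.inl (⟨x0 - x3 - (x2 - x1), (by omega), x3, x2 - x1, x1, by omega, by omega, by omega, by omega⟩)))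
    · exact Or.inr (Or.inr (Or.inr (Or.inl (⟨x2 - x1 - (x0 - x3), (by omega), x3, x0 - x3, x1, by omega, by omega, by omega, by omega⟩))))
    · exact Or.inr (Or.inr (Or.inr (Or.inr (Or.inl (⟨x3 - x0 - (x1 - x2), (by omega), x0, x1 - x2, x2, by omega, by omega, by omega, by omega⟩)))))
    · exact Or.inr (Or.inr (Or.inr (Or.inr (Or.inr (Or.inl (⟨x1 - x2 - (x3 - x0), (by omega), x0, x3 - x0, x2, by omega, by omega, by omega, by omega⟩))))))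
    · exact Or.inr (Or.inr (Or.inr (Or.inr (Or.inr (Or.inr (Or.inl (⟨x3 - x0 - (x2 - x1), (by omega), x0, x1, x2 - x1, by omega, by omega, by omega, by omega⟩)))))))
    · exact Or.inr (Or.inr (Or.inr (Or.inr (Or.inr (Or.inr (Or.inr (⟨x2 - x1 - (x3 - x0), (by omega), x0, x1, x3 - x0, by omega, by omega, by omega, by omega⟩)))))))
  · intro h
    rcases h with ⟨s0, hs0, e03, e01, e12, k0, k1, k2, k3⟩ |
      ⟨s1, hs1, e03, e01, e12, k0, k1, k2, k3⟩ |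
      ⟨s0, hs0, e03, e02, e12, k0, k1, k2, k3⟩ |
      ⟨s2, hs2, e03, e02, e12, k0, k1, k2, k3⟩ |
      ⟨s3, hs3, e03, e13, e12, k0, k1, k2, k3⟩ |
      ⟨s1, hs1, e03, e13, e12, k0, k1, k2, k3⟩ |
      ⟨s3, hs3, e03, e12, e23, k0, k1, k2, k3⟩ |
      ⟨s2, hs2, e03, e12, e23, k0, k1, k2, k3⟩ <;> omega

/-- Relation relD. -/
theorem relD_cf (b : T) : BlkCF b (fun x0 x1 x2 x3 => x0 + x2 ≠ x1 + x3 ∧ x0 + x3 ≠ x1 + x2) := by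
  refine blkCF_congr (blkCF_or (cell02 b ZP {0} {0} {0} {0} Set.univ Set.univ {0} Set.univ (cf_pw_pos b) (cf_pw_zero b) (cf_pw_zero b) (cf_pw_zero b) (Or.inl rfl) (Or.inr rfl) (Or.inr rfl) (Or.inl rfl) (Or.inr rfl))
    (blkCF_or (cell02 b {0} {0} ZP {0} {0} Set.univ Set.univ {0} Set.univ (cf_pw_zero b) (cf_pw_zero b) (cf_pw_pos b) (cf_pw_zero b) (Or.inl rfl) (Or.inr rfl) (Or.inr rfl) (Or.inl rfl) (Or.inr rfl))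
    (blkCF_or (cell02 b ZP {0} {0} {0} Set.univ {0} Set.univ {0} Set.univ (cf_pw_pos b) (cf_pw_zero b) (cf_pw_zero b) (cf_pw_zero b) (Or.inr rfl) (Or.inl rfl) (Or.inr rfl) (Or.inl rfl) (Or.inr rfl))
    (blkCF_or (cell02 b {0} {0} {0} ZP Set.univ {0} Set.univ {0} Set.univ (cf_pw_zero b) (cf_pw_zero b) (cf_pw_zero b) (cf_pw_pos b) (Or.inr rfl) (Or.inl rfl) (Or.inr rfl) (Or.inl rfl) (Or.inr rfl))
    (blkCF_or (cell13 b {0} ZP {0} {0} {0} {0} Set.univ Set.univ Set.univ (cf_pw_zero b) (cf_pw_pos b) (cf_pw_zero b) (cf_pw_zero b) (Or.inl rfl) (Or.inl rfl) (Or.inr rfl) (Or.inr rfl) (Or.inr rfl))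
    (blkCF_or (cell13 b {0} {0} ZP {0} {0} {0} Set.univ Set.univ Set.univ (cf_pw_zero b) (cf_pw_zero b) (cf_pw_pos b) (cf_pw_zero b) (Or.inl rfl) (Or.inl rfl) (Or.inr rfl) (Or.inr rfl) (Or.inr rfl))
    (blkCF_or (cell13 b {0} ZP {0} {0} {0} Set.univ Set.univ {0} Set.univ (cf_pw_zero b) (cf_pw_pos b) (cf_pw_zero b) (cf_pw_zero b) (Or.inl rfl) (Or.inr rfl) (Or.inr rfl) (Or.inl rfl) (Or.inr rfl))
    (cell13 b {0} {0} {0} ZP {0} Set.univ Set.univ {0} Set.univ (cf_pw_zero b) (cf_pw_zero b) (cf_pw_zero b) (cf_pw_pos b) (Or.inl rfl) (Or.inr rfl) (Or.inr rfl) (Or.inl rfl) (Or.inr rfl))))))))) ?_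
  intro x0 x1 x2 x3
  simp only [ZP, Set.mem_ofPred_eq, Set.mem_univ, Set.mem_singleton_iff, true_and, exists_eq_left]
  constructor
  · intro h
    have hc : ((x1 ≤ x0) ∧ (x3 ≤ x2) ∧ (x2 - x3 < x0 - x1)) ∨ ((x1 ≤ x0) ∧ (x3 ≤ x2) ∧ (¬ (x2 - x3 < x0 - x1))) ∨ ((x1 ≤ x0) ∧ (¬ (x3 ≤ x2)) ∧ (x3 - x2 < x0 - x1)) ∨ ((x1 ≤ x0) ∧ (¬ (x3 ≤ x2)) ∧ (¬ (x3 - x2 < x0 - x1))) ∨ ((¬ (x1 ≤ x0)) ∧ (x3 ≤ x2) ∧ (x2 - x3 < x1 - x0)) ∨ ((¬ (x1 ≤ x0)) ∧ (x3 ≤ x2) ∧ (¬ (x2 - x3 < x1 - x0))) ∨ ((¬ (x1 ≤ x0)) ∧ (¬ (x3 ≤ x2)) ∧ (x3 - x2 < x1 - x0)) ∨ ((¬ (x1 ≤ x0)) ∧ (¬ (x3 ≤ x2)) ∧ (¬ (x3 - x2 < x1 - x0))) := by omega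
    rcases hc with hc | hc | hc | hc | hc | hc | hc | hc
    · exact Or.inl (⟨x0 - x1 - (x2 - x3), (by omega), x2 - x3, x1, x3, by omega, by omega, by omega, by omega⟩)
    · exact Or.inr (Or.inl (⟨x2 - x3 - (x0 - x1), (by omega), x0 - x1, x1, x3, by omega, by omega, by omega, by omega⟩))
    · exact Or.inr (Or.inr (Or.inl (⟨x0 - x1 - (x3 - x2), (by omega), x3 - x2, x1, x2, by omega, by omega, by omega, by omega⟩)))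
    · exact Or.inr (Or.inr (Or.inr (Or.inl (⟨x3 - x2 - (x0 - x1), (by omega), x0 - x1, x1, x2, by omega, by omega, by omega, by omega⟩))))
    · exact Or.inr (Or.inr (Or.inr (Or.inr (Or.inl (⟨x1 - x0 - (x2 - x3), (by omega), x0, x2 - x3, x3, by omega, by omega, by omega, by omega⟩)))))
    · exact Or.inr (Or.inr (Or.inr (Or.inr (Or.inr (Or.inl (⟨x2 - x3 - (x1 - x0), (by omega), x0, x1 - x0, x3, by omega, by omega, by omega, by omega⟩))))))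
    · exact Or.inr (Or.inr (Or.inr (Or.inr (Or.inr (Or.inr (Or.inl (⟨x1 - x0 - (x3 - x2), (by omega), x3 - x2, x0, x2, by omega, by omega, by omega, by omega⟩)))))))
    · exact Or.inr (Or.inr (Or.inr (Or.inr (Or.inr (Or.inr (Or.inr (⟨x3 - x2 - (x1 - x0), (by omega), x1 - x0, x0, x2, by omega, by omega, by omega, by omega⟩)))))))
  · intro h
    rcases h with ⟨s0, hs0, e02, e01, e23, k0, k1, k2, k3⟩ |
      ⟨s2, hs2, e02, e01, e23, k0, k1, k2, k3⟩ |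
      ⟨s0, hs0, e03, e01, e23, k0, k1, k2, k3⟩ |
      ⟨s3, hs3, e03, e01, e23, k0, k1, k2, k3⟩ |
      ⟨s1, hs1, e01, e12, e23, k0, k1, k2, k3⟩ |
      ⟨s2, hs2, e01, e12, e23, k0, k1, k2, k3⟩ |
      ⟨s1, hs1, e13, e01, e23, k0, k1, k2, k3⟩ |
      ⟨s3, hs3, e13, e01, e23, k0, k1, k2, k3⟩ <;> omega

end Pool.Agent.Helper336.CF
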