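import Mathlib

set_option autoImplicit false

namespace Pool.Agent.Helper336.CF

universe u

variable {T : Type u}

def Comp {N : Type} (S : N → Set (List T)) : List (Symbol T N) → List T → Prop
  | [], w => w = []
  | Symbol.terminal t :: α, w => ∃ w', w = t :: w' ∧ Comp S α w'
  | Symbol.nonterminal A :: α, w => ∃ w₁ w₂, w = w₁ ++ w₂ ∧ w₁ ∈ S A ∧ Comp S α w₂

theorem comp_append {N : Type} (S : N → Set (List T)) (α β : List (Symbol T N)) (w : List T) :
    Comp S (α ++ β) w ↔ ∃ w₁ w₂, w = w₁ ++ w₂ ∧ Comp S α w₁ ∧ Comp S β w₂ := by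
  induction α generalizing w with
  | nil =>
    simp only [List.nil_append, Comp]
    constructor
    · intro h
      exact ⟨[], w, by simp, rfl, h⟩
    · rintro ⟨w₁, w₂, rfl, rfl, h⟩
      simpa using h
  | cons s α ih =>
    cases s with
    | terminal t =>
      simp only [List.cons_append, Comp, ih]
      constructor
      · rintro ⟨w', rfl, w₁, w₂, rfl, h1, h2⟩
        exact ⟨t :: w₁, w₂, by simp, ⟨w₁, rfl, h1⟩, h2⟩
      · rintro ⟨w₁, w₂, rfl, ⟨w', rfl, h1⟩, h2⟩
        exact ⟨w' ++ w₂, by simp, w', w₂, rfl, h1, h2⟩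
    | nonterminal A =>
      simp only [List.cons_append, Comp, ih]
      constructor
      · rintro ⟨v₁, v₂, rfl, hA, w₁, w₂, rfl, h1, h2⟩
        exact ⟨v₁ ++ w₁, w₂, by simp, ⟨v₁, w₁, rfl, hA, h1⟩, h2⟩
      · rintro ⟨w₁, w₂, rfl, ⟨v₁, v₂, rfl, hA, h1⟩, h2⟩
        exact ⟨v₁, v₂ ++ w₂, by simp, hA, v₂, w₂, rfl, h1, h2⟩

theorem comp_map_terminal {N : Type} (S : N → Set (List T)) (w v : List T) :
    Comp S (w.map Symbol.terminal) v ↔ v = w := by
  induction w generalizing v with
  | nil => simp [Comp]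
  | cons t w ih =>
    simp only [List.map_cons, Comp, ih]
    constructor
    · rintro ⟨w', rfl, rfl⟩; rfl
    · rintro rfl; exact ⟨w, rfl, rfl⟩

theorem comp_mono {N : Type} {S S' : N → Set (List T)} (h : ∀ A, S A ⊆ S' A)
    (α : List (Symbol T N)) (w : List T) (hw : Comp S α w) : Comp S' α w := by
  induction α generalizing w with
  | nil => simpa [Comp] using hw
  | cons s α ih =>
    cases s with
    | terminal t =>
      obtain ⟨w', rfl, hw'⟩ := hw
      exact ⟨w', rfl, ih _ hw'⟩
    | nonterminal A =>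
      obtain ⟨w₁, w₂, rfl, hA, hw'⟩ := hw
      exact ⟨w₁, w₂, rfl, h A hA, ih _ hw'⟩

theorem comp_of_derives (g : ContextFreeGrammar T) (S : g.NT → Set (List T))
    (hS : ∀ r ∈ g.rules, ∀ w, Comp S r.output w → w ∈ S r.input)
    (α : List (Symbol T g.NT)) (w : List T) (h : g.Derives α (w.map Symbol.terminal)) :
    Comp S α w := by
  induction h using Relation.ReflTransGen.head_induction_on with
  | refl => exact (comp_map_terminal S w w).2 rfl
  | head hstep _ ih =>
    obtain ⟨r, hr, hrw⟩ := hstep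
    obtain ⟨p, q, rfl, rfl⟩ := hrw.exists_parts
    rw [List.append_assoc, comp_append] at ih
    obtain ⟨w₁, w₂, rfl, h1, h2⟩ := ih
    rw [comp_append] at h2
    obtain ⟨w₃, w₄, rfl, h3, h4⟩ := h2
    rw [List.append_assoc, comp_append]
    refine ⟨w₁, w₃ ++ w₄, rfl, h1, ?_⟩
    exact ⟨w₃, w₄, rfl, hS r hr _ h3, h4⟩

/-- The words generated by a nonterminal. -/
def Gen (g : ContextFreeGrammar T) (A : g.NT) : Set (List T) :=
  {w | g.Derives [Symbol.nonterminal A] (w.map Symbol.terminal)}

theorem derives_append {g : ContextFreeGrammar T} {α α' β β' : List (Symbol T g.NT)}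
    (h1 : g.Derives α α') (h2 : g.Derives β β') : g.Derives (α ++ β) (α' ++ β') :=
  (h1.append_right β).trans (h2.append_left α')

theorem derives_of_comp (g : ContextFreeGrammar T) (α : List (Symbol T g.NT)) (w : List T)
    (h : Comp (Gen g) α w) : g.Derives α (w.map Symbol.terminal) := by
  induction α generalizing w with
  | nil => simp only [Comp] at h; subst h; exact Relation.ReflTransGen.refl
  | cons s α ih =>
    cases s with
    | terminal t =>
      obtain ⟨w', rfl, hw'⟩ := h
      simpa using (ih _ hw').append_left [Symbol.terminal t]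
    | nonterminal A =>
      obtain ⟨w₁, w₂, rfl, hA, hw'⟩ := h
      have := derives_append (g := g) hA (ih _ hw')
      simpa using this

theorem gen_of_rule (g : ContextFreeGrammar T) (r : ContextFreeRule T g.NT) (hr : r ∈ g.rules)
    (w : List T) (hw : Comp (Gen g) r.output w) : w ∈ Gen g r.input := by
  have h1 := derives_of_comp g _ _ hw
  have h2 : g.Produces [Symbol.nonterminal r.input] r.output :=
    ⟨r, hr, ContextFreeRule.Rewrites.input_output⟩
  exact h2.trans_derives h1

theorem language_eq (g : ContextFreeGrammar T) (S : g.NT → Set (List T))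
    (hS : ∀ r ∈ g.rules, ∀ w, Comp S r.output w → w ∈ S r.input)
    (hC : ∀ w ∈ S g.initial, w ∈ Gen g g.initial) (w : List T) :
    w ∈ g.language ↔ w ∈ S g.initial := by
  constructor
  · intro h
    have := comp_of_derives g S hS [Symbol.nonterminal g.initial] w h
    obtain ⟨w₁, w₂, rfl, h1, h2⟩ := this
    simp only [Comp] at h2
    subst h2
    simpa using h1
  · intro h
    exact hC w h

/-- Renaming of nonterminals in a symbol. -/
def mapSym {N N' : Type} (f : N → N') : Symbol T N → Symbol T N'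
  | Symbol.terminal t => Symbol.terminal t
  | Symbol.nonterminal A => Symbol.nonterminal (f A)

def mapRule {N N' : Type} (f : N → N') (r : ContextFreeRule T N) : ContextFreeRule T N' :=
  ⟨f r.input, r.output.map (mapSym f)⟩

theorem comp_map {N N' : Type} (f : N → N') (S : N' → Set (List T)) (α : List (Symbol T N))
    (w : List T) : Comp S (α.map (mapSym f)) w ↔ Comp (fun A => S (f A)) α w := by
  induction α generalizing w with
  | nil => simp [Comp]
  | cons s α ih =>
    cases s with
    | terminal t => simp only [List.map_cons, mapSym, Comp, ih]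
    | nonterminal A => simp only [List.map_cons, mapSym, Comp, ih]

theorem gen_embed (g₁ g : ContextFreeGrammar T) (f : g₁.NT → g.NT)
    (hf : ∀ r ∈ g₁.rules, mapRule f r ∈ g.rules) (A : g₁.NT) (w : List T)
    (hw : w ∈ Gen g₁ A) : w ∈ Gen g (f A) := by
  have := comp_of_derives g₁ (fun A => Gen g (f A)) (by
    intro r hr w hw
    exact gen_of_rule g (mapRule f r) (hf r hr) w ((comp_map f (Gen g) r.output w).2 hw))
    [Symbol.nonterminal A] w hw
  obtain ⟨w₁, w₂, rfl, h1, h2⟩ := this
  simp only [Comp] at h2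
  subst h2
  simpa using h1

open Classical in
/-- The grammar obtained from two grammars by adding a fresh initial symbol with given bodies. -/
noncomputable def ext (g₁ g₂ : ContextFreeGrammar T)
    (outs : Finset (List (Symbol T (Option (g₁.NT ⊕ g₂.NT))))) : ContextFreeGrammar T where
  NT := Option (g₁.NT ⊕ g₂.NT)
  initial := none
  rules := (g₁.rules.image (mapRule (fun A => some (Sum.inl A)))) ∪
    (g₂.rules.image (mapRule (fun A => some (Sum.inr A)))) ∪
    outs.image (fun o => ⟨none, o⟩)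

theorem mem_ext_rules (g₁ g₂ : ContextFreeGrammar T)
    (outs : Finset (List (Symbol T (Option (g₁.NT ⊕ g₂.NT)))))
    (r : ContextFreeRule T (Option (g₁.NT ⊕ g₂.NT))) :
    r ∈ (ext g₁ g₂ outs).rules ↔
      (((∃ r' ∈ g₁.rules, mapRule (fun A => some (Sum.inl A)) r' = r) ∨
      (∃ r' ∈ g₂.rules, mapRule (fun A => some (Sum.inr A)) r' = r)) ∨
      (∃ o ∈ outs, (⟨none, o⟩ : ContextFreeRule T (Option (g₁.NT ⊕ g₂.NT))) = r)) := by
  classical
  show r ∈ ((g₁.rules.image (mapRule (fun A => some (Sum.inl A)))) ∪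
    (g₂.rules.image (mapRule (fun A => some (Sum.inr A)))) ∪
    outs.image (fun o => ⟨none, o⟩) : Finset (ContextFreeRule T (Option (g₁.NT ⊕ g₂.NT)))) ↔ _
  rw [Finset.mem_union, Finset.mem_union, Finset.mem_image, Finset.mem_image, Finset.mem_image]

/-- The semantics used for the extended grammar. -/
def sem (g₁ g₂ : ContextFreeGrammar T) (L : Set (List T)) :
    Option (g₁.NT ⊕ g₂.NT) → Set (List T)
  | none => L
  | some (Sum.inl A) => Gen g₁ A
  | some (Sum.inr A) => Gen g₂ A

/-- Main tool: language of the extended grammar. `L` must be closed under the new bodies and every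
word of `L` must be derivable. -/
theorem ext_cf (g₁ g₂ : ContextFreeGrammar T)
    (outs : Finset (List (Symbol T (Option (g₁.NT ⊕ g₂.NT))))) (L : Set (List T))
    (h1 : ∀ o ∈ outs, ∀ w, Comp (sem g₁ g₂ L) o w → w ∈ L)
    (h2 : ∀ S : Option (g₁.NT ⊕ g₂.NT) → Set (List T),
        (∀ A, Gen g₁ A ⊆ S (some (Sum.inl A))) → (∀ A, Gen g₂ A ⊆ S (some (Sum.inr A))) →
        (∀ o ∈ outs, ∀ w, Comp S o w → w ∈ S none) → L ⊆ S none) :
    Language.IsContextFree (L : Language T) := by
  classical
  refine ⟨ext g₁ g₂ outs, ?_⟩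
  ext w
  refine language_eq (ext g₁ g₂ outs) (sem g₁ g₂ L) ?_ ?_ w
  · intro r hr w hw
    replace hr := (mem_ext_rules g₁ g₂ outs r).1 hr
    rcases hr with (⟨r', hr', rfl⟩ | ⟨r', hr', rfl⟩) | ⟨o, ho, rfl⟩
    · exact gen_of_rule g₁ r' hr' w
        ((comp_map (fun A => some (Sum.inl A)) (sem g₁ g₂ L) r'.output w).1 hw)
    · exact gen_of_rule g₂ r' hr' w
        ((comp_map (fun A => some (Sum.inr A)) (sem g₁ g₂ L) r'.output w).1 hw)
    · exact h1 o ho w hw
  · intro w hw
    refine h2 (Gen (ext g₁ g₂ outs)) ?_ ?_ ?_ hw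
    · intro A w hw
      refine gen_embed g₁ (ext g₁ g₂ outs) (fun A => some (Sum.inl A)) ?_ A w hw
      intro r hr
      exact (mem_ext_rules g₁ g₂ outs _).2 (Or.inl (Or.inl ⟨r, hr, rfl⟩))
    · intro A w hw
      refine gen_embed g₂ (ext g₁ g₂ outs) (fun A => some (Sum.inr A)) ?_ A w hw
      intro r hr
      exact (mem_ext_rules g₁ g₂ outs _).2 (Or.inl (Or.inr ⟨r, hr, rfl⟩))
    · intro o ho w hw
      have : (⟨none, o⟩ : ContextFreeRule T (ext g₁ g₂ outs).NT) ∈ (ext g₁ g₂ outs).rules :=
        (mem_ext_rules g₁ g₂ outs _).2 (Or.inr ⟨o, ho, rfl⟩)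
      exact gen_of_rule _ _ this w hw

/-- Context-free sets of words. -/
def IsCF (L : Set (List T)) : Prop := Language.IsContextFree (L : Language T)

theorem gen_initial (g : ContextFreeGrammar T) : Gen g g.initial = (g.language : Set (List T)) := rfl

theorem cf_finite (F : Finset (List T)) : IsCF (T := T) {w | w ∈ F} := by
  classical
  let g0 : ContextFreeGrammar T := ⟨PUnit, PUnit.unit, ∅⟩
  refine ext_cf g0 g0 (F.image (fun w => w.map Symbol.terminal)) _ ?_ ?_
  · intro o ho w hw
    simp only [Finset.mem_image] at ho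
    obtain ⟨v, hv, rfl⟩ := ho
    rw [comp_map_terminal] at hw
    subst hw
    exact hv
  · intro S _ _ hS w hw
    refine hS (w.map Symbol.terminal) ?_ w ((comp_map_terminal S w w).2 rfl)
    exact Finset.mem_image.2 ⟨w, hw, rfl⟩

theorem cf_singleton (w : List T) : IsCF (T := T) {w} := by
  have := cf_finite (T := T) {w}
  simpa using this

theorem cf_empty : IsCF (T := T) ∅ := by
  have := cf_finite (T := T) ∅
  simpa using this

theorem cf_union {L₁ L₂ : Set (List T)} (h₁ : IsCF L₁) (h₂ : IsCF L₂) : IsCF (L₁ ∪ L₂) := by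
  classical
  obtain ⟨g₁, e₁⟩ := h₁
  obtain ⟨g₂, e₂⟩ := h₂
  have e₁' : Gen g₁ g₁.initial = L₁ := e₁
  have e₂' : Gen g₂ g₂.initial = L₂ := e₂
  refine ext_cf g₁ g₂ {[Symbol.nonterminal (some (Sum.inl g₁.initial))],
    [Symbol.nonterminal (some (Sum.inr g₂.initial))]} _ ?_ ?_
  · intro o ho w hw
    simp only [Finset.mem_insert, Finset.mem_singleton] at ho
    rcases ho with rfl | rfl
    · obtain ⟨w₁, w₂, rfl, h1, h2⟩ := hw
      simp only [Comp] at h2
      subst h2
      left
      rw [← e₁', List.append_nil]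
      exact h1
    · obtain ⟨w₁, w₂, rfl, h1, h2⟩ := hw
      simp only [Comp] at h2
      subst h2
      right
      rw [← e₂', List.append_nil]
      exact h1
  · intro S h1 h2 hS w hw
    rcases hw with hw | hw
    · refine hS [Symbol.nonterminal (some (Sum.inl g₁.initial))] (by simp) w ?_
      refine ⟨w, [], by simp, h1 _ ?_, rfl⟩
      rw [e₁']; exact hw
    · refine hS [Symbol.nonterminal (some (Sum.inr g₂.initial))] (by simp) w ?_
      refine ⟨w, [], by simp, h2 _ ?_, rfl⟩
      rw [e₂']; exact hw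

/-- Concatenation. -/
def cat (L₁ L₂ : Set (List T)) : Set (List T) := {w | ∃ u ∈ L₁, ∃ v ∈ L₂, w = u ++ v}

theorem cf_cat {L₁ L₂ : Set (List T)} (h₁ : IsCF L₁) (h₂ : IsCF L₂) : IsCF (cat L₁ L₂) := by
  classical
  obtain ⟨g₁, e₁⟩ := h₁
  obtain ⟨g₂, e₂⟩ := h₂
  have e₁' : Gen g₁ g₁.initial = L₁ := e₁
  have e₂' : Gen g₂ g₂.initial = L₂ := e₂
  refine ext_cf g₁ g₂ {[Symbol.nonterminal (some (Sum.inl g₁.initial)),
    Symbol.nonterminal (some (Sum.inr g₂.initial))]} _ ?_ ?_
  · intro o ho w hw
    simp only [Finset.mem_singleton] at ho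
    subst ho
    obtain ⟨w₁, w₂, rfl, h1, w₃, w₄, rfl, h2, h3⟩ := hw
    simp only [Comp] at h3
    subst h3
    refine ⟨w₁, ?_, w₃, ?_, by simp⟩
    · rw [← e₁']; exact h1
    · rw [← e₂']; exact h2
  · rintro S h1 h2 hS w ⟨u, hu, v, hv, rfl⟩
    refine hS _ (Finset.mem_singleton_self _) _ ?_
    refine ⟨u, v, rfl, h1 _ ?_, v, [], by simp, h2 _ ?_, rfl⟩
    · rw [e₁']; exact hu
    · rw [e₂']; exact hv

/-- Wrapping in equal powers of a letter on both sides. -/
def wrap (b : T) (L : Set (List T)) : Set (List T) :=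
  {w | ∃ e : ℕ, ∃ u ∈ L, w = List.replicate e b ++ u ++ List.replicate e b}

theorem cf_wrap (b : T) {L : Set (List T)} (h : IsCF L) : IsCF (wrap b L) := by
  classical
  obtain ⟨g₁, e₁⟩ := h
  have e₁' : Gen g₁ g₁.initial = L := e₁
  let g0 : ContextFreeGrammar T := ⟨PUnit, PUnit.unit, ∅⟩
  refine ext_cf g₁ g0 {[Symbol.nonterminal (some (Sum.inl g₁.initial))],
    [Symbol.terminal b, Symbol.nonterminal none, Symbol.terminal b]} _ ?_ ?_
  · intro o ho w hw
    simp only [Finset.mem_insert, Finset.mem_singleton] at ho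
    rcases ho with rfl | rfl
    · obtain ⟨w₁, w₂, rfl, h1, h2⟩ := hw
      simp only [Comp] at h2
      subst h2
      refine ⟨0, w₁, ?_, by simp⟩
      rw [← e₁']; exact h1
    · obtain ⟨w', rfl, w₁, w₂, rfl, ⟨e, u, hu, rfl⟩, w₃, rfl, h3⟩ := hw
      simp only [Comp] at h3
      subst h3
      refine ⟨e + 1, u, hu, ?_⟩
      rw [List.replicate_succ, List.cons_append, List.cons_append]
      congr 1
      rw [← List.replicate_succ, List.replicate_succ']
      simp
  · rintro S h1 _ hS w ⟨e, u, hu, rfl⟩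
    induction e with
    | zero =>
      refine hS [Symbol.nonterminal (some (Sum.inl g₁.initial))] (by simp) _ ?_
      refine ⟨u, [], by simp, h1 _ ?_, rfl⟩
      rw [e₁']; exact hu
    | succ e ih =>
      refine hS [Symbol.terminal b, Symbol.nonterminal none, Symbol.terminal b] (by simp) _ ?_
      refine ⟨(List.replicate e b ++ u ++ List.replicate e b) ++ [b], ?_, _, [b], rfl, ih, [], rfl, rfl⟩
      rw [List.replicate_succ, List.cons_append, List.cons_append]
      congr 1
      rw [← List.replicate_succ, List.replicate_succ']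
      simp

theorem cf_iUnion {ι : Type*} (s : Set ι) (hs : s.Finite) (L : ι → Set (List T))
    (h : ∀ i ∈ s, IsCF (L i)) : IsCF (⋃ i ∈ s, L i) := by
  induction s, hs using Set.Finite.induction_on with
  | empty => simpa using cf_empty (T := T)
  | @insert a s _ _ ih =>
    rw [Set.biUnion_insert]
    exact cf_union (h a (Set.mem_insert _ _)) (ih (fun i hi => h i (Set.mem_insert_of_mem _ hi)))

/-- All powers of a letter. -/
theorem cf_pow (b : T) : IsCF (T := T) {w | ∃ e : ℕ, w = List.replicate e b} := by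
  have h1 : IsCF (T := T) (wrap b ({[], [b]} : Set (List T))) := by
    apply cf_wrap
    have := cf_union (cf_singleton (T := T) []) (cf_singleton [b])
    rw [Set.singleton_union] at this
    exact this
  convert h1 using 1
  ext w
  simp only [Set.mem_ofPred_eq, wrap, Set.mem_insert_iff, Set.mem_singleton_iff]
  constructor
  · rintro ⟨e, rfl⟩
    rcases Nat.even_or_odd' e with ⟨c, rfl | rfl⟩
    · exact ⟨c, [], Or.inl rfl, by rw [two_mul, List.replicate_add]; simp⟩
    · exact ⟨c, [b], Or.inr rfl, by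
        rw [show 2 * c + 1 = c + (1 + c) by ring, List.replicate_add, List.replicate_add]; simp⟩
  · rintro ⟨e, u, rfl | rfl, rfl⟩
    · exact ⟨e + e, by rw [List.replicate_add]; simp⟩
    · exact ⟨e + (1 + e), by rw [List.replicate_add, List.replicate_add]; simp⟩

end Pool.Agent.Helper336.CF
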