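import Mathlib

set_option autoImplicit false
set_option linter.unusedSectionVars false

namespace Pool.Agent.Helper336.CliffHughes

/-- the additive map `ZMod 2 → ZMod 8` sending `1` to `4` -/
def e4 (a : ZMod 2) : ZMod 8 := if a = 0 then 0 else 4

lemma e4_add : ∀ a b : ZMod 2, e4 (a + b) = e4 a + e4 b := by decide
lemma e4_zero : e4 0 = 0 := by decide
lemma two_e4 : ∀ a : ZMod 2, 2 * e4 a = 0 := by decide
lemma four_e4 : ∀ a : ZMod 2, 4 * e4 a = 0 := by decide
lemma z2 : ∀ a : ZMod 2, a + a = 0 := by decide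

variable {K : Type} [AddCommGroup K] [Fintype K]

/-- comparison of two elements of `K` through an enumeration -/
def r (ι : K → ℕ) (s t : K) : ZMod 2 := if ι t < ι s then 1 else 0

/-- translate of a function -/
def sh {A : Type} (h : K) (T : K → A) : K → A := fun s => T (s + h)

/-- the family (indexed by `x`) of bilinear forms -/
def B (ι : K → ℕ) (S T : K → ZMod 2) (x : K) : ZMod 2 :=
  ∑ s, ∑ t, S s * T t * r ι (s - x) (t - x)

lemma B_add_left (ι : K → ℕ) (S S' T : K → ZMod 2) (x : K) :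
    B ι (S + S') T x = B ι S T x + B ι S' T x := by
  simp only [B, Pi.add_apply, add_mul, Finset.sum_add_distrib]

lemma B_add_right (ι : K → ℕ) (S T T' : K → ZMod 2) (x : K) :
    B ι S (T + T') x = B ι S T x + B ι S T' x := by
  simp only [B, Pi.add_apply, mul_add, add_mul, Finset.sum_add_distrib]

lemma B_shift (ι : K → ℕ) (h : K) (S T : K → ZMod 2) (x : K) :
    B ι (sh h S) (sh h T) x = B ι S T (x + h) := by
  simp only [B, sh]
  rw [← Equiv.sum_comp (Equiv.addRight h) (fun s => ∑ t, S s * T t * r ι (s - (x + h)) (t - (x + h)))]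
  refine Finset.sum_congr rfl fun s _ => ?_
  rw [← Equiv.sum_comp (Equiv.addRight h)
    (fun t => S ((Equiv.addRight h) s) * T t * r ι ((Equiv.addRight h) s - (x + h)) (t - (x + h)))]
  refine Finset.sum_congr rfl fun t _ => ?_
  simp only [Equiv.coe_addRight]
  congr 2 <;> abel

lemma B_zero_left (ι : K → ℕ) (T : K → ZMod 2) (x : K) : B ι 0 T x = 0 := by
  simp [B]

lemma B_zero_right (ι : K → ℕ) (T : K → ZMod 2) (x : K) : B ι T 0 x = 0 := by
  simp [B]

/-- the big group -/
@[ext] structure GG (K : Type) (ι : K → ℕ) where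
  j : K → ZMod 8
  S : K → ZMod 2
  h : K

variable (ι : K → ℕ)

instance : Mul (GG K ι) :=
  ⟨fun a b => ⟨fun x => a.j x + b.j (x + a.h) + e4 (B ι a.S (sh a.h b.S) x),
    a.S + sh a.h b.S, a.h + b.h⟩⟩

instance : One (GG K ι) := ⟨⟨0, 0, 0⟩⟩

instance : Inv (GG K ι) :=
  ⟨fun a => ⟨fun x => - a.j (x - a.h) - e4 (B ι (sh (- a.h) a.S) (sh (- a.h) a.S) x),
    sh (- a.h) a.S, - a.h⟩⟩

variable {ι}

@[simp] lemma mul_j (a b : GG K ι) (x : K) :
    (a * b).j x = a.j x + b.j (x + a.h) + e4 (B ι a.S (sh a.h b.S) x) := rfl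
@[simp] lemma mul_S (a b : GG K ι) : (a * b).S = a.S + sh a.h b.S := rfl
@[simp] lemma mul_h (a b : GG K ι) : (a * b).h = a.h + b.h := rfl
@[simp] lemma one_j (x : K) : (1 : GG K ι).j x = 0 := rfl
@[simp] lemma one_S : (1 : GG K ι).S = 0 := rfl
@[simp] lemma one_h : (1 : GG K ι).h = 0 := rfl
@[simp] lemma inv_j (a : GG K ι) (x : K) :
    (a⁻¹).j x = - a.j (x - a.h) - e4 (B ι (sh (- a.h) a.S) (sh (- a.h) a.S) x) := rfl
@[simp] lemma inv_S (a : GG K ι) : (a⁻¹).S = sh (- a.h) a.S := rfl
@[simp] lemma inv_h (a : GG K ι) : (a⁻¹).h = - a.h := rfl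

lemma sh_add_fun {A : Type} [Add A] (h : K) (S T : K → A) : sh h (S + T) = sh h S + sh h T := rfl
lemma sh_sh {A : Type} (h g : K) (S : K → A) : sh h (sh g S) = sh (h + g) S := by
  funext s; simp only [sh]; congr 1; abel
lemma sh_zero {A : Type} (S : K → A) : sh 0 S = S := by funext s; simp [sh]
lemma sh_zero_fun {A : Type} [Zero A] (h : K) : sh h (0 : K → A) = 0 := rfl

instance : Group (GG K ι) :=
  Group.ofLeftAxioms
    (by
      intro a b c
      refine GG.ext ?_ ?_ ?_
      · funext x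
        simp only [mul_j, mul_S, mul_h]
        rw [sh_add_fun, sh_sh, B_add_left, B_add_right, e4_add, e4_add,
          ← sh_sh a.h b.h c.S, B_shift, add_assoc x a.h b.h]
        ring
      · simp only [mul_S, mul_h, sh_add_fun, sh_sh, add_assoc]
      · simp only [mul_h, add_assoc])
    (by
      intro a
      refine GG.ext ?_ ?_ ?_
      · funext x
        simp [B_zero_left, e4_zero]
      · simp [sh_zero]
      · simp)
    (by
      intro a
      refine GG.ext ?_ ?_ ?_
      · funext x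
        simp only [mul_j, inv_j, inv_S, inv_h, one_j, ← sub_eq_add_neg]
        ring
      · funext s
        simp only [mul_S, inv_S, inv_h, Pi.add_apply, one_S, Pi.zero_apply]
        exact z2 _
      · simp)

instance : Finite (GG K ι) :=
  Finite.of_injective (fun g : GG K ι => (g.j, g.S, g.h)) (by
    intro a b hab
    simp only [Prod.mk.injEq] at hab
    exact GG.ext hab.1 hab.2.1 hab.2.2)

lemma sum_sh (h : K) (S : K → ZMod 2) : ∑ s, sh h S s = ∑ s, S s :=
  Equiv.sum_comp (Equiv.addRight h) S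

variable (ι) in
/-- the subgroup -/
def GT : Subgroup (GG K ι) where
  carrier := {g | (∀ x y, 2 * g.j x = 2 * g.j y) ∧ ∀ x, 4 * g.j x = e4 (∑ s, g.S s)}
  one_mem' := by
    refine ⟨fun x y => rfl, fun x => ?_⟩
    simp [e4_zero]
  mul_mem' := by
    rintro a b ⟨ha1, ha2⟩ ⟨hb1, hb2⟩
    refine ⟨fun x y => ?_, fun x => ?_⟩
    · simp only [mul_j, mul_add, two_e4]
      rw [ha1 x y, hb1 (x + a.h) (y + a.h)]
    · simp only [mul_j, mul_add, four_e4, mul_S, Pi.add_apply, Finset.sum_add_distrib, e4_add]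
      rw [ha2 x, hb2, sum_sh, add_zero]
  inv_mem' := by
    rintro a ⟨ha1, ha2⟩
    refine ⟨fun x y => ?_, fun x => ?_⟩
    · simp only [inv_j, mul_sub, two_e4, mul_neg]
      rw [ha1 (x - a.h) (y - a.h)]
    · simp only [inv_j, mul_sub, four_e4, mul_neg, inv_S]
      rw [ha2, sum_sh]
      generalize (∑ s, a.S s) = u
      revert u
      decide

variable (hι : Function.Injective ι)
include hι

open Classical in
lemma r_add (a b : K) : r ι a b + r ι b a = if a = b then 0 else 1 := by
  unfold r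
  by_cases hab : a = b
  · subst hab; simp
  · have : ι a ≠ ι b := fun h => hab (hι h)
    rcases lt_or_gt_of_ne this with h | h
    · simp [h, hab, not_lt.mpr h.le]
    · simp [h, hab, not_lt.mpr h.le]

/-- `B (S,S) x` does not depend on `x` -/
lemma B_diag (S : K → ZMod 2) (x y : K) : B ι S S x + B ι S S y = 0 := by
  classical
  unfold B
  rw [← Finset.sum_add_distrib]
  simp only [← Finset.sum_add_distrib, ← mul_add]
  rw [← Finset.sum_product' Finset.univ Finset.univ
    (fun s t => S s * S t * (r ι (s - x) (t - x) + r ι (s - y) (t - y)))]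
  refine Finset.sum_involution (fun p _ => (p.2, p.1)) ?_ ?_ ?_ ?_
  · rintro ⟨s, t⟩ -
    have h1 := r_add hι (s - x) (t - x)
    have h2 := r_add hι (s - y) (t - y)
    have h3 : (if s - x = t - x then (0 : ZMod 2) else 1) = if s - y = t - y then 0 else 1 := by
      simp
    have h4 : r ι (s - x) (t - x) + r ι (s - y) (t - y) + (r ι (t - x) (s - x) + r ι (t - y) (s - y)) = 0 := by
      calc _ = (r ι (s - x) (t - x) + r ι (t - x) (s - x)) + (r ι (s - y) (t - y) + r ι (t - y) (s - y)) := by ring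
        _ = 0 := by rw [h1, h2, h3]; exact z2 _
    calc _ = S s * S t * (r ι (s - x) (t - x) + r ι (s - y) (t - y) + (r ι (t - x) (s - x) + r ι (t - y) (s - y))) := by
          simp only; ring
      _ = 0 := by rw [h4, mul_zero]
  · rintro ⟨s, t⟩ - hne heq
    simp only [Prod.mk.injEq] at heq
    apply hne
    have : s = t := heq.2
    subst this
    simp [r]
  · intro p _; simp
  · rintro ⟨s, t⟩ -; rfl

lemma B_cross (S T : K → ZMod 2) (x : K) :
    B ι S T x + B ι T S x = (∑ s, S s) * (∑ t, T t) + ∑ s, S s * T s := by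
  classical
  have h1 : B ι T S x = ∑ s, ∑ t, S s * T t * r ι (t - x) (s - x) := by
    unfold B
    rw [Finset.sum_comm]
    refine Finset.sum_congr rfl fun s _ => Finset.sum_congr rfl fun t _ => ?_
    ring
  rw [h1]
  unfold B
  rw [← Finset.sum_add_distrib]
  simp only [← Finset.sum_add_distrib, ← mul_add]
  rw [Finset.sum_mul_sum, ← Finset.sum_add_distrib]
  refine Finset.sum_congr rfl fun s _ => ?_
  have h2 : ∀ t, S s * T t * (r ι (s - x) (t - x) + r ι (t - x) (s - x))
      = S s * T t + (if s = t then S s * T t else 0) := by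
    intro t
    rw [r_add hι]
    by_cases hst : s = t
    · subst hst
      simp only [if_true, mul_zero]
      exact (z2 _).symm
    · simp [hst]
  simp only [h2, Finset.sum_add_distrib]
  simp

lemma sum_mul_sh (h : K) (h0 : h ≠ 0) (hh : h + h = 0) (S : K → ZMod 2) :
    ∑ s, S s * sh h S s = 0 := by
  refine Finset.sum_involution (fun s _ => s + h) ?_ ?_ ?_ ?_
  · intro s _
    simp only [sh]
    rw [add_assoc, hh, add_zero, mul_comm (S (s + h))]
    exact z2 _
  · intro s _ _ h1
    exact h0 (by simpa using h1)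
  · intro s _; simp
  · intro s _
    rw [add_assoc, hh, add_zero]

lemma B_PP (h : K) (h0 : h ≠ 0) (hh : h + h = 0) (S : K → ZMod 2) (x : K) :
    B ι (S + sh h S) (S + sh h S) x = ∑ s, S s := by
  rw [B_add_left, B_add_right, B_add_right, B_shift]
  have h1 := B_diag hι S x (x + h)
  have h2 := B_cross hι S (sh h S) x
  rw [sum_mul_sh hι h h0 hh, sum_sh, add_zero] at h2
  have h3 : (∑ s, S s) * (∑ s, S s) = ∑ s, S s := by
    generalize (∑ s, S s) = u
    revert u
    decide
  rw [h3] at h2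
  calc _ = (B ι S S x + B ι S S (x + h)) + (B ι S (sh h S) x + B ι (sh h S) S x) := by ring
    _ = _ := by rw [h1, h2, zero_add]

/-- elements outside the kernel have order dividing four -/
lemma pow_four (g : GG K ι) (hg : g ∈ GT ι) (h0 : g.h ≠ 0) (hh : g.h + g.h = 0) : g ^ 4 = 1 := by
  have h4 : g ^ 4 = (g * g) * (g * g) := by
    rw [show (4 : ℕ) = 2 + 2 from rfl, pow_add, pow_two]
  rw [h4]
  refine GG.ext ?_ ?_ ?_
  · funext x
    simp only [mul_j, mul_S, mul_h, hh, add_zero, sh_zero, one_j]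
    rw [B_PP hι g.h h0 hh]
    have h1 := hg.1 (x + g.h) x
    have h2 := hg.2 x
    rw [← h2]
    have h3 : ∀ a b c : ZMod 8, 2 * b = 2 * a → 2 * c = 0 → a + b + c + (a + b + c) + 4 * a = 0 := by
      decide
    exact h3 _ _ _ h1 (two_e4 _)
  · simp only [mul_S, mul_h, hh, sh_zero, one_S]
    funext s
    exact z2 _
  · simp [hh]

omit hι

/-- a bad element -/
noncomputable def bad (ι : K → ℕ) : GG K ι := by
  classical
  exact ⟨fun _ => 1, Pi.single 0 1, 0⟩

lemma bad_mem : bad ι ∈ GT ι := by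
  classical
  refine ⟨fun x y => rfl, fun x => ?_⟩
  simp only [bad, Finset.sum_pi_single', Finset.mem_univ, if_true]
  decide

lemma bad_sq (ι : K → ℕ) : bad ι * bad ι = ⟨fun _ => 2, 0, 0⟩ := by
  classical
  refine GG.ext ?_ ?_ ?_
  · funext x
    simp only [mul_j]
    have hB : B ι (bad ι).S (sh (bad ι).h (bad ι).S) x = 0 := by
      have h0 : (bad ι).h = 0 := rfl
      rw [h0, sh_zero]
      unfold B bad
      refine Finset.sum_eq_zero fun s _ => Finset.sum_eq_zero fun t _ => ?_
      simp only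
      by_cases hs : s = 0
      · by_cases ht : t = 0
        · subst hs; subst ht; simp [r]
        · simp [Pi.single_eq_of_ne ht]
      · simp [Pi.single_eq_of_ne hs]
    rw [hB, e4_zero]
    show (1 : ZMod 8) + 1 + 0 = 2
    decide
  · simp only [mul_S]
    have h0 : (bad ι).h = 0 := rfl
    rw [h0, sh_zero]
    funext s
    exact z2 _
  · show (0 : K) + 0 = 0
    simp

lemma bad_four (ι : K → ℕ) : bad ι ^ 4 = ⟨fun _ => 4, 0, 0⟩ := by
  have h4 : bad ι ^ 4 = (bad ι * bad ι) * (bad ι * bad ι) := by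
    rw [show (4 : ℕ) = 2 + 2 from rfl, pow_add, pow_two]
  rw [h4, bad_sq]
  refine GG.ext ?_ ?_ ?_
  · funext x
    simp only [mul_j, B_zero_left, e4_zero]
    decide
  · simp only [mul_S, sh_zero_fun, add_zero]
  · simp

lemma bad_four_ne (ι : K → ℕ) : bad ι ^ 4 ≠ 1 := by
  rw [bad_four]
  intro h
  have := congrArg (fun g : GG K ι => g.j 0) h
  simp only [one_j] at this
  revert this
  decide

lemma bad_eight (ι : K → ℕ) : bad ι ^ 8 = 1 := by
  have h4 : bad ι ^ 8 = bad ι ^ 4 * bad ι ^ 4 := by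
    rw [← pow_add]
  rw [h4, bad_four]
  refine GG.ext ?_ ?_ ?_
  · funext x
    simp only [mul_j, B_zero_left, e4_zero, one_j]
    decide
  · simp only [mul_S, sh_zero_fun, add_zero, one_S]
  · simp

lemma bad_pow (ι : K → ℕ) (n : ℕ) (hn : n % 8 = 4) : bad ι ^ n ≠ 1 := by
  have h : n = 8 * (n / 8) + 4 := by omega
  rw [h, pow_add, pow_mul, bad_eight, one_pow, one_mul]
  exact bad_four_ne ι

lemma tr_mem (h : K) : (⟨0, 0, h⟩ : GG K ι) ∈ GT ι := by
  refine ⟨fun x y => rfl, fun x => ?_⟩
  simp [e4_zero]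

variable (ι) in
/-- projection to `K` -/
def pr : GT ι →* Multiplicative K where
  toFun g := Multiplicative.ofAdd (g : GG K ι).h
  map_one' := rfl
  map_mul' _ _ := rfl

lemma pr_pow (hι : Function.Injective ι) (hK : ∀ h : K, h + h = 0) (g : GT ι) (hg : pr ι g ≠ 1) :
    g ^ 4 = 1 :=
  Subtype.ext (pow_four hι (g : GG K ι) g.2
    (fun h0 => hg (congrArg Multiplicative.ofAdd h0)) (hK _))

/-- the bad element of the subgroup -/
noncomputable def badT (ι : K → ℕ) : GT ι := ⟨bad ι, bad_mem⟩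

lemma badT_pow (ι : K → ℕ) (n : ℕ) (hn : n % 8 = 4) : badT ι ^ n ≠ 1 := fun h =>
  bad_pow ι n hn (congrArg Subtype.val h)

lemma pr_surj : Function.Surjective (pr ι) := fun h =>
  ⟨⟨⟨0, 0, Multiplicative.toAdd h⟩, tr_mem _⟩, rfl⟩

end Pool.Agent.Helper336.CliffHughes
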