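import Pool.Agent.Helper336.Sep

set_option autoImplicit false

namespace Pool.Agent.Helper336.PW

open Finset

/-- Product of a set of natural numbers, as an integer. -/
def pr (P : Finset ℕ) : ℤ := ∏ p ∈ P, (p : ℤ)

/-- All elements are prime. -/
def AP (P : Finset ℕ) : Prop := ∀ p ∈ P, p.Prime

theorem pr_pos {P : Finset ℕ} (h : AP P) : 0 < pr P :=
  Finset.prod_pos (fun p hp => by exact_mod_cast (h p hp).pos)

theorem pr_erase {P : Finset ℕ} {p : ℕ} (hp : p ∈ P) : pr P = p * pr (P.erase p) :=
  (Finset.mul_prod_erase P (fun p => (p : ℤ)) hp).symm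

theorem pr_insert {P : Finset ℕ} {p : ℕ} (hp : p ∉ P) : pr (insert p P) = p * pr P :=
  Finset.prod_insert hp

theorem pr_union {B S : Finset ℕ} (h : Disjoint B S) : pr (B ∪ S) = pr B * pr S :=
  Finset.prod_union h

theorem AP.mono {P Q : Finset ℕ} (h : AP P) (hQ : Q ⊆ P) : AP Q := fun p hp => h p (hQ hp)

theorem AP.erase {P : Finset ℕ} (h : AP P) (p : ℕ) : AP (P.erase p) :=
  h.mono (Finset.erase_subset _ _)

theorem cop_prime_pr {P : Finset ℕ} (h : AP P) {p : ℕ} (hp : p.Prime) (hpP : p ∉ P) :
    IsCoprime (p : ℤ) (pr P) := by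
  apply IsCoprime.prod_right
  intro q hq
  rw [Nat.isCoprime_iff_coprime]
  exact (Nat.coprime_primes hp (h q hq)).2 (fun e => hpP (e ▸ hq))

theorem cop_pr {B S : Finset ℕ} (hB : AP B) (hS : AP S) (h : Disjoint B S) :
    IsCoprime (pr B) (pr S) := by
  apply IsCoprime.prod_left
  intro q hq
  exact cop_prime_pr hS (hB q hq) (fun e => Finset.disjoint_left.1 h hq e)

theorem dvd_pr {P : Finset ℕ} {p : ℕ} (hp : p ∈ P) : (p : ℤ) ∣ pr P :=
  Finset.dvd_prod_of_mem (fun p : ℕ => (p : ℤ)) hp

theorem pr_dvd {P Q : Finset ℕ} (h : Q ⊆ P) : pr Q ∣ pr P :=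
  Finset.prod_dvd_prod_of_subset _ _ _ h

theorem pr_ge_two {P : Finset ℕ} (h : AP P) (hne : P.Nonempty) : 2 ≤ pr P := by
  obtain ⟨p, hp⟩ := hne
  have h1 : (p : ℤ) ≤ pr P := Int.le_of_dvd (pr_pos h) (dvd_pr hp)
  have h2 : 2 ≤ p := (h p hp).two_le
  omega

theorem prime_not_dvd_pr {P : Finset ℕ} (h : AP P) {p : ℕ} (hp : p.Prime) (hpP : p ∉ P) :
    ¬ (p : ℤ) ∣ pr P := by
  intro hd
  have h1 := (cop_prime_pr h hp hpP)
  have h2 : IsUnit (p : ℤ) := h1.isUnit_of_dvd' dvd_rfl hd
  have := Int.isUnit_iff.1 h2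
  have h3 := hp.two_le
  omega

/-- Periodicity. -/
def Per {α : Type} (f : ℤ → α) (d : ℤ) : Prop := ∀ x, f (x + d) = f x

theorem Per.mul {α : Type} {f : ℤ → α} {d : ℤ} (h : Per f d) (t : ℤ) : Per f (d * t) := by
  have h1 : ∀ (t : ℕ) (x : ℤ), f (x + d * t) = f x := by
    intro t
    induction t with
    | zero => intro x; simp
    | succ t ih =>
      intro x
      rw [show x + d * ((t + 1 : ℕ) : ℤ) = (x + d * t) + d by push_cast; ring, h, ih]
  intro x
  rcases Int.eq_nat_or_neg t with ⟨m, rfl | rfl⟩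
  · exact h1 m x
  · have := h1 m (x + d * (-(m : ℤ)))
    rw [show x + d * (-(m : ℤ)) + d * m = x by ring] at this
    exact this.symm

theorem Per.dvd {α : Type} {f : ℤ → α} {d : ℤ} (h : Per f d) {i j : ℤ} (hd : d ∣ i - j) :
    f i = f j := by
  obtain ⟨t, ht⟩ := hd
  have := h.mul t j
  rw [← ht] at this
  rw [← this]
  congr 1
  ring

theorem Per.of_dvd {α : Type} {f : ℤ → α} {d e : ℤ} (h : Per f d) (hd : d ∣ e) : Per f e := by
  obtain ⟨t, rfl⟩ := hd
  exact h.mul t

theorem Per.add {α : Type} {f : ℤ → α} {d e : ℤ} (h : Per f d) (h' : Per f e) : Per f (d + e) := by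
  intro x
  rw [← add_assoc, h', h]

theorem Per.coprime {α : Type} {f : ℤ → α} {a b e u v : ℤ} (ha : Per f a) (hb : Per f b)
    (hu : a = u * e) (hv : b = v * e) (hc : IsCoprime u v) : Per f e := by
  obtain ⟨s, t, hst⟩ := hc
  have h1 := ha.mul s
  have h2 := hb.mul t
  have h3 := h1.add h2
  rw [show a * s + b * t = e by rw [hu, hv]; linear_combination e * hst] at h3
  exact h3

/-- A function with all periods `pr (P.erase p)`, `p ∈ B ⊆ P`, has period `pr (P \ B)`. -/
theorem per_sdiff {α : Type} {f : ℤ → α} {P : Finset ℕ} (hP : AP P) (hf : Per f (pr P))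
    (B : Finset ℕ) (hB : B ⊆ P) (h : ∀ p ∈ B, Per f (pr (P.erase p))) : Per f (pr (P \ B)) := by
  classical
  induction B using Finset.induction_on with
  | empty => simpa using hf
  | insert p B hpB ih =>
    have hpP : p ∈ P := hB (Finset.mem_insert_self _ _)
    have ih' := ih (fun q hq => hB (Finset.mem_insert_of_mem hq))
      (fun q hq => h q (Finset.mem_insert_of_mem hq))
    have h1 := h p (Finset.mem_insert_self _ _)
    have e1 : P \ B = insert p (P \ insert p B) := by
      ext q
      simp only [Finset.mem_sdiff, Finset.mem_insert]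
      constructor
      · rintro ⟨a, b⟩
        by_cases hq : q = p
        · exact Or.inl hq
        · exact Or.inr ⟨a, fun h => h.elim hq b⟩
      · rintro (rfl | ⟨a, b⟩)
        · exact ⟨hpP, hpB⟩
        · exact ⟨a, fun h => b (Or.inr h)⟩
    have e2 : P.erase p = B ∪ (P \ insert p B) := by
      ext q
      simp only [Finset.mem_erase, Finset.mem_union, Finset.mem_sdiff, Finset.mem_insert]
      constructor
      · rintro ⟨a, b⟩
        by_cases hq : q ∈ B
        · exact Or.inl hq
        · exact Or.inr ⟨b, fun h => h.elim a hq⟩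
      · rintro (a | ⟨a, b⟩)
        · exact ⟨fun e => hpB (e ▸ a), hB (Finset.mem_insert_of_mem a)⟩
        · exact ⟨fun e => b (Or.inl e), a⟩
    have hBP : B ⊆ P := fun q hq => hB (Finset.mem_insert_of_mem hq)
    refine Per.coprime ih' h1 (u := (p : ℤ)) (v := pr B) ?_ ?_
      (cop_prime_pr (hP.mono hBP) (hP p hpP) hpB)
    · rw [e1, pr_insert (by simp)]
    · rw [e2, pr_union]
      rw [Finset.disjoint_left]
      intro q hq hq'
      simp only [Finset.mem_sdiff, Finset.mem_insert] at hq'
      exact hq'.2 (Or.inr hq)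

/-- Chinese remainder. -/
theorem crt {a b : ℤ} (h : IsCoprime a b) (i r : ℤ) : ∃ x, a ∣ x - i ∧ b ∣ x - r := by
  obtain ⟨u, v, huv⟩ := h
  refine ⟨i * (v * b) + r * (u * a), ⟨u * (r - i), ?_⟩, ⟨v * (i - r), ?_⟩⟩
  · linear_combination i * huv
  · linear_combination r * huv

/-- Lemma F. -/
theorem lemmaF {α : Type} {F : ℤ → α} {S : Finset ℕ} (hS : AP S) (hF : Per F (pr S))
    (hnc : ∀ q ∈ S, ∃ i j, pr (S.erase q) ∣ i - j ∧ F i ≠ F j)
    (hcard : 2 ≤ S.card ∨ ∀ q ∈ S, 3 ≤ q) (lam : ℤ) :
    (∀ q ∈ S, ∃ i j, pr (S.erase q) ∣ i - j ∧ F i ≠ F j ∧ ¬ pr S ∣ i - lam ∧ ¬ pr S ∣ j - lam) ∨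
    (∀ q ∈ S, ∃ i j, pr (S.erase q) ∣ i - j ∧ F i ≠ F j ∧ ¬ pr S ∣ i - (lam - 1) ∧
      ¬ pr S ∣ j - (lam - 1)) := by
  classical
  by_contra hcon
  push Not at hcon
  obtain ⟨⟨q, hq, h1⟩, ⟨q', hq', h2⟩⟩ := hcon
  -- the two failures
  have f1 : ∀ i j, pr (S.erase q) ∣ i - j → ¬ pr S ∣ i - lam → ¬ pr S ∣ j - lam → F i = F j := by
    intro i j h hi hj
    by_contra hne
    exact hj (h1 i j h hne hi)
  have f2 : ∀ i j, pr (S.erase q') ∣ i - j → ¬ pr S ∣ i - (lam - 1) → ¬ pr S ∣ j - (lam - 1) →
      F i = F j := by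
    intro i j h hi hj
    by_contra hne
    exact hj (h2 i j h hne hi)
  have hSne : S.Nonempty := ⟨q, hq⟩
  have hN2 := pr_ge_two hS hSne
  have hml : ¬ pr S ∣ lam - (lam - 1) := by
    rw [show lam - (lam - 1) = 1 by ring]
    intro h
    have := Int.le_of_dvd one_pos h
    omega
  have hlm : ¬ pr S ∣ (lam - 1) - lam := by
    rw [show (lam - 1) - lam = -1 by ring]
    intro h
    have := Int.le_of_dvd one_pos ((Int.dvd_neg).1 h)
    omega
  -- q is nonconstant with lam
  obtain ⟨j, hj, hjne⟩ : ∃ j, pr (S.erase q) ∣ lam - j ∧ F lam ≠ F j := by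
    obtain ⟨i, j, hd, hne⟩ := hnc q hq
    by_cases hi : pr S ∣ i - lam
    · have e := hF.dvd hi
      refine ⟨j, ?_, by rw [← e]; exact hne⟩
      have : pr (S.erase q) ∣ i - lam := dvd_trans (pr_dvd (Finset.erase_subset _ _)) hi
      have h3 := dvd_sub hd this
      rw [show i - j - (i - lam) = lam - j by ring] at h3
      exact h3
    · by_cases hj : pr S ∣ j - lam
      · have e := hF.dvd hj
        refine ⟨i, ?_, by rw [← e]; exact hne.symm⟩
        have : pr (S.erase q) ∣ j - lam := dvd_trans (pr_dvd (Finset.erase_subset _ _)) hj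
        have h3 := dvd_add hd this
        rw [show i - j + (j - lam) = -(lam - i) by ring] at h3
        exact (dvd_neg).1 h3
      · exact absurd (f1 i j hd hi hj) hne
  have hjl : ¬ pr S ∣ j - lam := fun h => hjne (hF.dvd h).symm
  by_cases hqq : q = q'
  · subst hqq
    by_cases hjm : pr S ∣ j - (lam - 1)
    · -- then pr (S.erase q) divides 1
      have h3 : pr (S.erase q) ∣ j - (lam - 1) := dvd_trans (pr_dvd (Finset.erase_subset _ _)) hjm
      have h4 := dvd_add hj h3
      rw [show lam - j + (j - (lam - 1)) = 1 by ring] at h4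
      have h5 : pr (S.erase q) = 1 := by
        have := pr_pos (hS.erase q)
        have := Int.le_of_dvd one_pos h4
        omega
      have hq3 : 3 ≤ q := by
        rcases hcard with h | h
        · exfalso
          have hne : (S.erase q).Nonempty := by
            rw [← Finset.card_pos, Finset.card_erase_of_mem hq]
            omega
          have := pr_ge_two (hS.erase q) hne
          omega
        · exact h q hq
      have hSq : pr S = q := by rw [pr_erase hq, h5, mul_one]
      -- a third point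
      have t1 : ¬ pr S ∣ (lam + 1) - lam := by
        rw [show lam + 1 - lam = 1 by ring]
        intro h
        have := Int.le_of_dvd one_pos h
        omega
      have t2 : ¬ pr S ∣ (lam + 1) - (lam - 1) := by
        rw [show lam + 1 - (lam - 1) = 2 by ring, hSq]
        intro h
        have := Int.le_of_dvd two_pos h
        omega
      have e1 : F (lam - 1) = F (lam + 1) := f1 _ _ (by rw [h5]; exact one_dvd _) hlm t1
      have e2 : F lam = F (lam + 1) := f2 _ _ (by rw [h5]; exact one_dvd _) hml t2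
      have e3 : F j = F (lam - 1) := hF.dvd hjm
      exact hjne (by rw [e2, e3, e1])
    · exact hjne (f2 lam j hj hml hjm)
  · -- two different primes
    have hq2 := (hS q hq).two_le
    have hq'2 := (hS q' hq').two_le
    set D : ℤ := pr (S.erase q) with hD
    set D' : ℤ := pr (S.erase q') with hD'
    have hSD : pr S = q * D := pr_erase hq
    have hSD' : pr S = q' * D' := pr_erase hq'
    have hqD' : (q : ℤ) ∣ D' := dvd_pr (Finset.mem_erase.2 ⟨hqq, hq⟩)
    have hq'D : (q' : ℤ) ∣ D := dvd_pr (Finset.mem_erase.2 ⟨fun e => hqq e.symm, hq'⟩)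
    have hqD : ¬ (q : ℤ) ∣ D := prime_not_dvd_pr (hS.erase q) (hS q hq) (by simp)
    have hq'D' : ¬ (q' : ℤ) ∣ D' := prime_not_dvd_pr (hS.erase q') (hS q' hq') (by simp)
    have hqS : (q : ℤ) ∣ pr S := dvd_pr hq
    have hq'S : (q' : ℤ) ∣ pr S := dvd_pr hq'
    have hpq : Prime (q : ℤ) := Nat.prime_iff_prime_int.1 (hS q hq)
    have hpq' : Prime (q' : ℤ) := Nat.prime_iff_prime_int.1 (hS q' hq')
    have nd1 : ¬ (q : ℤ) ∣ 1 := fun h => by
      have := Int.le_of_dvd one_pos h
      omega
    have nd1' : ¬ (q' : ℤ) ∣ 1 := fun h => by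
      have := Int.le_of_dvd one_pos h
      omega
    -- multiples
    have nds : ∀ s : ℤ, 0 < s → s < q → ¬ (q : ℤ) ∣ s * D := by
      intro s h0 hs h
      rcases hpq.dvd_or_dvd h with h | h
      · have := Int.le_of_dvd h0 h
        omega
      · exact hqD h
    have ndt : ∀ t : ℤ, 0 < t → t < q' → ¬ (q' : ℤ) ∣ t * D' := by
      intro t h0 ht h
      rcases hpq'.dvd_or_dvd h with h | h
      · have := Int.le_of_dvd h0 h
        omega
      · exact hq'D' h
    -- main grid claim
    have grid : ∀ s t : ℤ, 0 < s → s < q → 0 < t → t < q' →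
        pr S ∣ (lam + s * D + t * D') - (lam - 1) := by
      intro s t hs0 hs ht0 ht
      by_contra hbad
      have ns := nds s hs0 hs
      have nt := ndt t ht0 ht
      have a1 : ¬ pr S ∣ (lam + s * D) - lam := by
        intro h
        apply ns
        have := dvd_trans hqS h
        rwa [show lam + s * D - lam = s * D by ring] at this
      have a2 : ¬ pr S ∣ (lam + t * D') - lam := by
        intro h
        apply nt
        have := dvd_trans hq'S h
        rwa [show lam + t * D' - lam = t * D' by ring] at this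
      have a3 : ¬ pr S ∣ (lam + s * D + t * D') - lam := by
        intro h
        apply ns
        have h3 := dvd_trans hqS h
        have h4 := dvd_sub h3 (dvd_mul_of_dvd_right hqD' t)
        rwa [show lam + s * D + t * D' - lam - t * D' = s * D by ring] at h4
      have b1 : ¬ pr S ∣ (lam + s * D) - (lam - 1) := by
        intro h
        apply nd1'
        have h3 := dvd_trans hq'S h
        have h4 := dvd_sub h3 (dvd_mul_of_dvd_right hq'D s)
        rwa [show lam + s * D - (lam - 1) - s * D = 1 by ring] at h4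
      have b2 : ¬ pr S ∣ (lam + t * D') - (lam - 1) := by
        intro h
        apply nd1
        have h3 := dvd_trans hqS h
        have h4 := dvd_sub h3 (dvd_mul_of_dvd_right hqD' t)
        rwa [show lam + t * D' - (lam - 1) - t * D' = 1 by ring] at h4
      -- F j = F (lam + s D)
      have e0 : F j = F (lam + s * D) := by
        apply f1 _ _ _ hjl a1
        have : D ∣ s * D := Dvd.intro_left s rfl
        have h3 := dvd_add hj this
        rw [show lam - j + s * D = -(j - (lam + s * D)) by ring] at h3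
        exact (dvd_neg).1 h3
      have e1 : F lam = F (lam + t * D') := by
        apply f2 _ _ _ hml b2
        exact ⟨-t, by ring⟩
      have e2 : F (lam + t * D') = F (lam + s * D + t * D') := by
        apply f1 _ _ _ a2 a3
        exact ⟨-s, by ring⟩
      have e3 : F (lam + s * D) = F (lam + s * D + t * D') := by
        apply f2 _ _ _ b1 hbad
        exact ⟨-t, by ring⟩
      exact hjne (by rw [e0, e1, e2, e3])
    have hor : 3 ≤ q ∨ 3 ≤ q' := by
      by_contra h
      push Not at h
      exact hqq (by omega)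
    have g11 := grid 1 1 one_pos (by omega) one_pos (by omega)
    rcases hor with h3 | h3
    · have g21 := grid 2 1 two_pos (by omega) one_pos (by omega)
      have h4 := dvd_sub g21 g11
      rw [show lam + 2 * D + 1 * D' - (lam - 1) - (lam + 1 * D + 1 * D' - (lam - 1)) = 1 * D by ring]
        at h4
      exact nds 1 one_pos (by omega) (dvd_trans hqS h4)
    · have g12 := grid 1 2 one_pos (by omega) two_pos (by omega)
      have h4 := dvd_sub g12 g11
      rw [show lam + 1 * D + 2 * D' - (lam - 1) - (lam + 1 * D + 1 * D' - (lam - 1)) = 1 * D' by ring]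
        at h4
      exact ndt 1 one_pos (by omega) (dvd_trans hq'S h4)

end Pool.Agent.Helper336.PW
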