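import Pool.Agent.Helper336.Comb1

set_option autoImplicit false

namespace Pool.Agent.Helper336.PW

open Finset

/-- The chord `[c + i g, c + (i+1) g]`. -/
def win (c g i : ℤ) : ℤ × ℤ := (c + i * g, c + (i + 1) * g)

/-- The comparison sign of a window. -/
def Fw (κ : ℤ → ℕ) (c g i : ℤ) : Ordering := compare (κ (c + i * g)) (κ (c + (i + 1) * g))

/-- All vertices of a system. -/
def verts (C : Finset (ℤ × ℤ)) (O : OB) : Finset ℤ := C.image Prod.fst ∪ C.image Prod.snd ∪ overts O

theorem verts_card (C : Finset (ℤ × ℤ)) (O : OB) :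
    (verts C O).card ≤ 2 * C.card + (overts O).card := by
  unfold verts
  have h1 := Finset.card_union_le (C.image Prod.fst ∪ C.image Prod.snd) (overts O)
  have h2 := Finset.card_union_le (C.image Prod.fst) (C.image Prod.snd)
  have h3 := Finset.card_image_le (s := C) (f := Prod.fst)
  have h4 := Finset.card_image_le (s := C) (f := Prod.snd)
  omega

theorem sep_far {n g o u v : ℤ} (hg : 0 < g) (hgn : g < n) (hu : g < (u - o) % n)
    (hv : g < (v - o) % n) : Sep n o (o + g) u v := by
  rw [sep_rot n (by omega) o]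
  rw [show o - o = 0 by ring, show o + g - o = g by ring, Int.zero_emod,
    Int.emod_eq_of_lt hg.le hgn]
  unfold LSep
  omega

/-- Index `i` is killed by the vertex `x`. -/
def Killed (n c g x i : ℤ) : Prop := (x - (c + i * g)) % n ≤ g

theorem killed_cases {n M g c x i : ℤ} (hg : 0 < g) (hM : 0 < M) (hn : n = M * g)
    (h : Killed n c g x i) : M ∣ i - (x - c) / g ∨ M ∣ i - ((x - c) / g - 1) := by
  unfold Killed at h
  set d := (x - c) / g with hd
  set ρ := (x - c) % g with hρ
  have e1 : x - c = g * d + ρ := (Int.mul_ediv_add_emod (x - c) g).symm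
  have r1 : 0 ≤ ρ := Int.emod_nonneg _ hg.ne'
  have r2 : ρ < g := Int.emod_lt_of_pos _ hg
  set r := (d - i) % M with hr
  have s1 : 0 ≤ r := Int.emod_nonneg _ hM.ne'
  have s2 : r < M := Int.emod_lt_of_pos _ hM
  have e2 : d - i = M * ((d - i) / M) + r := (Int.mul_ediv_add_emod (d - i) M).symm
  have e3 : x - (c + i * g) = (g * r + ρ) + n * ((d - i) / M) := by
    rw [hn]
    linear_combination e1 + g * e2
  have e4 : (x - (c + i * g)) % n = g * r + ρ := by
    rw [e3, Int.add_mul_emod_self_left]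
    apply Int.emod_eq_of_lt
    · positivity
    · rw [hn]; nlinarith
  rw [e4] at h
  have hr2 : r < 2 := by
    by_contra hcon
    push Not at hcon
    nlinarith
  have : r = 0 ∨ r = 1 := by omega
  rcases this with h0 | h0
  · left
    refine ⟨-((d - i) / M), ?_⟩
    linear_combination (-1) * e2 - h0
  · right
    refine ⟨-((d - i) / M), ?_⟩
    linear_combination (-1) * e2 - h0

theorem win_far {n M g c i j : ℤ} (hg : 0 < g) (hM : 2 ≤ M) (hn : n = M * g)
    (h0 : ¬ M ∣ i - j) (h1 : ¬ M ∣ j - i - 1) (h2 : ¬ M ∣ i - j - 1) :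
    g < ((c + j * g) - (c + i * g)) % n ∧ g < ((c + (j + 1) * g) - (c + i * g)) % n := by
  set r := (j - i) % M with hr
  have s1 : 0 ≤ r := Int.emod_nonneg _ (by omega)
  have s2 : r < M := Int.emod_lt_of_pos _ (by omega)
  have e2 : j - i = M * ((j - i) / M) + r := (Int.mul_ediv_add_emod (j - i) M).symm
  have hr0 : r ≠ 0 := by
    intro h
    apply h0
    refine ⟨-((j - i) / M), ?_⟩
    linear_combination (-1) * e2 - h
  have hr1 : r ≠ 1 := by
    intro h
    apply h1
    refine ⟨((j - i) / M), ?_⟩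
    linear_combination e2 + h
  have hr2 : r ≠ M - 1 := by
    intro h
    apply h2
    refine ⟨-((j - i) / M) - 1, ?_⟩
    linear_combination (-1) * e2 - h
  have e3 : ((c + j * g) - (c + i * g)) % n = g * r := by
    have : (c + j * g) - (c + i * g) = g * r + n * ((j - i) / M) := by
      rw [hn]; linear_combination g * e2
    rw [this, Int.add_mul_emod_self_left]
    apply Int.emod_eq_of_lt
    · positivity
    · rw [hn]; nlinarith
  have e4 : ((c + (j + 1) * g) - (c + i * g)) % n = g * (r + 1) := by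
    have : (c + (j + 1) * g) - (c + i * g) = g * (r + 1) + n * ((j - i) / M) := by
      rw [hn]; linear_combination g * e2
    rw [this, Int.add_mul_emod_self_left]
    apply Int.emod_eq_of_lt
    · positivity
    · rw [hn]
      have : r + 1 < M := by omega
      nlinarith
  rw [e3, e4]
  have h2 : 2 ≤ r := by omega
  constructor <;> nlinarith

theorem addWin {n M g c : ℤ} (hg : 0 < g) (hM : 2 ≤ M) (hn : n = M * g) {C : Finset (ℤ × ℤ)}
    {O : OB} (hV : Valid n C O) (E : Finset ℤ) (hE1 : ∀ i ∈ E, ∀ j ∈ E, i ≠ j → ¬ M ∣ i - j)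
    (hE2 : ∀ i ∈ E, ∀ j ∈ E, ¬ M ∣ i - j - 1)
    (hE3 : ∀ i ∈ E, ∀ x ∈ verts C O, ¬ Killed n c g x i) :
    Valid n (C ∪ E.image (win c g)) O := by
  have hgn : g < n := by rw [hn]; nlinarith
  have hn0 : 0 < n := by omega
  have hw : ∀ i, c + (i + 1) * g = (c + i * g) + g := fun i => by ring
  have hfar : ∀ i ∈ E, ∀ x ∈ verts C O, g < (x - (c + i * g)) % n := by
    intro i hi x hx
    have := hE3 i hi x hx
    unfold Killed at this
    omega
  have hv1 : ∀ d ∈ C, d.1 ∈ verts C O := fun d hd => by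
    unfold verts
    exact Finset.mem_union_left _ (Finset.mem_union_left _ (Finset.mem_image_of_mem _ hd))
  have hv2 : ∀ d ∈ C, d.2 ∈ verts C O := fun d hd => by
    unfold verts
    exact Finset.mem_union_left _ (Finset.mem_union_right _ (Finset.mem_image_of_mem _ hd))
  have hv3 : ∀ x ∈ overts O, x ∈ verts C O := fun d hd => by
    unfold verts
    exact Finset.mem_union_right _ hd
  have hold : ∀ i ∈ E, ∀ d ∈ C, Sep n (win c g i).1 (win c g i).2 d.1 d.2 := by
    intro i hi d hd
    simp only [win]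
    rw [hw]
    exact sep_far hg hgn (hfar i hi _ (hv1 d hd)) (hfar i hi _ (hv2 d hd))
  refine ⟨?_, ?_, ?_, hV.oval⟩
  · intro d hd
    rcases Finset.mem_union.1 hd with hd | hd
    · exact hV.ne d hd
    · obtain ⟨i, hi, rfl⟩ := Finset.mem_image.1 hd
      simp only [win]
      intro h
      have h1 : n ∣ (c + (i + 1) * g) - (c + i * g) :=
        Int.ModEq.dvd (show c + i * g ≡ c + (i + 1) * g [ZMOD n] from h)
      rw [show (c + (i + 1) * g) - (c + i * g) = g by ring] at h1
      have := Int.le_of_dvd hg h1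
      omega
  · intro d hd e he hde
    rcases Finset.mem_union.1 hd with hd | hd
    · rcases Finset.mem_union.1 he with he | he
      · exact hV.sep d hd e he hde
      · obtain ⟨i, hi, rfl⟩ := Finset.mem_image.1 he
        exact (hold i hi d hd).symm
    · obtain ⟨i, hi, rfl⟩ := Finset.mem_image.1 hd
      rcases Finset.mem_union.1 he with he | he
      · exact hold i hi e he
      · obtain ⟨j, hj, rfl⟩ := Finset.mem_image.1 he
        have hij : i ≠ j := fun h => hde (by rw [h])
        obtain ⟨f1, f2⟩ := win_far (c := c) hg hM hn (hE1 i hi j hj hij) (hE2 j hj i hi)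
          (hE2 i hi j hj)
        simp only [win]
        rw [hw i]
        exact sep_far hg hgn f1 f2
  · intro d hd a ha b hb
    rcases Finset.mem_union.1 hd with hd | hd
    · exact hV.bsep d hd a ha b hb
    · obtain ⟨i, hi, rfl⟩ := Finset.mem_image.1 hd
      simp only [win]
      rw [hw i]
      exact (sep_far hg hgn (hfar i hi _ (hv3 a ha)) (hfar i hi _ (hv3 b hb))).symm

theorem div_eq {n g : ℤ} {P : Finset ℕ} (hP : AP P) (hn : n = pr P * g) {q : ℕ} (hq : q ∈ P) :
    n / (q : ℤ) = pr (P.erase q) * g := by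
  have hq0 : (q : ℤ) ≠ 0 := by exact_mod_cast (hP q hq).ne_zero
  rw [hn, pr_erase hq, mul_assoc, Int.mul_ediv_cancel_left _ hq0]

theorem cert_win {n g c : ℤ} {P : Finset ℕ} (hP : AP P) (hn : n = pr P * g) {κ κ' : ℤ → ℕ}
    {q : ℕ} (hq : q ∈ P) {i j : ℤ} (hd : pr (P.erase q) ∣ i - j) (hne : Fw κ c g i ≠ Fw κ c g j)
    (hi : compare (κ' (win c g i).1) (κ' (win c g i).2) = compare (κ (win c g i).1) (κ (win c g i).2))
    (hj : compare (κ' (win c g j).1) (κ' (win c g j).2) =
      compare (κ (win c g j).1) (κ (win c g j).2)) :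
    ¬ ∀ x, κ' (x + n / (q : ℤ)) = κ' x := by
  intro hper
  rw [div_eq hP hn hq] at hper
  have hper' : Per κ' (pr (P.erase q) * g) := hper
  apply hne
  unfold Fw
  simp only [win] at hi hj
  rw [← hi, ← hj]
  obtain ⟨t, ht⟩ := hd
  have e1 : κ' (c + i * g) = κ' (c + j * g) :=
    hper'.dvd ⟨t, by linear_combination g * ht⟩
  have e2 : κ' (c + (i + 1) * g) = κ' (c + (j + 1) * g) :=
    hper'.dvd ⟨t, by linear_combination g * ht⟩
  rw [e1, e2]

theorem cert_union {n g c : ℤ} {P B S : Finset ℕ} (hP : AP P) (hn : n = pr P * g) {κ : ℤ → ℕ}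
    {C : Finset (ℤ × ℤ)} {O : OB} (hC : Cert n κ B C O) (hPBS : P = B ∪ S) (E : Finset ℤ)
    (hE : ∀ q ∈ S, ∃ i ∈ E, ∃ j ∈ E, pr (P.erase q) ∣ i - j ∧ Fw κ c g i ≠ Fw κ c g j) :
    Cert n κ P (C ∪ E.image (win c g)) O := by
  intro κ' hκ' hag hO q hq
  have hag1 : Agree κ κ' C := fun d hd => hag d (Finset.mem_union_left _ hd)
  have hag2 : ∀ i ∈ E, compare (κ' (win c g i).1) (κ' (win c g i).2) =
      compare (κ (win c g i).1) (κ (win c g i).2) :=
    fun i hi => hag _ (Finset.mem_union_right _ (Finset.mem_image_of_mem _ hi))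
  rw [hPBS] at hq
  rcases Finset.mem_union.1 hq with hqB | hqS
  · exact hC κ' hκ' hag1 hO q hqB
  · obtain ⟨i, hi, j, hj, hd, hne⟩ := hE q hqS
    exact cert_win hP hn (by rw [hPBS]; exact hq) hd hne (hag2 i hi) (hag2 j hj)

end Pool.Agent.Helper336.PW
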