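import Pool.Agent.Helper336.Comb2

set_option autoImplicit false

namespace Pool.Agent.Helper336.PW

open Finset

theorem crt' {a b : ℤ} (ha : 0 < a) (hb : 0 < b) (h : IsCoprime a b) (i r : ℤ) :
    ∃ x, 0 ≤ x ∧ x < a * b ∧ a ∣ x - i ∧ b ∣ x - r := by
  obtain ⟨x, h1, h2⟩ := crt h i r
  have hab : 0 < a * b := mul_pos ha hb
  refine ⟨x % (a * b), Int.emod_nonneg _ hab.ne', Int.emod_lt_of_pos _ hab, ?_, ?_⟩
  · have : x % (a * b) - i = (x - i) - a * (b * (x / (a * b))) := by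
      have := Int.mul_ediv_add_emod x (a * b)
      linear_combination this
    rw [this]
    exact dvd_sub h1 (dvd_mul_right _ _)
  · have : x % (a * b) - r = (x - r) - b * (a * (x / (a * b))) := by
      have := Int.mul_ediv_add_emod x (a * b)
      linear_combination this
    rw [this]
    exact dvd_sub h2 (dvd_mul_right _ _)

theorem slice_build {B S : Finset ℕ} (hB : AP B) (hS : AP S) (hd : Disjoint B S)
    (hBne : B.Nonempty) {α : Type} {F : ℤ → α} (hF : Per F (pr S)) (Bad : ℤ → Prop) (r : ℤ)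
    (h : ∀ q ∈ S, ∃ i j, pr (S.erase q) ∣ i - j ∧ F i ≠ F j ∧
      (∀ k, pr S ∣ k - i → pr B ∣ k - r → ¬ Bad k) ∧
      (∀ k, pr S ∣ k - j → pr B ∣ k - r → ¬ Bad k)) :
    ∃ E : Finset ℤ, E.card ≤ 2 * S.card ∧ (∀ i ∈ E, ∀ j ∈ E, i ≠ j → ¬ pr (B ∪ S) ∣ i - j) ∧
      (∀ i ∈ E, ∀ j ∈ E, ¬ pr (B ∪ S) ∣ i - j - 1) ∧ (∀ i ∈ E, ¬ Bad i) ∧
      ∀ q ∈ S, ∃ i ∈ E, ∃ j ∈ E, pr ((B ∪ S).erase q) ∣ i - j ∧ F i ≠ F j := by
  classical
  have hcop : IsCoprime (pr S) (pr B) := (cop_pr hB hS hd).symm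
  have hM : pr (B ∪ S) = pr S * pr B := by rw [pr_union hd, mul_comm]
  choose! i j h1 h2 h3 h4 using h
  choose L hL1 hL2 hL3 hL4 using fun x => crt' (pr_pos hS) (pr_pos hB) hcop x r
  let E : Finset ℤ := S.image (fun q => L (i q)) ∪ S.image (fun q => L (j q))
  have hE : ∀ x ∈ E, ∃ y, x = L y ∧ ¬ Bad x := by
    intro x hx
    rcases Finset.mem_union.1 hx with hx | hx
    · obtain ⟨q, hq, rfl⟩ := Finset.mem_image.1 hx
      exact ⟨_, rfl, h3 q hq _ (hL3 _) (hL4 _)⟩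
    · obtain ⟨q, hq, rfl⟩ := Finset.mem_image.1 hx
      exact ⟨_, rfl, h4 q hq _ (hL3 _) (hL4 _)⟩
  refine ⟨E, ?_, ?_, ?_, ?_, ?_⟩
  · have e1 := Finset.card_union_le (S.image (fun q => L (i q))) (S.image (fun q => L (j q)))
    have e2 := Finset.card_image_le (s := S) (f := fun q => L (i q))
    have e3 := Finset.card_image_le (s := S) (f := fun q => L (j q))
    show (S.image (fun q => L (i q)) ∪ S.image (fun q => L (j q))).card ≤ 2 * S.card
    omega
  · intro x hx y hy hxy hdv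
    obtain ⟨a, rfl, -⟩ := hE x hx
    obtain ⟨b, rfl, -⟩ := hE y hy
    rw [hM] at hdv
    have p1 := hL1 a
    have p2 := hL2 a
    have p3 := hL1 b
    have p4 := hL2 b
    apply hxy
    have := Int.eq_zero_of_abs_lt_dvd hdv (by rw [abs_lt]; constructor <;> linarith)
    linarith
  · intro x hx y hy hdv
    obtain ⟨a, rfl, -⟩ := hE x hx
    obtain ⟨b, rfl, -⟩ := hE y hy
    rw [hM] at hdv
    have p1 := dvd_trans (dvd_mul_left _ _) hdv
    have p2 := dvd_sub (hL4 a) (hL4 b)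
    have p3 := dvd_sub p2 p1
    rw [show L a - r - (L b - r) - (L a - L b - 1) = 1 by ring] at p3
    have := Int.le_of_dvd one_pos p3
    have := pr_ge_two hB hBne
    omega
  · intro x hx
    obtain ⟨a, -, ha⟩ := hE x hx
    exact ha
  · intro q hq
    refine ⟨L (i q), ?_, L (j q), ?_, ?_, ?_⟩
    · exact Finset.mem_union_left _ (Finset.mem_image_of_mem _ hq)
    · exact Finset.mem_union_right _ (Finset.mem_image_of_mem _ hq)
    · have hqB : q ∉ B := fun h => Finset.disjoint_left.1 hd h hq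
      have e : (B ∪ S).erase q = B ∪ S.erase q := by
        rw [Finset.erase_union_distrib, Finset.erase_eq_of_notMem hqB]
      have hd' : Disjoint B (S.erase q) := hd.mono_right (Finset.erase_subset _ _)
      rw [e, pr_union hd']
      apply (cop_pr hB (hS.erase q) hd').mul_dvd
      · have := dvd_sub (hL4 (i q)) (hL4 (j q))
        rwa [show L (i q) - r - (L (j q) - r) = L (i q) - L (j q) by ring] at this
      · have hdd : pr (S.erase q) ∣ pr S := pr_dvd (Finset.erase_subset _ _)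
        have e1 := dvd_trans hdd (hL3 (i q))
        have e2 := dvd_trans hdd (hL3 (j q))
        have e3 := dvd_add (dvd_sub e1 e2) (h1 q hq)
        rwa [show L (i q) - i q - (L (j q) - j q) + (i q - j q) = L (i q) - L (j q) by ring] at e3
    · rw [hF.dvd (hL3 (i q)), hF.dvd (hL3 (j q))]
      exact h2 q hq

/-- The condition needed to place the windows of `S` in one residue class modulo `pr B`. -/
def SliceOK (B S : Finset ℕ) (Bad : ℤ → Prop) : Prop :=
  (∃ r, ∀ k, pr B ∣ k - r → ¬ Bad k) ∨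
  ((2 ≤ S.card ∨ ∀ q ∈ S, 3 ≤ q) ∧ ∃ lam r r', (∀ k, Bad k → pr B ∣ k - r → pr S ∣ k - lam) ∧
    (∀ k, Bad k → pr B ∣ k - r' → pr S ∣ k - (lam - 1)))

theorem slice_place {B S : Finset ℕ} (hB : AP B) (hS : AP S) (hd : Disjoint B S)
    (hBne : B.Nonempty) {α : Type} {F : ℤ → α} (hF : Per F (pr S)) (Bad : ℤ → Prop)
    (hnc : ∀ q ∈ S, ∃ i j, pr (S.erase q) ∣ i - j ∧ F i ≠ F j) (hok : SliceOK B S Bad) :
    ∃ E : Finset ℤ, E.card ≤ 2 * S.card ∧ (∀ i ∈ E, ∀ j ∈ E, i ≠ j → ¬ pr (B ∪ S) ∣ i - j) ∧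
      (∀ i ∈ E, ∀ j ∈ E, ¬ pr (B ∪ S) ∣ i - j - 1) ∧ (∀ i ∈ E, ¬ Bad i) ∧
      ∀ q ∈ S, ∃ i ∈ E, ∃ j ∈ E, pr ((B ∪ S).erase q) ∣ i - j ∧ F i ≠ F j := by
  rcases hok with ⟨r, hr⟩ | ⟨hcard, lam, r, r', h1, h2⟩
  · refine slice_build hB hS hd hBne hF Bad r ?_
    intro q hq
    obtain ⟨i, j, a, b⟩ := hnc q hq
    exact ⟨i, j, a, b, fun k _ hk => hr k hk, fun k _ hk => hr k hk⟩
  · have key : ∀ (i mu k : ℤ), ¬ pr S ∣ i - mu → pr S ∣ k - i → ¬ pr S ∣ k - mu := by
      intro i mu k hi hk hk'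
      apply hi
      have := dvd_sub hk' hk
      rwa [show k - mu - (k - i) = i - mu by ring] at this
    rcases lemmaF hS hF hnc hcard lam with hL | hL
    · refine slice_build hB hS hd hBne hF Bad r ?_
      intro q hq
      obtain ⟨i, j, a, b, c, d⟩ := hL q hq
      exact ⟨i, j, a, b, fun k hk hk' hb => key _ _ _ c hk (h1 k hb hk'),
        fun k hk hk' hb => key _ _ _ d hk (h1 k hb hk')⟩
    · refine slice_build hB hS hd hBne hF Bad r' ?_
      intro q hq
      obtain ⟨i, j, a, b, c, d⟩ := hL q hq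
      exact ⟨i, j, a, b, fun k hk hk' hb => key _ _ _ c hk (h2 k hb hk'),
        fun k hk hk' hb => key _ _ _ d hk (h2 k hb hk')⟩

theorem free_slice {N : ℤ} (hN : 0 < N) (X : Finset ℤ) (f : ℤ → ℤ) (h : 2 * (X.card : ℤ) < N) :
    ∃ r, ∀ x ∈ X, ¬ N ∣ r - f x ∧ ¬ N ∣ r - (f x - 1) := by
  classical
  let A := X.image (fun x => f x % N) ∪ X.image (fun x => (f x - 1) % N)
  have hA : A.card ≤ 2 * X.card := by
    have e1 := Finset.card_union_le (X.image (fun x => f x % N)) (X.image (fun x => (f x - 1) % N))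
    have e2 := Finset.card_image_le (s := X) (f := fun x => f x % N)
    have e3 := Finset.card_image_le (s := X) (f := fun x => (f x - 1) % N)
    show (X.image (fun x => f x % N) ∪ X.image (fun x => (f x - 1) % N)).card ≤ 2 * X.card
    omega
  have hlt : A.card < (Finset.Ico (0 : ℤ) N).card := by
    rw [Int.card_Ico]
    omega
  obtain ⟨r, hr, hrA⟩ := Finset.exists_mem_notMem_of_card_lt_card hlt
  rw [Finset.mem_Ico] at hr
  refine ⟨r, ?_⟩
  intro x hx
  have hrr : r % N = r := Int.emod_eq_of_lt hr.1 hr.2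
  constructor
  · intro hdv
    apply hrA
    apply Finset.mem_union_left
    rw [Finset.mem_image]
    refine ⟨x, hx, ?_⟩
    have := (Int.emod_emod_of_dvd (f x) (dvd_refl N))
    have h2 : f x ≡ r [ZMOD N] := Int.modEq_iff_dvd.2 hdv
    have h3 : f x % N = r % N := h2
    rw [h3, hrr]
  · intro hdv
    apply hrA
    apply Finset.mem_union_right
    rw [Finset.mem_image]
    refine ⟨x, hx, ?_⟩
    have h2 : f x - 1 ≡ r [ZMOD N] := Int.modEq_iff_dvd.2 hdv
    have h3 : (f x - 1) % N = r % N := h2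
    rw [h3, hrr]

/-- Indices killed by some vertex of a set. -/
def KB (n c g : ℤ) (X : Finset ℤ) (i : ℤ) : Prop := ∃ x ∈ X, Killed n c g x i

theorem sliceOK_free {n g c : ℤ} {B S : Finset ℕ} (hB : AP B) (hS : AP S) (hd : Disjoint B S)
    (hg : 0 < g) (hn : n = pr (B ∪ S) * g) (X : Finset ℤ) (h : 2 * (X.card : ℤ) < pr B) :
    SliceOK B S (KB n c g X) := by
  left
  obtain ⟨r, hr⟩ := free_slice (pr_pos hB) X (fun x => (x - c) / g) h
  refine ⟨r, ?_⟩
  rintro k hk ⟨x, hx, hkill⟩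
  have hM : 0 < pr (B ∪ S) := by
    rw [pr_union hd]; exact mul_pos (pr_pos hB) (pr_pos hS)
  have hBM : pr B ∣ pr (B ∪ S) := pr_dvd Finset.subset_union_left
  rcases killed_cases hg hM hn hkill with h1 | h1
  · apply (hr x hx).1
    have h2 := dvd_sub (dvd_trans hBM h1) hk
    rwa [show k - (x - c) / g - (k - r) = r - (x - c) / g by ring] at h2
  · apply (hr x hx).2
    have h2 := dvd_sub (dvd_trans hBM h1) hk
    rwa [show k - ((x - c) / g - 1) - (k - r) = r - ((x - c) / g - 1) by ring] at h2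

end Pool.Agent.Helper336.PW
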