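import Pool.Agent.Helper336.Comb3

set_option autoImplicit false

namespace Pool.Agent.Helper336.PW

open Finset

theorem pr_singleton (p : ℕ) : pr {p} = p := by simp [pr]

theorem pr_pair {p q : ℕ} (h : p ≠ q) : pr {p, q} = p * q := by
  unfold pr
  rw [Finset.prod_pair h]

theorem not_dvd_mod {S : Finset ℕ} (hS : AP S) {p : ℕ} (hp : p.Prime) (h : p ∉ S) :
    pr S % p ≠ 0 := by
  intro h0
  exact prime_not_dvd_pr hS hp h (Int.dvd_of_emod_eq_zero h0)

theorem shift_div (x c g N : ℤ) (hg : 0 < g) : (x + N * g - c) / g = (x - c) / g + N := by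
  rw [show x + N * g - c = (x - c) + N * g by ring]
  exact Int.add_mul_ediv_right _ _ hg.ne'

/-- `B = {3}`. -/
theorem sliceOK_three {n g c : ℤ} {S : Finset ℕ} (hS : AP S) (h3 : 3 ∉ S) (hcard : 2 ≤ S.card)
    (hg : 0 < g) (hn : n = 3 * pr S * g) (x : ℤ) :
    SliceOK {3} S (KB n c g {x, x + pr S * g}) := by
  right
  refine ⟨Or.inl hcard, ?_⟩
  set N := pr S with hN
  have hN0 : 0 < N := pr_pos hS
  have hmod : N % 3 ≠ 0 := not_dvd_mod hS Nat.prime_three h3
  set d := (x - c) / g with hdd
  have hk : ∀ k, KB n c g {x, x + N * g} k → ∃ t : ℤ, k = d + 3 * (N * t) ∨ k = d - 1 + 3 * (N * t) ∨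
      k = d + N + 3 * (N * t) ∨ k = d + N - 1 + 3 * (N * t) := by
    rintro k ⟨y, hy, hkill⟩
    have hM : 0 < 3 * N := by omega
    simp only [Finset.mem_insert, Finset.mem_singleton] at hy
    rcases hy with rfl | rfl
    · rcases killed_cases hg hM hn hkill with ⟨t, ht⟩ | ⟨t, ht⟩
      · exact ⟨t, Or.inl (by linear_combination ht)⟩
      · exact ⟨t, Or.inr (Or.inl (by linear_combination ht))⟩
    · rcases killed_cases hg hM hn hkill with ⟨t, ht⟩ | ⟨t, ht⟩
      · rw [shift_div _ _ _ _ hg] at ht
        exact ⟨t, Or.inr (Or.inr (Or.inl (by linear_combination ht)))⟩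
      · rw [shift_div _ _ _ _ hg] at ht
        exact ⟨t, Or.inr (Or.inr (Or.inr (by linear_combination ht)))⟩
  have hpr3 : pr {3} = 3 := by rw [pr_singleton]; rfl
  rw [hpr3]
  have h12 : N % 3 = 1 ∨ N % 3 = 2 := by omega
  rcases h12 with h1 | h2
  · refine ⟨d, d + 1, d - 1, ?_, ?_⟩
    · intro k hkb hdv
      obtain ⟨t, ht⟩ := hk k hkb
      generalize hw : N * t = w at ht
      rcases ht with ht | ht | ht | ht
      · exfalso; omega
      · exfalso; omega
      · exact ⟨1 + 3 * t, by linear_combination ht - 3 * hw⟩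
      · exfalso; omega
    · intro k hkb hdv
      obtain ⟨t, ht⟩ := hk k hkb
      generalize hw : N * t = w at ht
      rcases ht with ht | ht | ht | ht
      · exfalso; omega
      · exact ⟨3 * t, by linear_combination ht - 3 * hw⟩
      · exfalso; omega
      · exfalso; omega
  · refine ⟨d, d, d + 1, ?_, ?_⟩
    · intro k hkb hdv
      obtain ⟨t, ht⟩ := hk k hkb
      generalize hw : N * t = w at ht
      rcases ht with ht | ht | ht | ht
      · exact ⟨3 * t, by linear_combination ht - 3 * hw⟩
      · exfalso; omega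
      · exfalso; omega
      · exfalso; omega
    · intro k hkb hdv
      obtain ⟨t, ht⟩ := hk k hkb
      generalize hw : N * t = w at ht
      rcases ht with ht | ht | ht | ht
      · exfalso; omega
      · exfalso; omega
      · exfalso; omega
      · exact ⟨1 + 3 * t, by linear_combination ht - 3 * hw⟩

/-- `B = {2, 3}`, block. -/
theorem sliceOK_six_block {n g c : ℤ} {S : Finset ℕ} (hS : AP S) (h2 : 2 ∉ S) (h3 : 3 ∉ S)
    (hg : 0 < g) (hn : n = 6 * pr S * g) (z : ℤ) :
    SliceOK {2, 3} S (KB n c g {z, z + 2 * pr S * g, z + 3 * pr S * g, z + 5 * pr S * g}) := by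
  right
  refine ⟨Or.inr ?_, ?_⟩
  · intro q hq
    have := (hS q hq).two_le
    have : q ≠ 2 := fun e => h2 (e ▸ hq)
    omega
  set N := pr S with hN
  have hN0 : 0 < N := pr_pos hS
  have hmod : N % 3 ≠ 0 := not_dvd_mod hS Nat.prime_three h3
  have hmod2 : N % 2 ≠ 0 := not_dvd_mod hS Nat.prime_two h2
  set d := (z - c) / g with hdd
  have hk : ∀ k, KB n c g {z, z + 2 * N * g, z + 3 * N * g, z + 5 * N * g} k →
      ∃ t : ℤ, k = d + 6 * (N * t) ∨ k = d - 1 + 6 * (N * t) ∨
      k = d + 2 * N + 6 * (N * t) ∨ k = d + 2 * N - 1 + 6 * (N * t) ∨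
      k = d + 3 * N + 6 * (N * t) ∨ k = d + 3 * N - 1 + 6 * (N * t) ∨
      k = d + 5 * N + 6 * (N * t) ∨ k = d + 5 * N - 1 + 6 * (N * t) := by
    rintro k ⟨y, hy, hkill⟩
    have hM : 0 < 6 * N := by omega
    simp only [Finset.mem_insert, Finset.mem_singleton] at hy
    rcases hy with rfl | rfl | rfl | rfl
    · rcases killed_cases hg hM hn hkill with ⟨t, ht⟩ | ⟨t, ht⟩
      · exact ⟨t, Or.inl (by linear_combination ht)⟩
      · exact ⟨t, Or.inr (Or.inl (by linear_combination ht))⟩
    · rcases killed_cases hg hM hn hkill with ⟨t, ht⟩ | ⟨t, ht⟩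
      · rw [shift_div _ _ _ _ hg] at ht
        exact ⟨t, Or.inr (Or.inr (Or.inl (by linear_combination ht)))⟩
      · rw [shift_div _ _ _ _ hg] at ht
        exact ⟨t, Or.inr (Or.inr (Or.inr (Or.inl (by linear_combination ht))))⟩
    · rcases killed_cases hg hM hn hkill with ⟨t, ht⟩ | ⟨t, ht⟩
      · rw [shift_div _ _ _ _ hg] at ht
        exact ⟨t, Or.inr (Or.inr (Or.inr (Or.inr (Or.inl (by linear_combination ht)))))⟩
      · rw [shift_div _ _ _ _ hg] at ht
        exact ⟨t, Or.inr (Or.inr (Or.inr (Or.inr (Or.inr (Or.inl (by linear_combination ht))))))⟩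
    · rcases killed_cases hg hM hn hkill with ⟨t, ht⟩ | ⟨t, ht⟩
      · rw [shift_div _ _ _ _ hg] at ht
        exact ⟨t, Or.inr (Or.inr (Or.inr (Or.inr (Or.inr (Or.inr
          (Or.inl (by linear_combination ht)))))))⟩
      · rw [shift_div _ _ _ _ hg] at ht
        exact ⟨t, Or.inr (Or.inr (Or.inr (Or.inr (Or.inr (Or.inr
          (Or.inr (by linear_combination ht)))))))⟩
  have hpr : pr {2, 3} = 6 := by rw [pr_pair (by norm_num)]; norm_num
  rw [hpr]
  have h15 : N % 6 = 1 ∨ N % 6 = 5 := by omega
  rcases h15 with h1 | h5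
  · refine ⟨d, d, d + 1, ?_, ?_⟩
    · intro k hkb hdv
      obtain ⟨t, ht⟩ := hk k hkb
      generalize hw : N * t = w at ht
      rcases ht with ht | ht | ht | ht | ht | ht | ht | ht
      · exact ⟨6 * t, by linear_combination ht - 6 * hw⟩
      all_goals exfalso; omega
    · intro k hkb hdv
      obtain ⟨t, ht⟩ := hk k hkb
      generalize hw : N * t = w at ht
      rcases ht with ht | ht | ht | ht | ht | ht | ht | ht
      · exfalso; omega
      · exfalso; omega
      · exfalso; omega
      · exact ⟨2 + 6 * t, by linear_combination ht - 6 * hw⟩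
      all_goals exfalso; omega
  · refine ⟨d, d + 1, d + 2, ?_, ?_⟩
    · intro k hkb hdv
      obtain ⟨t, ht⟩ := hk k hkb
      generalize hw : N * t = w at ht
      rcases ht with ht | ht | ht | ht | ht | ht | ht | ht
      · exfalso; omega
      · exfalso; omega
      · exfalso; omega
      · exfalso; omega
      · exfalso; omega
      · exfalso; omega
      · exact ⟨5 + 6 * t, by linear_combination ht - 6 * hw⟩
      · exfalso; omega
    · intro k hkb hdv
      obtain ⟨t, ht⟩ := hk k hkb
      generalize hw : N * t = w at ht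
      rcases ht with ht | ht | ht | ht | ht | ht | ht | ht
      · exfalso; omega
      · exfalso; omega
      · exfalso; omega
      · exfalso; omega
      · exfalso; omega
      · exact ⟨3 + 6 * t, by linear_combination ht - 6 * hw⟩
      · exfalso; omega
      · exfalso; omega

/-- `B = {2, 3}`, two chords. -/
theorem sliceOK_six_nested {n g c : ℤ} {S : Finset ℕ} (hS : AP S) (h2 : 2 ∉ S) (h3 : 3 ∉ S)
    (hg : 0 < g) (hn : n = 6 * pr S * g) (z y : ℤ) :
    SliceOK {2, 3} S (KB n c g {z, z + 3 * pr S * g, y, y + 2 * pr S * g}) := by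
  set N := pr S with hN
  have hN0 : 0 < N := pr_pos hS
  have hmod : N % 3 ≠ 0 := not_dvd_mod hS Nat.prime_three h3
  have hmod2 : N % 2 ≠ 0 := not_dvd_mod hS Nat.prime_two h2
  set d := (z - c) / g with hdd
  set e := (y - c) / g with hee
  have hk : ∀ k, KB n c g {z, z + 3 * N * g, y, y + 2 * N * g} k →
      ∃ t : ℤ, k = d + 6 * (N * t) ∨ k = d - 1 + 6 * (N * t) ∨
      k = d + 3 * N + 6 * (N * t) ∨ k = d + 3 * N - 1 + 6 * (N * t) ∨
      k = e + 6 * (N * t) ∨ k = e - 1 + 6 * (N * t) ∨
      k = e + 2 * N + 6 * (N * t) ∨ k = e + 2 * N - 1 + 6 * (N * t) := by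
    rintro k ⟨x, hy, hkill⟩
    have hM : 0 < 6 * N := by omega
    simp only [Finset.mem_insert, Finset.mem_singleton] at hy
    rcases hy with rfl | rfl | rfl | rfl
    · rcases killed_cases hg hM hn hkill with ⟨t, ht⟩ | ⟨t, ht⟩
      · exact ⟨t, Or.inl (by linear_combination ht)⟩
      · exact ⟨t, Or.inr (Or.inl (by linear_combination ht))⟩
    · rcases killed_cases hg hM hn hkill with ⟨t, ht⟩ | ⟨t, ht⟩
      · rw [shift_div _ _ _ _ hg] at ht
        exact ⟨t, Or.inr (Or.inr (Or.inl (by linear_combination ht)))⟩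
      · rw [shift_div _ _ _ _ hg] at ht
        exact ⟨t, Or.inr (Or.inr (Or.inr (Or.inl (by linear_combination ht))))⟩
    · rcases killed_cases hg hM hn hkill with ⟨t, ht⟩ | ⟨t, ht⟩
      · exact ⟨t, Or.inr (Or.inr (Or.inr (Or.inr (Or.inl (by linear_combination ht)))))⟩
      · exact ⟨t, Or.inr (Or.inr (Or.inr (Or.inr (Or.inr (Or.inl (by linear_combination ht))))))⟩
    · rcases killed_cases hg hM hn hkill with ⟨t, ht⟩ | ⟨t, ht⟩
      · rw [shift_div _ _ _ _ hg] at ht
        exact ⟨t, Or.inr (Or.inr (Or.inr (Or.inr (Or.inr (Or.inr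
          (Or.inl (by linear_combination ht)))))))⟩
      · rw [shift_div _ _ _ _ hg] at ht
        exact ⟨t, Or.inr (Or.inr (Or.inr (Or.inr (Or.inr (Or.inr
          (Or.inr (by linear_combination ht)))))))⟩
  have hpr : pr {2, 3} = 6 := by rw [pr_pair (by norm_num)]; norm_num
  have hS3 : ∀ q ∈ S, 3 ≤ q := by
    intro q hq
    have := (hS q hq).two_le
    have : q ≠ 2 := fun e => h2 (e ▸ hq)
    omega
  have free : ∀ r, (∀ a, (a = d ∨ a = d - 1 ∨ a = d + 3 * N ∨ a = d + 3 * N - 1 ∨ a = e ∨ a = e - 1 ∨
      a = e + 2 * N ∨ a = e + 2 * N - 1) → ¬ (6 : ℤ) ∣ a - r) →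
      SliceOK {2, 3} S (KB n c g {z, z + 3 * N * g, y, y + 2 * N * g}) := by
    intro r hr
    left
    refine ⟨r, ?_⟩
    rw [hpr]
    intro k hdv hkb
    obtain ⟨t, ht⟩ := hk k hkb
    generalize N * t = w at ht
    rcases ht with ht | ht | ht | ht | ht | ht | ht | ht
    · exact hr d (by omega) (by omega)
    · exact hr (d - 1) (by omega) (by omega)
    · exact hr (d + 3 * N) (by omega) (by omega)
    · exact hr (d + 3 * N - 1) (by omega) (by omega)
    · exact hr e (by omega) (by omega)
    · exact hr (e - 1) (by omega) (by omega)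
    · exact hr (e + 2 * N) (by omega) (by omega)
    · exact hr (e + 2 * N - 1) (by omega) (by omega)
  have h15 : N % 6 = 1 ∨ N % 6 = 5 := by omega
  rcases h15 with h1 | h5
  · have hres : (e - d) % 6 = 0 ∨ (e - d) % 6 = 1 ∨ (e - d) % 6 = 2 ∨ (e - d) % 6 = 3 ∨
      (e - d) % 6 = 4 ∨ (e - d) % 6 = 5 := by omega
    -- z kills d, d-1, d+3, d+2 ; y kills e, e-1, e+2, e+1
    rcases hres with h | h | h | h | h | h
    · exact free (d + 4) (by omega)
    · exact free (d + 4) (by omega)
    · -- e - 1 = d + 1, e + 2 = d + 4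
      right
      refine ⟨Or.inr hS3, e, e + 2, e - 1, ?_, ?_⟩
      · rw [hpr]
        intro k hkb hdv
        obtain ⟨t, ht⟩ := hk k hkb
        generalize hw : N * t = w at ht
        rcases ht with ht | ht | ht | ht | ht | ht | ht | ht
        · exfalso; omega
        · exfalso; omega
        · exfalso; omega
        · exfalso; omega
        · exfalso; omega
        · exfalso; omega
        · exact ⟨2 + 6 * t, by linear_combination ht - 6 * hw⟩
        · exfalso; omega
      · rw [hpr]
        intro k hkb hdv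
        obtain ⟨t, ht⟩ := hk k hkb
        generalize hw : N * t = w at ht
        rcases ht with ht | ht | ht | ht | ht | ht | ht | ht
        · exfalso; omega
        · exfalso; omega
        · exfalso; omega
        · exfalso; omega
        · exfalso; omega
        · exact ⟨6 * t, by linear_combination ht - 6 * hw⟩
        · exfalso; omega
        · exfalso; omega
    · exact free (d + 1) (by omega)
    · exact free (d + 1) (by omega)
    · right
      refine ⟨Or.inr hS3, e, e + 2, e - 1, ?_, ?_⟩
      · rw [hpr]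
        intro k hkb hdv
        obtain ⟨t, ht⟩ := hk k hkb
        generalize hw : N * t = w at ht
        rcases ht with ht | ht | ht | ht | ht | ht | ht | ht
        · exfalso; omega
        · exfalso; omega
        · exfalso; omega
        · exfalso; omega
        · exfalso; omega
        · exfalso; omega
        · exact ⟨2 + 6 * t, by linear_combination ht - 6 * hw⟩
        · exfalso; omega
      · rw [hpr]
        intro k hkb hdv
        obtain ⟨t, ht⟩ := hk k hkb
        generalize hw : N * t = w at ht
        rcases ht with ht | ht | ht | ht | ht | ht | ht | ht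
        · exfalso; omega
        · exfalso; omega
        · exfalso; omega
        · exfalso; omega
        · exfalso; omega
        · exact ⟨6 * t, by linear_combination ht - 6 * hw⟩
        · exfalso; omega
        · exfalso; omega
  · have hres : (e - d) % 6 = 0 ∨ (e - d) % 6 = 1 ∨ (e - d) % 6 = 2 ∨ (e - d) % 6 = 3 ∨
      (e - d) % 6 = 4 ∨ (e - d) % 6 = 5 := by omega
    -- z kills d, d-1, d+3, d+2 ; y kills e, e-1, e-2, e-3 ; free e+1, e+2
    rcases hres with h | h | h | h | h | h
    · exact free (d + 1) (by omega)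
    · right
      refine ⟨Or.inr hS3, e, e, e - 3, ?_, ?_⟩
      · rw [hpr]
        intro k hkb hdv
        obtain ⟨t, ht⟩ := hk k hkb
        generalize hw : N * t = w at ht
        rcases ht with ht | ht | ht | ht | ht | ht | ht | ht
        · exfalso; omega
        · exfalso; omega
        · exfalso; omega
        · exfalso; omega
        · exact ⟨6 * t, by linear_combination ht - 6 * hw⟩
        · exfalso; omega
        · exfalso; omega
        · exfalso; omega
      · rw [hpr]
        intro k hkb hdv
        obtain ⟨t, ht⟩ := hk k hkb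
        generalize hw : N * t = w at ht
        rcases ht with ht | ht | ht | ht | ht | ht | ht | ht
        · exfalso; omega
        · exfalso; omega
        · exfalso; omega
        · exfalso; omega
        · exfalso; omega
        · exfalso; omega
        · exfalso; omega
        · exact ⟨2 + 6 * t, by linear_combination ht - 6 * hw⟩
    · exact free (d + 4) (by omega)
    · exact free (d + 4) (by omega)
    · right
      refine ⟨Or.inr hS3, e, e, e - 3, ?_, ?_⟩
      · rw [hpr]
        intro k hkb hdv
        obtain ⟨t, ht⟩ := hk k hkb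
        generalize hw : N * t = w at ht
        rcases ht with ht | ht | ht | ht | ht | ht | ht | ht
        · exfalso; omega
        · exfalso; omega
        · exfalso; omega
        · exfalso; omega
        · exact ⟨6 * t, by linear_combination ht - 6 * hw⟩
        · exfalso; omega
        · exfalso; omega
        · exfalso; omega
      · rw [hpr]
        intro k hkb hdv
        obtain ⟨t, ht⟩ := hk k hkb
        generalize hw : N * t = w at ht
        rcases ht with ht | ht | ht | ht | ht | ht | ht | ht
        · exfalso; omega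
        · exfalso; omega
        · exfalso; omega
        · exfalso; omega
        · exfalso; omega
        · exfalso; omega
        · exfalso; omega
        · exact ⟨2 + 6 * t, by linear_combination ht - 6 * hw⟩
    · exact free (d + 1) (by omega)

end Pool.Agent.Helper336.PW
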