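import Pool.Agent.Helper336.OddCase

set_option autoImplicit false

namespace Pool.Agent.Helper336.PW

open Finset

/-- Rows and columns with few bad cells. -/
theorem count_lemma {ι I α : Type} [Fintype ι] [Fintype I] [DecidableEq ι] [DecidableEq I]
    (φ : ι → α) (bad : Finset (ι × I)) (h3 : 3 ≤ Fintype.card ι) (hφ : ∃ t t', φ t ≠ φ t')
    (hrow : ∀ h : I, ∀ t t' : ι, (t, h) ∉ bad → (t', h) ∉ bad → φ t = φ t') (a : ℕ)
    (hcol : ∀ t : ι, (bad.filter (fun c => c.1 = t)).card ≤ a) :
    2 * Fintype.card I ≤ bad.card + a := by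
  classical
  let r : I → ℕ := fun h => (bad.filter (fun c => c.2 = h)).card
  have hsum : bad.card = ∑ h : I, r h := by
    exact Finset.card_eq_sum_card_fiberwise (f := fun c : ι × I => c.2) (t := Finset.univ)
      (fun _ _ => Finset.mem_coe.2 (Finset.mem_univ _))
  have hr1 : ∀ h, 1 ≤ r h := by
    intro h
    by_contra hcon
    have h0 : (bad.filter (fun c => c.2 = h)).card = 0 := by
      show r h = 0
      omega
    rw [Finset.card_eq_zero] at h0
    obtain ⟨t, t', htt⟩ := hφ
    apply htt
    apply hrow h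
    · intro hb
      have : (t, h) ∈ bad.filter (fun c => c.2 = h) := Finset.mem_filter.2 ⟨hb, rfl⟩
      rw [h0] at this
      simp at this
    · intro hb
      have : (t', h) ∈ bad.filter (fun c => c.2 = h) := Finset.mem_filter.2 ⟨hb, rfl⟩
      rw [h0] at this
      simp at this
  let I1 := Finset.univ.filter (fun h => r h = 1)
  -- for h in I1 there is a unique bad column
  have huniq : ∀ h ∈ I1, ∃ t : ι, (t, h) ∈ bad ∧ ∀ t', (t', h) ∈ bad → t' = t := by
    intro h hh
    have h1 : (bad.filter (fun c => c.2 = h)).card = 1 := (Finset.mem_filter.1 hh).2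
    obtain ⟨c, hc⟩ := Finset.card_eq_one.1 h1
    have hcm : c ∈ bad.filter (fun c => c.2 = h) := by rw [hc]; simp
    obtain ⟨hc1, hc2⟩ := Finset.mem_filter.1 hcm
    refine ⟨c.1, ?_, ?_⟩
    · rw [← hc2]; exact hc1
    · intro t' ht'
      have : (t', h) ∈ bad.filter (fun c => c.2 = h) := Finset.mem_filter.2 ⟨ht', rfl⟩
      rw [hc, Finset.mem_singleton] at this
      rw [← this]
  have hI1 : I1.card ≤ a := by
    rcases I1.eq_empty_or_nonempty with h0 | ⟨h0, hh0⟩
    · rw [h0]; simp
    · obtain ⟨t0, ht0, hu0⟩ := huniq h0 hh0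
      refine le_trans ?_ (hcol t0)
      apply Finset.card_le_card_of_injOn (fun h => (t0, h))
      · intro h hh
        obtain ⟨t1, ht1, hu1⟩ := huniq h hh
        have : t1 = t0 := by
          by_contra hne
          -- φ constant
          have c0 : ∀ x y, x ≠ t0 → y ≠ t0 → φ x = φ y := fun x y hx hy =>
            hrow h0 x y (fun hb => hx (hu0 x hb)) (fun hb => hy (hu0 y hb))
          have c1 : ∀ x y, x ≠ t1 → y ≠ t1 → φ x = φ y := fun x y hx hy =>
            hrow h x y (fun hb => hx (hu1 x hb)) (fun hb => hy (hu1 y hb))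
          obtain ⟨z, hz0, hz1⟩ : ∃ z, z ≠ t0 ∧ z ≠ t1 := by
            have : ({t0, t1} : Finset ι).card < (Finset.univ : Finset ι).card := by
              have := Finset.card_le_two (a := t0) (b := t1)
              rw [Finset.card_univ]
              omega
            obtain ⟨z, -, hz⟩ := Finset.exists_mem_notMem_of_card_lt_card this
            simp only [Finset.mem_insert, Finset.mem_singleton, not_or] at hz
            exact ⟨z, hz.1, hz.2⟩
          have call : ∀ x, φ x = φ z := by
            intro x
            by_cases hx : x = t0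
            · have : x ≠ t1 := fun e => hne (e.symm.trans hx)
              exact c1 x z this hz1
            · exact c0 x z hx hz0
          obtain ⟨t, t', htt⟩ := hφ
          exact htt ((call t).trans (call t').symm)
        subst this
        exact Finset.mem_coe.2 (Finset.mem_filter.2 ⟨ht1, rfl⟩)
      · intro x _ y _ hxy
        exact (Prod.mk.inj hxy).2
  have hlow : ∀ h : I, 2 ≤ r h + (if r h = 1 then 1 else 0) := by
    intro h
    have := hr1 h
    split_ifs <;> omega
  have h5 : ∑ h : I, 2 ≤ ∑ h : I, (r h + (if r h = 1 then 1 else 0)) :=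
    Finset.sum_le_sum (fun h _ => hlow h)
  rw [Finset.sum_add_distrib, ← hsum, Finset.sum_boole] at h5
  simp only [Finset.sum_const, Finset.card_univ, smul_eq_mul, Nat.cast_id] at h5
  have : (Finset.univ.filter (fun h => r h = 1)).card = I1.card := rfl
  omega

/-- Shape of the set of killed indices of a diameter. -/
def HK (K : ℤ → Prop) (h d : ℤ) : Prop :=
  ∀ i, K i → 2 * h ∣ i - d ∨ 2 * h ∣ i - (d - 1) ∨ 2 * h ∣ i - (d + h) ∨ 2 * h ∣ i - (d + h - 1)

theorem hk_of_killed {n g c y h : ℤ} (hg : 0 < g) (hh : 0 < h) (hn : n = 2 * h * g) :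
    HK (KB n c g {y, y + h * g}) h ((y - c) / g) := by
  rintro i ⟨x, hx, hkill⟩
  simp only [Finset.mem_insert, Finset.mem_singleton] at hx
  rcases hx with rfl | rfl
  · rcases killed_cases hg (by omega) hn hkill with h1 | h1
    · exact Or.inl h1
    · exact Or.inr (Or.inl h1)
  · rcases killed_cases hg (by omega) hn hkill with h1 | h1
    · rw [shift_div _ _ _ _ hg] at h1
      exact Or.inr (Or.inr (Or.inl h1))
    · rw [shift_div _ _ _ _ hg] at h1
      exact Or.inr (Or.inr (Or.inr h1))

theorem K2 {K : ℤ → Prop} {h d : ℤ} (hK : HK K h d) (hodd : h % 2 = 1) {q : ℤ} (hq : 2 ≤ q)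
    (hqh : q ∣ h) {i j : ℤ} (hi : K i) (hj : K j) (h2 : (2 : ℤ) ∣ i - j) (hqij : q ∣ i - j) :
    2 * h ∣ i - j := by
  have nq1 : ¬ q ∣ 1 := fun h => by
    have := Int.le_of_dvd one_pos h
    omega
  have q2h : q ∣ 2 * h := dvd_mul_of_dvd_right hqh 2
  have t2h : (2 : ℤ) ∣ 2 * h := dvd_mul_right 2 h
  rcases hK i hi with a | a | a | a <;> rcases hK j hj with b | b | b | b
  · have := dvd_sub a b; rwa [show i - d - (j - d) = i - j by ring] at this
  · exfalso; apply nq1
    have e := dvd_trans q2h (dvd_sub a b)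
    have := dvd_sub hqij e
    rwa [show i - j - (i - d - (j - (d - 1))) = 1 by ring] at this
  · exfalso
    have e := dvd_trans t2h (dvd_sub a b)
    omega
  · exfalso; apply nq1
    have e := dvd_trans q2h (dvd_sub a b)
    have := dvd_add (dvd_sub hqij e) hqh
    rwa [show i - j - (i - d - (j - (d + h - 1))) + h = 1 by ring] at this
  · exfalso; apply nq1
    have e := dvd_trans q2h (dvd_sub a b)
    have := dvd_sub hqij e
    rw [show i - j - (i - (d - 1) - (j - d)) = -1 by ring] at this
    exact (dvd_neg).1 this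
  · have := dvd_sub a b; rwa [show i - (d - 1) - (j - (d - 1)) = i - j by ring] at this
  · exfalso; apply nq1
    have e := dvd_trans q2h (dvd_sub a b)
    have := dvd_add (dvd_sub hqij e) hqh
    rw [show i - j - (i - (d - 1) - (j - (d + h))) + h = -1 by ring] at this
    exact (dvd_neg).1 this
  · exfalso
    have e := dvd_trans t2h (dvd_sub a b)
    omega
  · exfalso
    have e := dvd_trans t2h (dvd_sub a b)
    omega
  · exfalso; apply nq1
    have e := dvd_trans q2h (dvd_sub a b)
    have := dvd_sub (dvd_sub hqij e) hqh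
    rwa [show i - j - (i - (d + h) - (j - (d - 1))) - h = 1 by ring] at this
  · have := dvd_sub a b; rwa [show i - (d + h) - (j - (d + h)) = i - j by ring] at this
  · exfalso; apply nq1
    have e := dvd_trans q2h (dvd_sub a b)
    have := dvd_sub hqij e
    rwa [show i - j - (i - (d + h) - (j - (d + h - 1))) = 1 by ring] at this
  · exfalso; apply nq1
    have e := dvd_trans q2h (dvd_sub a b)
    have := dvd_sub (dvd_sub hqij e) hqh
    rw [show i - j - (i - (d + h - 1) - (j - d)) - h = -1 by ring] at this
    exact (dvd_neg).1 this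
  · exfalso
    have e := dvd_trans t2h (dvd_sub a b)
    omega
  · exfalso; apply nq1
    have e := dvd_trans q2h (dvd_sub a b)
    have := dvd_sub hqij e
    rw [show i - j - (i - (d + h - 1) - (j - (d + h))) = -1 by ring] at this
    exact (dvd_neg).1 this
  · have := dvd_sub a b; rwa [show i - (d + h - 1) - (j - (d + h - 1)) = i - j by ring] at this

theorem K3 {K : ℤ → Prop} {h d : ℤ} (hK : HK K h d) (hodd : h % 2 = 1) (x : ℤ) :
    ∃ k1 k2, ∀ i, K i → (2 : ℤ) ∣ i - x → 2 * h ∣ i - k1 ∨ 2 * h ∣ i - k2 := by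
  have t2h : (2 : ℤ) ∣ 2 * h := dvd_mul_right 2 h
  by_cases hd : (2 : ℤ) ∣ d - x
  · refine ⟨d, d + h - 1, ?_⟩
    intro i hi h2
    rcases hK i hi with a | a | a | a
    · exact Or.inl a
    · exfalso
      have e := dvd_trans t2h a
      omega
    · exfalso
      have e := dvd_trans t2h a
      omega
    · exact Or.inr a
  · refine ⟨d - 1, d + h, ?_⟩
    intro i hi h2
    rcases hK i hi with a | a | a | a
    · exfalso
      have e := dvd_trans t2h a
      omega
    · exact Or.inl a
    · exact Or.inr a
    · exfalso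
      have e := dvd_trans t2h a
      omega

end Pool.Agent.Helper336.PW
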