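import Pool.Agent.Helper336.Even1

set_option autoImplicit false

namespace Pool.Agent.Helper336.PW

open Finset

/-- The counting step: a good pair of the primes `q` avoiding the neighbours of `ER`. -/
theorem column_core {Q : Finset ℕ} (hQ : AP Q) (hQ2 : 2 ∉ Q) {q : ℕ} (hq : q ∈ Q)
    {α : Type} {F : ℤ → α} (hF : Per F (2 * pr Q)) {K : ℤ → Prop} {d : ℤ} (hK : HK K (pr Q) d)
    (hKM : ∀ i j, 2 * pr Q ∣ i - j → K i → K j) {ε : ℤ} {u v : ℤ}
    (huv : 2 * pr (Q.erase q) ∣ u - v) (hFuv : F u ≠ F v) (hu : ¬ K u) (hv : ¬ K v)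
    (hpar : (2 : ℤ) ∣ u - ε) (ER : Finset ℤ)
    {I : Type} [Fintype I] [DecidableEq I] (τ : I → ℤ)
    (τ1 : ∀ h, (2 : ℤ) ∣ τ h ∧ (q : ℤ) ∣ τ h) (τ2 : ∀ h h', 2 * pr Q ∣ τ h - τ h' → h = h')
    (τ3 : ∀ x h h', (2 : ℤ) ∣ x - ε → ¬ K (x + τ h) → ¬ K (x + τ h') → F (x + τ h) = F (x + τ h'))
    (h0 : I) (τ4 : τ h0 = 0) (τ5 : 3 * (ER.card + 1) < 2 * Fintype.card I) :
    ∃ i j, 2 * pr (Q.erase q) ∣ i - j ∧ F i ≠ F j ∧ ¬ K i ∧ ¬ K j ∧ (2 : ℤ) ∣ i - ε ∧
      (∀ x ∈ ER, ¬ 2 * pr Q ∣ i - x - 1 ∧ ¬ 2 * pr Q ∣ x - i - 1) ∧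
      (∀ x ∈ ER, ¬ 2 * pr Q ∣ j - x - 1 ∧ ¬ 2 * pr Q ∣ x - j - 1) := by
  classical
  by_contra hcon
  push Not at hcon
  have hqp := hQ q hq
  have hodd : pr Q % 2 = 1 := by
    have := not_dvd_mod hQ Nat.prime_two hQ2
    have h1 := Int.emod_two_eq_zero_or_one (pr Q)
    rcases h1 with h1 | h1
    · exact absurd h1 (by exact_mod_cast this)
    · exact h1
  have hq3 : 3 ≤ q := by
    have := hqp.two_le
    have : q ≠ 2 := fun e => hQ2 (e ▸ hq)
    omega
  set M := 2 * pr Q with hM
  set D := 2 * pr (Q.erase q) with hD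
  have hMD : M = q * D := by rw [hM, pr_erase hq, hD]; ring
  have hDM : D ∣ M := ⟨q, by rw [hMD]; ring⟩
  have hqM : (q : ℤ) ∣ M := ⟨D, hMD⟩
  have h2M : (2 : ℤ) ∣ M := dvd_mul_right _ _
  have h2D : (2 : ℤ) ∣ D := dvd_mul_right _ _
  have hq0 : (0 : ℤ) < q := by exact_mod_cast hqp.pos
  have hD0 : 0 < D := by have := pr_pos (hQ.erase q); positivity
  have hM0 : 0 < M := by rw [hMD]; positivity
  have hqpr : Prime (q : ℤ) := Nat.prime_iff_prime_int.1 hqp
  have hqD : ¬ (q : ℤ) ∣ D := by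
    intro h
    rcases hqpr.dvd_or_dvd h with h | h
    · have := Int.le_of_dvd two_pos h
      omega
    · exact prime_not_dvd_pr (hQ.erase q) hqp (by simp) h
  have hqh : (q : ℤ) ∣ pr Q := dvd_pr hq
  let idx : Fin q × I → ℤ := fun c => u + (c.1 : ℕ) * D + τ c.2
  have hidx : ∀ c, idx c = u + (c.1 : ℕ) * D + τ c.2 := fun c => rfl
  -- parity of all cells
  have hcpar : ∀ c, (2 : ℤ) ∣ idx c - ε := by
    intro c
    have e1 := (τ1 c.2).1
    have e2 := dvd_mul_of_dvd_right h2D ((c.1 : ℕ) : ℤ)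
    have := dvd_add (dvd_add hpar e2) e1
    rwa [show u - ε + ((c.1 : ℕ) : ℤ) * D + τ c.2 = idx c - ε by rw [hidx]; ring] at this
  have hpp : ∀ c c', (2 : ℤ) ∣ idx c - idx c' := by
    intro c c'
    have := dvd_sub (hcpar c) (hcpar c')
    rwa [show idx c - ε - (idx c' - ε) = idx c - idx c' by ring] at this
  -- residues determine columns
  have hcolq : ∀ c c', (q : ℤ) ∣ idx c - idx c' → c.1 = c'.1 := by
    intro c c' h
    have e1 := (τ1 c.2).2
    have e2 := (τ1 c'.2).2
    have e3 := dvd_sub h (dvd_sub e1 e2)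
    rw [show idx c - idx c' - (τ c.2 - τ c'.2) = (((c.1 : ℕ) : ℤ) - ((c'.1 : ℕ) : ℤ)) * D by
      rw [hidx, hidx]; ring] at e3
    rcases hqpr.dvd_or_dvd e3 with h4 | h4
    · have b1 := c.1.2
      have b2 := c'.1.2
      have := Int.eq_zero_of_abs_lt_dvd h4 (by rw [abs_lt]; constructor <;> omega)
      apply Fin.ext
      omega
    · exact absurd h4 hqD
  have hsamecol : ∀ c c', c.1 = c'.1 → (q : ℤ) ∣ idx c - idx c' := by
    intro c c' h
    have e1 := (τ1 c.2).2
    have e2 := (τ1 c'.2).2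
    have := dvd_sub e1 e2
    rwa [show τ c.2 - τ c'.2 = idx c - idx c' by rw [hidx, hidx, h]; ring] at this
  have hinj : ∀ c c', M ∣ idx c - idx c' → c = c' := by
    intro c c' h
    have h1 := hcolq c c' (dvd_trans hqM h)
    have h2 : M ∣ τ c.2 - τ c'.2 := by
      rwa [show idx c - idx c' = τ c.2 - τ c'.2 by rw [hidx, hidx, h1]; ring] at h
    exact Prod.ext h1 (τ2 _ _ h2)
  -- two killed cells in a column coincide
  have hKcol : ∀ c c', K (idx c) → K (idx c') → c.1 = c'.1 → c = c' := by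
    intro c c' h h' hc
    apply hinj
    exact K2 hK hodd (by omega) hqh h h' (hpp c c') (hsamecol c c' hc)
  have hI2 : 2 ≤ Fintype.card I := by omega
  have hexf : ∀ t : Fin q, ∃ h, ¬ K (idx (t, h)) := by
    intro t
    by_contra hall
    push Not at hall
    have h1 : Fintype.card I ≤ 1 := by
      rw [Fintype.card_le_one_iff]
      intro a b
      exact (Prod.mk.inj (hKcol (t, a) (t, b) (hall a) (hall b) rfl)).2
    omega
  choose w hw using hexf
  let φ : Fin q → α := fun t => F (idx (t, w t))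
  have hφ : ∀ t h, ¬ K (idx (t, h)) → F (idx (t, h)) = φ t := by
    intro t h hh
    have hx : (2 : ℤ) ∣ u + ((t : ℕ) : ℤ) * D - ε := by
      have e2 := dvd_mul_of_dvd_right h2D ((t : ℕ) : ℤ)
      have := dvd_add hpar e2
      rwa [show u - ε + ((t : ℕ) : ℤ) * D = u + ((t : ℕ) : ℤ) * D - ε by ring] at this
    exact τ3 (u + ((t : ℕ) : ℤ) * D) h (w t) hx hh (hw t)
  let bad : Finset (Fin q × I) := Finset.univ.filter (fun c => K (idx c) ∨
    ∃ x ∈ ER, M ∣ idx c - x - 1 ∨ M ∣ x - idx c - 1)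
  have hnb : ∀ c, c ∉ bad → ¬ K (idx c) ∧ ∀ x ∈ ER, ¬ M ∣ idx c - x - 1 ∧ ¬ M ∣ x - idx c - 1 := by
    intro c hc
    have : ¬ (K (idx c) ∨ ∃ x ∈ ER, M ∣ idx c - x - 1 ∨ M ∣ x - idx c - 1) :=
      fun h => hc (Finset.mem_filter.2 ⟨Finset.mem_univ _, h⟩)
    push Not at this
    exact this
  have hrow : ∀ h : I, ∀ t t' : Fin q, (t, h) ∉ bad → (t', h) ∉ bad → φ t = φ t' := by
    intro h t t' h1 h2
    obtain ⟨a1, b1⟩ := hnb _ h1
    obtain ⟨a2, b2⟩ := hnb _ h2
    by_contra hne
    rw [← hφ t h a1, ← hφ t' h a2] at hne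
    have hd : D ∣ idx (t, h) - idx (t', h) :=
      ⟨((t : ℕ) : ℤ) - ((t' : ℕ) : ℤ), by rw [hidx, hidx]; ring⟩
    obtain ⟨x, hx, hx'⟩ := hcon (idx (t, h)) (idx (t', h)) hd hne a1 a2 (hcpar _) b1
    exact (b2 x hx).2 (hx' (b2 x hx).1)
  have hφne : ∃ t t', φ t ≠ φ t' := by
    obtain ⟨s, hs⟩ := huv
    have hs0 := Int.emod_nonneg (-s) hq0.ne'
    have hs1 := Int.emod_lt_of_pos (-s) hq0
    refine ⟨⟨0, by omega⟩, ⟨((-s) % q).toNat, by omega⟩, ?_⟩
    have e0 : idx (⟨0, by omega⟩, h0) = u := by rw [hidx, τ4]; simp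
    have e1 : idx (⟨((-s) % q).toNat, by omega⟩, h0) = u + ((-s) % q) * D := by
      rw [hidx, τ4]
      simp only [add_zero]
      rw [Int.toNat_of_nonneg hs0]
    have e2 : M ∣ v - (u + ((-s) % q) * D) := by
      refine ⟨(-s) / q, ?_⟩
      have := Int.mul_ediv_add_emod (-s) q
      rw [hMD]
      linear_combination (-1) * hs - D * this
    have e3 : ¬ K (u + ((-s) % q) * D) := by
      intro h
      apply hv
      apply hKM _ _ _ h
      rw [show u + ((-s) % q) * D - v = -(v - (u + ((-s) % q) * D)) by ring]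
      exact (dvd_neg).2 e2
    rw [← hφ _ h0 (by rw [e0]; exact hu), ← hφ _ h0 (by rw [e1]; exact e3), e0, e1,
      ← hF.dvd e2]
    exact hFuv
  -- the bound on bad cells
  let kc : Finset (Fin q × I) := Finset.univ.filter (fun c => K (idx c))
  let ac : ℤ → Finset (Fin q × I) := fun x => Finset.univ.filter (fun c => M ∣ idx c - x - 1 ∨
    M ∣ x - idx c - 1)
  have hbadsub : bad ⊆ kc ∪ ER.biUnion ac := by
    intro c hc
    rcases (Finset.mem_filter.1 hc).2 with h | ⟨x, hx, h⟩
    · exact Finset.mem_union_left _ (Finset.mem_filter.2 ⟨Finset.mem_univ _, h⟩)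
    · exact Finset.mem_union_right _ (Finset.mem_biUnion.2 ⟨x, hx,
        Finset.mem_filter.2 ⟨Finset.mem_univ _, h⟩⟩)
  have hacc : ∀ x ∈ ER, (ac x).card ≤ 2 := by
    intro x _
    have h1 : (Finset.univ.filter (fun c : Fin q × I => M ∣ idx c - x - 1)).card ≤ 1 := by
      rw [Finset.card_le_one]
      intro a ha b hb
      apply hinj
      have := dvd_sub (Finset.mem_filter.1 ha).2 (Finset.mem_filter.1 hb).2
      rwa [show idx a - x - 1 - (idx b - x - 1) = idx a - idx b by ring] at this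
    have h2 : (Finset.univ.filter (fun c : Fin q × I => M ∣ x - idx c - 1)).card ≤ 1 := by
      rw [Finset.card_le_one]
      intro a ha b hb
      apply hinj
      have := dvd_sub (Finset.mem_filter.1 hb).2 (Finset.mem_filter.1 ha).2
      rwa [show x - idx b - 1 - (x - idx a - 1) = idx a - idx b by ring] at this
    have h3 : ac x = Finset.univ.filter (fun c : Fin q × I => M ∣ idx c - x - 1) ∪
        Finset.univ.filter (fun c : Fin q × I => M ∣ x - idx c - 1) := Finset.filter_or _ _ _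
    rw [h3]
    have := Finset.card_union_le (Finset.univ.filter (fun c : Fin q × I => M ∣ idx c - x - 1))
      (Finset.univ.filter (fun c : Fin q × I => M ∣ x - idx c - 1))
    omega
  have hkcc : kc.card ≤ 2 := by
    obtain ⟨k1, k2, hk⟩ := K3 hK hodd ε
    have h1 : (Finset.univ.filter (fun c : Fin q × I => M ∣ idx c - k1)).card ≤ 1 := by
      rw [Finset.card_le_one]
      intro a ha b hb
      apply hinj
      have := dvd_sub (Finset.mem_filter.1 ha).2 (Finset.mem_filter.1 hb).2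
      rwa [show idx a - k1 - (idx b - k1) = idx a - idx b by ring] at this
    have h2 : (Finset.univ.filter (fun c : Fin q × I => M ∣ idx c - k2)).card ≤ 1 := by
      rw [Finset.card_le_one]
      intro a ha b hb
      apply hinj
      have := dvd_sub (Finset.mem_filter.1 ha).2 (Finset.mem_filter.1 hb).2
      rwa [show idx a - k2 - (idx b - k2) = idx a - idx b by ring] at this
    have hsub : kc ⊆ Finset.univ.filter (fun c : Fin q × I => M ∣ idx c - k1) ∪
        Finset.univ.filter (fun c : Fin q × I => M ∣ idx c - k2) := by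
      intro c hc
      rcases hk _ (Finset.mem_filter.1 hc).2 (hcpar c) with h | h
      · exact Finset.mem_union_left _ (Finset.mem_filter.2 ⟨Finset.mem_univ _, h⟩)
      · exact Finset.mem_union_right _ (Finset.mem_filter.2 ⟨Finset.mem_univ _, h⟩)
    have := Finset.card_le_card hsub
    have := Finset.card_union_le (Finset.univ.filter (fun c : Fin q × I => M ∣ idx c - k1))
      (Finset.univ.filter (fun c : Fin q × I => M ∣ idx c - k2))
    omega
  have hbc : bad.card ≤ 2 * (ER.card + 1) := by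
    have e1 := Finset.card_le_card hbadsub
    have e2 := Finset.card_union_le kc (ER.biUnion ac)
    have e3 := Finset.card_biUnion_le_card_mul ER ac 2 hacc
    omega
  have hcolb : ∀ t : Fin q, (bad.filter (fun c => c.1 = t)).card ≤ ER.card + 1 := by
    intro t
    have hsub : bad.filter (fun c => c.1 = t) ⊆ kc.filter (fun c => c.1 = t) ∪
        ER.biUnion (fun x => (ac x).filter (fun c => c.1 = t)) := by
      intro c hc
      obtain ⟨hc1, hc2⟩ := Finset.mem_filter.1 hc
      rcases (Finset.mem_filter.1 hc1).2 with h | ⟨x, hx, h⟩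
      · exact Finset.mem_union_left _ (Finset.mem_filter.2 ⟨Finset.mem_filter.2
          ⟨Finset.mem_univ _, h⟩, hc2⟩)
      · exact Finset.mem_union_right _ (Finset.mem_biUnion.2 ⟨x, hx,
          Finset.mem_filter.2 ⟨Finset.mem_filter.2 ⟨Finset.mem_univ _, h⟩, hc2⟩⟩)
    have h1 : (kc.filter (fun c => c.1 = t)).card ≤ 1 := by
      rw [Finset.card_le_one]
      intro a ha b hb
      obtain ⟨ha1, ha2⟩ := Finset.mem_filter.1 ha
      obtain ⟨hb1, hb2⟩ := Finset.mem_filter.1 hb
      exact hKcol a b (Finset.mem_filter.1 ha1).2 (Finset.mem_filter.1 hb1).2 (ha2.trans hb2.symm)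
    have h2 : ∀ x ∈ ER, ((ac x).filter (fun c => c.1 = t)).card ≤ 1 := by
      intro x _
      rw [Finset.card_le_one]
      intro a ha b hb
      obtain ⟨ha1, ha2⟩ := Finset.mem_filter.1 ha
      obtain ⟨hb1, hb2⟩ := Finset.mem_filter.1 hb
      have hqab := hsamecol a b (ha2.trans hb2.symm)
      have n2 : ¬ (q : ℤ) ∣ 2 := fun h => by
        have := Int.le_of_dvd two_pos h
        omega
      rcases (Finset.mem_filter.1 ha1).2 with ha3 | ha3 <;>
        rcases (Finset.mem_filter.1 hb1).2 with hb3 | hb3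
      · apply hinj
        have := dvd_sub ha3 hb3
        rwa [show idx a - x - 1 - (idx b - x - 1) = idx a - idx b by ring] at this
      · exfalso
        apply n2
        have := dvd_sub hqab (dvd_trans hqM (dvd_add ha3 hb3))
        rwa [show idx a - idx b - (idx a - x - 1 + (x - idx b - 1)) = 2 by ring] at this
      · exfalso
        apply n2
        have := dvd_add hqab (dvd_trans hqM (dvd_add ha3 hb3))
        rw [show idx a - idx b + (x - idx a - 1 + (idx b - x - 1)) = -2 by ring] at this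
        exact (dvd_neg).1 this
      · apply hinj
        have := dvd_sub hb3 ha3
        rwa [show x - idx b - 1 - (x - idx a - 1) = idx a - idx b by ring] at this
    have e1 := Finset.card_le_card hsub
    have e2 := Finset.card_union_le (kc.filter (fun c => c.1 = t))
      (ER.biUnion (fun x => (ac x).filter (fun c => c.1 = t)))
    have e3 := Finset.card_biUnion_le_card_mul ER (fun x => (ac x).filter (fun c => c.1 = t)) 1 h2
    omega
  have := count_lemma φ bad (by rw [Fintype.card_fin]; exact hq3) hφne hrow (ER.card + 1) hcolb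
  omega

end Pool.Agent.Helper336.PW
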