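import Pool.Agent.Helper336.Even2

set_option autoImplicit false

namespace Pool.Agent.Helper336.PW

open Finset

theorem pr_odd {Q : Finset ℕ} (hQ : AP Q) (hQ2 : 2 ∉ Q) : pr Q % 2 = 1 := by
  have := not_dvd_mod hQ Nat.prime_two hQ2
  have h1 := Int.emod_two_eq_zero_or_one (pr Q)
  rcases h1 with h1 | h1
  · exact absurd h1 (by exact_mod_cast this)
  · exact h1

theorem q_not_dvd_D {Q : Finset ℕ} (hQ : AP Q) (hQ2 : 2 ∉ Q) {r : ℕ} (hr : r ∈ Q) (s : ℤ)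
    (h : (r : ℤ) ∣ s * (2 * pr (Q.erase r))) : (r : ℤ) ∣ s := by
  have hrp := hQ r hr
  have hr3 : 3 ≤ r := by
    have := hrp.two_le
    have : r ≠ 2 := fun e => hQ2 (e ▸ hr)
    omega
  have hp : Prime (r : ℤ) := Nat.prime_iff_prime_int.1 hrp
  rcases hp.dvd_or_dvd h with h | h
  · exact h
  · exfalso
    rcases hp.dvd_or_dvd h with h | h
    · have := Int.le_of_dvd two_pos h
      omega
    · exact prime_not_dvd_pr (hQ.erase r) hrp (by simp) h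

theorem fin_eq_of_dvd {r : ℕ} (s s' : Fin r) (h : (r : ℤ) ∣ ((s : ℕ) : ℤ) - ((s' : ℕ) : ℤ)) :
    s = s' := by
  have b1 := s.2
  have b2 := s'.2
  have := Int.eq_zero_of_abs_lt_dvd h (by rw [abs_lt]; constructor <;> omega)
  apply Fin.ext
  omega

theorem column {Q : Finset ℕ} (hQ : AP Q) (hQ2 : 2 ∉ Q) {q : ℕ} (hq : q ∈ Q)
    {R : Finset ℕ} (hRQ : R ⊆ Q) (hqR : q ∉ R) (h5 : ∃ r ∈ R, 5 ≤ r)
    {α : Type} {F : ℤ → α} (hF : Per F (2 * pr Q)) {K : ℤ → Prop} {d : ℤ} (hK : HK K (pr Q) d)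
    (hKM : ∀ i j, 2 * pr Q ∣ i - j → K i → K j) {ε : ℤ} {u v : ℤ}
    (huv : 2 * pr (Q.erase q) ∣ u - v) (hFuv : F u ≠ F v) (hu : ¬ K u) (hv : ¬ K v)
    (hpar : (2 : ℤ) ∣ u - ε)
    (hR : ∀ r ∈ R, ∀ i j, 2 * pr (Q.erase r) ∣ i - j → (2 : ℤ) ∣ i - ε → ¬ K i → ¬ K j → F i = F j)
    (ER : Finset ℤ) (hER : ER.card ≤ 2 * R.card) :
    ∃ i j, 2 * pr (Q.erase q) ∣ i - j ∧ F i ≠ F j ∧ ¬ K i ∧ ¬ K j ∧ (2 : ℤ) ∣ i - ε ∧
      (∀ x ∈ ER, ¬ 2 * pr Q ∣ i - x - 1 ∧ ¬ 2 * pr Q ∣ x - i - 1) ∧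
      (∀ x ∈ ER, ¬ 2 * pr Q ∣ j - x - 1 ∧ ¬ 2 * pr Q ∣ x - j - 1) := by
  classical
  have hRne : R.Nonempty := by obtain ⟨r, hr, _⟩ := h5; exact ⟨r, hr⟩
  have hodd := pr_odd hQ hQ2
  have hq3 : 3 ≤ q := by
    have := (hQ q hq).two_le
    have : q ≠ 2 := fun e => hQ2 (e ▸ hq)
    omega
  have hqh : (q : ℤ) ∣ pr Q := dvd_pr hq
  have hcard1 : 1 ≤ R.card := Finset.card_pos.2 hRne
  by_cases hone : R.card = 1
  · obtain ⟨r, hRr⟩ := Finset.card_eq_one.1 hone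
    have hr5 : 5 ≤ r := by
      obtain ⟨r', hr', h⟩ := h5
      rw [hRr, Finset.mem_singleton] at hr'
      rw [← hr']; exact h
    have hrR : r ∈ R := by rw [hRr]; simp
    have hrQ := hRQ hrR
    have hqr : q ≠ r := fun e => hqR (e ▸ hrR)
    refine column_core hQ hQ2 hq hF hK hKM huv hFuv hu hv hpar ER
      (I := Fin r) (fun s => ((s : ℕ) : ℤ) * (2 * pr (Q.erase r))) ?_ ?_ ?_ ⟨0, by omega⟩ ?_ ?_
    · intro s
      constructor
      · exact dvd_mul_of_dvd_right (dvd_mul_right _ _) _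
      · exact dvd_mul_of_dvd_right (dvd_mul_of_dvd_right
          (dvd_pr (Finset.mem_erase.2 ⟨hqr, hq⟩)) _) _
    · intro s s' h
      apply fin_eq_of_dvd
      apply q_not_dvd_D hQ hQ2 hrQ
      have h1 : (r : ℤ) ∣ 2 * pr Q := dvd_mul_of_dvd_right (dvd_pr hrQ) _
      have := dvd_trans h1 h
      rwa [show ((s : ℕ) : ℤ) * (2 * pr (Q.erase r)) - ((s' : ℕ) : ℤ) * (2 * pr (Q.erase r)) =
        (((s : ℕ) : ℤ) - ((s' : ℕ) : ℤ)) * (2 * pr (Q.erase r)) by ring] at this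
    · intro x s s' hx h1 h2
      refine hR r hrR _ _ ⟨((s : ℕ) : ℤ) - ((s' : ℕ) : ℤ), by ring⟩ ?_ h1 h2
      have e := dvd_add hx (dvd_mul_of_dvd_right (dvd_mul_right 2 (pr (Q.erase r))) ((s : ℕ) : ℤ))
      rwa [show x - ε + ((s : ℕ) : ℤ) * (2 * pr (Q.erase r)) =
        x + ((s : ℕ) : ℤ) * (2 * pr (Q.erase r)) - ε by ring] at e
    · simp
    · rw [Fintype.card_fin]
      omega
  · -- two primes
    have hk2 : 2 ≤ R.card := by omega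
    obtain ⟨r2, hr2R, hr2max⟩ : ∃ r ∈ R, ∀ s ∈ R, s ≤ r := ⟨R.max' hRne, R.max'_mem hRne,
      fun s hs => R.le_max' s hs⟩
    have hR'ne : (R.erase r2).Nonempty := by
      rw [← Finset.card_pos, Finset.card_erase_of_mem hr2R]
      omega
    obtain ⟨r1, hr1R', hr1max⟩ : ∃ r ∈ R.erase r2, ∀ s ∈ R.erase r2, s ≤ r :=
      ⟨(R.erase r2).max' hR'ne, (R.erase r2).max'_mem hR'ne,
        fun s hs => (R.erase r2).le_max' s hs⟩
    have hr1R := (Finset.mem_erase.1 hr1R').2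
    have h12 : r1 ≠ r2 := (Finset.mem_erase.1 hr1R').1
    have hr1Q := hRQ hr1R
    have hr2Q := hRQ hr2R
    have hAR : AP R := hQ.mono hRQ
    have hb2 : 2 * (R.erase r2).card + 3 ≤ r2 := by
      apply odd_primes_card (hAR.erase r2) (fun h => hQ2 (hRQ (Finset.mem_erase.1 h).2))
        (hQ r2 hr2Q) (fun e => hQ2 (e ▸ hr2Q))
      intro s hs
      have := hr2max s (Finset.mem_erase.1 hs).2
      have := (Finset.mem_erase.1 hs).1
      omega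
    have hb1 : 2 * ((R.erase r2).erase r1).card + 3 ≤ r1 := by
      apply odd_primes_card ((hAR.erase r2).erase r1)
        (fun h => hQ2 (hRQ (Finset.mem_erase.1 (Finset.mem_erase.1 h).2).2))
        (hQ r1 hr1Q) (fun e => hQ2 (e ▸ hr1Q))
      intro s hs
      have := hr1max s (Finset.mem_erase.1 hs).2
      have := (Finset.mem_erase.1 hs).1
      omega
    rw [Finset.card_erase_of_mem hr2R] at hb2
    rw [Finset.card_erase_of_mem hr1R', Finset.card_erase_of_mem hr2R] at hb1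
    have hqr1 : q ≠ r1 := fun e => hqR (e ▸ hr1R)
    have hqr2 : q ≠ r2 := fun e => hqR (e ▸ hr2R)
    set D1 := 2 * pr (Q.erase r1) with hD1
    set D2 := 2 * pr (Q.erase r2) with hD2
    have t1 : (2 : ℤ) ∣ D1 := dvd_mul_right _ _
    have t2 : (2 : ℤ) ∣ D2 := dvd_mul_right _ _
    have q1 : (q : ℤ) ∣ D1 := dvd_mul_of_dvd_right (dvd_pr (Finset.mem_erase.2 ⟨hqr1, hq⟩)) _
    have q2 : (q : ℤ) ∣ D2 := dvd_mul_of_dvd_right (dvd_pr (Finset.mem_erase.2 ⟨hqr2, hq⟩)) _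
    have r12 : (r1 : ℤ) ∣ D2 := dvd_mul_of_dvd_right (dvd_pr (Finset.mem_erase.2 ⟨h12, hr1Q⟩)) _
    have r21 : (r2 : ℤ) ∣ D1 :=
      dvd_mul_of_dvd_right (dvd_pr (Finset.mem_erase.2 ⟨fun e => h12 e.symm, hr2Q⟩)) _
    have r1M : (r1 : ℤ) ∣ 2 * pr Q := dvd_mul_of_dvd_right (dvd_pr hr1Q) _
    have r2M : (r2 : ℤ) ∣ 2 * pr Q := dvd_mul_of_dvd_right (dvd_pr hr2Q) _
    have sep1 : ∀ (s s' : Fin r1) (y y' : ℤ),
        2 * pr Q ∣ (((s : ℕ) : ℤ) * D1 + y * D2) - (((s' : ℕ) : ℤ) * D1 + y' * D2) → s = s' := by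
      intro s s' y y' h
      apply fin_eq_of_dvd
      apply q_not_dvd_D hQ hQ2 hr1Q
      have e1 := dvd_trans r1M h
      have e2 := dvd_mul_of_dvd_right r12 (y - y')
      have e3 := dvd_sub e1 e2
      rwa [show ((s : ℕ) : ℤ) * D1 + y * D2 - (((s' : ℕ) : ℤ) * D1 + y' * D2) - (y - y') * D2 =
        (((s : ℕ) : ℤ) - ((s' : ℕ) : ℤ)) * D1 by ring] at e3
    have sep2 : ∀ (y y' : ℤ) (s s' : Fin r2),
        2 * pr Q ∣ (y * D1 + ((s : ℕ) : ℤ) * D2) - (y' * D1 + ((s' : ℕ) : ℤ) * D2) → s = s' := by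
      intro y y' s s' h
      apply fin_eq_of_dvd
      apply q_not_dvd_D hQ hQ2 hr2Q
      have e1 := dvd_trans r2M h
      have e2 := dvd_mul_of_dvd_right r21 (y - y')
      have e3 := dvd_sub e1 e2
      rwa [show y * D1 + ((s : ℕ) : ℤ) * D2 - (y' * D1 + ((s' : ℕ) : ℤ) * D2) - (y - y') * D1 =
        (((s : ℕ) : ℤ) - ((s' : ℕ) : ℤ)) * D2 by ring] at e3
    refine column_core hQ hQ2 hq hF hK hKM huv hFuv hu hv hpar ER
      (I := Fin r1 × Fin r2) (fun s => ((s.1 : ℕ) : ℤ) * D1 + ((s.2 : ℕ) : ℤ) * D2) ?_ ?_ ?_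
      (⟨0, by omega⟩, ⟨0, by omega⟩) ?_ ?_
    · intro s
      exact ⟨dvd_add (dvd_mul_of_dvd_right t1 _) (dvd_mul_of_dvd_right t2 _),
        dvd_add (dvd_mul_of_dvd_right q1 _) (dvd_mul_of_dvd_right q2 _)⟩
    · intro s s' h
      exact Prod.ext (sep1 _ _ _ _ h) (sep2 _ _ _ _ h)
    · rintro x ⟨s, t⟩ ⟨s', t'⟩ hx h1 h2
      dsimp only at h1 h2 ⊢
      have hpe : ∀ y y' : ℤ, (2 : ℤ) ∣ x + (y * D1 + y' * D2) - ε := by
        intro y y'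
        have := dvd_add hx (dvd_add (dvd_mul_of_dvd_right t1 y) (dvd_mul_of_dvd_right t2 y'))
        rwa [show x - ε + (y * D1 + y' * D2) = x + (y * D1 + y' * D2) - ε by ring] at this
      by_cases m1 : K (x + (((s : ℕ) : ℤ) * D1 + ((t' : ℕ) : ℤ) * D2))
      · by_cases m2 : K (x + (((s' : ℕ) : ℤ) * D1 + ((t : ℕ) : ℤ) * D2))
        · have e := K2 hK hodd (q := (q : ℤ)) (by omega) hqh m1 m2 (by
            have := dvd_sub (hpe ((s : ℕ) : ℤ) ((t' : ℕ) : ℤ)) (hpe ((s' : ℕ) : ℤ) ((t : ℕ) : ℤ))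
            rwa [show x + (((s : ℕ) : ℤ) * D1 + ((t' : ℕ) : ℤ) * D2) - ε -
              (x + (((s' : ℕ) : ℤ) * D1 + ((t : ℕ) : ℤ) * D2) - ε) =
              x + (((s : ℕ) : ℤ) * D1 + ((t' : ℕ) : ℤ) * D2) -
              (x + (((s' : ℕ) : ℤ) * D1 + ((t : ℕ) : ℤ) * D2)) by ring] at this) (by
            rw [show x + (((s : ℕ) : ℤ) * D1 + ((t' : ℕ) : ℤ) * D2) -
              (x + (((s' : ℕ) : ℤ) * D1 + ((t : ℕ) : ℤ) * D2)) =
              (((s : ℕ) : ℤ) - ((s' : ℕ) : ℤ)) * D1 + (((t' : ℕ) : ℤ) - ((t : ℕ) : ℤ)) * D2 by ring]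
            exact dvd_add (dvd_mul_of_dvd_right q1 _) (dvd_mul_of_dvd_right q2 _))
          have hss : s = s' := by
            apply sep1 s s' ((t' : ℕ) : ℤ) ((t : ℕ) : ℤ)
            rwa [show x + (((s : ℕ) : ℤ) * D1 + ((t' : ℕ) : ℤ) * D2) -
              (x + (((s' : ℕ) : ℤ) * D1 + ((t : ℕ) : ℤ) * D2)) =
              ((s : ℕ) : ℤ) * D1 + ((t' : ℕ) : ℤ) * D2 -
              (((s' : ℕ) : ℤ) * D1 + ((t : ℕ) : ℤ) * D2) by ring] at e
          subst hss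
          exact hR r2 hr2R _ _ ⟨((t : ℕ) : ℤ) - ((t' : ℕ) : ℤ), by ring⟩ (hpe _ _) h1 h2
        · have e1 := hR r1 hr1R _ _ ⟨((s : ℕ) : ℤ) - ((s' : ℕ) : ℤ), by ring⟩ (hpe _ _) h1 m2
          have e2 := hR r2 hr2R _ _ ⟨((t : ℕ) : ℤ) - ((t' : ℕ) : ℤ), by ring⟩ (hpe _ _) m2 h2
          exact e1.trans e2
      · have e1 := hR r2 hr2R _ _ ⟨((t : ℕ) : ℤ) - ((t' : ℕ) : ℤ), by ring⟩ (hpe _ _) h1 m1
        have e2 := hR r1 hr1R _ _ ⟨((s : ℕ) : ℤ) - ((s' : ℕ) : ℤ), by ring⟩ (hpe _ _) m1 h2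
        exact e1.trans e2
    · simp
    · rw [Fintype.card_prod, Fintype.card_fin, Fintype.card_fin]
      have e1 : 2 * R.card - 1 ≤ r1 := by omega
      have e2 : 2 * R.card + 1 ≤ r2 := by omega
      have e3 : 3 ≤ r1 := by omega
      have e4 : 3 * (2 * R.card + 1) ≤ r1 * r2 := Nat.mul_le_mul e3 e2
      omega

/-- Placement when every prime is good for the given diameter. -/
theorem claim1 {Q : Finset ℕ} (hQ : AP Q) (hQ2 : 2 ∉ Q) {α : Type} {F : ℤ → α}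
    (hF : Per F (2 * pr Q)) {K : ℤ → Prop} {d : ℤ} (hK : HK K (pr Q) d)
    (hKM : ∀ i j, 2 * pr Q ∣ i - j → K i → K j)
    (hgood : ∀ q ∈ Q, ∃ i j, 2 * pr (Q.erase q) ∣ i - j ∧ F i ≠ F j ∧ ¬ K i ∧ ¬ K j) :
    ∃ a b : ℕ → ℤ, (∀ q ∈ Q, 2 * pr (Q.erase q) ∣ a q - b q ∧ F (a q) ≠ F (b q)) ∧
      (∀ x ∈ Q.image a ∪ Q.image b, ∀ y ∈ Q.image a ∪ Q.image b, ¬ 2 * pr Q ∣ x - y - 1) ∧
      (∀ x ∈ Q.image a ∪ Q.image b, ¬ K x) := by
  classical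
  let G : ℤ → ℕ → Prop := fun ε q => ∃ i j, 2 * pr (Q.erase q) ∣ i - j ∧ F i ≠ F j ∧ ¬ K i ∧
    ¬ K j ∧ (2 : ℤ) ∣ i - ε
  have hG : ∀ q ∈ Q, G 0 q ∨ G 1 q := by
    intro q hq
    obtain ⟨i, j, h1, h2, h3, h4⟩ := hgood q hq
    rcases Int.emod_two_eq_zero_or_one i with h | h
    · exact Or.inl ⟨i, j, h1, h2, h3, h4, by omega⟩
    · exact Or.inr ⟨i, j, h1, h2, h3, h4, by omega⟩
  have t2D : ∀ q, (2 : ℤ) ∣ 2 * pr (Q.erase q) := fun q => dvd_mul_right _ _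
  have h2M : (2 : ℤ) ∣ 2 * pr Q := dvd_mul_right _ _
  -- one parity suffices
  have hsame : ∀ ε : ℤ, (∀ q ∈ Q, G ε q) → ∃ a b : ℕ → ℤ,
      (∀ q ∈ Q, 2 * pr (Q.erase q) ∣ a q - b q ∧ F (a q) ≠ F (b q)) ∧
      (∀ x ∈ Q.image a ∪ Q.image b, ∀ y ∈ Q.image a ∪ Q.image b, ¬ 2 * pr Q ∣ x - y - 1) ∧
      (∀ x ∈ Q.image a ∪ Q.image b, ¬ K x) := by
    intro ε h
    choose! a b h1 h2 h3 h4 h5 using h
    have hmem : ∀ x ∈ Q.image a ∪ Q.image b, (2 : ℤ) ∣ x - ε ∧ ¬ K x := by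
      intro x hx
      rcases Finset.mem_union.1 hx with hx | hx
      · obtain ⟨q, hq, rfl⟩ := Finset.mem_image.1 hx
        exact ⟨h5 q hq, h3 q hq⟩
      · obtain ⟨q, hq, rfl⟩ := Finset.mem_image.1 hx
        refine ⟨?_, h4 q hq⟩
        have := dvd_trans (t2D q) (h1 q hq)
        have := h5 q hq
        omega
    refine ⟨a, b, fun q hq => ⟨h1 q hq, h2 q hq⟩, ?_, fun x hx => (hmem x hx).2⟩
    intro x hx y hy hdv
    have e1 := (hmem x hx).1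
    have e2 := (hmem y hy).1
    have e3 := dvd_trans h2M hdv
    omega
  by_cases h0 : ∀ q ∈ Q, G 0 q
  · exact hsame 0 h0
  by_cases h1 : ∀ q ∈ Q, G 1 q
  · exact hsame 1 h1
  push Not at h0 h1
  obtain ⟨q0, hq0, hq0'⟩ := h0
  obtain ⟨q1, hq1, hq1'⟩ := h1
  have hodd3 : ∀ q ∈ Q, q = 3 ∨ 5 ≤ q := by
    intro q hq
    have h1 := (hQ q hq).two_le
    have h2 : q ≠ 2 := fun e => hQ2 (e ▸ hq)
    have h3 := (hQ q hq).eq_two_or_odd
    omega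
  -- choose the parity
  obtain ⟨ε, ε', hεε', hG', r5, hr5Q, hr5, hr5'⟩ : ∃ ε ε' : ℤ, (¬ (2 : ℤ) ∣ ε - ε') ∧
      (∀ q ∈ Q, G ε q ∨ G ε' q) ∧ ∃ r ∈ Q, 5 ≤ r ∧ ¬ G ε' r := by
    by_cases hc : ∃ r ∈ Q, 5 ≤ r ∧ ¬ G 1 r
    · exact ⟨0, 1, by norm_num, hG, hc⟩
    · refine ⟨1, 0, by norm_num, fun q hq => (hG q hq).symm, ?_⟩
      push Not at hc
      have hq13 : q1 = 3 := by
        rcases hodd3 q1 hq1 with h | h
        · exact h
        · exact absurd (hc q1 hq1 h) hq1'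
      refine ⟨q0, hq0, ?_, hq0'⟩
      rcases hodd3 q0 hq0 with h | h
      · exfalso
        rcases hG q0 hq0 with h' | h'
        · exact hq0' h'
        · rw [h, ← hq13] at h'
          exact hq1' h'
      · exact h
  let R := Q.filter (fun q => ¬ G ε' q)
  have hRQ : R ⊆ Q := Finset.filter_subset _ _
  have hRG : ∀ q ∈ R, G ε q := by
    intro q hq
    obtain ⟨h1, h2⟩ := Finset.mem_filter.1 hq
    exact (hG' q h1).resolve_right h2
  choose! a b h1 h2 h3 h4 h5 using hRG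
  set ER := R.image a ∪ R.image b with hER
  have hERc : ER.card ≤ 2 * R.card := by
    have e1 := Finset.card_union_le (R.image a) (R.image b)
    have e2 := Finset.card_image_le (s := R) (f := a)
    have e3 := Finset.card_image_le (s := R) (f := b)
    rw [← hER] at e1
    omega
  have hERp : ∀ x ∈ ER, (2 : ℤ) ∣ x - ε ∧ ¬ K x := by
    intro x hx
    rcases Finset.mem_union.1 hx with hx | hx
    · obtain ⟨q, hq, rfl⟩ := Finset.mem_image.1 hx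
      exact ⟨h5 q hq, h3 q hq⟩
    · obtain ⟨q, hq, rfl⟩ := Finset.mem_image.1 hx
      refine ⟨?_, h4 q hq⟩
      have := dvd_trans (t2D q) (h1 q hq)
      have := h5 q hq
      omega
  have hcol : ∀ q ∈ Q \ R, ∃ i j, 2 * pr (Q.erase q) ∣ i - j ∧ F i ≠ F j ∧ ¬ K i ∧ ¬ K j ∧
      (2 : ℤ) ∣ i - ε' ∧
      (∀ x ∈ ER, ¬ 2 * pr Q ∣ i - x - 1 ∧ ¬ 2 * pr Q ∣ x - i - 1) ∧
      (∀ x ∈ ER, ¬ 2 * pr Q ∣ j - x - 1 ∧ ¬ 2 * pr Q ∣ x - j - 1) := by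
    intro q hq
    obtain ⟨hqQ, hqR⟩ := Finset.mem_sdiff.1 hq
    have hGq : G ε' q := by
      by_contra h
      exact hqR (Finset.mem_filter.2 ⟨hqQ, h⟩)
    obtain ⟨u, v, g1, g2, g3, g4, g5⟩ := hGq
    refine column hQ hQ2 hqQ hRQ hqR ⟨r5, Finset.mem_filter.2 ⟨hr5Q, hr5'⟩, hr5⟩ hF hK hKM g1 g2 g3
      g4 g5 ?_ ER hERc
    intro r hr i j e1 e2 e3 e4
    by_contra hne
    exact (Finset.mem_filter.1 hr).2 ⟨i, j, e1, hne, e3, e4, e2⟩
  choose! a' b' f1 f2 f3 f4 f5 f6 f7 using hcol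
  refine ⟨fun q => if q ∈ R then a q else a' q, fun q => if q ∈ R then b q else b' q, ?_, ?_, ?_⟩
  · intro q hq
    by_cases hqR : q ∈ R
    · simp only [if_pos hqR]
      exact ⟨h1 q hqR, h2 q hqR⟩
    · simp only [if_neg hqR]
      have hqs : q ∈ Q \ R := Finset.mem_sdiff.2 ⟨hq, hqR⟩
      exact ⟨f1 q hqs, f2 q hqs⟩
  all_goals
    have hmem : ∀ x ∈ Q.image (fun q => if q ∈ R then a q else a' q) ∪
        Q.image (fun q => if q ∈ R then b q else b' q), (x ∈ ER) ∨ ((2 : ℤ) ∣ x - ε' ∧ ¬ K x ∧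
        ∀ y ∈ ER, ¬ 2 * pr Q ∣ x - y - 1 ∧ ¬ 2 * pr Q ∣ y - x - 1) := by
      intro x hx
      rcases Finset.mem_union.1 hx with hx | hx
      · obtain ⟨q, hq, rfl⟩ := Finset.mem_image.1 hx
        by_cases hqR : q ∈ R
        · left
          simp only [if_pos hqR]
          exact Finset.mem_union_left _ (Finset.mem_image_of_mem _ hqR)
        · right
          simp only [if_neg hqR]
          have hqs : q ∈ Q \ R := Finset.mem_sdiff.2 ⟨hq, hqR⟩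
          exact ⟨f5 q hqs, f3 q hqs, f6 q hqs⟩
      · obtain ⟨q, hq, rfl⟩ := Finset.mem_image.1 hx
        by_cases hqR : q ∈ R
        · left
          simp only [if_pos hqR]
          exact Finset.mem_union_right _ (Finset.mem_image_of_mem _ hqR)
        · right
          simp only [if_neg hqR]
          have hqs : q ∈ Q \ R := Finset.mem_sdiff.2 ⟨hq, hqR⟩
          refine ⟨?_, f4 q hqs, f7 q hqs⟩
          have := dvd_trans (t2D q) (f1 q hqs)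
          have := f5 q hqs
          omega
  · intro x hx y hy hdv
    have e3 := dvd_trans h2M hdv
    rcases hmem x hx with hx | ⟨hx1, hx2, hx3⟩ <;> rcases hmem y hy with hy | ⟨hy1, hy2, hy3⟩
    · have e1 := (hERp x hx).1
      have e2 := (hERp y hy).1
      omega
    · exact (hy3 x hx).2 hdv
    · exact (hx3 y hy).1 hdv
    · omega
  · intro x hx
    rcases hmem x hx with hx | ⟨hx1, hx2, hx3⟩
    · exact (hERp x hx).2
    · exact hx2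

end Pool.Agent.Helper336.PW
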