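import Pool.Agent.Helper336.Even3

set_option autoImplicit false

namespace Pool.Agent.Helper336.PW

open Finset

/-- Choice of a point in a short grid avoiding the killed indices. -/
theorem pick {h d d' : ℤ} {K' K0 : ℤ → Prop} (hK' : HK K' h d') (hK0 : HK K0 h d)
    (hodd : h % 2 = 1) {ζ X Y r : ℤ} (hζ : K0 ζ) (hrM : r ∣ 2 * h) (h2X : (2 : ℤ) ∣ X)
    (h2Y : (2 : ℤ) ∣ Y) (hrX : r ∣ X)
    (hrY : ∀ t : ℤ, r ∣ t * Y → |t| ≤ 4 → t = 0) :
    ∃ t : ℤ, 1 ≤ t ∧ t ≤ 4 ∧ ¬ K' (ζ + t * Y) ∧ ¬ K' (ζ + X + t * Y) ∧ ¬ K0 (ζ + X + t * Y) := by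
  obtain ⟨k1, k2, hk⟩ := K3 hK' hodd ζ
  obtain ⟨k3, hk3⟩ : ∃ k3, ∀ i, K0 i → (2 : ℤ) ∣ i - ζ → 2 * h ∣ i - ζ ∨ 2 * h ∣ i - k3 := by
    obtain ⟨a, b, hab⟩ := K3 hK0 hodd ζ
    rcases hab ζ hζ (by simp) with h1 | h1
    · refine ⟨b, ?_⟩
      intro i hi h2
      rcases hab i hi h2 with h3 | h3
      · left
        have := dvd_sub h3 h1
        rwa [show i - a - (ζ - a) = i - ζ by ring] at this
      · exact Or.inr h3
    · refine ⟨a, ?_⟩
      intro i hi h2
      rcases hab i hi h2 with h3 | h3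
      · exact Or.inr h3
      · left
        have := dvd_sub h3 h1
        rwa [show i - b - (ζ - b) = i - ζ by ring] at this
  by_contra hcon
  push Not at hcon
  have hex : ∀ t : Fin 4, ∃ j : Fin 3,
      2 * h ∣ ζ + (((t : ℕ) : ℤ) + 1) * Y - (![k1, k2, k3] j) ∨
      2 * h ∣ ζ + X + (((t : ℕ) : ℤ) + 1) * Y - (![k1, k2, k3] j) := by
    intro t
    have ht := t.2
    set s : ℤ := ((t : ℕ) : ℤ) + 1 with hs
    have pA : (2 : ℤ) ∣ ζ + s * Y - ζ := by
      rw [show ζ + s * Y - ζ = s * Y by ring]; exact dvd_mul_of_dvd_right h2Y _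
    have pB : (2 : ℤ) ∣ ζ + X + s * Y - ζ := by
      rw [show ζ + X + s * Y - ζ = X + s * Y by ring]
      exact dvd_add h2X (dvd_mul_of_dvd_right h2Y _)
    by_cases hA : K' (ζ + s * Y)
    · rcases hk _ hA pA with h1 | h1
      · exact ⟨0, Or.inl h1⟩
      · exact ⟨1, Or.inl h1⟩
    · by_cases hB : K' (ζ + X + s * Y)
      · rcases hk _ hB pB with h1 | h1
        · exact ⟨0, Or.inr h1⟩
        · exact ⟨1, Or.inr h1⟩
      · have hC := hcon s (by omega) (by omega) hA hB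
        rcases hk3 _ hC pB with h1 | h1
        · exfalso
          have h2 := dvd_trans hrM h1
          have h3 := dvd_sub h2 hrX
          rw [show ζ + X + s * Y - ζ - X = s * Y by ring] at h3
          have := hrY s h3 (by rw [abs_le]; constructor <;> omega)
          omega
        · exact ⟨2, Or.inr h1⟩
  choose f hf using hex
  obtain ⟨t, t', hne, hff⟩ := Fintype.exists_ne_map_eq_of_card_lt f (by simp)
  have hdv : r ∣ (((t : ℕ) : ℤ) - ((t' : ℕ) : ℤ)) * Y := by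
    have e1 := hf t
    have e2 := hf t'
    rw [hff] at e1
    generalize ![k1, k2, k3] (f t') = k at e1 e2
    rcases e1 with e1 | e1 <;> rcases e2 with e2 | e2
    · have := dvd_trans hrM (dvd_sub e1 e2)
      rwa [show ζ + (((t : ℕ) : ℤ) + 1) * Y - k - (ζ + (((t' : ℕ) : ℤ) + 1) * Y - k) =
        (((t : ℕ) : ℤ) - ((t' : ℕ) : ℤ)) * Y by ring] at this
    · have := dvd_add (dvd_trans hrM (dvd_sub e1 e2)) hrX
      rwa [show ζ + (((t : ℕ) : ℤ) + 1) * Y - k - (ζ + X + (((t' : ℕ) : ℤ) + 1) * Y - k) + X =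
        (((t : ℕ) : ℤ) - ((t' : ℕ) : ℤ)) * Y by ring] at this
    · have := dvd_sub (dvd_trans hrM (dvd_sub e1 e2)) hrX
      rwa [show ζ + X + (((t : ℕ) : ℤ) + 1) * Y - k - (ζ + (((t' : ℕ) : ℤ) + 1) * Y - k) - X =
        (((t : ℕ) : ℤ) - ((t' : ℕ) : ℤ)) * Y by ring] at this
    · have := dvd_trans hrM (dvd_sub e1 e2)
      rwa [show ζ + X + (((t : ℕ) : ℤ) + 1) * Y - k - (ζ + X + (((t' : ℕ) : ℤ) + 1) * Y - k) =
        (((t : ℕ) : ℤ) - ((t' : ℕ) : ℤ)) * Y by ring] at this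
  have b1 := t.2
  have b2 := t'.2
  have := hrY _ hdv (by rw [abs_le]; constructor <;> omega)
  apply hne
  apply Fin.ext
  omega

theorem claim2 {Q : Finset ℕ} (hQ : AP Q) (hQ2 : 2 ∉ Q) (hcard : 2 ≤ Q.card) {α : Type}
    {F : ℤ → α} (hF : Per F (2 * pr Q))
    (hnc : ∀ q ∈ Q, ∃ i j, 2 * pr (Q.erase q) ∣ i - j ∧ F i ≠ F j)
    (K : ℤ → ℤ → Prop) (d : ℤ → ℤ) (hK : ∀ y, HK (K y) (pr Q) (d y)) (T : Set ℤ)
    (hbad : ∀ y ∈ T, ∃ q ∈ Q, ∀ i j, 2 * pr (Q.erase q) ∣ i - j → ¬ K y i → ¬ K y j → F i = F j)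
    (y0 : ℤ) (hy0 : y0 ∈ T) : ∃ ζ, ∀ y ∈ T, K y ζ := by
  classical
  have hodd := pr_odd hQ hQ2
  set M := 2 * pr Q with hM
  have hge3 : ∀ q ∈ Q, 3 ≤ q := by
    intro q hq
    have h1 := (hQ q hq).two_le
    have h2 : q ≠ 2 := fun e => hQ2 (e ▸ hq)
    omega
  have hge5 : ∀ q ∈ Q, ∀ q' ∈ Q, q ≠ q' → 5 ≤ q ∨ 5 ≤ q' := by
    intro q hq q' hq' hne
    have h1 := hge3 q hq
    have h2 := hge3 q' hq'
    have h3 := (hQ q hq).eq_two_or_odd
    have h4 := (hQ q' hq').eq_two_or_odd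
    omega
  have hMD : ∀ q ∈ Q, M = q * (2 * pr (Q.erase q)) := by
    intro q hq
    rw [hM, pr_erase hq]; ring
  have hDpos : ∀ q, 0 < 2 * pr (Q.erase q) := fun q => by
    have := pr_pos (hQ.erase q); positivity
  have hqM : ∀ q ∈ Q, (q : ℤ) ∣ M := fun q hq => ⟨_, hMD q hq⟩
  have hqh : ∀ q ∈ Q, (q : ℤ) ∣ pr Q := fun q hq => dvd_pr hq
  have h2D : ∀ q, (2 : ℤ) ∣ 2 * pr (Q.erase q) := fun q => dvd_mul_right _ _
  have hqD : ∀ q ∈ Q, ∀ q' ∈ Q, q ≠ q' → (q' : ℤ) ∣ 2 * pr (Q.erase q) := by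
    intro q _ q' hq' hne
    exact dvd_mul_of_dvd_right (dvd_pr (Finset.mem_erase.2 ⟨fun e => hne e.symm, hq'⟩)) _
  obtain ⟨q, hq, hqbad⟩ := hbad y0 hy0
  obtain ⟨r, hr, hrq⟩ : ∃ r ∈ Q, q ≠ r := by
    have : 0 < (Q.erase q).card := by rw [Finset.card_erase_of_mem hq]; omega
    obtain ⟨r, hr⟩ := Finset.card_pos.1 this
    exact ⟨r, (Finset.mem_erase.1 hr).2, fun e => (Finset.mem_erase.1 hr).1 e.symm⟩
  set D := 2 * pr (Q.erase q) with hD
  -- two killed points on a q-line coincide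
  have hline : ∀ y, ∀ p ∈ Q, ∀ i j, K y i → K y j → 2 * pr (Q.erase p) ∣ i - j → M ∣ i - j := by
    intro y p hp i j hi hj hd
    obtain ⟨s, hs, hps⟩ : ∃ s ∈ Q, p ≠ s := by
      have : 0 < (Q.erase p).card := by rw [Finset.card_erase_of_mem hp]; omega
      obtain ⟨r, hr⟩ := Finset.card_pos.1 this
      exact ⟨r, (Finset.mem_erase.1 hr).2, fun e => (Finset.mem_erase.1 hr).1 e.symm⟩
    exact K2 (hK y) hodd (q := (s : ℤ)) (by have := hge3 s hs; omega) (hqh s hs) hi hj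
      (dvd_trans (h2D p) hd) (dvd_trans (hqD p hp s hs hps) hd)
  -- the peak
  obtain ⟨ζ, hζ, hpeak⟩ : ∃ ζ, K y0 ζ ∧ ∀ k, D ∣ ζ - k → ¬ M ∣ ζ - k → F ζ ≠ F k := by
    have main : ∀ i j, D ∣ i - j → F i ≠ F j → K y0 i →
        ∀ k, D ∣ i - k → ¬ M ∣ i - k → F i ≠ F k := by
      intro i j hij hne hi k hk hMk
      have hj : ¬ K y0 j := fun hj => hne (hF.dvd (hline y0 q hq i j hi hj hij))
      have hk' : ¬ K y0 k := fun hk' => hMk (hline y0 q hq i k hi hk' hk)
      have : F k = F j := by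
        apply hqbad k j _ hk' hj
        have := dvd_sub hij hk
        rwa [show i - j - (i - k) = k - j by ring] at this
      rw [this]; exact hne
    obtain ⟨i, j, hij, hne⟩ := hnc q hq
    by_cases hi : K y0 i
    · exact ⟨i, hi, main i j hij hne hi⟩
    · by_cases hj : K y0 j
      · refine ⟨j, hj, main j i ?_ hne.symm hj⟩
        rw [show j - i = -(i - j) by ring]
        exact (dvd_neg).2 hij
      · exact absurd (hqbad i j hij hi hj) hne
  refine ⟨ζ, ?_⟩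
  intro y' hy'
  by_contra hζ'
  obtain ⟨q', hq', hq'bad⟩ := hbad y' hy'
  have hDpos' := hDpos q
  rw [← hD] at hDpos'
  by_cases hqq : q = q'
  · subst hqq
    have hq3 := hge3 q hq
    have hnd : ∀ s : ℤ, 0 < s → s < q → ¬ M ∣ s * D := by
      intro s h0 h1 h2
      rw [hMD q hq] at h2
      have := (mul_dvd_mul_iff_right hDpos'.ne').1 h2
      have := Int.le_of_dvd h0 this
      omega
    have hstep : ∀ s : ℤ, 0 < s → s < q → K y' (ζ + s * D) := by
      intro s h0 h1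
      by_contra hk
      have e1 : F ζ = F (ζ + s * D) := hq'bad ζ (ζ + s * D) ⟨-s, by rw [hD]; ring⟩ hζ' hk
      refine hpeak (ζ + s * D) ⟨-s, by ring⟩ ?_ e1
      intro h2
      apply hnd s h0 h1
      rw [show ζ - (ζ + s * D) = -(s * D) by ring] at h2
      exact (dvd_neg).1 h2
    have k1 := hstep 1 one_pos (by omega)
    have k2 := hstep 2 two_pos (by omega)
    have := hline y' q hq _ _ k2 k1 ⟨1, by rw [← hD]; ring⟩
    rw [show ζ + 2 * D - (ζ + 1 * D) = 1 * D by ring] at this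
    exact hnd 1 one_pos (by omega) this
  · set D' := 2 * pr (Q.erase q') with hD'
    have hq3 := hge3 q hq
    have hq'3 := hge3 q' hq'
    have hqD' : (q : ℤ) ∣ D' := hqD q' hq' q hq (fun e => hqq e.symm)
    have hq'D : (q' : ℤ) ∣ D := hqD q hq q' hq' hqq
    have nds : ∀ s : ℤ, (q : ℤ) ∣ s * D → (q : ℤ) ∣ s := fun s h => q_not_dvd_D hQ hQ2 hq s h
    have ndt : ∀ t : ℤ, (q' : ℤ) ∣ t * D' → (q' : ℤ) ∣ t := fun t h => q_not_dvd_D hQ hQ2 hq' t h
    have chain : ∀ s t : ℤ, 0 < s → s < q → 0 < t → t < q' → ¬ K y' (ζ + s * D) →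
        ¬ K y' (ζ + t * D') → ¬ K y' (ζ + s * D + t * D') → ¬ K y0 (ζ + s * D + t * D') → False := by
      intro s t hs0 hs ht0 ht a1 a2 a3 a4
      have e1 : F ζ = F (ζ + t * D') := hq'bad _ _ ⟨-t, by rw [hD']; ring⟩ hζ' a2
      have a5 : ¬ K y0 (ζ + t * D') := by
        intro hk
        have h1 := hline y0 q' hq' _ _ hk hζ ⟨t, by rw [← hD']; ring⟩
        have h2 := dvd_trans (hqM q' hq') h1
        rw [show ζ + t * D' - ζ = t * D' by ring] at h2
        have := Int.le_of_dvd ht0 (ndt t h2)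
        omega
      have e2 : F (ζ + t * D') = F (ζ + s * D + t * D') := hqbad _ _ ⟨-s, by ring⟩ a5 a4
      have e3 : F (ζ + s * D) = F (ζ + s * D + t * D') := hq'bad _ _ ⟨-t, by rw [hD']; ring⟩ a1 a3
      refine hpeak (ζ + s * D) ⟨-s, by ring⟩ ?_ (by rw [e3, e1, e2])
      intro h2
      have h3 := dvd_trans (hqM q hq) h2
      rw [show ζ - (ζ + s * D) = -(s * D) by ring] at h3
      have := Int.le_of_dvd hs0 (nds s ((dvd_neg).1 h3))
      omega
    rcases hge5 q hq q' hq' hqq with h5 | h5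
    · -- q ≥ 5 : fix t, vary s
      obtain ⟨t, ht0, ht2, htK⟩ : ∃ t : ℤ, 1 ≤ t ∧ t ≤ 2 ∧ ¬ K y' (ζ + t * D') := by
        by_contra hall
        push Not at hall
        have k1 := hall 1 le_rfl (by norm_num)
        have k2 := hall 2 (by norm_num) le_rfl
        have h1 := hline y' q' hq' _ _ k2 k1 ⟨1, by rw [← hD']; ring⟩
        have h2 := dvd_trans (hqM q' hq') h1
        rw [show ζ + 2 * D' - (ζ + 1 * D') = 1 * D' by ring] at h2
        have := Int.le_of_dvd one_pos (ndt 1 h2)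
        omega
      obtain ⟨s, hs1, hs4, b1, b2, b3⟩ := pick (hK y') (hK y0) hodd (X := t * D') (Y := D)
        (r := (q : ℤ)) hζ (hqM q hq) (dvd_mul_of_dvd_right (h2D q') _) (h2D q)
        (dvd_mul_of_dvd_right hqD' _) (by
          intro s h1 h2
          have h3 := nds s h1
          exact Int.eq_zero_of_abs_lt_dvd h3 (by omega))
      rw [show ζ + t * D' + s * D = ζ + s * D + t * D' by ring] at b2 b3
      exact chain s t (by omega) (by omega) (by omega) (by omega) b1 htK b2 b3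
    · obtain ⟨s, hs0, hs2, hsK⟩ : ∃ s : ℤ, 1 ≤ s ∧ s ≤ 2 ∧ ¬ K y' (ζ + s * D) := by
        by_contra hall
        push Not at hall
        have k1 := hall 1 le_rfl (by norm_num)
        have k2 := hall 2 (by norm_num) le_rfl
        have h1 := hline y' q hq _ _ k2 k1 ⟨1, by rw [← hD]; ring⟩
        have h2 := dvd_trans (hqM q hq) h1
        rw [show ζ + 2 * D - (ζ + 1 * D) = 1 * D by ring] at h2
        have := Int.le_of_dvd one_pos (nds 1 h2)
        omega
      obtain ⟨t, ht1, ht4, b1, b2, b3⟩ := pick (hK y') (hK y0) hodd (X := s * D) (Y := D')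
        (r := (q' : ℤ)) hζ (hqM q' hq') (dvd_mul_of_dvd_right (h2D q) _) (h2D q')
        (dvd_mul_of_dvd_right hq'D _) (by
          intro s h1 h2
          have h3 := ndt s h1
          exact Int.eq_zero_of_abs_lt_dvd h3 (by omega))
      exact chain s t (by omega) (by omega) (by omega) (by omega) hsK b1 b2 b3

/-- Geometric consequence: two diameters killing the same index are close. -/
theorem geo {n g c h e q y ζ j : ℤ} (hg : 0 < g) (he : 3 ≤ e) (hq : 3 ≤ q) (hh : h = q * e)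
    (hn : n = 2 * h * g) (hj1 : 1 ≤ j) (hjq : j ≤ q - 1)
    (h1 : KB n c g {y, y + h * g} ζ) (h2 : KB n c g {y + j * e * g, y + j * e * g + h * g} ζ) :
    False := by
  have hm0 : 0 < h * g := by rw [hh]; positivity
  have hgm : g < h * g := by
    have : 2 ≤ h := by rw [hh]; nlinarith
    nlinarith
  have key : ∀ x : ℤ, KB n c g {x, x + h * g} ζ → (x - (c + ζ * g)) % (h * g) ≤ g := by
    rintro x ⟨z, hz, hk⟩
    unfold Killed at hk
    have hdn : h * g ∣ n := ⟨2, by rw [hn]; ring⟩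
    simp only [Finset.mem_insert, Finset.mem_singleton] at hz
    have hn0 : 0 < n := by rw [hn, mul_assoc]; linarith
    have hb : 0 ≤ (z - (c + ζ * g)) % n := Int.emod_nonneg _ hn0.ne'
    have e1 : (z - (c + ζ * g)) % n % (h * g) = (z - (c + ζ * g)) % (h * g) :=
      Int.emod_emod_of_dvd _ hdn
    have e2 : (z - (c + ζ * g)) % n % (h * g) = (z - (c + ζ * g)) % n :=
      Int.emod_eq_of_lt hb (by omega)
    rcases hz with rfl | rfl
    · rw [← e1, e2]; exact hk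
    · have e3 : (x + h * g - (c + ζ * g)) % (h * g) = (x - (c + ζ * g)) % (h * g) := by
        rw [show x + h * g - (c + ζ * g) = (x - (c + ζ * g)) + h * g by ring]
        simp
      rw [← e3, ← e1, e2]; exact hk
  have k1 := key y h1
  have k2 := key (y + j * e * g) h2
  have p1 : 0 ≤ (y - (c + ζ * g)) % (h * g) := Int.emod_nonneg _ hm0.ne'
  have p2 : 0 ≤ (y + j * e * g - (c + ζ * g)) % (h * g) := Int.emod_nonneg _ hm0.ne'
  have f1 := Int.mul_ediv_add_emod (y - (c + ζ * g)) (h * g)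
  have f2 := Int.mul_ediv_add_emod (y + j * e * g - (c + ζ * g)) (h * g)
  set A := (y - (c + ζ * g)) % (h * g) with hA
  set B := (y + j * e * g - (c + ζ * g)) % (h * g) with hB
  have hdv : h * g ∣ B - A - j * e * g :=
    ⟨(y - (c + ζ * g)) / (h * g) - (y + j * e * g - (c + ζ * g)) / (h * g),
      by linear_combination f2 - f1⟩
  have l0 : 3 ≤ j * e := by nlinarith
  have l1 : g < j * e * g := by nlinarith
  have l2 : j * e * g < h * g - g := by
    rw [hh]
    have : j * e ≤ (q - 1) * e := by nlinarith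
    nlinarith
  have h0 := Int.eq_zero_of_abs_lt_dvd hdv (by rw [abs_lt]; constructor <;> linarith)
  linarith

end Pool.Agent.Helper336.PW
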