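import Pool.Agent.Helper336.Even4

set_option autoImplicit false

namespace Pool.Agent.Helper336.PW

open Finset

theorem chooseJ {Q0 : Finset ℕ} (hQ : AP Q0) (hQ2 : 2 ∉ Q0) : ∀ Q ⊆ Q0, ∃ j : ℕ → ℤ,
    (∀ q ∈ Q, 1 ≤ j q ∧ j q ≤ q - 2) ∧
    (∀ q ∈ Q, ∀ r ∈ Q, r < q → ∀ x, (x = j r ∨ x = j r + 1) →
      x * q < j q * r ∨ (j q + 1) * r < x * q) := by
  classical
  intro Q
  induction Q using Finset.induction_on_max with
  | empty => intro _; exact ⟨fun _ => 0, by simp, by simp⟩
  | insert q T hlt ih =>
    intro hTS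
    have hqS : q ∈ Q0 := hTS (Finset.mem_insert_self _ _)
    have hTS' : T ⊆ Q0 := fun x hx => hTS (Finset.mem_insert_of_mem hx)
    have hqT : q ∉ T := fun h => lt_irrefl _ (hlt q h)
    obtain ⟨j, hj1, hj2⟩ := ih hTS'
    have hqp := hQ q hqS
    have hbound := odd_primes_card (hQ.mono hTS') (fun h => hQ2 (hTS' h)) hqp
      (fun e => hQ2 (e ▸ hqS)) hlt
    let A : Finset ℤ := T.image (fun r => (j r * q) / (r : ℤ)) ∪
      T.image (fun r => ((j r + 1) * q) / (r : ℤ))
    have hAc : A.card ≤ 2 * T.card := by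
      have e1 := Finset.card_union_le (T.image (fun r => (j r * q) / (r : ℤ)))
        (T.image (fun r => ((j r + 1) * q) / (r : ℤ)))
      have e2 := Finset.card_image_le (s := T) (f := fun r => (j r * q) / (r : ℤ))
      have e3 := Finset.card_image_le (s := T) (f := fun r => ((j r + 1) * q) / (r : ℤ))
      show (T.image (fun r => (j r * q) / (r : ℤ)) ∪
        T.image (fun r => ((j r + 1) * q) / (r : ℤ))).card ≤ 2 * T.card
      omega
    have hlt' : A.card < (Finset.Icc (1 : ℤ) (q - 2)).card := by
      rw [Int.card_Icc]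
      omega
    obtain ⟨J, hJ, hJA⟩ := Finset.exists_mem_notMem_of_card_lt_card hlt'
    rw [Finset.mem_Icc] at hJ
    refine ⟨Function.update j q J, ?_, ?_⟩
    · intro r hr
      rcases Finset.mem_insert.1 hr with rfl | hr
      · simp only [Function.update_self]; exact hJ
      · have hrq : r ≠ q := fun e => hqT (e ▸ hr)
        rw [Function.update_of_ne hrq]
        exact hj1 r hr
    · intro s hs r hr hrs x hx
      rcases Finset.mem_insert.1 hs with rfl | hs'
      · have hrT : r ∈ T := by
          rcases Finset.mem_insert.1 hr with rfl | hr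
          · exact absurd hrs (lt_irrefl _)
          · exact hr
        have hrq : r ≠ s := fun e => hqT (e ▸ hrT)
        rw [Function.update_of_ne hrq] at hx
        rw [Function.update_self]
        have hrp := hQ r (hTS' hrT)
        have hr0 : (0 : ℤ) < r := by exact_mod_cast hrp.pos
        by_contra hcon
        push Not at hcon
        obtain ⟨h1, h2⟩ := hcon
        have hne : x * s ≠ (J + 1) * r := by
          intro h
          have hd : (r : ℤ) ∣ x * s := ⟨J + 1, by rw [h]; ring⟩
          have hpr : Prime (r : ℤ) := Nat.prime_iff_prime_int.1 hrp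
          rcases hpr.dvd_or_dvd hd with h3 | h3
          · obtain ⟨b1, b2⟩ := hj1 r hrT
            have : x ≤ r - 1 ∧ 1 ≤ x := by
              rcases hx with rfl | rfl <;> constructor <;> linarith
            have := Int.le_of_dvd (by omega) h3
            omega
          · have h4 : r ∣ s := by exact_mod_cast h3
            exact hrq ((Nat.prime_dvd_prime_iff_eq hrp hqp).1 h4)
        have h3 : x * s < (J + 1) * r := lt_of_le_of_ne h2 hne
        have h4 : J ≤ x * s / r := (Int.le_ediv_iff_mul_le hr0).2 h1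
        have h5 : x * s / r < J + 1 := Int.ediv_lt_of_lt_mul hr0 h3
        have h6 : x * s / (r : ℤ) = J := by omega
        apply hJA
        rcases hx with rfl | rfl
        · exact Finset.mem_union_left _ (Finset.mem_image.2 ⟨r, hrT, h6⟩)
        · exact Finset.mem_union_right _ (Finset.mem_image.2 ⟨r, hrT, h6⟩)
      · have hsq : s ≠ q := fun e => hqT (e ▸ hs')
        have hrq : r ≠ q := by
          rintro rfl
          exact absurd (hlt s hs') (by omega)
        have hrT : r ∈ T := by
          rcases Finset.mem_insert.1 hr with h | hr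
          · exact absurd h hrq
          · exact hr
        rw [Function.update_of_ne hrq] at hx
        rw [Function.update_of_ne hsq]
        exact hj2 s hs' r hrT hrs x hx

theorem cmp_gt_of_lt {a b : ℕ} (h : b < a) : compare a b = Ordering.gt := compare_gt_iff_gt.2 h

theorem lemmaZ {Q : Finset ℕ} (hQ : AP Q) (hQ2 : 2 ∉ Q) {n g : ℤ} (hg : 0 < g)
    (hn : n = 2 * pr Q * g) {κ : ℤ → ℕ} {y : ℤ} (hy : κ (y + pr Q * g) < κ y)
    (hT : ∀ q ∈ Q, ∀ j : ℤ, 1 ≤ j → j ≤ q - 1 →
      κ (y + j * pr (Q.erase q) * g + pr Q * g) = κ (y + j * pr (Q.erase q) * g)) :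
    HasSys n κ (insert 2 Q) (2 + 2 * Q.card) := by
  classical
  set h := pr Q with hh
  have hh0 : 0 < h := pr_pos hQ
  have hge3 : ∀ q ∈ Q, 3 ≤ q := by
    intro q hq
    have h1 := (hQ q hq).two_le
    have h2 : q ≠ 2 := fun e => hQ2 (e ▸ hq)
    omega
  have hqe : ∀ q ∈ Q, h = q * pr (Q.erase q) := fun q hq => pr_erase hq
  have hepos : ∀ q, 0 < pr (Q.erase q) := fun q => pr_pos (hQ.erase q)
  obtain ⟨j, hj1, hj2⟩ := chooseJ hQ hQ2 Q (Finset.Subset.refl Q)
  -- choice of the side
  have hδ : ∀ q ∈ Q, ∃ δ : ℤ, (δ = 0 ∨ δ = 1) ∧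
      (((2 : ℤ) ∣ j q + δ * q ∧ κ (y + j q * pr (Q.erase q) * g) ≤
        κ (y + (j q + 1) * pr (Q.erase q) * g)) ∨
       ((2 : ℤ) ∣ j q + δ * q - 1 ∧ κ (y + (j q + 1) * pr (Q.erase q) * g) ≤
        κ (y + j q * pr (Q.erase q) * g))) := by
    intro q hq
    have hqo : (q : ℤ) % 2 = 1 := by
      have := (hQ q hq).eq_two_or_odd
      have := hge3 q hq
      omega
    rcases le_total (κ (y + j q * pr (Q.erase q) * g)) (κ (y + (j q + 1) * pr (Q.erase q) * g))
      with hle | hle
    · by_cases h2 : (2 : ℤ) ∣ j q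
      · exact ⟨0, Or.inl rfl, Or.inl ⟨by omega, hle⟩⟩
      · exact ⟨1, Or.inr rfl, Or.inl ⟨by omega, hle⟩⟩
    · by_cases h2 : (2 : ℤ) ∣ j q
      · exact ⟨1, Or.inr rfl, Or.inr ⟨by omega, hle⟩⟩
      · exact ⟨0, Or.inl rfl, Or.inr ⟨by omega, hle⟩⟩
  choose! δ hδ1 hδ2 using hδ
  have hm0 : 0 < h * g := mul_pos hh0 hg
  have hmn : h * g < n := by rw [hn]; nlinarith
  have hn0 : 0 < n := by omega
  -- coordinates
  let J : ℕ → ℤ := fun q => j q + δ q * q
  have hJ : ∀ q, J q = j q + δ q * q := fun q => rfl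
  let E : ℕ → ℤ := fun q => pr (Q.erase q) * g
  have hE : ∀ q, E q = pr (Q.erase q) * g := fun q => rfl
  have hE0 : ∀ q, 0 < E q := fun q => mul_pos (hepos q) hg
  have hqE : ∀ q ∈ Q, (q : ℤ) * E q = h * g := by
    intro q hq; rw [hE, hqe q hq]; ring
  have hJE : ∀ q ∈ Q, (δ q = 0 ∧ 0 < J q * E q ∧ J q * E q < (J q + 1) * E q ∧
      (J q + 1) * E q < h * g) ∨
      (δ q = 1 ∧ h * g < J q * E q ∧ J q * E q < (J q + 1) * E q ∧ (J q + 1) * E q < n) := by
    intro q hq
    obtain ⟨b1, b2⟩ := hj1 q hq
    have e0 := hE0 q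
    have e1 := hqE q hq
    have hn2 : n = 2 * (h * g) := by rw [hn]; ring
    rcases hδ1 q hq with hd | hd
    · left
      have : J q = j q := by rw [hJ, hd]; ring
      rw [this]
      refine ⟨hd, by nlinarith, by nlinarith, ?_⟩
      rw [← e1]
      nlinarith
    · right
      have : J q = j q + q := by rw [hJ, hd]; ring
      rw [this, hn2, ← e1]
      refine ⟨hd, by nlinarith, by nlinarith, by nlinarith⟩
  let ch : ℕ → ℤ × ℤ := fun q => (y + J q * E q, y + (J q + 1) * E q)
  have hch1 : ∀ q, (ch q).1 = y + J q * E q := fun q => rfl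
  have hch2 : ∀ q, (ch q).2 = y + (J q + 1) * E q := fun q => rfl
  have hco : ∀ q ∈ Q, ((ch q).1 - y) % n = J q * E q ∧ ((ch q).2 - y) % n = (J q + 1) * E q := by
    intro q hq
    rw [hch1, hch2, show y + J q * E q - y = J q * E q by ring,
      show y + (J q + 1) * E q - y = (J q + 1) * E q by ring]
    rcases hJE q hq with ⟨-, c1, c2, c3⟩ | ⟨-, c1, c2, c3⟩
    · exact ⟨Int.emod_eq_of_lt (by omega) (by omega), Int.emod_eq_of_lt (by omega) (by omega)⟩
    · exact ⟨Int.emod_eq_of_lt (by omega) (by omega), Int.emod_eq_of_lt (by omega) (by omega)⟩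
  have hdiam : ∀ q ∈ Q, Sep n y (y + h * g) (ch q).1 (ch q).2 := by
    intro q hq
    obtain ⟨c1, c2⟩ := hco q hq
    rw [sep_rot n hn0 y, c1, c2, show y - y = 0 by ring, Int.zero_emod,
      show y + h * g - y = h * g by ring, Int.emod_eq_of_lt hm0.le hmn]
    unfold LSep
    rcases hJE q hq with ⟨-, c1, c2, c3⟩ | ⟨-, c1, c2, c3⟩ <;> omega
  have hpair : ∀ q ∈ Q, ∀ r ∈ Q, r < q → Sep n (ch q).1 (ch q).2 (ch r).1 (ch r).2 := by
    intro q hq r hr hrq
    obtain ⟨c1, c2⟩ := hco q hq
    obtain ⟨d1, d2⟩ := hco r hr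
    rw [sep_rot n hn0 y, c1, c2, d1, d2]
    have hq0 : (0 : ℤ) < q := by have := hge3 q hq; omega
    have hr0 : (0 : ℤ) < r := by have := hge3 r hr; omega
    -- comparison of multiples
    have hcmp : ∀ x, (x = j r ∨ x = j r + 1) → x * E r < j q * E q ∨ (j q + 1) * E q < x * E r := by
      intro x hx
      have eq1 := hqE q hq
      have er1 := hqE r hr
      have hqr : 0 < (q : ℤ) * r := mul_pos hq0 hr0
      rcases hj2 q hq r hr hrq x hx with h1 | h1
      · left
        apply lt_of_mul_lt_mul_right _ hqr.le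
        have s1 : x * E r * (q * r) = (x * q) * (h * g) := by rw [← er1]; ring
        have s2 : j q * E q * (q * r) = (j q * r) * (h * g) := by rw [← eq1]; ring
        rw [s1, s2]
        exact mul_lt_mul_of_pos_right h1 hm0
      · right
        apply lt_of_mul_lt_mul_right _ hqr.le
        have s1 : x * E r * (q * r) = (x * q) * (h * g) := by rw [← er1]; ring
        have s2 : (j q + 1) * E q * (q * r) = ((j q + 1) * r) * (h * g) := by rw [← eq1]; ring
        rw [s1, s2]
        exact mul_lt_mul_of_pos_right h1 hm0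
    have k1 := hcmp (j r) (Or.inl rfl)
    have k2 := hcmp (j r + 1) (Or.inr rfl)
    unfold LSep
    have hEq := hE0 q
    have hEr := hE0 r
    rcases hJE q hq with ⟨dq, c1, c2, c3⟩ | ⟨dq, c1, c2, c3⟩ <;>
      rcases hJE r hr with ⟨dr, d1, d2, d3⟩ | ⟨dr, d1, d2, d3⟩
    · have e1 : J q = j q := by rw [hJ, dq]; ring
      have e2 : J r = j r := by rw [hJ, dr]; ring
      rw [e1, e2]
      have t1 : (j q + 1) * E q = j q * E q + E q := by ring
      omega
    · omega
    · omega
    · have e1 : J q * E q = j q * E q + h * g := by rw [hJ, dq, ← hqE q hq]; ring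
      have e1' : (J q + 1) * E q = (j q + 1) * E q + h * g := by rw [hJ, dq, ← hqE q hq]; ring
      have e2 : J r * E r = j r * E r + h * g := by rw [hJ, dr, ← hqE r hr]; ring
      have e2' : (J r + 1) * E r = (j r + 1) * E r + h * g := by rw [hJ, dr, ← hqE r hr]; ring
      rw [e1, e1', e2, e2']
      have t1 : (j q + 1) * E q = j q * E q + E q := by ring
      omega
  refine ⟨{(y, y + h * g)} ∪ Q.image ch, none, ⟨?_, ?_, ?_, trivial⟩, trivial, ?_, ?_⟩
  · intro d hd
    rcases Finset.mem_union.1 hd with hd | hd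
    · rw [Finset.mem_singleton] at hd
      subst hd
      exact chord_ne hm0 hmn
    · obtain ⟨q, hq, rfl⟩ := Finset.mem_image.1 hd
      rw [hch1, hch2, show y + (J q + 1) * E q = (y + J q * E q) + E q by ring]
      apply chord_ne (hE0 q)
      have := hqE q hq
      have h3 := hge3 q hq
      have : E q ≤ h * g := by rw [← this]; nlinarith [hE0 q]
      omega
  · intro d hd e he hde
    rcases Finset.mem_union.1 hd with hd | hd
    · rw [Finset.mem_singleton] at hd
      rcases Finset.mem_union.1 he with he | he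
      · rw [Finset.mem_singleton] at he
        exact absurd (hd.trans he.symm) hde
      · obtain ⟨q, hq, rfl⟩ := Finset.mem_image.1 he
        subst hd
        exact hdiam q hq
    · obtain ⟨q, hq, rfl⟩ := Finset.mem_image.1 hd
      rcases Finset.mem_union.1 he with he | he
      · rw [Finset.mem_singleton] at he
        subst he
        exact (hdiam q hq).symm
      · obtain ⟨r, hr, rfl⟩ := Finset.mem_image.1 he
        have hqr : q ≠ r := fun e => hde (by rw [e])
        rcases Nat.lt_or_gt_of_ne hqr with h1 | h1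
        · exact (hpair r hr q hq h1).symm
        · exact hpair q hq r hr h1
  · intro d _ a ha
    simp [overts] at ha
  · intro κ' _ hag _ p hp hper
    have hd0 := hag (y, y + h * g) (by simp)
    simp only at hd0
    rw [cmp_gt_of_lt hy] at hd0
    rcases Finset.mem_insert.1 hp with rfl | hq
    · have e1 : n / ((2 : ℕ) : ℤ) = h * g := by
        rw [hn, mul_assoc]
        exact Int.mul_ediv_cancel_left _ (by norm_num)
      rw [e1] at hper
      rw [hper y, compare_eq_iff_eq.2 rfl] at hd0
      simp at hd0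
    · have hq0 : (p : ℤ) ≠ 0 := by have := hge3 p hq; omega
      have e1 : n / (p : ℤ) = 2 * E p := by
        rw [hn, show 2 * h * g = p * (2 * E p) by rw [mul_assoc, ← hqE p hq]; ring]
        exact Int.mul_ediv_cancel_left _ hq0
      rw [e1] at hper
      have hper' : Per κ' (2 * E p) := hper
      have hd1 := hag (ch p) (Finset.mem_union_right _ (Finset.mem_image_of_mem _ hq))
      rw [hch1, hch2] at hd1
      obtain ⟨b1, b2⟩ := hj1 p hq
      -- values of κ
      have v1 : κ (y + J p * E p) = κ (y + j p * pr (Q.erase p) * g) := by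
        rcases hδ1 p hq with hd | hd
        · rw [hJ, hd, hE]; congr 1; ring
        · rw [← hT p hq (j p) b1 (by omega), hJ, hd]
          congr 1
          rw [← hqE p hq, hE]; ring
      have v2 : κ (y + (J p + 1) * E p) = κ (y + (j p + 1) * pr (Q.erase p) * g) := by
        rcases hδ1 p hq with hd | hd
        · rw [hJ, hd, hE]; congr 1; ring
        · rw [← hT p hq (j p + 1) (by omega) (by omega), hJ, hd]
          congr 1
          rw [← hqE p hq, hE]; ring
      rw [v1, v2] at hd1
      have hpo : (p : ℤ) % 2 = 1 := by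
        have := (hQ p hq).eq_two_or_odd
        have := hge3 p hq
        omega
      rcases hδ2 p hq with ⟨hpar, hle⟩ | ⟨hpar, hle⟩
      · have w1 : κ' (y + J p * E p) = κ' y := by
          apply hper'.dvd
          obtain ⟨t, ht⟩ := hpar
          exact ⟨t, by rw [hJ, ht]; ring⟩
        have w2 : κ' (y + (J p + 1) * E p) = κ' (y + h * g) := by
          apply hper'.dvd
          obtain ⟨t, ht⟩ : (2 : ℤ) ∣ J p + 1 - p := by rw [hJ]; omega
          exact ⟨t, by rw [← hqE p hq]; linear_combination E p * ht⟩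
        rw [w1, w2, hd0] at hd1
        have := compare_gt_iff_gt.1 hd1.symm
        omega
      · have w1 : κ' (y + J p * E p) = κ' (y + h * g) := by
          apply hper'.dvd
          obtain ⟨t, ht⟩ : (2 : ℤ) ∣ J p - p := by rw [hJ]; omega
          exact ⟨t, by rw [← hqE p hq]; linear_combination E p * ht⟩
        have w2 : κ' (y + (J p + 1) * E p) = κ' y := by
          apply hper'.dvd
          obtain ⟨t, ht⟩ : (2 : ℤ) ∣ J p + 1 := by rw [hJ]; omega
          exact ⟨t, by linear_combination E p * ht⟩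
        rw [w1, w2] at hd1
        have h1 := compare_gt_iff_gt.1 hd0
        have h2 := compare_lt_iff_lt.1 (hd1.symm.trans (compare_lt_iff_lt.2 h1))
        omega
  · have e1 := Finset.card_union_le {(y, y + h * g)} (Q.image ch)
    have e2 := Finset.card_image_le (s := Q) (f := ch)
    rw [Finset.card_singleton] at e1
    simp only [overts, Finset.card_empty]
    omega

end Pool.Agent.Helper336.PW
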