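import Pool.Agent.Helper336.Blk

set_option autoImplicit false

namespace Pool.Agent.Helper336.CF

/-- The word of the positions `i, …, i + len - 1`. -/
def seg (i len : ℕ) (k : ℕ → ℕ) : List Bool :=
  ((List.range' i len).map (fun t => true :: List.replicate (k t) false)).flatten

theorem seg_zero (i : ℕ) (k : ℕ → ℕ) : seg i 0 k = [] := by simp [seg]

theorem seg_add (i a b : ℕ) (k : ℕ → ℕ) : seg i (a + b) k = seg i a k ++ seg (i + a) b k := by
  unfold seg
  rw [← List.flatten_append, ← List.map_append]
  congr 2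
  simp

theorem seg_one (i : ℕ) (k : ℕ → ℕ) : seg i 1 k = true :: List.replicate (k i) false := by
  simp [seg]

theorem seg_congr (i len : ℕ) (k k' : ℕ → ℕ) (h : ∀ t, i ≤ t → t < i + len → k t = k' t) :
    seg i len k = seg i len k' := by
  unfold seg
  congr 1
  apply List.map_congr_left
  intro t ht
  rw [List.mem_range'_1] at ht
  rw [h t ht.1 ht.2]

/-- The set of words of the interval, over all `k` with property `P`. -/
def segs (i len : ℕ) (P : (ℕ → ℕ) → Prop) : Set (List Bool) := {w | ∃ k, P k ∧ w = seg i len k}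

/-- `P` only depends on the interval. -/
def Dep (i len : ℕ) (P : (ℕ → ℕ) → Prop) : Prop :=
  ∀ k k' : ℕ → ℕ, (∀ t, i ≤ t → t < i + len → k t = k' t) → P k → P k'

theorem cfi_congr {i len : ℕ} {P P' : (ℕ → ℕ) → Prop} (h : IsCF (segs i len P))
    (e : ∀ k, P' k ↔ P k) : IsCF (segs i len P') := by
  have : P' = P := by
    funext k; exact propext (e k)
  rw [this]; exact h

theorem cfi_zero (i : ℕ) {P : (ℕ → ℕ) → Prop} (h : ∀ k, P k) : IsCF (segs i 0 P) := by
  have := cf_singleton (T := Bool) []
  convert this using 1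
  ext w
  simp only [segs, seg_zero, Set.mem_ofPred_eq, Set.mem_singleton_iff]
  constructor
  · rintro ⟨k, _, rfl⟩; rfl
  · rintro rfl; exact ⟨fun _ => 0, h _, rfl⟩

theorem cfi_one (i : ℕ) {P : (ℕ → ℕ) → Prop} (h : ∀ k, P k) : IsCF (segs i 1 P) := by
  have := cf_cat (cf_singleton (T := Bool) [true]) (cf_pow false)
  convert this using 1
  ext w
  simp only [segs, seg_one, cat, Set.mem_ofPred_eq, Set.mem_singleton_iff]
  constructor
  · rintro ⟨k, _, rfl⟩; exact ⟨_, rfl, _, ⟨k i, rfl⟩, rfl⟩
  · rintro ⟨_, rfl, _, ⟨e, rfl⟩, rfl⟩; exact ⟨fun _ => e, h _, rfl⟩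

theorem cfi_cat {i a b : ℕ} {P R : (ℕ → ℕ) → Prop} (hP : IsCF (segs i a P))
    (hR : IsCF (segs (i + a) b R)) (dP : Dep i a P) (dR : Dep (i + a) b R) :
    IsCF (segs i (a + b) (fun k => P k ∧ R k)) := by
  have := cf_cat hP hR
  convert this using 1
  ext w
  simp only [segs, cat, Set.mem_ofPred_eq]
  constructor
  · rintro ⟨k, ⟨h1, h2⟩, rfl⟩
    exact ⟨_, ⟨k, h1, rfl⟩, _, ⟨k, h2, rfl⟩, seg_add i a b k⟩
  · rintro ⟨_, ⟨k1, h1, rfl⟩, _, ⟨k2, h2, rfl⟩, rfl⟩
    refine ⟨fun t => if t < i + a then k1 t else k2 t, ⟨?_, ?_⟩, ?_⟩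
    · refine dP k1 _ ?_ h1
      intro t _ ht
      simp [ht]
    · refine dR k2 _ ?_ h2
      intro t ht _
      simp [not_lt.2 ht]
    · rw [seg_add]
      congr 1
      · apply seg_congr
        intro t _ ht
        simp [ht]
      · apply seg_congr
        intro t ht _
        simp [not_lt.2 ht]

theorem cfi_chord {i a : ℕ} {P : (ℕ → ℕ) → Prop} (hP : IsCF (segs (i + 1) a P))
    (dP : Dep (i + 1) a P) (o : Ordering) :
    IsCF (segs i (a + 2) (fun k => P k ∧ compare (k i) (k (i + 1 + a)) = o)) := by
  have key : ∀ E F : Set ℕ, IsCF (pw false E) → IsCF (pw false F) →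
      IsCF {w : List Bool | ∃ x ∈ E, ∃ y ∈ F, ∃ e : ℕ, ∃ k, P k ∧
        w = [true] ++ (List.replicate x false ++ (List.replicate e false ++ (seg (i + 1) a k ++ [true])
          ++ List.replicate e false ++ List.replicate y false))} := by
    intro E F hE hF
    have := cf_cat (cf_singleton (T := Bool) [true]) (cf_cat hE
      (cf_cat (cf_wrap false (cf_cat hP (cf_singleton (T := Bool) [true]))) hF))
    convert this using 1
    ext w
    simp only [segs, cat, wrap, pw, Set.mem_ofPred_eq, Set.mem_singleton_iff]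
    constructor
    · rintro ⟨x, hx, y, hy, e, k, hk, rfl⟩
      exact ⟨_, rfl, _, ⟨_, ⟨x, hx, rfl⟩, _, ⟨_, ⟨e, _, ⟨_, ⟨k, hk, rfl⟩, _, rfl, rfl⟩, rfl⟩,
        _, ⟨y, hy, rfl⟩, rfl⟩, rfl⟩, rfl⟩
    · rintro ⟨_, rfl, _, ⟨_, ⟨x, hx, rfl⟩, _, ⟨_, ⟨e, _, ⟨_, ⟨k, hk, rfl⟩, _, rfl, rfl⟩, rfl⟩,
        _, ⟨y, hy, rfl⟩, rfl⟩, rfl⟩, rfl⟩
      exact ⟨x, hx, y, hy, e, k, hk, rfl⟩
  have hseg : ∀ k, seg i (a + 2) k = [true] ++ (List.replicate (k i) false ++
      ((seg (i + 1) a k ++ [true]) ++ List.replicate (k (i + 1 + a)) false)) := by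
    intro k
    rw [show a + 2 = 1 + (a + 1) by ring, seg_add, seg_add, seg_one, seg_one]
    simp
  have hin : ∀ (x y : ℕ) (k : ℕ → ℕ), P k → ∃ k', P k' ∧ k' i = x ∧ k' (i + 1 + a) = y ∧
      seg (i + 1) a k' = seg (i + 1) a k := by
    intro x y k hk
    refine ⟨fun t => if t = i then x else if t = i + 1 + a then y else k t, ?_, ?_, ?_, ?_⟩
    · refine dP k _ ?_ hk
      intro t h1 h2
      rw [if_neg (by omega), if_neg (by omega)]
    · simp
    · dsimp only
      rw [if_neg (by omega), if_pos rfl]
    · apply seg_congr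
      intro t h1 h2
      rw [if_neg (by omega), if_neg (by omega)]
  cases o with
  | lt =>
    have := key {0} ZP (cf_pw_zero false) (cf_pw_pos false)
    convert this using 1
    ext w
    simp only [segs, Set.mem_ofPred_eq, Set.mem_singleton_iff, exists_eq_left, ZP, compare_lt_iff_lt]
    constructor
    · rintro ⟨k, ⟨hk, ho⟩, rfl⟩
      refine ⟨k (i + 1 + a) - k i, by omega, k i, k, hk, ?_⟩
      rw [hseg, show List.replicate (k (i + 1 + a)) false =
        List.replicate (k i) false ++ List.replicate (k (i + 1 + a) - k i) false by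
        rw [← List.replicate_add]; congr 1; omega]
      simp
    · rintro ⟨y, hy, e, k, hk, rfl⟩
      obtain ⟨k', hk', e1, e2, e3⟩ := hin e (e + y) k hk
      refine ⟨k', ⟨hk', by omega⟩, ?_⟩
      rw [hseg, e1, e2, e3]
      simp only [List.replicate_add, List.append_assoc, List.replicate_zero, List.nil_append,
        List.append_nil]
  | eq =>
    have := key {0} {0} (cf_pw_zero false) (cf_pw_zero false)
    convert this using 1
    ext w
    simp only [segs, Set.mem_ofPred_eq, Set.mem_singleton_iff, exists_eq_left, compare_eq_iff_eq]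
    constructor
    · rintro ⟨k, ⟨hk, ho⟩, rfl⟩
      refine ⟨k i, k, hk, ?_⟩
      rw [hseg, ← ho]
      simp
    · rintro ⟨e, k, hk, rfl⟩
      obtain ⟨k', hk', e1, e2, e3⟩ := hin e e k hk
      refine ⟨k', ⟨hk', by omega⟩, ?_⟩
      rw [hseg, e1, e2, e3]
      simp
  | gt =>
    have := key ZP {0} (cf_pw_pos false) (cf_pw_zero false)
    convert this using 1
    ext w
    simp only [segs, Set.mem_ofPred_eq, Set.mem_singleton_iff, exists_eq_left, ZP, compare_gt_iff_gt]
    constructor
    · rintro ⟨k, ⟨hk, ho⟩, rfl⟩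
      refine ⟨k i - k (i + 1 + a), by omega, k (i + 1 + a), k, hk, ?_⟩
      rw [hseg, show List.replicate (k i) false =
        List.replicate (k i - k (i + 1 + a)) false ++ List.replicate (k (i + 1 + a)) false by
        rw [← List.replicate_add]; congr 1; omega]
      simp only [List.append_assoc, List.replicate_zero, List.append_nil]
    · rintro ⟨x, hx, e, k, hk, rfl⟩
      obtain ⟨k', hk', e1, e2, e3⟩ := hin (x + e) e k hk
      refine ⟨k', ⟨hk', by omega⟩, ?_⟩
      rw [hseg, e1, e2, e3]
      simp only [List.replicate_add, List.append_assoc, List.replicate_zero, List.nil_append,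
        List.append_nil]

theorem cfi_block {i a b c : ℕ} {P1 P2 P3 : (ℕ → ℕ) → Prop}
    (h1 : IsCF (segs (i + 1) a P1)) (d1 : Dep (i + 1) a P1)
    (h2 : IsCF (segs (i + a + 2) b P2)) (d2 : Dep (i + a + 2) b P2)
    (h3 : IsCF (segs (i + a + b + 3) c P3)) (d3 : Dep (i + a + b + 3) c P3)
    {R : ℕ → ℕ → ℕ → ℕ → Prop} (hR : BlkCF false R) :
    IsCF (segs i (a + b + c + 4) (fun k => P1 k ∧ P2 k ∧ P3 k ∧
      R (k i) (k (i + a + 1)) (k (i + a + b + 2)) (k (i + a + b + c + 3)))) := by
  have st := cf_singleton (T := Bool) [true]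
  have := cf_cat st (hR _ _ _ (cf_cat h1 st) (cf_cat h2 st) (cf_cat h3 st))
  convert this using 1
  have hseg : ∀ k, seg i (a + b + c + 4) k = [true] ++ (List.replicate (k i) false ++
      ((seg (i + 1) a k ++ [true]) ++ (List.replicate (k (i + a + 1)) false ++
      ((seg (i + a + 2) b k ++ [true]) ++ (List.replicate (k (i + a + b + 2)) false ++
      ((seg (i + a + b + 3) c k ++ [true]) ++ List.replicate (k (i + a + b + c + 3)) false)))))) := by
    intro k
    rw [show a + b + c + 4 = 1 + (a + (1 + (b + (1 + (c + 1))))) by ring, seg_add, seg_add, seg_add,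
      seg_add, seg_add, seg_add, seg_one, seg_one, seg_one, seg_one,
      show i + 1 + a = i + a + 1 by ring, show i + a + 1 + 1 = i + a + 2 by ring,
      show i + a + 2 + b = i + a + b + 2 by ring, show i + a + b + 2 + 1 = i + a + b + 3 by ring,
      show i + a + b + 3 + c = i + a + b + c + 3 by ring]
    simp
  ext w
  simp only [segs, cat, blk, Set.mem_ofPred_eq, Set.mem_singleton_iff]
  constructor
  · rintro ⟨k, ⟨k1, k2, k3, hr⟩, rfl⟩
    exact ⟨_, rfl, _, ⟨_, _, _, _, hr, _, ⟨_, ⟨k, k1, rfl⟩, _, rfl, rfl⟩, _,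
      ⟨_, ⟨k, k2, rfl⟩, _, rfl, rfl⟩, _, ⟨_, ⟨k, k3, rfl⟩, _, rfl, rfl⟩, rfl⟩, hseg k⟩
  · rintro ⟨_, rfl, _, ⟨x0, x1, x2, x3, hr, _, ⟨_, ⟨κ1, k1, rfl⟩, _, rfl, rfl⟩, _,
      ⟨_, ⟨κ2, k2, rfl⟩, _, rfl, rfl⟩, _, ⟨_, ⟨κ3, k3, rfl⟩, _, rfl, rfl⟩, rfl⟩, rfl⟩
    let k : ℕ → ℕ := fun t =>
      if t < i + 1 then x0 else if t < i + a + 1 then κ1 t else if t < i + a + 2 then x1 else
      if t < i + a + b + 2 then κ2 t else if t < i + a + b + 3 then x2 else
      if t < i + a + b + c + 3 then κ3 t else x3
    have e0 : k i = x0 := by simp only [k]; rw [if_pos (by omega)]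
    have e1 : k (i + a + 1) = x1 := by
      simp only [k]; rw [if_neg (by omega), if_neg (by omega), if_pos (by omega)]
    have e2 : k (i + a + b + 2) = x2 := by
      simp only [k]
      rw [if_neg (by omega), if_neg (by omega), if_neg (by omega), if_neg (by omega),
        if_pos (by omega)]
    have e3 : k (i + a + b + c + 3) = x3 := by
      simp only [k]
      rw [if_neg (by omega), if_neg (by omega), if_neg (by omega), if_neg (by omega),
        if_neg (by omega), if_neg (by omega)]
    have f1 : ∀ t, i + 1 ≤ t → t < i + 1 + a → k t = κ1 t := by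
      intro t h h'
      simp only [k]
      rw [if_neg (by omega), if_pos (by omega)]
    have f2 : ∀ t, i + a + 2 ≤ t → t < i + a + 2 + b → k t = κ2 t := by
      intro t h h'
      simp only [k]
      rw [if_neg (by omega), if_neg (by omega), if_neg (by omega), if_pos (by omega)]
    have f3 : ∀ t, i + a + b + 3 ≤ t → t < i + a + b + 3 + c → k t = κ3 t := by
      intro t h h'
      simp only [k]
      rw [if_neg (by omega), if_neg (by omega), if_neg (by omega), if_neg (by omega),
        if_neg (by omega), if_pos (by omega)]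
    refine ⟨k, ⟨d1 κ1 k (fun t h h' => (f1 t h h').symm) k1,
      d2 κ2 k (fun t h h' => (f2 t h h').symm) k2,
      d3 κ3 k (fun t h h' => (f3 t h h').symm) k3, by rw [e0, e1, e2, e3]; exact hr⟩, ?_⟩
    rw [hseg, e0, e1, e2, e3, seg_congr _ _ k κ1 f1, seg_congr _ _ k κ2 f2, seg_congr _ _ k κ3 f3]

/-- Nested or disjoint chords on a line. -/
def NSep (c d : ℕ × ℕ) : Prop :=
  c.2 < d.1 ∨ d.2 < c.1 ∨ (c.1 < d.1 ∧ d.2 < c.2) ∨ (d.1 < c.1 ∧ c.2 < d.2)

/-- All chords lie in the interval. -/
def ChIn (C : Finset (ℕ × ℕ)) (i len : ℕ) : Prop :=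
  ∀ c ∈ C, i ≤ c.1 ∧ c.1 < c.2 ∧ c.2 < i + len

/-- The chord conditions. -/
def ChP (σ : ℕ → ℕ → Ordering) (C : Finset (ℕ × ℕ)) (k : ℕ → ℕ) : Prop :=
  ∀ c ∈ C, compare (k c.1) (k c.2) = σ c.1 c.2

theorem dep_chP (σ : ℕ → ℕ → Ordering) (C : Finset (ℕ × ℕ)) (i len : ℕ) (h : ChIn C i len) :
    Dep i len (ChP σ C) := by
  intro k k' hk hP c hc
  obtain ⟨h1, h2, h3⟩ := h c hc
  rw [← hk c.1 h1 (by omega), ← hk c.2 (by omega) h3]
  exact hP c hc

theorem chords_cf (σ : ℕ → ℕ → Ordering) : ∀ (len i : ℕ) (C : Finset (ℕ × ℕ)), ChIn C i len →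
    (∀ c ∈ C, ∀ d ∈ C, c ≠ d → NSep c d) → IsCF (segs i len (ChP σ C)) := by
  intro len
  induction len using Nat.strong_induction_on with
  | _ len ih =>
    intro i C hin hsep
    rcases Nat.eq_zero_or_pos len with rfl | hlen
    · apply cfi_zero
      intro k c hc
      have := hin c hc
      omega
    · by_cases hex : ∃ c ∈ C, c.1 = i
      · obtain ⟨c0, hc0, hci⟩ := hex
        obtain ⟨-, h1, h2⟩ := hin c0 hc0
        let Cin := C.filter (fun c => i < c.1 ∧ c.2 < c0.2)
        let Cout := C.filter (fun c => c0.2 < c.1)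
        obtain ⟨a, ha⟩ : ∃ a, c0.2 = i + 1 + a := ⟨c0.2 - (i + 1), by omega⟩
        obtain ⟨r, hr⟩ : ∃ r, len = (a + 2) + r := ⟨len - (a + 2), by omega⟩
        have inCin : ChIn Cin (i + 1) a := by
          intro c hc
          rw [Finset.mem_filter] at hc
          have := hin c hc.1
          omega
        have inCout : ChIn Cout (i + (a + 2)) r := by
          intro c hc
          rw [Finset.mem_filter] at hc
          have := hin c hc.1
          omega
        have h1 : IsCF (segs (i + 1) a (ChP σ Cin)) := by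
          apply ih a (by omega) (i + 1) Cin inCin
          intro c hc d hd hcd
          rw [Finset.mem_filter] at hc hd
          exact hsep c hc.1 d hd.1 hcd
        have h2 : IsCF (segs (i + (a + 2)) r (ChP σ Cout)) := by
          apply ih r (by omega) (i + (a + 2)) Cout inCout
          intro c hc d hd hcd
          rw [Finset.mem_filter] at hc hd
          exact hsep c hc.1 d hd.1 hcd
        have h3 := cfi_chord h1 (dep_chP σ Cin _ _ inCin) (σ i (i + 1 + a))
        have h4 := cfi_cat h3 h2 (by
          intro k k' hk hP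
          refine ⟨dep_chP σ Cin _ _ inCin k k' (fun t h h' => hk t (by omega) (by omega)) hP.1, ?_⟩
          rw [← hk i (by omega) (by omega), ← hk (i + 1 + a) (by omega) (by omega)]
          exact hP.2) (dep_chP σ Cout _ _ inCout)
        rw [← hr] at h4
        refine cfi_congr h4 ?_
        intro k
        constructor
        · intro h
          refine ⟨⟨fun c hc => h c (Finset.mem_filter.1 hc).1, ?_⟩,
            fun c hc => h c (Finset.mem_filter.1 hc).1⟩
          have := h c0 hc0
          rw [hci, ha] at this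
          exact this
        · rintro ⟨⟨k1, k2⟩, k3⟩ c hc
          by_cases hcc : c = c0
          · rw [hcc, hci, ha]; exact k2
          · have hs := hsep c hc c0 hc0 hcc
            have hi := hin c hc
            unfold NSep at hs
            by_cases hlt : c0.2 < c.1
            · exact k3 c (Finset.mem_filter.2 ⟨hc, hlt⟩)
            · exact k1 c (Finset.mem_filter.2 ⟨hc, by omega, by omega⟩)
      · obtain ⟨r, hr⟩ : ∃ r, len = 1 + r := ⟨len - 1, by omega⟩
        have inC : ChIn C (i + 1) r := by
          intro c hc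
          have h1 := hin c hc
          have h2 : c.1 ≠ i := fun h => hex ⟨c, hc, h⟩
          omega
        have h1 : IsCF (segs i 1 (fun _ => True)) := cfi_one i (fun _ => trivial)
        have h2 : IsCF (segs (i + 1) r (ChP σ C)) := ih r (by omega) (i + 1) C inC hsep
        have h4 := cfi_cat h1 h2 (fun _ _ _ _ => trivial) (dep_chP σ C _ _ inC)
        rw [← hr] at h4
        exact cfi_congr h4 (fun k => by simp)

theorem block_cf (σ : ℕ → ℕ → Ordering) (R : ℕ → ℕ → ℕ → ℕ → Prop) (hR : BlkCF false R)
    (v0 v1 v2 v3 : ℕ) (h01 : v0 < v1) (h12 : v1 < v2) (h23 : v2 < v3) :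
    ∀ (len i : ℕ) (C : Finset (ℕ × ℕ)), ChIn C i len →
    (∀ c ∈ C, ∀ d ∈ C, c ≠ d → NSep c d) → i ≤ v0 → v3 < i + len →
    (∀ c ∈ C, c.2 < v0 ∨ v3 < c.1 ∨ (c.1 < v0 ∧ v3 < c.2) ∨ (v0 < c.1 ∧ c.2 < v1) ∨
      (v1 < c.1 ∧ c.2 < v2) ∨ (v2 < c.1 ∧ c.2 < v3)) →
    IsCF (segs i len (fun k => ChP σ C k ∧ R (k v0) (k v1) (k v2) (k v3))) := by
  intro len
  induction len using Nat.strong_induction_on with
  | _ len ih =>
    intro i C hin hsep hv0 hv3 hbs
    by_cases hv : v0 = i
    · let C1 := C.filter (fun c => v0 < c.1 ∧ c.2 < v1)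
      let C2 := C.filter (fun c => v1 < c.1 ∧ c.2 < v2)
      let C3 := C.filter (fun c => v2 < c.1 ∧ c.2 < v3)
      let Cout := C.filter (fun c => v3 < c.1)
      obtain ⟨a, ha⟩ : ∃ a, v1 = i + a + 1 := ⟨v1 - (i + 1), by omega⟩
      obtain ⟨b, hb⟩ : ∃ b, v2 = i + a + b + 2 := ⟨v2 - (i + a + 2), by omega⟩
      obtain ⟨c', hc'⟩ : ∃ c', v3 = i + a + b + c' + 3 := ⟨v3 - (i + a + b + 3), by omega⟩
      obtain ⟨r, hr⟩ : ∃ r, len = (a + b + c' + 4) + r := ⟨len - (a + b + c' + 4), by omega⟩
      have in1 : ChIn C1 (i + 1) a := by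
        intro c hc
        rw [Finset.mem_filter] at hc
        have := hin c hc.1
        omega
      have in2 : ChIn C2 (i + a + 2) b := by
        intro c hc
        rw [Finset.mem_filter] at hc
        have := hin c hc.1
        omega
      have in3 : ChIn C3 (i + a + b + 3) c' := by
        intro c hc
        rw [Finset.mem_filter] at hc
        have := hin c hc.1
        omega
      have inout : ChIn Cout (i + (a + b + c' + 4)) r := by
        intro c hc
        rw [Finset.mem_filter] at hc
        have := hin c hc.1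
        omega
      have hs : ∀ D : Finset (ℕ × ℕ), D ⊆ C → ∀ c ∈ D, ∀ d ∈ D, c ≠ d → NSep c d :=
        fun D hD c hc d hd => hsep c (hD hc) d (hD hd)
      have h1 := chords_cf σ a (i + 1) C1 in1 (hs _ (Finset.filter_subset _ _))
      have h2 := chords_cf σ b (i + a + 2) C2 in2 (hs _ (Finset.filter_subset _ _))
      have h3 := chords_cf σ c' (i + a + b + 3) C3 in3 (hs _ (Finset.filter_subset _ _))
      have h5 := chords_cf σ r (i + (a + b + c' + 4)) Cout inout (hs _ (Finset.filter_subset _ _))
      have d1 := dep_chP σ C1 _ _ in1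
      have d2 := dep_chP σ C2 _ _ in2
      have d3 := dep_chP σ C3 _ _ in3
      have h4 := cfi_block h1 d1 h2 d2 h3 d3 hR
      have h6 := cfi_cat h4 h5 (by
        intro k k' hk hP
        obtain ⟨p1, p2, p3, p4⟩ := hP
        refine ⟨d1 k k' (fun t h h' => hk t (by omega) (by omega)) p1,
          d2 k k' (fun t h h' => hk t (by omega) (by omega)) p2,
          d3 k k' (fun t h h' => hk t (by omega) (by omega)) p3, ?_⟩
        rw [← hk i (by omega) (by omega), ← hk (i + a + 1) (by omega) (by omega),
          ← hk (i + a + b + 2) (by omega) (by omega),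
          ← hk (i + a + b + c' + 3) (by omega) (by omega)]
        exact p4) (dep_chP σ Cout _ _ inout)
      rw [← hr] at h6
      refine cfi_congr h6 ?_
      intro k
      rw [← ha, ← hb, ← hc', hv]
      constructor
      · rintro ⟨h, h'⟩
        exact ⟨⟨fun c hc => h c (Finset.mem_filter.1 hc).1, fun c hc => h c (Finset.mem_filter.1 hc).1,
          fun c hc => h c (Finset.mem_filter.1 hc).1, h'⟩,
          fun c hc => h c (Finset.mem_filter.1 hc).1⟩
      · rintro ⟨⟨k1, k2, k3, k4⟩, k5⟩
        refine ⟨?_, k4⟩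
        intro c hc
        have hi := hin c hc
        rcases hbs c hc with h | h | h | h | h | h
        · omega
        · exact k5 c (Finset.mem_filter.2 ⟨hc, h⟩)
        · omega
        · exact k1 c (Finset.mem_filter.2 ⟨hc, h⟩)
        · exact k2 c (Finset.mem_filter.2 ⟨hc, h⟩)
        · exact k3 c (Finset.mem_filter.2 ⟨hc, h⟩)
    · by_cases hex : ∃ c ∈ C, c.1 = i
      · obtain ⟨c0, hc0, hci⟩ := hex
        obtain ⟨-, h1, h2⟩ := hin c0 hc0
        let Cin := C.filter (fun c => i < c.1 ∧ c.2 < c0.2)
        let Cout := C.filter (fun c => c0.2 < c.1)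
        obtain ⟨a, ha⟩ : ∃ a, c0.2 = i + 1 + a := ⟨c0.2 - (i + 1), by omega⟩
        obtain ⟨r, hr⟩ : ∃ r, len = (a + 2) + r := ⟨len - (a + 2), by omega⟩
        have inCin : ChIn Cin (i + 1) a := by
          intro c hc
          rw [Finset.mem_filter] at hc
          have := hin c hc.1
          omega
        have inCout : ChIn Cout (i + (a + 2)) r := by
          intro c hc
          rw [Finset.mem_filter] at hc
          have := hin c hc.1
          omega
        have hs : ∀ D : Finset (ℕ × ℕ), D ⊆ C → ∀ c ∈ D, ∀ d ∈ D, c ≠ d → NSep c d :=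
          fun D hD c hc d hd => hsep c (hD hc) d (hD hd)
        have hb0 := hbs c0 hc0
        by_cases hin3 : v3 < c0.2
        · have h1 : IsCF (segs (i + 1) a (fun k => ChP σ Cin k ∧ R (k v0) (k v1) (k v2) (k v3))) := by
            apply ih a (by omega) (i + 1) Cin inCin (hs _ (Finset.filter_subset _ _)) (by omega)
              (by omega)
            intro c hc
            exact hbs c (Finset.mem_filter.1 hc).1
          have h2 : IsCF (segs (i + (a + 2)) r (ChP σ Cout)) :=
            chords_cf σ r (i + (a + 2)) Cout inCout (hs _ (Finset.filter_subset _ _))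
          have dd : Dep (i + 1) a (fun k => ChP σ Cin k ∧ R (k v0) (k v1) (k v2) (k v3)) := by
            intro k k' hk hP
            refine ⟨dep_chP σ Cin _ _ inCin k k' hk hP.1, ?_⟩
            rw [← hk v0 (by omega) (by omega), ← hk v1 (by omega) (by omega),
              ← hk v2 (by omega) (by omega), ← hk v3 (by omega) (by omega)]
            exact hP.2
          have h3 := cfi_chord h1 dd (σ i (i + 1 + a))
          have h4 := cfi_cat h3 h2 (by
            intro k k' hk hP
            refine ⟨dd k k' (fun t h h' => hk t (by omega) (by omega)) hP.1, ?_⟩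
            rw [← hk i (by omega) (by omega), ← hk (i + 1 + a) (by omega) (by omega)]
            exact hP.2) (dep_chP σ Cout _ _ inCout)
          rw [← hr] at h4
          refine cfi_congr h4 ?_
          intro k
          constructor
          · rintro ⟨h, h'⟩
            refine ⟨⟨⟨fun c hc => h c (Finset.mem_filter.1 hc).1, h'⟩, ?_⟩,
              fun c hc => h c (Finset.mem_filter.1 hc).1⟩
            have := h c0 hc0
            rw [hci, ha] at this
            exact this
          · rintro ⟨⟨⟨k1, k1'⟩, k2⟩, k3⟩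
            refine ⟨?_, k1'⟩
            intro c hc
            by_cases hcc : c = c0
            · rw [hcc, hci, ha]; exact k2
            · have hs := hsep c hc c0 hc0 hcc
              have hi := hin c hc
              unfold NSep at hs
              by_cases hlt : c0.2 < c.1
              · exact k3 c (Finset.mem_filter.2 ⟨hc, hlt⟩)
              · exact k1 c (Finset.mem_filter.2 ⟨hc, by omega, by omega⟩)
        · have h1 : IsCF (segs (i + 1) a (ChP σ Cin)) :=
            chords_cf σ a (i + 1) Cin inCin (hs _ (Finset.filter_subset _ _))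
          have h2 : IsCF (segs (i + (a + 2)) r
              (fun k => ChP σ Cout k ∧ R (k v0) (k v1) (k v2) (k v3))) := by
            apply ih r (by omega) (i + (a + 2)) Cout inCout (hs _ (Finset.filter_subset _ _))
              (by omega) (by omega)
            intro c hc
            exact hbs c (Finset.mem_filter.1 hc).1
          have dd : Dep (i + (a + 2)) r (fun k => ChP σ Cout k ∧ R (k v0) (k v1) (k v2) (k v3)) := by
            intro k k' hk hP
            refine ⟨dep_chP σ Cout _ _ inCout k k' hk hP.1, ?_⟩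
            rw [← hk v0 (by omega) (by omega), ← hk v1 (by omega) (by omega),
              ← hk v2 (by omega) (by omega), ← hk v3 (by omega) (by omega)]
            exact hP.2
          have h3 := cfi_chord h1 (dep_chP σ Cin _ _ inCin) (σ i (i + 1 + a))
          have h4 := cfi_cat h3 h2 (by
            intro k k' hk hP
            refine ⟨dep_chP σ Cin _ _ inCin k k' (fun t h h' => hk t (by omega) (by omega)) hP.1, ?_⟩
            rw [← hk i (by omega) (by omega), ← hk (i + 1 + a) (by omega) (by omega)]
            exact hP.2) dd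
          rw [← hr] at h4
          refine cfi_congr h4 ?_
          intro k
          constructor
          · rintro ⟨h, h'⟩
            refine ⟨⟨fun c hc => h c (Finset.mem_filter.1 hc).1, ?_⟩,
              fun c hc => h c (Finset.mem_filter.1 hc).1, h'⟩
            have := h c0 hc0
            rw [hci, ha] at this
            exact this
          · rintro ⟨⟨k1, k2⟩, k3, k3'⟩
            refine ⟨?_, k3'⟩
            intro c hc
            by_cases hcc : c = c0
            · rw [hcc, hci, ha]; exact k2
            · have hs := hsep c hc c0 hc0 hcc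
              have hi := hin c hc
              unfold NSep at hs
              by_cases hlt : c0.2 < c.1
              · exact k3 c (Finset.mem_filter.2 ⟨hc, hlt⟩)
              · exact k1 c (Finset.mem_filter.2 ⟨hc, by omega, by omega⟩)
      · obtain ⟨r, hr⟩ : ∃ r, len = 1 + r := ⟨len - 1, by omega⟩
        have inC : ChIn C (i + 1) r := by
          intro c hc
          have h1 := hin c hc
          have h2 : c.1 ≠ i := fun h => hex ⟨c, hc, h⟩
          omega
        have h1 : IsCF (segs i 1 (fun _ => True)) := cfi_one i (fun _ => trivial)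
        have h2 : IsCF (segs (i + 1) r (fun k => ChP σ C k ∧ R (k v0) (k v1) (k v2) (k v3))) :=
          ih r (by omega) (i + 1) C inC hsep (by omega) (by omega) hbs
        have h4 := cfi_cat h1 h2 (fun _ _ _ _ => trivial) (by
          intro k k' hk hP
          refine ⟨dep_chP σ C _ _ inC k k' hk hP.1, ?_⟩
          rw [← hk v0 (by omega) (by omega), ← hk v1 (by omega) (by omega),
            ← hk v2 (by omega) (by omega), ← hk v3 (by omega) (by omega)]
          exact hP.2)
        rw [← hr] at h4
        exact cfi_congr h4 (fun k => by simp)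

end Pool.Agent.Helper336.CF
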