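import Pool.Agent.Helper336.Sep
import Pool.Agent.Helper336.Interval

set_option autoImplicit false

namespace Pool.Agent.Helper336.PW

open Pool.Agent.Helper336.CF

/-- Periodic extension. -/
def lift (n : ℕ) (k : ℕ → ℕ) : ℤ → ℕ := fun x => k (x % (n : ℤ)).toNat

theorem lift_per (n : ℕ) (k : ℕ → ℕ) (x : ℤ) : lift n k (x + n) = lift n k x := by
  simp [lift]

theorem lift_emod (n : ℕ) (k : ℕ → ℕ) (x : ℤ) : lift n k (x % n) = lift n k x := by
  simp [lift]

theorem per_emod {n : ℤ} {κ : ℤ → ℕ} (hκ : ∀ x, κ (x + n) = κ x) (x : ℤ) : κ (x % n) = κ x := by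
  have h1 : ∀ (t : ℕ) (x : ℤ), κ (x + n * t) = κ x := by
    intro t
    induction t with
    | zero => intro x; simp
    | succ t ih =>
      intro x
      rw [show x + n * ((t + 1 : ℕ) : ℤ) = (x + n * t) + n by push_cast; ring, hκ, ih]
  have h2 : ∀ (t : ℤ) (x : ℤ), κ (x + n * t) = κ x := by
    intro t x
    rcases Int.eq_nat_or_neg t with ⟨m, rfl | rfl⟩
    · exact h1 m x
    · have := h1 m (x + n * (-(m : ℤ)))
      rw [show x + n * (-(m : ℤ)) + n * m = x by ring] at this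
      exact this.symm
  have := h2 (x / n) (x % n)
  rw [Int.emod_add_mul_ediv] at this
  exact this.symm

theorem cmp_swap_iff (a b c d : ℕ) : compare a b = compare c d ↔ compare b a = compare d c := by
  rcases lt_trichotomy a b with h | h | h <;> rcases lt_trichotomy c d with h' | h' | h' <;>
    simp [compare_lt_iff_lt.2, compare_gt_iff_gt.2, h, h']

/-- Linear form of a chord. -/
def linC (n : ℤ) (c : ℤ × ℤ) : ℕ × ℕ :=
  (min (c.1 % n).toNat (c.2 % n).toNat, max (c.1 % n).toNat (c.2 % n).toNat)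

theorem agree_lin (n : ℕ) (hn : 0 < n) (κ : ℤ → ℕ) (hκ : ∀ x, κ (x + n) = κ x)
    (C : Finset (ℤ × ℤ)) (k : ℕ → ℕ) :
    Agree κ (lift n k) C ↔
      ChP (fun a b => compare (κ a) (κ b)) (C.image (linC n)) k := by
  unfold Agree ChP
  constructor
  · intro h c hc
    obtain ⟨d, hd, rfl⟩ := Finset.mem_image.1 hc
    have h1 := h d hd
    rw [← per_emod hκ d.1, ← per_emod hκ d.2] at h1
    have e1 : ((d.1 % (n : ℤ)).toNat : ℤ) = d.1 % n :=
      Int.toNat_of_nonneg (Int.emod_nonneg _ (by omega))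
    have e2 : ((d.2 % (n : ℤ)).toNat : ℤ) = d.2 % n :=
      Int.toNat_of_nonneg (Int.emod_nonneg _ (by omega))
    simp only [linC]
    rcases le_total (d.1 % (n : ℤ)).toNat (d.2 % (n : ℤ)).toNat with hle | hle
    · rw [min_eq_left hle, max_eq_right hle, e1, e2]
      exact h1
    · rw [min_eq_right hle, max_eq_left hle, e1, e2]
      rw [cmp_swap_iff]
      exact h1
  · intro h d hd
    have h1 := h (linC n d) (Finset.mem_image_of_mem _ hd)
    rw [← per_emod hκ d.1, ← per_emod hκ d.2]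
    have e1 : ((d.1 % (n : ℤ)).toNat : ℤ) = d.1 % n :=
      Int.toNat_of_nonneg (Int.emod_nonneg _ (by omega))
    have e2 : ((d.2 % (n : ℤ)).toNat : ℤ) = d.2 % n :=
      Int.toNat_of_nonneg (Int.emod_nonneg _ (by omega))
    simp only [linC] at h1
    rcases le_total (d.1 % (n : ℤ)).toNat (d.2 % (n : ℤ)).toNat with hle | hle
    · rw [min_eq_left hle, max_eq_right hle, e1, e2] at h1
      exact h1
    · rw [min_eq_right hle, max_eq_left hle, e1, e2] at h1
      rw [cmp_swap_iff]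
      exact h1

theorem lin_in (n : ℕ) (hn : 0 < n) (c : ℤ × ℤ) (hc : c.1 % n ≠ c.2 % n) :
    0 ≤ (linC n c).1 ∧ (linC n c).1 < (linC n c).2 ∧ (linC n c).2 < 0 + n := by
  have b1 := Int.emod_nonneg c.1 (show (n : ℤ) ≠ 0 by omega)
  have b2 := Int.emod_lt_of_pos c.1 (show (0 : ℤ) < n by omega)
  have b3 := Int.emod_nonneg c.2 (show (n : ℤ) ≠ 0 by omega)
  have b4 := Int.emod_lt_of_pos c.2 (show (0 : ℤ) < n by omega)
  simp only [linC]
  omega

theorem lin_sep (n : ℕ) (hn : 0 < n) (c d : ℤ × ℤ) (h : Sep n c.1 c.2 d.1 d.2) : NSep (linC n c) (linC n d) := by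
  have b1 := Int.emod_nonneg c.1 (show (n : ℤ) ≠ 0 by omega)
  have b3 := Int.emod_nonneg c.2 (show (n : ℤ) ≠ 0 by omega)
  have b5 := Int.emod_nonneg d.1 (show (n : ℤ) ≠ 0 by omega)
  have b7 := Int.emod_nonneg d.2 (show (n : ℤ) ≠ 0 by omega)
  simp only [linC, NSep]
  unfold Sep LSep at h
  omega

theorem add_emod_cases (n z r : ℤ) (hn : 0 < n) (h0 : 0 ≤ r) (hr : r < n) :
    ((z + r) % n = z % n + r ∧ z % n + r < n) ∨ ((z + r) % n = z % n + r - n ∧ n ≤ z % n + r) := by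
  have b1 := Int.emod_nonneg z hn.ne'
  have b2 := Int.emod_lt_of_pos z hn
  by_cases h : z % n + r < n
  · left
    refine ⟨?_, h⟩
    rw [Int.add_emod, Int.emod_eq_of_lt h0 hr]
    exact Int.emod_eq_of_lt (by omega) h
  · right
    refine ⟨?_, by omega⟩
    rw [Int.add_emod, Int.emod_eq_of_lt h0 hr]
    have : (z % n + r) % n = (z % n + r - n) % n := by simp
    rw [this]
    exact Int.emod_eq_of_lt (by omega) (by omega)

theorem block_lin (n : ℕ) (hn : 0 < n) (z r1 r2 : ℤ) (t : Bool) (h1 : 0 < r1) (h2 : r1 < r2)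
    (h3 : r1 + r2 < n) :
    ∃ (v0 v1 v2 v3 : ℕ) (R : ℕ → ℕ → ℕ → ℕ → Prop), BlkCF false R ∧ v0 < v1 ∧ v1 < v2 ∧
      v2 < v3 ∧ v3 < n ∧
      (∀ k, R (k v0) (k v1) (k v2) (k v3) ↔ ocond (lift n k) (some (z, r1, r2, t))) ∧
      (∃ a ∈ overts (some (z, r1, r2, t)), a % (n : ℤ) = v0) ∧
      (∃ a ∈ overts (some (z, r1, r2, t)), a % (n : ℤ) = v1) ∧
      (∃ a ∈ overts (some (z, r1, r2, t)), a % (n : ℤ) = v2) ∧
      (∃ a ∈ overts (some (z, r1, r2, t)), a % (n : ℤ) = v3) := by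
  have hn' : (0 : ℤ) < n := by omega
  have b1 := Int.emod_nonneg z hn'.ne'
  have b2 := Int.emod_lt_of_pos z hn'
  have mA : z ∈ overts (some (z, r1, r2, t)) := by simp [overts]
  have mB : z + r1 ∈ overts (some (z, r1, r2, t)) := by simp [overts]
  have mC : z + r2 ∈ overts (some (z, r1, r2, t)) := by simp [overts]
  have mD : z + (r1 + r2) ∈ overts (some (z, r1, r2, t)) := by simp [overts]
  obtain ⟨A, hA⟩ : ∃ A : ℕ, z % (n : ℤ) = A := ⟨(z % (n : ℤ)).toNat, by omega⟩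
  have cB := add_emod_cases n z r1 hn' (by omega) (by omega)
  have cC := add_emod_cases n z r2 hn' (by omega) (by omega)
  have cD := add_emod_cases n z (r1 + r2) hn' (by omega) (by omega)
  obtain ⟨B, hB⟩ : ∃ B : ℕ, (z + r1) % (n : ℤ) = B := ⟨((z + r1) % (n : ℤ)).toNat, by omega⟩
  obtain ⟨C, hC⟩ : ∃ C : ℕ, (z + r2) % (n : ℤ) = C := ⟨((z + r2) % (n : ℤ)).toNat, by omega⟩
  obtain ⟨D, hD⟩ : ∃ D : ℕ, (z + (r1 + r2)) % (n : ℤ) = D :=
    ⟨((z + (r1 + r2)) % (n : ℤ)).toNat, by omega⟩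
  have eA : ∀ k, lift n k z = k A := by intro k; simp [lift, hA]
  have eB : ∀ k, lift n k (z + r1) = k B := by intro k; simp [lift, hB]
  have eC : ∀ k, lift n k (z + r2) = k C := by intro k; simp [lift, hC]
  have eD : ∀ k, lift n k (z + (r1 + r2)) = k D := by intro k; simp only [lift, hD, Int.toNat_natCast]
  rw [hB] at cB
  rw [hC] at cC
  rw [hD] at cD
  rw [hA] at cB cC cD
  have hcases : (A < B ∧ B < C ∧ C < D ∧ D < n) ∨ (D < A ∧ A < B ∧ B < C ∧ C < n) ∨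
      (C < D ∧ D < A ∧ A < B ∧ B < n) ∨ (B < C ∧ C < D ∧ D < A ∧ A < n) := by omega
  rcases hcases with ⟨o1, o2, o3, o4⟩ | ⟨o1, o2, o3, o4⟩ | ⟨o1, o2, o3, o4⟩ | ⟨o1, o2, o3, o4⟩
  · cases t with
    | true =>
      refine ⟨A, B, C, D, _, relA_cf false, o1, o2, o3, o4, ?_, ⟨_, mA, hA⟩, ⟨_, mB, hB⟩, ⟨_, mC, hC⟩,
        ⟨_, mD, hD⟩⟩
      intro k
      simp only [ocond, eA, eB, eC, eD]
    | false =>
      refine ⟨A, B, C, D, _, relC_cf false, o1, o2, o3, o4, ?_, ⟨_, mA, hA⟩, ⟨_, mB, hB⟩, ⟨_, mC, hC⟩,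
        ⟨_, mD, hD⟩⟩
      intro k
      simp only [ocond, eA, eB, eC, eD]
  · cases t with
    | true =>
      refine ⟨D, A, B, C, _, relB_cf false, o1, o2, o3, o4, ?_, ⟨_, mD, hD⟩, ⟨_, mA, hA⟩, ⟨_, mB, hB⟩,
        ⟨_, mC, hC⟩⟩
      intro k
      simp only [ocond, eA, eB, eC, eD]
      omega
    | false =>
      refine ⟨D, A, B, C, _, relD_cf false, o1, o2, o3, o4, ?_, ⟨_, mD, hD⟩, ⟨_, mA, hA⟩, ⟨_, mB, hB⟩,
        ⟨_, mC, hC⟩⟩
      intro k
      simp only [ocond, eA, eB, eC, eD]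
      omega
  · cases t with
    | true =>
      refine ⟨C, D, A, B, _, relA_cf false, o1, o2, o3, o4, ?_, ⟨_, mC, hC⟩, ⟨_, mD, hD⟩, ⟨_, mA, hA⟩,
        ⟨_, mB, hB⟩⟩
      intro k
      simp only [ocond, eA, eB, eC, eD]
      omega
    | false =>
      refine ⟨C, D, A, B, _, relC_cf false, o1, o2, o3, o4, ?_, ⟨_, mC, hC⟩, ⟨_, mD, hD⟩, ⟨_, mA, hA⟩,
        ⟨_, mB, hB⟩⟩
      intro k
      simp only [ocond, eA, eB, eC, eD]
      omega
  · cases t with
    | true =>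
      refine ⟨B, C, D, A, _, relB_cf false, o1, o2, o3, o4, ?_, ⟨_, mB, hB⟩, ⟨_, mC, hC⟩, ⟨_, mD, hD⟩,
        ⟨_, mA, hA⟩⟩
      intro k
      simp only [ocond, eA, eB, eC, eD]
      omega
    | false =>
      refine ⟨B, C, D, A, _, relD_cf false, o1, o2, o3, o4, ?_, ⟨_, mB, hB⟩, ⟨_, mC, hC⟩, ⟨_, mD, hD⟩,
        ⟨_, mA, hA⟩⟩
      intro k
      simp only [ocond, eA, eB, eC, eD]
      omega

theorem sys_cf (n : ℕ) (hn : 0 < n) (κ : ℤ → ℕ) (hκ : ∀ x, κ (x + n) = κ x)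
    (C : Finset (ℤ × ℤ)) (O : OB) (hV : Valid n C O) :
    IsCF (segs 0 n (fun k => Agree κ (lift n k) C ∧ ocond (lift n k) O)) := by
  classical
  have hin : ChIn (C.image (linC n)) 0 n := by
    intro c hc
    obtain ⟨d, hd, rfl⟩ := Finset.mem_image.1 hc
    exact lin_in n hn d (hV.ne d hd)
  have hsep : ∀ c ∈ C.image (linC n), ∀ d ∈ C.image (linC n), c ≠ d → NSep c d := by
    intro c hc d hd hcd
    obtain ⟨c', hc', rfl⟩ := Finset.mem_image.1 hc
    obtain ⟨d', hd', rfl⟩ := Finset.mem_image.1 hd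
    exact lin_sep n hn c' d' (hV.sep c' hc' d' hd' (fun h => hcd (by rw [h])))
  match O, hV with
  | none, hV =>
    have := chords_cf (fun a b => compare (κ a) (κ b)) n 0 _ hin hsep
    refine cfi_congr this ?_
    intro k
    simp only [ocond, and_true]
    exact agree_lin n hn κ hκ C k
  | some (z, r1, r2, t), hV =>
    obtain ⟨h1, h2, h3⟩ := hV.oval
    obtain ⟨v0, v1, v2, v3, R, hR, l1, l2, l3, l4, hk, ⟨a0, m0, e0⟩, ⟨a1, m1, e1⟩, ⟨a2, m2, e2⟩,
      ⟨a3, m3, e3⟩⟩ := block_lin n hn z r1 r2 t h1 h2 h3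
    have := block_cf (fun a b => compare (κ a) (κ b)) R hR v0 v1 v2 v3 l1 l2 l3 n 0 _ hin hsep
      (by omega) (by omega) (by
        intro c hc
        obtain ⟨d, hd, rfl⟩ := Finset.mem_image.1 hc
        have s1 := hV.bsep d hd a0 m0 a1 m1
        have s2 := hV.bsep d hd a1 m1 a2 m2
        have s3 := hV.bsep d hd a2 m2 a3 m3
        have hne := hV.ne d hd
        unfold Sep LSep at s1 s2 s3
        rw [e0, e1] at s1
        rw [e1, e2] at s2
        rw [e2, e3] at s3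
        have b1 := Int.emod_nonneg d.1 (show (n : ℤ) ≠ 0 by omega)
        have b3 := Int.emod_nonneg d.2 (show (n : ℤ) ≠ 0 by omega)
        simp only [linC]
        generalize d.1 % (n : ℤ) = x at *
        generalize d.2 % (n : ℤ) = y at *
        omega)
    refine cfi_congr this ?_
    intro k
    rw [agree_lin n hn κ hκ C k, hk]

end Pool.Agent.Helper336.PW
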