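import Pool.Agent.Helper336.Even5

set_option autoImplicit false

namespace Pool.Agent.Helper336.PW

open Finset

theorem HasSys.mono {n : ℤ} {κ : ℤ → ℕ} {P : Finset ℕ} {N N' : ℕ} (h : HasSys n κ P N)
    (hN : N ≤ N') : HasSys n κ P N' := by
  obtain ⟨C, O, a, b, c, d⟩ := h
  exact ⟨C, O, a, b, c, d.trans hN⟩

theorem killed_congr {n M g c x i j : ℤ} (hn : n = M * g) (h : M ∣ i - j) (hk : Killed n c g x i) :
    Killed n c g x j := by
  unfold Killed at *
  obtain ⟨t, ht⟩ := h
  have : x - (c + j * g) = (x - (c + i * g)) + n * t := by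
    rw [hn]; linear_combination g * ht
  rw [this, Int.add_mul_emod_self_left]
  exact hk

theorem KB_congr {n M g c : ℤ} {X : Finset ℤ} {i j : ℤ} (hn : n = M * g) (h : M ∣ i - j)
    (hk : KB n c g X i) : KB n c g X j := by
  obtain ⟨x, hx, hk⟩ := hk
  exact ⟨x, hx, killed_congr hn h hk⟩

theorem Fw_per {n M g c : ℤ} {κ : ℤ → ℕ} (hκ : Per κ n) (hn : n = M * g) :
    Per (Fw κ c g) M := by
  intro i
  unfold Fw
  have e1 : κ (c + (i + M) * g) = κ (c + i * g) := by
    rw [← hκ (c + i * g), hn]; congr 1; ring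
  have e2 : κ (c + (i + M + 1) * g) = κ (c + (i + 1) * g) := by
    rw [← hκ (c + (i + 1) * g), hn]; congr 1; ring
  rw [e1, e2]

theorem finish_win {n g c : ℤ} {P B S : Finset ℕ} (hP : AP P) (hg : 0 < g) (hn : n = pr P * g)
    (hM : 2 ≤ pr P) {κ : ℤ → ℕ} {C : Finset (ℤ × ℤ)} {O : OB} (hV : Valid n C O)
    (hO : ocond κ O) (hC : Cert n κ B C O) (hPBS : P = B ∪ S) (E : Finset ℤ)
    (hEc : E.card ≤ 2 * S.card) (hE1 : ∀ i ∈ E, ∀ j ∈ E, i ≠ j → ¬ pr P ∣ i - j)
    (hE2 : ∀ i ∈ E, ∀ j ∈ E, ¬ pr P ∣ i - j - 1) (hE3 : ∀ i ∈ E, ¬ KB n c g (verts C O) i)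
    (hE4 : ∀ q ∈ S, ∃ i ∈ E, ∃ j ∈ E, pr (P.erase q) ∣ i - j ∧ Fw κ c g i ≠ Fw κ c g j) :
    HasSys n κ P (2 * C.card + (overts O).card + 4 * S.card) := by
  classical
  refine ⟨C ∪ E.image (win c g), O, addWin hg hM hn hV E hE1 hE2 ?_, hO,
    cert_union hP hn hC hPBS E hE4, ?_⟩
  · intro i hi x hx hk
    exact hE3 i hi ⟨x, hx, hk⟩
  · have e1 := Finset.card_union_le C (E.image (win c g))
    have e2 := Finset.card_image_le (s := E) (f := win c g)
    omega

theorem finish_ab {n g c : ℤ} {P B S : Finset ℕ} (hP : AP P) (hg : 0 < g) (hn : n = pr P * g)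
    (hM : 2 ≤ pr P) {κ : ℤ → ℕ} (hκ : Per κ n) {C : Finset (ℤ × ℤ)} {O : OB} (hV : Valid n C O)
    (hO : ocond κ O) (hC : Cert n κ B C O) (hPBS : P = B ∪ S) (a b : ℕ → ℤ)
    (hab : ∀ q ∈ S, pr (P.erase q) ∣ a q - b q ∧ Fw κ c g (a q) ≠ Fw κ c g (b q))
    (hna : ∀ x ∈ S.image a ∪ S.image b, ∀ y ∈ S.image a ∪ S.image b, ¬ pr P ∣ x - y - 1)
    (hkl : ∀ x ∈ S.image a ∪ S.image b, ¬ KB n c g (verts C O) x) :
    HasSys n κ P (2 * C.card + (overts O).card + 4 * S.card) := by
  classical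
  have hM0 : 0 < pr P := by omega
  have hmodd : ∀ x : ℤ, pr P ∣ x - x % pr P := fun x => Int.dvd_self_sub_emod
  have hmodd' : ∀ x : ℤ, pr P ∣ x % pr P - x := fun x => by
    rw [show x % pr P - x = -(x - x % pr P) by ring]
    exact (dvd_neg).2 (hmodd x)
  have hF := Fw_per (c := c) hκ hn
  set E0 := S.image a ∪ S.image b with hE0
  refine finish_win (c := c) hP hg hn hM hV hO hC hPBS (E0.image (fun x => x % pr P)) ?_ ?_ ?_ ?_ ?_
  · have e1 := Finset.card_image_le (s := E0) (f := fun x => x % pr P)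
    have e2 := Finset.card_union_le (S.image a) (S.image b)
    have e3 := Finset.card_image_le (s := S) (f := a)
    have e4 := Finset.card_image_le (s := S) (f := b)
    rw [← hE0] at e2
    omega
  · intro x hx y hy hxy hdv
    obtain ⟨x', _, rfl⟩ := Finset.mem_image.1 hx
    obtain ⟨y', _, rfl⟩ := Finset.mem_image.1 hy
    have p1 := Int.emod_nonneg x' hM0.ne'
    have p2 := Int.emod_lt_of_pos x' hM0
    have p3 := Int.emod_nonneg y' hM0.ne'
    have p4 := Int.emod_lt_of_pos y' hM0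
    apply hxy
    have := Int.eq_zero_of_abs_lt_dvd hdv (by rw [abs_lt]; constructor <;> linarith)
    linarith
  · intro x hx y hy hdv
    obtain ⟨x', hx', rfl⟩ := Finset.mem_image.1 hx
    obtain ⟨y', hy', rfl⟩ := Finset.mem_image.1 hy
    apply hna x' hx' y' hy'
    have := dvd_add hdv (dvd_sub (hmodd x') (hmodd y'))
    rwa [show x' % pr P - y' % pr P - 1 + (x' - x' % pr P - (y' - y' % pr P)) = x' - y' - 1 by ring]
      at this
  · intro x hx hk
    obtain ⟨x', hx', rfl⟩ := Finset.mem_image.1 hx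
    exact hkl x' hx' (KB_congr hn (hmodd' x') hk)
  · intro q hq
    refine ⟨a q % pr P, ?_, b q % pr P, ?_, ?_, ?_⟩
    · exact Finset.mem_image_of_mem (fun x => x % pr P)
        (Finset.mem_union_left _ (Finset.mem_image_of_mem _ hq))
    · exact Finset.mem_image_of_mem (fun x => x % pr P)
        (Finset.mem_union_right _ (Finset.mem_image_of_mem _ hq))
    · have hd : pr (P.erase q) ∣ pr P := pr_dvd (Finset.erase_subset _ _)
      have := dvd_add (hab q hq).1 (dvd_trans hd (dvd_sub (hmodd' (a q)) (hmodd' (b q))))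
      rwa [show a q - b q + (a q % pr P - a q - (b q % pr P - b q)) = a q % pr P - b q % pr P by ring]
        at this
    · rw [hF.dvd (hmodd' (a q)), hF.dvd (hmodd' (b q))]
      exact (hab q hq).2

theorem evenCase {P : Finset ℕ} (hP : AP P) (h2 : 2 ∈ P) (hcard : 3 ≤ P.card) {n g c : ℤ}
    (hg : 0 < g) (hn : n = pr P * g) {κ : ℤ → ℕ} (hκ : Per κ n)
    (hnc : ∀ q ∈ P.erase 2, ∃ i j, pr (P.erase q) ∣ i - j ∧ Fw κ c g i ≠ Fw κ c g j)
    (hT : ¬ Per κ (pr (P.erase 2) * g)) : HasSys n κ P (4 * P.card) := by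
  classical
  set Q := P.erase 2 with hQdef
  have hQ : AP Q := hP.erase 2
  have hQ2 : 2 ∉ Q := by simp [hQdef]
  have hQc : Q.card = P.card - 1 := Finset.card_erase_of_mem h2
  have hprP : pr P = 2 * pr Q := by rw [pr_erase h2]; norm_num [hQdef]
  have hins : P = insert 2 Q := (Finset.insert_erase h2).symm
  have hprE : ∀ q ∈ Q, pr (P.erase q) = 2 * pr (Q.erase q) := by
    intro q hq
    have hq2 : q ≠ 2 := fun e => hQ2 (e ▸ hq)
    rw [pr_erase (Finset.mem_erase.2 ⟨fun e => hq2 e.symm, h2⟩), Finset.erase_right_comm]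
    norm_num [hQdef]
  have hh0 : 0 < pr Q := pr_pos hQ
  have hn2 : n = 2 * pr Q * g := by rw [hn, hprP]
  have hm0 : 0 < pr Q * g := mul_pos hh0 hg
  have hF : Per (Fw κ c g) (2 * pr Q) := by rw [← hprP]; exact Fw_per hκ hn
  have hnc' : ∀ q ∈ Q, ∃ i j, 2 * pr (Q.erase q) ∣ i - j ∧ Fw κ c g i ≠ Fw κ c g j := by
    intro q hq
    rw [← hprE q hq]
    exact hnc q hq
  set K : ℤ → ℤ → Prop := fun y => KB n c g {y, y + pr Q * g} with hKdef
  have hK : ∀ y, HK (K y) (pr Q) ((y - c) / g) := fun y => hk_of_killed hg hh0 hn2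
  have hKM : ∀ y i j, 2 * pr Q ∣ i - j → K y i → K y j :=
    fun y i j h hk => KB_congr hn2 h hk
  set T : Set ℤ := {y | κ (y + pr Q * g) ≠ κ y} with hTdef
  have hTne : ∃ y, y ∈ T := by
    unfold Per at hT
    push Not at hT
    exact hT
  by_cases hgood : ∃ y ∈ T, ∀ q ∈ Q, ∃ i j, 2 * pr (Q.erase q) ∣ i - j ∧
      Fw κ c g i ≠ Fw κ c g j ∧ ¬ K y i ∧ ¬ K y j
  · obtain ⟨y, hy, hgq⟩ := hgood
    obtain ⟨a, b, hab, hna, hkl⟩ := claim1 hQ hQ2 hF (hK y) (hKM y) hgq
    have hn3 : n = ((2 : ℕ) : ℤ) * (pr Q * g) := by rw [hn2]; push_cast; ring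
    obtain ⟨hV, hO, hC⟩ := base1 (κ := κ) (x := y) Nat.prime_two hm0 hn3 hy
    have hfin := finish_ab (c := c) (S := Q) hP hg hn (by rw [hprP]; omega) hκ hV hO hC
      (by rw [hins]; rfl) a b (by
        intro q hq
        rw [hprE q hq]
        exact hab q hq) (by rw [hprP]; exact hna) (by
        intro x hx hk
        apply hkl x hx
        obtain ⟨z, hz, hk⟩ := hk
        refine ⟨z, ?_, hk⟩
        simpa [verts, overts] using hz)
    refine hfin.mono ?_
    simp only [Finset.card_singleton, overts, Finset.card_empty]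
    omega
  · push Not at hgood
    obtain ⟨y0, hy0⟩ := hTne
    have hbad : ∀ y ∈ T, ∃ q ∈ Q, ∀ i j, 2 * pr (Q.erase q) ∣ i - j → ¬ K y i → ¬ K y j →
        Fw κ c g i = Fw κ c g j := by
      intro y hy
      obtain ⟨q, hq, h⟩ := hgood y hy
      refine ⟨q, hq, ?_⟩
      intro i j hd hi hj
      by_contra hne
      exact hj (h i j hd hne hi)
    obtain ⟨ζ, hζ⟩ := claim2 hQ hQ2 (by omega) hF hnc' K (fun y => (y - c) / g) hK T hbad y0 hy0
    have hge3 : ∀ q ∈ Q, 3 ≤ q := by
      intro q hq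
      have h1 := (hQ q hq).two_le
      have h2 : q ≠ 2 := fun e => hQ2 (e ▸ hq)
      omega
    have he3 : ∀ q ∈ Q, 3 ≤ pr (Q.erase q) := by
      intro q hq
      have : 0 < (Q.erase q).card := by rw [Finset.card_erase_of_mem hq]; omega
      obtain ⟨r, hr⟩ := Finset.card_pos.1 this
      have h1 := hge3 r (Finset.mem_erase.1 hr).2
      have h2 := Int.le_of_dvd (pr_pos (hQ.erase q)) (dvd_pr hr)
      omega
    have hper2 : ∀ x, κ (x + pr Q * g + pr Q * g) = κ x := by
      intro x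
      rw [← hκ x, hn2]; congr 1; ring
    have hTinv : ∀ y, y ∈ T → y + pr Q * g ∈ T := by
      intro y hy
      show κ (y + pr Q * g + pr Q * g) ≠ κ (y + pr Q * g)
      rw [hper2]
      exact fun e => hy e.symm
    have hnotT : ∀ y ∈ T, ∀ q ∈ Q, ∀ j : ℤ, 1 ≤ j → j ≤ q - 1 →
        κ (y + j * pr (Q.erase q) * g + pr Q * g) = κ (y + j * pr (Q.erase q) * g) := by
      intro y hy q hq j hj1 hj2
      by_contra hne
      have hmem : y + j * pr (Q.erase q) * g ∈ T := hne
      have hq3 : (3 : ℤ) ≤ q := by have := hge3 q hq; omega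
      exact geo (c := c) (ζ := ζ) hg (he3 q hq) hq3 (pr_erase hq) hn2 hj1 hj2 (hζ y hy) (hζ _ hmem)
    have hres : HasSys n κ P (2 + 2 * Q.card) := by
      rcases Nat.lt_or_gt_of_ne hy0 with h | h
      · rw [hins]
        exact lemmaZ hQ hQ2 hg hn2 h (hnotT y0 hy0)
      · rw [hins]
        refine lemmaZ hQ hQ2 hg hn2 (y := y0 + pr Q * g) ?_ (hnotT _ (hTinv y0 hy0))
        rw [hper2]
        exact h
    exact hres.mono (by omega)

theorem oddCase {P : Finset ℕ} (hP : AP P) (h2 : 2 ∉ P) (hcard : 3 ≤ P.card) {n g c : ℤ}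
    (hg : 0 < g) (hn : n = pr P * g) {κ : ℤ → ℕ} (hκ : Per κ n)
    (hnc : ∀ q ∈ P, ∃ i j, pr (P.erase q) ∣ i - j ∧ Fw κ c g i ≠ Fw κ c g j) :
    HasSys n κ P (4 * P.card) := by
  classical
  obtain ⟨a, b, hab, hna⟩ := placeOdd hP h2 (by omega) hnc P (Finset.Subset.refl P)
  have hV : Valid n ∅ none := ⟨by simp, by simp, by simp, trivial⟩
  have hC : Cert n κ ∅ ∅ none := by
    intro κ' _ _ _ p hp
    simp at hp
  have hM : 2 ≤ pr P := pr_ge_two hP (Finset.card_pos.1 (by omega))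
  have := finish_ab (c := c) (S := P) (B := ∅) hP hg hn hM hκ hV trivial hC (by simp) a b hab hna (by
    rintro x _ ⟨z, hz, _⟩
    simp [verts, overts] at hz)
  refine this.mono ?_
  simp [overts]

/-- Lower bounds for products of distinct primes. -/
theorem pr_ge {B : Finset ℕ} : AP B → (B.card = 0 → 1 ≤ pr B) ∧ (B.card = 1 → 2 ≤ pr B) ∧
    (B.card = 2 → 6 ≤ pr B) ∧ (3 ≤ B.card → 10 * (B.card : ℤ) ≤ pr B) := by
  classical
  induction B using Finset.induction_on_max with
  | empty => intro _; simp [pr]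
  | insert q T hlt ih =>
    intro hAP
    have hqT : q ∉ T := fun h => lt_irrefl _ (hlt q h)
    have hT : AP T := fun x hx => hAP x (Finset.mem_insert_of_mem hx)
    have hq := hAP q (Finset.mem_insert_self _ _)
    obtain ⟨i0, i1, i2, i3⟩ := ih hT
    have hqc : T.card + 2 ≤ q := by
      have hsub : T ⊆ Finset.Ico 2 q := by
        intro x hx
        rw [Finset.mem_Ico]
        exact ⟨(hT x hx).two_le, hlt x hx⟩
      have := Finset.card_le_card hsub
      rw [Nat.card_Ico] at this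
      have := hq.two_le
      omega
    have hpos := pr_pos hT
    rw [pr_insert hqT, Finset.card_insert_of_notMem hqT]
    refine ⟨fun h => by omega, fun h => ?_, fun h => ?_, fun h => ?_⟩
    · have h0 := i0 (by omega)
      have h1 : (2 : ℤ) ≤ q := by exact_mod_cast hq.two_le
      nlinarith
    · have h0 := i1 (by omega)
      have h1 : (3 : ℤ) ≤ q := by exact_mod_cast (by omega : 3 ≤ q)
      nlinarith
    · have h5 : 5 ≤ q := by
        have h4 : 4 ≤ q := by omega
        have : q ≠ 4 := by rintro rfl; exact absurd hq (by norm_num)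
        omega
      have h5' : (5 : ℤ) ≤ q := by exact_mod_cast h5
      by_cases hc : T.card = 2
      · have h0 := i2 hc
        rw [hc]
        push_cast
        nlinarith
      · have h0 := i3 (by omega)
        push_cast
        have h3 : (3 : ℤ) ≤ T.card := by exact_mod_cast (by omega : 3 ≤ T.card)
        nlinarith

/-- Bound on the number of vertices. -/
def bd (m : ℕ) : ℕ := if m = 1 then 2 else if m = 2 then 4 else 4 * m

theorem bd_le (m : ℕ) : bd m ≤ 4 * m := by
  unfold bd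
  split_ifs <;> omega

theorem bd_lt {B : Finset ℕ} (hB : AP B) (hne : B.Nonempty) (h2 : B ≠ {2}) (h3 : B ≠ {3})
    (h23 : B ≠ {2, 3}) : 2 * (bd B.card : ℤ) < pr B := by
  classical
  have hc := Finset.card_pos.2 hne
  by_cases c1 : B.card = 1
  · obtain ⟨p, rfl⟩ := Finset.card_eq_one.1 c1
    rw [pr_singleton, c1]
    have hp := hB p (by simp)
    have e2 : p ≠ 2 := by rintro rfl; exact h2 rfl
    have e3 : p ≠ 3 := by rintro rfl; exact h3 rfl
    have e4 : p ≠ 4 := by rintro rfl; exact absurd hp (by norm_num)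
    have := hp.two_le
    simp only [bd, if_true]
    omega
  · by_cases c2 : B.card = 2
    · obtain ⟨p, q, hpq, rfl⟩ := Finset.card_eq_two.1 c2
      rw [pr_pair hpq, c2]
      have hp := hB p (by simp)
      have hq := hB q (by simp)
      have e4 : p ≠ 4 := by rintro rfl; exact absurd hp (by norm_num)
      have e4' : q ≠ 4 := by rintro rfl; exact absurd hq (by norm_num)
      have hp2 := hp.two_le
      have hq2 := hq.two_le
      have hor : 5 ≤ p ∨ 5 ≤ q := by
        by_contra hcon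
        push Not at hcon
        have : (p = 2 ∧ q = 3) ∨ (p = 3 ∧ q = 2) := by omega
        rcases this with ⟨rfl, rfl⟩ | ⟨rfl, rfl⟩
        · exact h23 rfl
        · exact h23 (Finset.pair_comm _ _)
      have : 10 ≤ p * q := by
        rcases hor with h | h
        · calc 10 = 5 * 2 := by norm_num
            _ ≤ p * q := Nat.mul_le_mul h hq2
        · calc 10 = 2 * 5 := by norm_num
            _ ≤ p * q := Nat.mul_le_mul hp2 h
      have h' : (10 : ℤ) ≤ p * q := by exact_mod_cast this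
      simp only [bd]
      norm_num
      linarith
    · have h := (pr_ge hB).2.2.2 (by omega)
      have : bd B.card = 4 * B.card := by unfold bd; rw [if_neg c1, if_neg c2]
      rw [this]
      push_cast
      omega

end Pool.Agent.Helper336.PW
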