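import Pool.Agent.Helper336.Main
import Pool.Agent.Helper336.Assemble

set_option autoImplicit false

namespace Pool.Agent.Helper336.PW

open Finset

/-- If the comparison signs with step `g` are constant along all classes, then `κ` is
`g`-periodic. -/
theorem step_const {n M g : ℤ} {κ : ℤ → ℕ} (hM : 0 < M) (hn : n = M * g) (hκ : Per κ n)
    (h : ∀ c, Per (Fw κ c g) 1) : Per κ g := by
  intro x
  have hF : ∀ i : ℤ, compare (κ (x + i * g)) (κ (x + (i + 1) * g)) = compare (κ x) (κ (x + g)) := by
    intro i
    have h1 : Fw κ x g i = Fw κ x g 0 := (h x).dvd (by simp)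
    unfold Fw at h1
    simpa using h1
  have hend : κ (x + M * g) = κ x := by rw [← hn]; exact hκ x
  obtain ⟨m, rfl⟩ : ∃ m : ℕ, M = m := ⟨M.toNat, by omega⟩
  have hm : 0 < m := by omega
  rcases lt_trichotomy (κ x) (κ (x + g)) with hlt | heq | hgt
  · exfalso
    have key : ∀ i : ℕ, 0 < i → κ x < κ (x + i * g) := by
      intro i
      induction i with
      | zero => intro h; omega
      | succ i ih =>
        intro _
        have h1 := hF i
        rw [compare_lt_iff_lt.2 hlt, compare_lt_iff_lt] at h1
        rcases Nat.eq_zero_or_pos i with rfl | hi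
        · simpa using h1
        · push_cast
          exact lt_trans (ih hi) h1
    have := key m hm
    rw [hend] at this
    exact lt_irrefl _ this
  · exact heq.symm
  · exfalso
    have key : ∀ i : ℕ, 0 < i → κ (x + i * g) < κ x := by
      intro i
      induction i with
      | zero => intro h; omega
      | succ i ih =>
        intro _
        have h1 := hF i
        rw [compare_gt_iff_gt.2 hgt, compare_gt_iff_gt] at h1
        rcases Nat.eq_zero_or_pos i with rfl | hi
        · simpa using h1
        · push_cast
          exact lt_trans h1 (ih hi)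
    have := key m hm
    rw [hend] at this
    exact lt_irrefl _ this

theorem main_ind {n : ℤ} {κ : ℤ → ℕ} (hκ : Per κ n) : ∀ (m : ℕ) (P : Finset ℕ), P.card = m →
    AP P → P.Nonempty → ∀ g, 0 < g → n = pr P * g → (∀ p ∈ P, ¬ Per κ (pr (P.erase p) * g)) →
    HasSys n κ P (bd m) := by
  classical
  intro m
  induction m using Nat.strong_induction_on with
  | _ m ih =>
    intro P hPm hP hPne g hg hn hnp
    have hc := Finset.card_pos.2 hPne
    by_cases c1 : m = 1
    · subst c1
      obtain ⟨p, rfl⟩ := Finset.card_eq_one.1 hPm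
      have h1 := hnp p (by simp)
      have h2 : pr (({p} : Finset ℕ).erase p) = 1 := by simp [pr]
      rw [h2, one_mul] at h1
      unfold Per at h1
      push Not at h1
      obtain ⟨x, hx⟩ := h1
      rw [pr_singleton] at hn
      obtain ⟨hV, hO, hC⟩ := base1 (κ := κ) (x := x) (hP p (by simp)) hg hn hx
      exact ⟨_, _, hV, hO, hC, by simp [bd, overts]⟩
    by_cases c2 : m = 2
    · subst c2
      obtain ⟨p, q, hpq, rfl⟩ := Finset.card_eq_two.1 hPm
      -- order them
      have main : ∀ p q : ℕ, p.Prime → q.Prime → p < q → n = pr {p, q} * g →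
          ¬ Per κ (q * g) → ¬ Per κ (p * g) → HasSys n κ {p, q} (bd 2) := by
        intro p q hp hq hlt hn' h1 h2
        rw [pr_pair (Nat.ne_of_lt hlt)] at hn'
        obtain ⟨C, O, hV, hO, hC, hsh⟩ := base2 hp hq hlt hg hn' h1 h2
        refine ⟨C, O, hV, hO, hC, ?_⟩
        rcases hsh with ⟨z, t, rfl, rfl⟩ | ⟨z, w, rfl, rfl⟩
        · simp only [Finset.card_empty, overts, bd]
          have := Finset.card_le_four (a := z) (b := z + (p : ℤ) * g) (c := z + (q : ℤ) * g)
            (d := z + ((p : ℤ) * g + (q : ℤ) * g))
          simpa using this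
        · simp only [overts, Finset.card_empty, bd]
          have := Finset.card_le_two (a := (z, z + (q : ℤ) * g)) (b := (w, w + (p : ℤ) * g))
          simp
          omega
      have hp := hP p (by simp)
      have hq := hP q (by simp)
      have e1 : pr (({p, q} : Finset ℕ).erase p) = q := by
        rw [Finset.erase_insert (by simpa using hpq), pr_singleton]
      have e2 : pr (({p, q} : Finset ℕ).erase q) = p := by
        rw [Finset.pair_comm, Finset.erase_insert (by simpa using hpq.symm), pr_singleton]
      have h1 := hnp p (by simp)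
      have h2 := hnp q (by simp)
      rw [e1] at h1
      rw [e2] at h2
      rcases Nat.lt_or_gt_of_ne hpq with hlt | hlt
      · exact main p q hp hq hlt hn h1 h2
      · rw [Finset.pair_comm]
        rw [Finset.pair_comm] at hn
        exact main q p hq hp hlt hn h2 h1
    have c3 : 3 ≤ m := by omega
    have hbd : bd m = 4 * m := by unfold bd; rw [if_neg c1, if_neg c2]
    rw [hbd]
    have hPc : 3 ≤ P.card := by omega
    have hM0 := pr_pos hP
    -- choice of the base point
    obtain ⟨c, p0, hp0, hp0F⟩ : ∃ c, ∃ p ∈ P, ¬ Per (Fw κ c g) (pr (P.erase p)) := by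
      by_contra hcon
      push Not at hcon
      have h1 : ∀ c, Per (Fw κ c g) 1 := by
        intro c
        have := per_sdiff hP (Fw_per (c := c) hκ hn) P (Finset.Subset.refl P) (hcon c)
        rw [Finset.sdiff_self] at this
        simpa [pr] using this
      have h2 := step_const hM0 hn hκ h1
      obtain ⟨p, hp⟩ := hPne
      exact hnp p hp (h2.of_dvd (dvd_mul_left _ _))
    set F := Fw κ c g with hFdef
    have hF : Per F (pr P) := Fw_per hκ hn
    let S := P.filter (fun p => ¬ Per F (pr (P.erase p)))
    let B := P.filter (fun p => Per F (pr (P.erase p)))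
    have hSP : S ⊆ P := Finset.filter_subset _ _
    have hBP : B ⊆ P := Finset.filter_subset _ _
    have hBS : B ∪ S = P := Finset.filter_union_filter_not_eq _ _
    have hdis : Disjoint B S := Finset.disjoint_filter_filter_not _ _ _
    have hcardBS : B.card + S.card = P.card := by
      rw [← Finset.card_union_of_disjoint hdis, hBS]
    have hSc : 0 < S.card := Finset.card_pos.2 ⟨p0, Finset.mem_filter.2 ⟨hp0, hp0F⟩⟩
    have hAS := hP.mono hSP
    have hAB := hP.mono hBP
    have hsd : P \ B = S := by
      rw [← hBS]
      exact Finset.union_sdiff_cancel_left hdis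
    have hFS : Per F (pr S) := by
      have := per_sdiff hP hF B hBP (fun p hp => (Finset.mem_filter.1 hp).2)
      rwa [hsd] at this
    have hncP : ∀ q ∈ S, ∃ i j, pr (P.erase q) ∣ i - j ∧ F i ≠ F j := by
      intro q hq
      have h1 := (Finset.mem_filter.1 hq).2
      unfold Per at h1
      push Not at h1
      obtain ⟨x, hx⟩ := h1
      exact ⟨x + pr (P.erase q), x, by simp, hx⟩
    have hncS : ∀ q ∈ S, ∃ i j, pr (S.erase q) ∣ i - j ∧ F i ≠ F j := by
      intro q hq
      obtain ⟨i, j, h1, h2⟩ := hncP q hq
      exact ⟨i, j, dvd_trans (pr_dvd (Finset.erase_subset_erase q hSP)) h1, h2⟩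
    have hprBS : pr P = pr B * pr S := by rw [← hBS, pr_union hdis]
    by_cases hB0 : B = ∅
    · have hSPeq : S = P := by rw [← hBS, hB0, Finset.empty_union]
      by_cases h2P : 2 ∈ P
      · have := evenCase (c := c) hP h2P hPc hg hn hκ (fun q hq => by
          have hqP := (Finset.mem_erase.1 hq).2
          exact hncP q (hSPeq.symm ▸ hqP)) (hnp 2 h2P)
        rw [hPm] at this
        exact this
      · have := oddCase (c := c) hP h2P hPc hg hn hκ (fun q hq => hncP q (hSPeq.symm ▸ hq))
        rw [hPm] at this
        exact this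
    by_cases hB2 : B = {2}
    · have h2P : 2 ∈ P := hBP (by rw [hB2]; simp)
      have := evenCase (c := c) hP h2P hPc hg hn hκ (fun q hq => by
        obtain ⟨hq2, hqP⟩ := Finset.mem_erase.1 hq
        have hqB : q ∉ B := by rw [hB2]; simpa using hq2
        exact hncP q (by
          rw [← hsd]
          exact Finset.mem_sdiff.2 ⟨hqP, hqB⟩)) (hnp 2 h2P)
      rw [hPm] at this
      exact this
    have hBne : B.Nonempty := Finset.nonempty_iff_ne_empty.2 hB0
    -- the slices
    have hnBS : n = pr (B ∪ S) * g := by rw [hBS]; exact hn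
    have hM2 : 2 ≤ pr P := pr_ge_two hP hPne
    have finish : ∀ (C : Finset (ℤ × ℤ)) (O : OB), Valid n C O → ocond κ O → Cert n κ B C O →
        2 * C.card + (overts O).card ≤ 4 * B.card → SliceOK B S (KB n c g (verts C O)) →
        HasSys n κ P (4 * m) := by
      intro C O hV hO hC hcd hsl
      obtain ⟨E, hE0, hE1, hE2, hE3, hE4⟩ := slice_place hAB hAS hdis hBne hFS _ hncS hsl
      rw [hBS] at hE1 hE2 hE4
      have := finish_win (c := c) (S := S) hP hg hn hM2 hV hO hC hBS.symm E hE0 hE1 hE2 hE3 hE4
      exact this.mono (by omega)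
    have h23S : ∀ p, p ∈ B → p ∉ S := fun p h h' => Finset.disjoint_left.1 hdis h h'
    by_cases hB3 : B = {3}
    · have hB1 : B.card = 1 := by rw [hB3]; rfl
      have hnpB := hnp 3 (hBP (by rw [hB3]; simp))
      have hpe : pr (P.erase 3) = pr S := by
        have h3P : 3 ∈ P := hBP (by rw [hB3]; simp)
        have e1 := pr_erase h3P
        rw [hprBS, hB3, pr_singleton] at e1
        have : (((3 : ℕ) : ℤ)) ≠ 0 := by norm_num
        exact (mul_left_cancel₀ this e1).symm
      rw [hpe] at hnpB
      unfold Per at hnpB
      push Not at hnpB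
      obtain ⟨x, hx⟩ := hnpB
      have hn3 : n = ((3 : ℕ) : ℤ) * (pr S * g) := by
        rw [hn, hprBS, hB3, pr_singleton]; ring
      have hSg : 0 < pr S * g := mul_pos (pr_pos hAS) hg
      obtain ⟨hV, hO, hC⟩ := base1 (κ := κ) (x := x) Nat.prime_three hSg hn3 hx
      refine finish {(x, x + pr S * g)} none hV hO (by rw [hB3]; exact hC) (by
        rw [hB1]; simp [overts]) ?_
      have hv : verts {(x, x + pr S * g)} none = {x, x + pr S * g} := by
        ext y
        simp only [verts, overts, Finset.image_singleton, Finset.union_empty,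
          Finset.mem_union, Finset.mem_insert, Finset.mem_singleton]
      rw [hv, hB3]
      exact sliceOK_three hAS (h23S 3 (by rw [hB3]; simp)) (by omega) hg (by
        rw [hn3]; push_cast; ring) x
    by_cases hB23 : B = {2, 3}
    · have hBc : B.card = 2 := by rw [hB23]; rfl
      have h2B : 2 ∈ B := by rw [hB23]; simp
      have h3B : 3 ∈ B := by rw [hB23]; simp
      have hprB : pr B = 6 := by rw [hB23, pr_pair (by norm_num)]; norm_num
      have hpe2 : pr (P.erase 2) = 3 * pr S := by
        have e1 := pr_erase (hBP h2B)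
        rw [hprBS, hprB] at e1
        push_cast at e1
        linarith
      have hpe3 : pr (P.erase 3) = 2 * pr S := by
        have e1 := pr_erase (hBP h3B)
        rw [hprBS, hprB] at e1
        push_cast at e1
        linarith
      have h1 := hnp 2 (hBP h2B)
      have h2 := hnp 3 (hBP h3B)
      rw [hpe2] at h1
      rw [hpe3] at h2
      have hSg : 0 < pr S * g := mul_pos (pr_pos hAS) hg
      have hn6 : n = ((2 : ℕ) : ℤ) * ((3 : ℕ) : ℤ) * (pr S * g) := by
        rw [hn, hprBS, hprB]; push_cast; ring
      obtain ⟨C, O, hV, hO, hC, hsh⟩ := base2 (κ := κ) Nat.prime_two Nat.prime_three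
        (by norm_num) hSg hn6 (by
          rw [show (((3 : ℕ) : ℤ)) * (pr S * g) = 3 * pr S * g by push_cast; ring]; exact h1) (by
          rw [show (((2 : ℕ) : ℤ)) * (pr S * g) = 2 * pr S * g by push_cast; ring]; exact h2)
      have hn6' : n = 6 * pr S * g := by rw [hn6]; push_cast; ring
      rcases hsh with ⟨z, t, rfl, rfl⟩ | ⟨z, w, rfl, rfl⟩
      · refine finish _ _ hV hO (by rw [hB23]; exact hC) ?_ ?_
        · rw [hBc]
          have := Finset.card_le_four (a := z) (b := z + ((2 : ℕ) : ℤ) * (pr S * g))
            (c := z + ((3 : ℕ) : ℤ) * (pr S * g))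
            (d := z + (((2 : ℕ) : ℤ) * (pr S * g) + ((3 : ℕ) : ℤ) * (pr S * g)))
          simp only [Finset.card_empty, overts]
          omega
        · have hv : verts ∅ (some (z, ((2 : ℕ) : ℤ) * (pr S * g), ((3 : ℕ) : ℤ) * (pr S * g), t)) =
              {z, z + 2 * pr S * g, z + 3 * pr S * g, z + 5 * pr S * g} := by
            simp only [verts, overts, Finset.image_empty, Finset.empty_union]
            rw [show z + ((2 : ℕ) : ℤ) * (pr S * g) = z + 2 * pr S * g by push_cast; ring,
              show z + ((3 : ℕ) : ℤ) * (pr S * g) = z + 3 * pr S * g by push_cast; ring,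
              show z + (((2 : ℕ) : ℤ) * (pr S * g) + ((3 : ℕ) : ℤ) * (pr S * g)) =
                z + 5 * pr S * g by push_cast; ring]
          rw [hv, hB23]
          exact sliceOK_six_block hAS (h23S 2 h2B) (h23S 3 h3B) hg hn6' z
      · refine finish _ _ hV hO (by rw [hB23]; exact hC) ?_ ?_
        · rw [hBc]
          have := Finset.card_le_two (a := (z, z + ((3 : ℕ) : ℤ) * (pr S * g)))
            (b := (w, w + ((2 : ℕ) : ℤ) * (pr S * g)))
          simp only [Finset.card_empty, overts]
          omega
        · have hv : verts {(z, z + ((3 : ℕ) : ℤ) * (pr S * g)), (w, w + ((2 : ℕ) : ℤ) * (pr S * g))}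
              none = {z, z + 3 * pr S * g, w, w + 2 * pr S * g} := by
            rw [show z + ((3 : ℕ) : ℤ) * (pr S * g) = z + 3 * pr S * g by push_cast; ring,
              show w + ((2 : ℕ) : ℤ) * (pr S * g) = w + 2 * pr S * g by push_cast; ring]
            ext x
            simp only [verts, overts, Finset.image_insert, Finset.image_singleton,
              Finset.union_empty, Finset.mem_union, Finset.mem_insert, Finset.mem_singleton]
            tauto
          rw [hv, hB23]
          exact sliceOK_six_nested hAS (h23S 2 h2B) (h23S 3 h3B) hg hn6' z w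
    -- generic case
    have hnB : n = pr B * (pr S * g) := by rw [hn, hprBS]; ring
    have hnpB : ∀ p ∈ B, ¬ Per κ (pr (B.erase p) * (pr S * g)) := by
      intro p hp
      have e : pr (B.erase p) * (pr S * g) = pr (P.erase p) * g := by
        have e1 := pr_erase (hBP hp)
        have e2 := pr_erase hp
        rw [hprBS, e2] at e1
        have hp0 : (p : ℤ) ≠ 0 := by exact_mod_cast (hAB p hp).ne_zero
        have e3 : pr (B.erase p) * pr S = pr (P.erase p) := by
          apply mul_left_cancel₀ hp0
          rw [← e1]; ring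
        rw [← e3]; ring
      rw [e]
      exact hnp p (hBP hp)
    obtain ⟨C, O, hV, hO, hC, hcd⟩ := ih B.card (by omega) B rfl hAB hBne (pr S * g)
      (mul_pos (pr_pos hAS) hg) hnB hnpB
    refine finish C O hV hO hC (hcd.trans (bd_le _)) ?_
    apply sliceOK_free hAB hAS hdis hg hnBS
    have h1 := verts_card C O
    have h2 := bd_lt hAB hBne hB2 hB3 hB23
    have h3 : ((verts C O).card : ℤ) ≤ bd B.card := by exact_mod_cast h1.trans hcd
    linarith

theorem mainComb : MainComb := by
  intro n hn2 κ hκ hp
  have hAP : AP n.primeFactors := fun p hp => Nat.prime_of_mem_primeFactors hp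
  have hne : n.primeFactors.Nonempty := by
    rw [Nat.nonempty_primeFactors]; omega
  have hdv : (∏ p ∈ n.primeFactors, p) ∣ n := Nat.prod_primeFactors_dvd n
  obtain ⟨g, hg⟩ := hdv
  have hcast : pr n.primeFactors = ((∏ p ∈ n.primeFactors, p : ℕ) : ℤ) := by
    unfold pr; push_cast; rfl
  have hng : (n : ℤ) = pr n.primeFactors * g := by
    rw [hcast]; exact_mod_cast hg
  have hg0 : (0 : ℤ) < g := by
    rcases Nat.eq_zero_or_pos g with rfl | h
    · simp at hg; omega
    · exact_mod_cast h
  obtain ⟨C, O, a, b, c, -⟩ := main_ind (n := n) (κ := κ) hκ _ n.primeFactors rfl hAP hne g hg0 hng (by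
    intro p hpP hper
    have h1 := hp p (Nat.prime_of_mem_primeFactors hpP) (Nat.dvd_of_mem_primeFactors hpP)
    apply h1
    rw [div_eq hAP hng hpP]
    exact hper)
  exact ⟨C, O, a, b, c⟩

end Pool.Agent.Helper336.PW
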