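import Pool.Agent.Helper336.Base

set_option autoImplicit false

namespace Pool.Agent.Helper336.PW

open Finset

theorem avoid {N : ℤ} (hN : 0 < N) (A : Finset ℤ) (h : (A.card : ℤ) < N) :
    ∃ r, ∀ a ∈ A, ¬ N ∣ r - a := by
  classical
  have hA : (A.image (fun x => x % N)).card ≤ A.card := Finset.card_image_le
  have hlt : (A.image (fun x => x % N)).card < (Finset.Ico (0 : ℤ) N).card := by
    rw [Int.card_Ico]
    omega
  obtain ⟨r, hr, hrA⟩ := Finset.exists_mem_notMem_of_card_lt_card hlt
  rw [Finset.mem_Ico] at hr
  refine ⟨r, ?_⟩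
  intro x hx hdv
  apply hrA
  rw [Finset.mem_image]
  refine ⟨x, hx, ?_⟩
  have h2 : x ≡ r [ZMOD N] := Int.modEq_iff_dvd.2 hdv
  have h3 : x % N = r % N := h2
  rw [h3, Int.emod_eq_of_lt hr.1 hr.2]

theorem odd_primes_card {T : Finset ℕ} (hT : AP T) (h2 : 2 ∉ T) {q : ℕ} (hq : q.Prime) (hq2 : q ≠ 2)
    (hlt : ∀ r ∈ T, r < q) : 2 * T.card + 3 ≤ q := by
  have hodd : ∀ r : ℕ, r.Prime → r ≠ 2 → r % 2 = 1 := by
    intro r hr hr2
    exact (hr.eq_two_or_odd).resolve_left hr2
  have hT' : ∀ r ∈ T, r % 2 = 1 ∧ 3 ≤ r := by
    intro r hr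
    have h1 := hodd r (hT r hr) (fun e => h2 (e ▸ hr))
    have h3 := (hT r hr).two_le
    omega
  have hqo := hodd q hq hq2
  have hq3 := hq.two_le
  have : T.card ≤ (Finset.range ((q - 3) / 2)).card := by
    apply Finset.card_le_card_of_injOn (fun r => (r - 3) / 2)
    · intro r hr
      have h1 := hT' r hr
      have h2 := hlt r hr
      simp only [Finset.coe_range, Set.mem_Iio]
      omega
    · intro r hr s hs hrs
      have h1 := hT' r hr
      have h2 := hT' s hs
      simp only at hrs
      omega
  rw [Finset.card_range] at this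
  omega

/-- Placement of windows when no vertex is present and all primes are odd. -/
theorem placeOdd {S : Finset ℕ} (hS : AP S) (h2 : 2 ∉ S) (hcard : 2 ≤ S.card) {α : Type}
    {F : ℤ → α} (hnc : ∀ q ∈ S, ∃ i j, pr (S.erase q) ∣ i - j ∧ F i ≠ F j) :
    ∀ T : Finset ℕ, T ⊆ S → ∃ a b : ℕ → ℤ,
      (∀ q ∈ T, pr (S.erase q) ∣ a q - b q ∧ F (a q) ≠ F (b q)) ∧
      (∀ x ∈ T.image a ∪ T.image b, ∀ y ∈ T.image a ∪ T.image b, ¬ pr S ∣ x - y - 1) := by
  classical
  intro T
  induction T using Finset.induction_on_max with
  | empty => intro _; exact ⟨fun _ => 0, fun _ => 0, by simp, by simp⟩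
  | insert q T hlt ih =>
    intro hTS
    have hqS : q ∈ S := hTS (Finset.mem_insert_self _ _)
    have hTS' : T ⊆ S := fun x hx => hTS (Finset.mem_insert_of_mem hx)
    have hqT : q ∉ T := fun h => lt_irrefl _ (hlt q h)
    obtain ⟨a, b, hab, hna⟩ := ih hTS'
    have hqp := hS q hqS
    have hbound := odd_primes_card (hS.mono hTS') (fun h => h2 (hTS' h)) hqp
      (fun e => h2 (e ▸ hqS)) hlt
    set M := pr S with hM
    set D := pr (S.erase q) with hD
    have hMD : M = q * D := pr_erase hqS
    have hDM : D ∣ M := ⟨q, by rw [hMD]; ring⟩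
    have hqM : (q : ℤ) ∣ M := dvd_pr hqS
    have hq0 : (0 : ℤ) < q := by exact_mod_cast hqp.pos
    have hD0 : 0 < D := pr_pos (hS.erase q)
    have hD2 : 2 ≤ D := by
      apply pr_ge_two (hS.erase q)
      rw [← Finset.card_pos, Finset.card_erase_of_mem hqS]
      omega
    have hcop : IsCoprime D (q : ℤ) := (cop_prime_pr (hS.erase q) hqp (by simp)).symm
    have nD1 : ¬ D ∣ 1 := fun h => by
      have := Int.le_of_dvd one_pos h
      omega
    have nM1 : ¬ M ∣ 1 := fun h => nD1 (dvd_trans hDM h)
    have nq1 : ¬ (q : ℤ) ∣ 1 := fun h => by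
      have := Int.le_of_dvd one_pos h
      omega
    set E := T.image a ∪ T.image b with hE
    -- elements adjacent to E
    by_cases hgood : ∃ u v, D ∣ u - v ∧ F u ≠ F v ∧
        (∀ x ∈ E, ¬ M ∣ u - x - 1 ∧ ¬ M ∣ x - u - 1) ∧ (∀ x ∈ E, ¬ M ∣ v - x - 1 ∧ ¬ M ∣ x - v - 1)
    · obtain ⟨u, v, huv, hF, hu, hv⟩ := hgood
      refine ⟨Function.update a q u, Function.update b q v, ?_, ?_⟩
      · intro r hr
        rcases Finset.mem_insert.1 hr with rfl | hr
        · simp only [Function.update_self]
          exact ⟨huv, hF⟩
        · have hrq : r ≠ q := fun e => hqT (e ▸ hr)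
          rw [Function.update_of_ne hrq, Function.update_of_ne hrq]
          exact hab r hr
      · have hmem : ∀ x ∈ (insert q T).image (Function.update a q u) ∪
            (insert q T).image (Function.update b q v), x ∈ E ∨ x = u ∨ x = v := by
          intro x hx
          rcases Finset.mem_union.1 hx with hx | hx
          · obtain ⟨r, hr, rfl⟩ := Finset.mem_image.1 hx
            rcases Finset.mem_insert.1 hr with rfl | hr
            · right; left; simp
            · have hrq : r ≠ q := fun e => hqT (e ▸ hr)
              rw [Function.update_of_ne hrq]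
              left
              exact Finset.mem_union_left _ (Finset.mem_image_of_mem _ hr)
          · obtain ⟨r, hr, rfl⟩ := Finset.mem_image.1 hx
            rcases Finset.mem_insert.1 hr with rfl | hr
            · right; right; simp
            · have hrq : r ≠ q := fun e => hqT (e ▸ hr)
              rw [Function.update_of_ne hrq]
              left
              exact Finset.mem_union_right _ (Finset.mem_image_of_mem _ hr)
        have nself : ∀ x : ℤ, ¬ M ∣ x - x - 1 := by
          intro x h
          rw [show x - x - 1 = -1 by ring] at h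
          exact nM1 ((dvd_neg).1 h)
        have nuv : ¬ M ∣ u - v - 1 := by
          intro h
          have := dvd_sub huv (dvd_trans hDM h)
          rw [show u - v - (u - v - 1) = 1 by ring] at this
          exact nD1 this
        have nvu : ¬ M ∣ v - u - 1 := by
          intro h
          have := dvd_add huv (dvd_trans hDM h)
          rw [show u - v + (v - u - 1) = -1 by ring] at this
          exact nD1 ((dvd_neg).1 this)
        intro x hx y hy
        rcases hmem x hx with h1 | rfl | rfl <;> rcases hmem y hy with h2 | h2 | h2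
        · exact hna x h1 y h2
        · rw [h2]; exact (hu x h1).2
        · rw [h2]; exact (hv x h1).2
        · exact (hu y h2).1
        · rw [h2]; exact nself _
        · rw [h2]; exact nuv
        · exact (hv y h2).1
        · rw [h2]; exact nvu
        · rw [h2]; exact nself _
    · -- F is constant on q-lines off the neighbours of E
      have hconst : ∀ u v, D ∣ u - v → (∀ x ∈ E, ¬ M ∣ u - x - 1 ∧ ¬ M ∣ x - u - 1) →
          (∀ x ∈ E, ¬ M ∣ v - x - 1 ∧ ¬ M ∣ x - v - 1) → F u = F v := by
        intro u v h hu hv
        by_contra hne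
        exact hgood ⟨u, v, h, hne, hu, hv⟩
      -- residues
      have hres : ∀ x ∈ E, ∃ r ∈ T, (q : ℤ) ∣ x - a r := by
        intro x hx
        rcases Finset.mem_union.1 hx with hx | hx
        · obtain ⟨r, hr, rfl⟩ := Finset.mem_image.1 hx
          exact ⟨r, hr, by simp⟩
        · obtain ⟨r, hr, rfl⟩ := Finset.mem_image.1 hx
          refine ⟨r, hr, ?_⟩
          have h1 := (hab r hr).1
          have h2 : (q : ℤ) ∣ pr (S.erase r) :=
            dvd_pr (Finset.mem_erase.2 ⟨fun e => hqT (e ▸ hr), hqS⟩)
          have h3 := dvd_trans h2 h1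
          rw [show b r - a r = -(a r - b r) by ring]
          exact (dvd_neg).2 h3
      let A := T.image (fun r => a r + 1) ∪ T.image (fun r => a r - 1)
      have hAc : A.card ≤ 2 * T.card := by
        have e1 := Finset.card_union_le (T.image (fun r => a r + 1)) (T.image (fun r => a r - 1))
        have e2 := Finset.card_image_le (s := T) (f := fun r => a r + 1)
        have e3 := Finset.card_image_le (s := T) (f := fun r => a r - 1)
        show (T.image (fun r => a r + 1) ∪ T.image (fun r => a r - 1)).card ≤ 2 * T.card
        omega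
      -- a point whose residue avoids A is clean
      have hclean : ∀ z : ℤ, (∀ s ∈ A, ¬ (q : ℤ) ∣ z - s) →
          ∀ x ∈ E, ¬ M ∣ z - x - 1 ∧ ¬ M ∣ x - z - 1 := by
        intro z hz x hx
        obtain ⟨r, hr, hxr⟩ := hres x hx
        constructor
        · intro h
          apply hz (a r + 1) (Finset.mem_union_left _ (Finset.mem_image_of_mem (fun r => a r + 1) hr))
          have := dvd_add (dvd_trans hqM h) hxr
          rwa [show z - x - 1 + (x - a r) = z - (a r + 1) by ring] at this
        · intro h
          apply hz (a r - 1) (Finset.mem_union_right _ (Finset.mem_image_of_mem (fun r => a r - 1) hr))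
          have := dvd_sub hxr (dvd_trans hqM h)
          rwa [show x - a r - (x - z - 1) = z - (a r - 1) by ring] at this
      -- transport along q-lines
      have htrans : ∀ z z' s : ℤ, (q : ℤ) ∣ z - z' → ¬ (q : ℤ) ∣ z' - s → ¬ (q : ℤ) ∣ z - s := by
        intro z z' s h1 h2 h3
        apply h2
        have := dvd_sub h3 h1
        rwa [show z - s - (z - z') = z' - s by ring] at this
      obtain ⟨ρ, hρ⟩ := avoid hq0 A (by omega)
      obtain ⟨u0, v0, huv0, hF0⟩ := hnc q hqS
      obtain ⟨v, hv1, hv2⟩ := crt hcop u0 ρ
      have hvA : ∀ s ∈ A, ¬ (q : ℤ) ∣ v - s := fun s hs => htrans v ρ s hv2 (hρ s hs)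
      obtain ⟨u, huv, hFuv⟩ : ∃ u, D ∣ u - v ∧ F u ≠ F v := by
        by_cases h : F u0 = F v
        · refine ⟨v0, ?_, ?_⟩
          · have := dvd_add huv0 hv1
            rw [show u0 - v0 + (v - u0) = -(v0 - v) by ring] at this
            exact (dvd_neg).1 this
          · rw [← h]; exact hF0.symm
        · refine ⟨u0, ?_, h⟩
          rw [show u0 - v = -(v - u0) by ring]
          exact (dvd_neg).2 hv1
      have hA2 : ∀ w : ℤ, ((A ∪ {w + 1, w - 1}).card : ℤ) < q := by
        intro w
        have e1 := Finset.card_union_le A {w + 1, w - 1}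
        have e2 : ({w + 1, w - 1} : Finset ℤ).card ≤ 2 := Finset.card_le_two
        omega
      obtain ⟨β, hβ⟩ := avoid hq0 (A ∪ {u + 1, u - 1}) (hA2 u)
      obtain ⟨γ, hγ⟩ := avoid hq0 (A ∪ {β + 1, β - 1}) (hA2 β)
      obtain ⟨v', hv'1, hv'2⟩ := crt hcop u γ
      have hv'A : ∀ s ∈ A, ¬ (q : ℤ) ∣ v' - s :=
        fun s hs => htrans v' γ s hv'2 (hγ s (Finset.mem_union_left _ hs))
      have hFv' : F v' = F v := by
        apply hconst v' v _ (hclean v' hv'A) (hclean v hvA)
        have := dvd_add hv'1 huv
        rwa [show v' - u + (u - v) = v' - v by ring] at this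
      choose L hL1 hL2 using fun x => crt hcop x β
      have hLA : ∀ x, ∀ s ∈ A, ¬ (q : ℤ) ∣ L x - s :=
        fun x s hs => htrans (L x) β s (hL2 x) (hβ s (Finset.mem_union_left _ hs))
      have hEclean : ∀ x ∈ E, ∀ y ∈ E, ¬ M ∣ x - y - 1 ∧ ¬ M ∣ y - x - 1 :=
        fun x hx y hy => ⟨hna x hx y hy, hna y hy x hx⟩
      have hFL : ∀ x ∈ E, F (L x) = F x :=
        fun x hx => hconst (L x) x (hL1 x) (hclean _ (hLA x)) (hEclean x hx)
      refine ⟨fun r => if r = q then u else L (a r), fun r => if r = q then v' else L (b r), ?_, ?_⟩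
      · intro r hr
        rcases Finset.mem_insert.1 hr with rfl | hr
        · simp only [if_true]
          refine ⟨?_, by rw [hFv']; exact hFuv⟩
          rw [show u - v' = -(v' - u) by ring]
          exact (dvd_neg).2 hv'1
        · have hrq : r ≠ q := fun e => hqT (e ▸ hr)
          simp only [if_neg hrq]
          have hra : a r ∈ E := Finset.mem_union_left _ (Finset.mem_image_of_mem _ hr)
          have hrb : b r ∈ E := Finset.mem_union_right _ (Finset.mem_image_of_mem _ hr)
          refine ⟨?_, by rw [hFL _ hra, hFL _ hrb]; exact (hab r hr).2⟩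
          have hqr : q ∈ S.erase r := Finset.mem_erase.2 ⟨fun e => hrq e.symm, hqS⟩
          rw [pr_erase hqr]
          have hrS := hTS' hr
          apply (cop_prime_pr ((hS.erase r).erase q) hqp (by simp)).mul_dvd
          · have := dvd_sub (hL2 (a r)) (hL2 (b r))
            rwa [show L (a r) - β - (L (b r) - β) = L (a r) - L (b r) by ring] at this
          · have s1 : pr ((S.erase r).erase q) ∣ D := by
              apply pr_dvd
              intro x hx
              simp only [Finset.mem_erase] at hx ⊢
              exact ⟨hx.1, hx.2.2⟩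
            have s2 : pr ((S.erase r).erase q) ∣ pr (S.erase r) := pr_dvd (Finset.erase_subset _ _)
            have e1 := dvd_trans s1 (hL1 (a r))
            have e2 := dvd_trans s1 (hL1 (b r))
            have e3 := dvd_add (dvd_sub e1 e2) (dvd_trans s2 (hab r hr).1)
            rwa [show L (a r) - a r - (L (b r) - b r) + (a r - b r) = L (a r) - L (b r) by ring] at e3
      · have hmem : ∀ x ∈ (insert q T).image (fun r => if r = q then u else L (a r)) ∪
            (insert q T).image (fun r => if r = q then v' else L (b r)),
            (q : ℤ) ∣ x - β ∨ x = u ∨ x = v' := by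
          intro x hx
          rcases Finset.mem_union.1 hx with hx | hx
          · obtain ⟨r, hr, rfl⟩ := Finset.mem_image.1 hx
            by_cases hrq : r = q
            · right; left; simp [hrq]
            · left
              simp only [if_neg hrq]
              exact hL2 _
          · obtain ⟨r, hr, rfl⟩ := Finset.mem_image.1 hx
            by_cases hrq : r = q
            · right; right; simp [hrq]
            · left
              simp only [if_neg hrq]
              exact hL2 _
        have nself : ∀ x : ℤ, ¬ M ∣ x - x - 1 := by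
          intro x h
          rw [show x - x - 1 = -1 by ring] at h
          exact nM1 ((dvd_neg).1 h)
        have nuv : ¬ M ∣ u - v' - 1 := by
          intro h
          have := dvd_add hv'1 (dvd_trans hDM h)
          rw [show v' - u + (u - v' - 1) = -1 by ring] at this
          exact nD1 ((dvd_neg).1 this)
        have nvu : ¬ M ∣ v' - u - 1 := by
          intro h
          have := dvd_sub hv'1 (dvd_trans hDM h)
          rw [show v' - u - (v' - u - 1) = 1 by ring] at this
          exact nD1 this
        have b1 : ¬ (q : ℤ) ∣ β - (u + 1) := hβ _ (by simp)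
        have b2 : ¬ (q : ℤ) ∣ β - (u - 1) := hβ _ (by simp)
        have g1 : ¬ (q : ℤ) ∣ v' - (β + 1) := htrans v' γ _ hv'2 (hγ _ (by simp))
        have g2 : ¬ (q : ℤ) ∣ v' - (β - 1) := htrans v' γ _ hv'2 (hγ _ (by simp))
        intro x hx y hy hdv
        have hdq := dvd_trans hqM hdv
        rcases hmem x hx with h1 | h1 | h1 <;> rcases hmem y hy with h2 | h2 | h2
        · apply nq1
          have := dvd_sub (dvd_sub h1 h2) hdq
          rwa [show x - β - (y - β) - (x - y - 1) = 1 by ring] at this
        · -- x ≡ β, y = u
          apply b1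
          rw [h2] at hdq
          have := dvd_sub hdq h1
          rwa [show x - u - 1 - (x - β) = β - (u + 1) by ring] at this
        · -- x ≡ β, y = v'
          apply g2
          rw [h2] at hdq
          have := dvd_sub h1 hdq
          rwa [show x - β - (x - v' - 1) = v' - (β - 1) by ring] at this
        · -- x = u, y ≡ β
          apply b2
          rw [h1] at hdq
          have := dvd_add hdq h2
          rw [show u - y - 1 + (y - β) = -(β - (u - 1)) by ring] at this
          exact (dvd_neg).1 this
        · rw [h1, h2] at hdv; exact nself _ hdv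
        · rw [h1, h2] at hdv; exact nuv hdv
        · -- x = v', y ≡ β
          apply g1
          rw [h1] at hdq
          have := dvd_add hdq h2
          rwa [show v' - y - 1 + (y - β) = v' - (β + 1) by ring] at this
        · rw [h1, h2] at hdv; exact nvu hdv
        · rw [h1, h2] at hdv; exact nself _ hdv

end Pool.Agent.Helper336.PW
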