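import Pool.Agent.Helper336.Lin

set_option autoImplicit false

namespace Pool.Agent.Helper336.PW

open Pool.Agent.Helper336.CF

/-- The word of a list of exponents. -/
def enc (ks : List ℕ) : List Bool := (ks.map (fun k => true :: List.replicate k false)).flatten

theorem enc_nil : enc [] = [] := rfl

theorem enc_cons (a : ℕ) (ks : List ℕ) : enc (a :: ks) = true :: (List.replicate a false ++ enc ks) := by
  simp [enc]

theorem enc_append (ks ks' : List ℕ) : enc (ks ++ ks') = enc ks ++ enc ks' := by
  simp [enc]

theorem exists_dec (w : List Bool) : ∃ (e : ℕ) (ks : List ℕ), w = List.replicate e false ++ enc ks := by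
  induction w with
  | nil => exact ⟨0, [], rfl⟩
  | cons c w ih =>
    obtain ⟨e, ks, rfl⟩ := ih
    cases c with
    | true => exact ⟨0, e :: ks, by simp [enc_cons]⟩
    | false => exact ⟨e + 1, ks, by simp [List.replicate_succ]⟩

theorem dec_inj : ∀ (ks ks' : List ℕ) (e e' : ℕ),
    List.replicate e false ++ enc ks = List.replicate e' false ++ enc ks' → e = e' ∧ ks = ks' := by
  intro ks
  induction ks with
  | nil =>
    intro ks' e e' h
    cases ks' with
    | nil =>
      simp only [enc_nil, List.append_nil] at h
      have := congrArg List.length h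
      simpa using this
    | cons a ks' =>
      have := congrArg (List.count true) h
      simp [enc_nil, enc_cons, List.count_replicate] at this
  | cons a ks ih =>
    intro ks' e e' h
    cases ks' with
    | nil =>
      have := congrArg (List.count true) h
      simp [enc_nil, enc_cons, List.count_replicate] at this
    | cons a' ks' =>
      have key : ∀ (e e' : ℕ), List.replicate e false ++ enc (a :: ks) =
          List.replicate e' false ++ enc (a' :: ks') → e = e' ∧ enc (a :: ks) = enc (a' :: ks') := by
        intro e
        induction e with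
        | zero =>
          intro e' h
          cases e' with
          | zero => exact ⟨rfl, by simpa using h⟩
          | succ e' => simp [enc_cons, List.replicate_succ] at h
        | succ e ih' =>
          intro e' h
          cases e' with
          | zero => simp [enc_cons, List.replicate_succ] at h
          | succ e' =>
            simp only [List.replicate_succ, List.cons_append, List.cons.injEq, true_and] at h
            obtain ⟨h1, h2⟩ := ih' e' h
            exact ⟨by rw [h1], h2⟩
      obtain ⟨h1, h2⟩ := key e e' h
      rw [enc_cons, enc_cons, List.cons.injEq] at h2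
      obtain ⟨h3, h4⟩ := ih ks' a a' h2.2
      exact ⟨h1, by rw [h3, h4]⟩

theorem enc_inj (ks ks' : List ℕ) (h : enc ks = enc ks') : ks = ks' :=
  (dec_inj ks ks' 0 0 (by simpa using h)).2

theorem enc_replicate (p : ℕ) (ks : List ℕ) :
    enc (List.replicate p ks).flatten = (List.replicate p (enc ks)).flatten := by
  induction p with
  | zero => simp [enc_nil]
  | succ p ih => simp [List.replicate_succ, enc_append, ih]

theorem seg_eq_enc (n : ℕ) (k : ℕ → ℕ) : seg 0 n k = enc ((List.range n).map k) := by
  unfold seg enc
  rw [← List.range_eq_range', List.map_map]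
  rfl

theorem enc_eq_seg (ks : List ℕ) : enc ks = seg 0 ks.length (fun t => ks.getD t 0) := by
  rw [seg_eq_enc]
  congr 1
  apply List.ext_getElem
  · simp
  · intro i h1 h2
    simp [h1]

theorem getD_replicate (l : List ℕ) (p i : ℕ) (h : i < p * l.length) :
    (List.replicate p l).flatten.getD i 0 = l.getD (i % l.length) 0 := by
  induction p generalizing i with
  | zero => simp at h
  | succ p ih =>
    rw [List.replicate_succ, List.flatten_cons]
    by_cases hi : i < l.length
    · rw [List.getD_append _ _ _ _ hi, Nat.mod_eq_of_lt hi]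
    · have hi' : l.length ≤ i := by omega
      rw [List.getD_append_right _ _ _ _ hi', ih]
      · rw [Nat.mod_eq_sub_mod hi']
      · rw [Nat.succ_mul] at h
        omega

/-- Primitive words in the frozen sense. -/
def Prim (w : List Bool) : Prop := ∀ (u : List Bool) (k : ℕ), (List.replicate k u).flatten = w → k = 1

theorem seg_shift (i len : ℕ) (k : ℕ → ℕ) : seg i len k = seg 0 len (fun t => k (i + t)) := by
  unfold seg
  rw [List.range'_eq_map_range, List.range'_eq_map_range, List.map_map, List.map_map]
  congr 1
  apply List.map_congr_left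
  intro t _
  simp

theorem not_per_of_prim (n : ℕ) (hn : 0 < n) (k : ℕ → ℕ) (h : Prim (seg 0 n k)) (p : ℕ)
    (hp : p.Prime) (hpn : p ∣ n) : ¬ ∀ x : ℤ, lift n k (x + (n : ℤ) / (p : ℤ)) = lift n k x := by
  intro hper
  obtain ⟨d, rfl⟩ := hpn
  have hp0 : (p : ℤ) ≠ 0 := by exact_mod_cast hp.ne_zero
  rw [show ((p * d : ℕ) : ℤ) / (p : ℤ) = d by
    push_cast; rw [Int.mul_ediv_cancel_left _ hp0]] at hper
  have hk : ∀ j t : ℕ, j * d + t < p * d → k (j * d + t) = k t := by
    intro j
    induction j with
    | zero => intro t _; simp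
    | succ j ih =>
      intro t ht
      have h1 := hper ((j * d + t : ℕ) : ℤ)
      have h2 : (((j * d + t : ℕ) : ℤ) + d) = (((j + 1) * d + t : ℕ) : ℤ) := by push_cast; ring
      rw [h2] at h1
      unfold lift at h1
      have h3 : (((j + 1) * d + t : ℕ) : ℤ) % ((p * d : ℕ) : ℤ) = (((j + 1) * d + t : ℕ) : ℤ) :=
        Int.emod_eq_of_lt (by positivity) (by exact_mod_cast ht)
      have h5 : j * d + t < p * d := by
        rw [Nat.succ_mul] at ht; omega
      have h4 : (((j * d + t : ℕ) : ℤ)) % ((p * d : ℕ) : ℤ) = ((j * d + t : ℕ) : ℤ) :=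
        Int.emod_eq_of_lt (by positivity) (by exact_mod_cast h5)
      rw [h3, h4, Int.toNat_natCast, Int.toNat_natCast] at h1
      rw [h1, ih t h5]
  have hd : 0 < d := Nat.pos_of_mul_pos_left hn |> fun h => by
    rcases Nat.eq_zero_or_pos d with rfl | h'
    · simp at hn
    · exact h'
  have hrep : ∀ j : ℕ, j ≤ p → seg 0 (j * d) k = (List.replicate j (seg 0 d k)).flatten := by
    intro j
    induction j with
    | zero => intro _; simp [seg_zero]
    | succ j ih =>
      intro hj
      rw [Nat.succ_mul, seg_add, ih (by omega), List.replicate_succ', List.flatten_append]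
      congr 1
      rw [seg_shift]
      simp only [List.flatten_cons, List.flatten_nil, List.append_nil]
      apply seg_congr
      intro t _ ht
      have : j * d + t < p * d := by
        have : (j + 1) * d ≤ p * d := Nat.mul_le_mul_right d hj
        rw [Nat.succ_mul] at this
        omega
      simpa using hk j t this
  have := h (seg 0 d k) p (hrep p le_rfl).symm
  exact hp.one_lt.ne' this

theorem prim_of_not_per (n : ℕ) (hn : 0 < n) (k : ℕ → ℕ)
    (h : ∀ p : ℕ, p.Prime → p ∣ n → ¬ ∀ x : ℤ, lift n k (x + (n : ℤ) / (p : ℤ)) = lift n k x) :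
    Prim (seg 0 n k) := by
  intro u m hm
  by_contra hm1
  have hm0 : m ≠ 0 := by
    rintro rfl
    have := congrArg List.length hm
    obtain ⟨n', rfl⟩ : ∃ n', n = 1 + n' := ⟨n - 1, by omega⟩
    rw [seg_add, seg_one] at this
    simp at this
  obtain ⟨p, hp, hpm⟩ := Nat.exists_prime_and_dvd hm1
  obtain ⟨m', rfl⟩ := hpm
  have hm' : m' ≠ 0 := by rintro rfl; simp at hm0
  -- regroup
  have hre : ∀ (a b : ℕ) (u : List Bool), (List.replicate (a * b) u).flatten =
      (List.replicate a (List.replicate b u).flatten).flatten := by
    intro a b u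
    induction a with
    | zero => simp
    | succ a ih =>
      rw [Nat.succ_mul, Nat.add_comm, List.replicate_add, List.flatten_append, ih,
        List.replicate_succ, List.flatten_cons]
  rw [hre] at hm
  set u' := (List.replicate m' u).flatten with hu'
  obtain ⟨e, ks', hks'⟩ := exists_dec u'
  obtain ⟨p', hp'⟩ : ∃ p', p = p' + 1 := ⟨p - 1, by have := hp.pos; omega⟩
  -- first letter
  have he : e = 0 := by
    by_contra he
    obtain ⟨e', rfl⟩ : ∃ e', e = e' + 1 := ⟨e - 1, by omega⟩
    obtain ⟨n', rfl⟩ : ∃ n', n = 1 + n' := ⟨n - 1, by omega⟩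
    rw [hks', hp', List.replicate_succ, List.flatten_cons, seg_add, seg_one] at hm
    simp [List.replicate_succ] at hm
  rw [he] at hks'
  simp only [List.replicate_zero, List.nil_append] at hks'
  rw [hks', ← enc_replicate, seg_eq_enc] at hm
  have hl := enc_inj _ _ hm
  have hlen := congrArg List.length hl
  simp only [List.length_flatten, List.map_replicate, List.sum_replicate, smul_eq_mul,
    List.length_map, List.length_range] at hlen
  set d := ks'.length with hd
  have hpn : p ∣ n := ⟨d, hlen.symm⟩
  apply h p hp hpn
  have hp0 : (p : ℤ) ≠ 0 := by exact_mod_cast hp.ne_zero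
  have hnd : (n : ℤ) / (p : ℤ) = d := by
    rw [← hlen]
    push_cast
    rw [Int.mul_ediv_cancel_left _ hp0]
  have hk : ∀ i : ℕ, i < n → k i = ks'.getD (i % d) 0 := by
    intro i hi
    rw [← getD_replicate ks' p i (by rw [← hd, hlen]; exact hi), hl]
    rw [List.getD_eq_getElem _ _ (by simpa using hi)]
    simp
  have hlift : ∀ x : ℤ, lift n k x = ks'.getD (x % (d : ℤ)).toNat 0 := by
    intro x
    unfold lift
    have b1 := Int.emod_nonneg x (show (n : ℤ) ≠ 0 by omega)
    have b2 := Int.emod_lt_of_pos x (show (0 : ℤ) < n by omega)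
    rw [hk _ (by omega)]
    congr 1
    have hdn : (d : ℤ) ∣ (n : ℤ) := ⟨p, by rw [← hlen]; push_cast; ring⟩
    have h1 : x % (n : ℤ) % (d : ℤ) = x % d := Int.emod_emod_of_dvd x hdn
    have h2 : (((x % (n : ℤ)).toNat % d : ℕ) : ℤ) = x % d := by
      push_cast
      rw [Int.toNat_of_nonneg b1, h1]
    omega
  intro x
  rw [hlift, hlift, hnd]
  simp

end Pool.Agent.Helper336.PW
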