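import Mathlib

set_option autoImplicit false

namespace Pool.Agent.Helper336.PW

/-- The chords `{a,b}` and `{c,d}` of a line have distinct endpoints and do not cross. -/
def LSep (a b c d : ℤ) : Prop :=
  a ≠ c ∧ a ≠ d ∧ b ≠ c ∧ b ≠ d ∧ ((a < c ↔ a < d) ↔ (b < c ↔ b < d))

/-- The chords `{x,y}` and `{u,v}` of the circle `ℤ/n` have distinct endpoints and do not cross. -/
def Sep (n x y u v : ℤ) : Prop := LSep (x % n) (y % n) (u % n) (v % n)

theorem sub_emod_cases (n x o : ℤ) (hn : 0 < n) :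
    ((x - o) % n = x % n - o % n ∧ o % n ≤ x % n) ∨
    ((x - o) % n = x % n - o % n + n ∧ x % n < o % n) := by
  have h1 := Int.emod_nonneg x hn.ne'
  have h2 := Int.emod_lt_of_pos x hn
  have h3 := Int.emod_nonneg o hn.ne'
  have h4 := Int.emod_lt_of_pos o hn
  by_cases h : o % n ≤ x % n
  · left
    refine ⟨?_, h⟩
    rw [Int.sub_emod]
    exact Int.emod_eq_of_lt (by omega) (by omega)
  · right
    refine ⟨?_, by omega⟩
    rw [Int.sub_emod]
    have : (x % n - o % n) % n = (x % n - o % n + n) % n := by simp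
    rw [this]
    exact Int.emod_eq_of_lt (by omega) (by omega)

theorem sep_rot (n : ℤ) (hn : 0 < n) (o x y u v : ℤ) :
    Sep n x y u v ↔ LSep ((x - o) % n) ((y - o) % n) ((u - o) % n) ((v - o) % n) := by
  have b1 := Int.emod_nonneg x hn.ne'
  have b2 := Int.emod_lt_of_pos x hn
  have b3 := Int.emod_nonneg y hn.ne'
  have b4 := Int.emod_lt_of_pos y hn
  have b5 := Int.emod_nonneg u hn.ne'
  have b6 := Int.emod_lt_of_pos u hn
  have b7 := Int.emod_nonneg v hn.ne'
  have b8 := Int.emod_lt_of_pos v hn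
  have h1 := sub_emod_cases n x o hn
  have h2 := sub_emod_cases n y o hn
  have h3 := sub_emod_cases n u o hn
  have h4 := sub_emod_cases n v o hn
  unfold Sep LSep
  generalize (x - o) % n = X at *
  generalize (y - o) % n = Y at *
  generalize (u - o) % n = U at *
  generalize (v - o) % n = V at *
  generalize x % n = x' at *
  generalize y % n = y' at *
  generalize u % n = u' at *
  generalize v % n = v' at *
  generalize o % n = o' at *
  rcases h1 with ⟨rfl, h1⟩ | ⟨rfl, h1⟩ <;> rcases h2 with ⟨rfl, h2⟩ | ⟨rfl, h2⟩ <;>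
  rcases h3 with ⟨rfl, h3⟩ | ⟨rfl, h3⟩ <;> rcases h4 with ⟨rfl, h4⟩ | ⟨rfl, h4⟩ <;> omega

theorem LSep.symm {a b c d : ℤ} (h : LSep a b c d) : LSep c d a b := by
  unfold LSep at *
  omega

theorem LSep.swap {a b c d : ℤ} (h : LSep a b c d) : LSep b a c d := by
  unfold LSep at *
  omega

theorem Sep.symm {n a b c d : ℤ} (h : Sep n a b c d) : Sep n c d a b := LSep.symm h

theorem Sep.swap {n a b c d : ℤ} (h : Sep n a b c d) : Sep n b a c d := LSep.swap h

/-- Optional block of four points `z, z + r₁, z + r₂, z + r₁ + r₂` with the kind of condition. -/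
abbrev OB := Option (ℤ × ℤ × ℤ × Bool)

/-- Vertices of the optional block. -/
def overts : OB → Finset ℤ
  | none => ∅
  | some (z, r1, r2, _) => {z, z + r1, z + r2, z + (r1 + r2)}

/-- The condition of the optional block. -/
def ocond (κ : ℤ → ℕ) : OB → Prop
  | none => True
  | some (z, r1, r2, true) => κ z + κ (z + (r1 + r2)) ≠ κ (z + r1) + κ (z + r2)
  | some (z, r1, r2, false) => κ z + κ (z + r2) ≠ κ (z + r1) + κ (z + (r1 + r2)) ∧
      κ z + κ (z + r1) ≠ κ (z + r2) + κ (z + (r1 + r2))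

/-- The block has its points in cyclic order. -/
def ovalid (n : ℤ) : OB → Prop
  | none => True
  | some (_, r1, r2, _) => 0 < r1 ∧ r1 < r2 ∧ r1 + r2 < n

/-- A noncrossing system of chords and possibly a block. -/
structure Valid (n : ℤ) (C : Finset (ℤ × ℤ)) (O : OB) : Prop where
  ne : ∀ c ∈ C, c.1 % n ≠ c.2 % n
  sep : ∀ c ∈ C, ∀ d ∈ C, c ≠ d → Sep n c.1 c.2 d.1 d.2
  bsep : ∀ c ∈ C, ∀ a ∈ overts O, ∀ b ∈ overts O, Sep n a b c.1 c.2
  oval : ovalid n O

/-- Same comparison signs on all chords. -/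
def Agree (κ κ' : ℤ → ℕ) (C : Finset (ℤ × ℤ)) : Prop :=
  ∀ c ∈ C, compare (κ' c.1) (κ' c.2) = compare (κ c.1) (κ c.2)

/-- The system certifies that a function is not `n/p`-periodic for `p ∈ P`. -/
def Cert (n : ℤ) (κ : ℤ → ℕ) (P : Finset ℕ) (C : Finset (ℤ × ℤ)) (O : OB) : Prop :=
  ∀ κ' : ℤ → ℕ, (∀ x, κ' (x + n) = κ' x) → Agree κ κ' C → ocond κ' O →
    ∀ p ∈ P, ¬ ∀ x, κ' (x + n / (p : ℤ)) = κ' x

/-- There is a certificate with at most `N` vertices. -/
def HasSys (n : ℤ) (κ : ℤ → ℕ) (P : Finset ℕ) (N : ℕ) : Prop :=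
  ∃ (C : Finset (ℤ × ℤ)) (O : OB), Valid n C O ∧ ocond κ O ∧ Cert n κ P C O ∧
    2 * C.card + (overts O).card ≤ N

end Pool.Agent.Helper336.PW
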