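import Mathlib
import Pool.Agent.Helper336.BddExp

set_option autoImplicit false

namespace Pool.Agent.Helper336.Splitting

/-- `φ` is a splitting automorphism of order `m` (only `φ ^ m = 1` is required). -/
def IsSplitting {G : Type} [Group G] (φ : MulAut G) (m : ℕ) : Prop :=
  φ ^ m = 1 ∧ ∀ x : G, ((List.range m).map (fun i => (φ ^ i) x)).prod = 1

lemma prod_even {G : Type} [Group G] (φ : MulAut G) (h : φ ^ 2 = 1) (x : G) :
    ∀ k : ℕ, ((List.range (2 * k)).map (fun i => (φ ^ i) x)).prod = (x * φ x) ^ k := by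
  intro k
  induction k with
  | zero => simp
  | succ k ih =>
    have h2 : 2 * (k + 1) = 2 * k + 1 + 1 := by ring
    rw [h2, List.range_succ, List.range_succ]
    simp only [List.map_append, List.prod_append, List.map_cons, List.map_nil, List.prod_cons,
      List.prod_nil, mul_one]
    rw [ih, pow_succ, pow_succ, pow_mul, h, one_pow, one_mul, mul_assoc]
    simp

section
variable (P : Type) [Group P] (m : ℕ)

/-- index set -/
abbrev Ix : Type := ZMod (2 ^ m)

/-- functions of tuples -/
abbrev Fun : Type := (Ix m → P) → P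

/-- permutation action -/
def act : Equiv.Perm (Ix m) →* MulAut (Fun P m) where
  toFun σ :=
    { toFun := fun F f => F (f ∘ σ)
      invFun := fun F f => F (f ∘ σ.symm)
      left_inv := by
        intro F; funext f
        show F ((f ∘ σ.symm) ∘ σ) = F f
        congr 1; funext i; simp
      right_inv := by
        intro F; funext f
        show F ((f ∘ σ) ∘ σ.symm) = F f
        congr 1; funext i; simp
      map_mul' := fun _ _ => rfl }
  map_one' := by ext F f; rfl
  map_mul' σ τ := by
    ext F f
    rfl

/-- the ambient group -/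
abbrev WW : Type := Fun P m ⋊[act P m] Equiv.Perm (Ix m)

/-- shift -/
def sh : Equiv.Perm (Ix m) := Equiv.addRight 1

/-- reflection -/
def rf : Equiv.Perm (Ix m) := Equiv.neg (Ix m)

/-- coordinate function -/
def co (i : Ix m) : Fun P m := fun f => f i

/-- the shift in the ambient group -/
def s : WW P m := SemidirectProduct.inr (sh m)

/-- the first coordinate function in the ambient group -/
def a : WW P m := SemidirectProduct.inl (co P m 0)

/-- the reflection in the ambient group -/
def t : WW P m := SemidirectProduct.inr (rf m)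

/-- the two-generator group -/
def H : Subgroup (WW P m) := Subgroup.closure {a P m, s P m}

lemma rf_sq : rf m * rf m = 1 := by
  ext i; simp [rf]

lemma sh_pow (k : ℕ) (i : Ix m) : (sh m ^ k) i = i + k := by
  induction k with
  | zero => simp
  | succ k ih =>
    rw [pow_succ', Equiv.Perm.mul_apply, ih]
    simp [sh, add_assoc]

lemma sh_order : sh m ^ (2 ^ m) = 1 := by
  ext i
  rw [sh_pow]
  simp

lemma rf_sh : rf m * sh m * rf m = (sh m)⁻¹ := by
  apply Equiv.ext
  intro i
  simp [rf, sh, Equiv.Perm.mul_apply, Equiv.Perm.inv_def, sub_eq_add_neg, add_comm]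

lemma t_sq : t P m * t P m = 1 := by
  rw [t, ← map_mul, rf_sq, map_one]

lemma t_inv : (t P m)⁻¹ = t P m := inv_eq_of_mul_eq_one_left (t_sq P m)

lemma t_conj_a : t P m * a P m * t P m = a P m := by
  have h := SemidirectProduct.inl_aut (φ := act P m) (rf m) (co P m 0)
  have h2 : (act P m) (rf m) (co P m 0) = co P m 0 := by
    funext f
    show f (rf m 0) = f 0
    simp [rf]
  rw [h2] at h
  have h3 : (SemidirectProduct.inr (rf m)⁻¹ : WW P m) = t P m := by
    rw [map_inv]; exact t_inv P m
  rw [h3] at h
  exact h.symm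

lemma t_conj_s : t P m * s P m * t P m = (s P m)⁻¹ := by
  rw [t, s, ← map_mul, ← map_mul, rf_sh, map_inv]

lemma t_conj_mem (x : WW P m) (hx : x ∈ H P m) : t P m * x * t P m ∈ H P m := by
  have h : (MulAut.conj (t P m)) x ∈ H P m := by
    have h1 : (H P m).map (MulAut.conj (t P m)).toMonoidHom ≤ H P m := by
      rw [H, MonoidHom.map_closure, Subgroup.closure_le]
      rintro y ⟨z, hz, rfl⟩
      rcases hz with rfl | hz
      · show t P m * a P m * (t P m)⁻¹ ∈ _
        rw [t_inv, t_conj_a]
        exact Subgroup.subset_closure (by simp)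
      · rw [Set.mem_singleton_iff] at hz
        subst hz
        show t P m * s P m * (t P m)⁻¹ ∈ _
        rw [t_inv, t_conj_s]
        exact inv_mem (Subgroup.subset_closure (by simp))
    exact h1 ⟨x, hx, rfl⟩
  have h2 : (MulAut.conj (t P m)) x = t P m * x * t P m := by
    rw [MulAut.conj_apply, t_inv]
  rwa [h2] at h

/-- the automorphism -/
def ph : MulAut (H P m) where
  toFun x := ⟨t P m * x * t P m, t_conj_mem P m x x.2⟩
  invFun x := ⟨t P m * x * t P m, t_conj_mem P m x x.2⟩
  left_inv x := by
    apply Subtype.ext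
    show t P m * (t P m * x * t P m) * t P m = x
    have := t_sq P m
    calc t P m * (t P m * x * t P m) * t P m = (t P m * t P m) * x * (t P m * t P m) := by group
      _ = x := by rw [this, one_mul, mul_one]
  right_inv x := by
    apply Subtype.ext
    show t P m * (t P m * x * t P m) * t P m = x
    have := t_sq P m
    calc t P m * (t P m * x * t P m) * t P m = (t P m * t P m) * x * (t P m * t P m) := by group
      _ = x := by rw [this, one_mul, mul_one]
  map_mul' x y := by
    apply Subtype.ext
    show t P m * (x * y) * t P m = (t P m * x * t P m) * (t P m * y * t P m)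
    have := t_sq P m
    calc t P m * (x * y) * t P m = t P m * x * 1 * y * t P m := by group
      _ = t P m * x * (t P m * t P m) * y * t P m := by rw [this]
      _ = _ := by group

lemma ph_sq : (ph P m) ^ 2 = 1 := by
  rw [pow_two]
  refine MulEquiv.ext fun x => Subtype.ext ?_
  show t P m * (t P m * x * t P m) * t P m = x
  have := t_sq P m
  calc t P m * (t P m * x * t P m) * t P m = (t P m * t P m) * x * (t P m * t P m) := by group
    _ = x := by rw [this, one_mul, mul_one]

lemma right_mem (x : WW P m) (hx : x ∈ H P m) : x.right ∈ Subgroup.zpowers (sh m) := by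
  have h1 : (H P m).map (SemidirectProduct.rightHom : WW P m →* _) ≤ Subgroup.zpowers (sh m) := by
    rw [H, MonoidHom.map_closure, Subgroup.closure_le]
    rintro y ⟨z, hz, rfl⟩
    rcases hz with rfl | hz
    · show SemidirectProduct.rightHom (SemidirectProduct.inl (co P m 0) : WW P m) ∈ _
      rw [SemidirectProduct.rightHom_inl]
      exact one_mem _
    · rw [Set.mem_singleton_iff] at hz
      subst hz
      show SemidirectProduct.rightHom (SemidirectProduct.inr (sh m) : WW P m) ∈ _
      rw [SemidirectProduct.rightHom_inr]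
      exact Subgroup.mem_zpowers _
  exact h1 ⟨x, hx, rfl⟩

lemma rf_conj_zpow (k : ℤ) : rf m * (sh m) ^ k * rf m = ((sh m) ^ k)⁻¹ := by
  have h : ∀ g : Equiv.Perm (Ix m), rf m * g * rf m = (MulAut.conj (rf m)) g := by
    intro g
    rw [MulAut.conj_apply]
    congr 1
  rw [h, map_zpow, ← h, rf_sh, inv_zpow]

variable {P m}

lemma ker_pow (hP : ∀ g : P, g ^ 8 = 1) (x : WW P m) (hx : x.right = 1) : x ^ 8 = 1 := by
  have h : x = SemidirectProduct.inl x.left := by
    apply SemidirectProduct.ext
    · simp
    · simpa using hx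
  rw [h, ← map_pow]
  have : x.left ^ 8 = 1 := by
    funext f
    exact hP _
  rw [this, map_one]

lemma splitting (hP : ∀ g : P, g ^ 8 = 1) : IsSplitting (ph P m) (2 ^ 4) := by
  constructor
  · rw [show (2 : ℕ) ^ 4 = 2 * 8 from rfl, pow_mul, ph_sq, one_pow]
  · intro x
    rw [show (2 : ℕ) ^ 4 = 2 * 8 from rfl, prod_even _ (ph_sq P m)]
    apply Subtype.ext
    show ((x : WW P m) * (t P m * x * t P m)) ^ 8 = 1
    apply ker_pow hP
    obtain ⟨k, hk⟩ := Subgroup.mem_zpowers_iff.1 (right_mem P m x x.2)
    show (x : WW P m).right * ((rf m) * (x : WW P m).right * (rf m)) = 1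
    rw [← hk, rf_conj_zpow, mul_inv_cancel]

lemma isPGroup (hP : ∀ g : P, g ^ 8 = 1) : IsPGroup 2 (H P m) := by
  intro x
  refine ⟨m + 3, ?_⟩
  apply Subtype.ext
  show (x : WW P m) ^ (2 ^ (m + 3)) = 1
  rw [pow_add, pow_mul, show (2 : ℕ) ^ 3 = 8 from rfl]
  apply ker_pow hP
  obtain ⟨k, hk⟩ := Subgroup.mem_zpowers_iff.1 (right_mem P m x x.2)
  have h : ((x : WW P m) ^ (2 ^ m)).right = (x : WW P m).right ^ (2 ^ m) :=
    map_pow (SemidirectProduct.rightHom : WW P m →* _) _ _
  rw [h, ← hk, ← zpow_natCast, ← zpow_mul, mul_comm, zpow_mul, zpow_natCast, sh_order, one_zpow]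

lemma gen : ∃ x y : H P m, Subgroup.closure {x, y} = ⊤ := by
  have ha : a P m ∈ H P m := Subgroup.subset_closure (by simp)
  have hs : s P m ∈ H P m := Subgroup.subset_closure (by simp)
  refine ⟨⟨a P m, ha⟩, ⟨s P m, hs⟩, ?_⟩
  have h := Subgroup.closure_closure_coe_preimage (k := ({a P m, s P m} : Set (WW P m)))
  have h2 : ((↑) : H P m → WW P m) ⁻¹' {a P m, s P m} = {⟨a P m, ha⟩, ⟨s P m, hs⟩} := by
    ext x
    simp [Subtype.ext_iff]
  rw [← h2]
  exact h

lemma co_mem [NeZero (2 ^ m)] (i : Ix m) : (SemidirectProduct.inl (co P m i) : WW P m) ∈ H P m := by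
  have h := SemidirectProduct.inl_aut (φ := act P m) (sh m ^ i.val) (co P m 0)
  have h2 : (act P m) (sh m ^ i.val) (co P m 0) = co P m i := by
    funext f
    show f ((sh m ^ i.val) 0) = f i
    rw [sh_pow, zero_add, ZMod.natCast_zmod_val]
  rw [h2] at h
  rw [h, map_inv, map_pow]
  have ha : a P m ∈ H P m := Subgroup.subset_closure (by simp)
  have hs : s P m ∈ H P m := Subgroup.subset_closure (by simp)
  exact mul_mem (mul_mem (pow_mem hs _) ha) (inv_mem (pow_mem hs _))

/-- kernel of the projection to the permutations -/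
def KK (P : Type) [Group P] (m : ℕ) : Subgroup (H P m) :=
  ((SemidirectProduct.rightHom : WW P m →* _).comp (H P m).subtype).ker

/-- evaluation at a tuple -/
def ev (f : Ix m → P) : KK P m →* P where
  toFun x := (x : H P m).1.left f
  map_one' := rfl
  map_mul' x y := by
    have hx : (x : H P m).1.right = 1 := x.2
    show ((x : H P m).1 * (y : H P m).1).left f = _
    rw [SemidirectProduct.mul_left, hx, map_one]
    rfl

lemma ev_surj [NeZero (2 ^ m)] (f : Ix m → P) (hf : Function.Surjective f) :
    Function.Surjective (ev f) := by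
  intro g
  obtain ⟨i, rfl⟩ := hf g
  exact ⟨⟨⟨SemidirectProduct.inl (co P m i), co_mem i⟩, rfl⟩, rfl⟩

lemma derived_ne [NeZero (2 ^ m)] (f : Ix m → P) (hf : Function.Surjective f) (L : ℕ)
    (hL : derivedSeries P L ≠ ⊥) : derivedSeries (H P m) L ≠ ⊥ := by
  intro h
  have h1 : (derivedSeries (KK P m) L).map (KK P m).subtype ≤ derivedSeries (H P m) L :=
    map_derivedSeries_le_derivedSeries _ _
  rw [h, le_bot_iff, Subgroup.map_eq_bot_iff_of_injective _ (KK P m).subtype_injective] at h1
  have h2 := map_derivedSeries_eq (ev_surj f hf) L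
  rw [h1, Subgroup.map_bot] at h2
  exact hL h2.symm

end

/-- For `d = 2`, `p = 2`, `n = 4` the derived length is unbounded. -/
theorem main : ∀ L : ℕ, ∃ (G : Type) (_ : Group G), Finite G ∧ IsPGroup 2 G ∧
    Group.IsNilpotent G ∧ (∃ x y : G, Subgroup.closure {x, y} = ⊤) ∧
    (∃ φ : MulAut G, IsSplitting φ (2 ^ 4)) ∧ derivedSeries G L ≠ ⊥ := by
  intro L
  obtain ⟨P, hPg, hPf, hP8, hPL⟩ := Pool.Agent.Helper336.BddExp.exists_group L
  haveI := hPf
  classical
  haveI := Fintype.ofFinite P
  let m := Fintype.card P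
  haveI : NeZero (2 ^ m) := ⟨by positivity⟩
  have hcard : Fintype.card P ≤ Fintype.card (Ix m) := by
    rw [ZMod.card]
    exact Nat.lt_two_pow_self.le
  obtain ⟨e⟩ := Function.Embedding.nonempty_of_card_le hcard
  have hfin : Finite (H P m) := by
    haveI : Finite (WW P m) := Finite.of_injective (fun x : WW P m => (x.left, x.right)) (by
      intro x y hxy
      simp only [Prod.mk.injEq] at hxy
      exact SemidirectProduct.ext hxy.1 hxy.2)
    infer_instance
  have hp : IsPGroup 2 (H P m) := isPGroup hP8
  haveI : Fact (Nat.Prime 2) := ⟨Nat.prime_two⟩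
  exact ⟨H P m, inferInstance, hfin, hp, hp.isNilpotent, gen, ⟨ph P m, splitting hP8⟩,
    derived_ne (Function.invFun e) (Function.invFun_surjective e.injective) L hPL⟩

end Pool.Agent.Helper336.Splitting
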